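import Pool.Agent.Lib.MP_62a449_al.Five.Spec

/-!
The bits of the states of the checker.
-/

namespace Pool.Agent.MP_62a449_al.Five

theorem bit_bitT (st k : ℕ) : bitT st k = if st.testBit k = true then 1 else 0 := by
  have h1 : bitT st k = st / 2 ^ k % 2 := by
    show (st >>> k) % 2 = st / 2 ^ k % 2
    rw [Nat.shiftRight_eq_div_pow]
  rw [h1]
  split_ifs with h
  · rw [Nat.testBit_eq_decide_div_mod_eq, decide_eq_true_iff] at h
    exact h
  · rw [Nat.testBit_eq_decide_div_mod_eq, decide_eq_true_iff] at h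
    omega

theorem bit_row (st r c : ℕ) (hc : c < 5) :
    (row st r).testBit c = st.testBit (150 + (5 * r + c)) := by
  have h1 : row st r = (st >>> (150 + 5 * r)) % 2 ^ 5 := rfl
  rw [h1, Nat.testBit_mod_two_pow, Nat.testBit_shiftRight, add_assoc]
  simp [hc]

theorem bit_31 (c : ℕ) (hc : c < 5) : Nat.testBit 31 c = true := by
  interval_cases c <;> decide

theorem bit_pw (a c : ℕ) (h : c ≠ a) : (pw a).testBit c = false := by
  have h1 : pw a = 2 ^ a := rfl
  rw [h1]
  exact Nat.testBit_two_pow_of_ne (fun h2 => h h2.symm)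

theorem bit_full (st i : ℕ) (h : rowFull st i = true) (c : ℕ) (hc : c < 5) (h1 : c ≠ i / 5 % 5)
    (h2 : c ≠ i % 5) : st.testBit (150 + (5 * (i / 5) + c)) = true := by
  have h3 : row st (i / 5) ||| pw (i / 5 % 5) ||| pw (i % 5) = 31 := Nat.eq_of_beq_eq_true h
  have h4 := bit_31 c hc
  rw [← h3, Nat.testBit_or, Nat.testBit_or, bit_row st _ c hc, bit_pw _ _ h1, bit_pw _ _ h2,
    Bool.or_false, Bool.or_false] at h4
  exact h4

theorem bit_full2 (st i d : ℕ) (h : rowFull2 st i d = true) (c : ℕ) (hc : c < 5)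
    (h1 : c ≠ i / 5 % 5) (h2 : c ≠ i % 5) (h2' : c ≠ d) :
    st.testBit (150 + (5 * (i / 5) + c)) = true := by
  have h3 : row st (i / 5) ||| pw (i / 5 % 5) ||| pw (i % 5) ||| pw d = 31 :=
    Nat.eq_of_beq_eq_true h
  have h4 := bit_31 c hc
  rw [← h3, Nat.testBit_or, Nat.testBit_or, Nat.testBit_or, bit_row st _ c hc, bit_pw _ _ h1,
    bit_pw _ _ h2, bit_pw _ _ h2', Bool.or_false, Bool.or_false, Bool.or_false] at h4
  exact h4

theorem bit_empty (st r : ℕ) (h : rowEmpty st r = true) (c : ℕ) (hc : c < 5)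
    (h1 : c ≠ r % 5) : st.testBit (150 + (5 * r + c)) = true := by
  have h3 : row st r ||| pw (r % 5) = 31 := Nat.eq_of_beq_eq_true h
  have h4 := bit_31 c hc
  rw [← h3, Nat.testBit_or, bit_row st _ c hc, bit_pw _ _ h1, Bool.or_false] at h4
  exact h4

theorem bit_or {st a k : ℕ} (h : (st ||| 2 ^ a).testBit k = true) : st.testBit k = true ∨ k = a := by
  rw [Nat.testBit_or, Bool.or_eq_true] at h
  rcases h with h | h
  · exact Or.inl h
  · rw [Nat.testBit_two_pow, decide_eq_true_iff] at h
    exact Or.inr h.symm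

theorem bit_dlx (sf : Bool) (x : ℕ) (hx : x < 6) : dlx sf x < 6 := by
  cases sf <;> interval_cases x <;> decide

theorem bit_addM (hM : MemAStmt) (sf : Bool) (n el : ℕ → ℤ) (F : ℤ) (st i : ℕ)
    (hg : Good sf n el F) (hh : Holds n el st) (hi : i < 150) (hm : Mem n (MEMv n el i)) :
    Holds n el (addM sf st i) := by
  have hd : dli sf i = 25 * dlx sf (i / 25) + (5 * (i % 5) + i / 5 % 5) := rfl
  have hx : dlx sf (i / 25) < 6 := bit_dlx sf _ (by omega)
  have ha : addM sf st i = st ||| 2 ^ i ||| 2 ^ (150 + dli sf i) := rfl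
  have hn : ¬ Mem n (MEMv n el (dli sf i)) := by
    have h1 := hM.2.2.2.2 sf n el F hg (i / 25) (by omega) (i / 5 % 5) (by omega) (i % 5) (by omega)
      hm
    have h2 : MEMv n el (dli sf i) = el (dlx sf (i / 25)) + n (i % 5) - n (i / 5 % 5) := by
      unfold MEMv
      have e1 : dli sf i / 25 = dlx sf (i / 25) := by omega
      have e0 : dli sf i / 5 = 5 * dlx sf (i / 25) + i % 5 := by omega
      have e2 : dli sf i / 5 % 5 = i % 5 := by
        rw [e0]
        omega
      have e3 : dli sf i % 5 = i / 5 % 5 := by omega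
      rw [e1, e2, e3]
    rw [h2]
    exact h1
  rw [ha]
  generalize dli sf i = d at hd hn
  obtain ⟨h1, h2, h3, h4⟩ := hh
  refine ⟨fun k hk hb => ?_, fun k hk hb => ?_, fun k hk q hq hb => ?_, fun k hk q hq hb => ?_⟩
  · rcases bit_or hb with hb | hb
    · rcases bit_or hb with hb | hb
      · exact h1 k hk hb
      · rw [hb]
        exact hm
    · omega
  · rcases bit_or hb with hb | hb
    · rcases bit_or hb with hb | hb
      · exact h2 k hk hb
      · omega
    · have h5 : k = d := by omega
      rw [h5]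
      exact hn
  · rcases bit_or hb with hb | hb
    · rcases bit_or hb with hb | hb
      · exact h3 k hk q hq hb
      · omega
    · omega
  · rcases bit_or hb with hb | hb
    · rcases bit_or hb with hb | hb
      · exact h4 k hk q hq hb
      · omega
    · omega

theorem bit_addN (n el : ℕ → ℤ) (st i : ℕ) (hh : Holds n el st) (hi : i < 150)
    (hm : ¬ Mem n (MEMv n el i)) : Holds n el (addN st i) := by
  have ha : addN st i = st ||| 2 ^ (150 + i) := rfl
  rw [ha]
  obtain ⟨h1, h2, h3, h4⟩ := hh
  refine ⟨fun k hk hb => ?_, fun k hk hb => ?_, fun k hk q hq hb => ?_, fun k hk q hq hb => ?_⟩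
  · rcases bit_or hb with hb | hb
    · exact h1 k hk hb
    · omega
  · rcases bit_or hb with hb | hb
    · exact h2 k hk hb
    · have h5 : k = i := by omega
      rw [h5]
      exact hm
  · rcases bit_or hb with hb | hb
    · exact h3 k hk q hq hb
    · omega
  · rcases bit_or hb with hb | hb
    · exact h4 k hk q hq hb
    · omega

theorem bit_addX (n el : ℕ → ℤ) (st i q : ℕ) (hh : Holds n el st) (hi : i < 150) (hq : q < 5)
    (hm : Mem n (MEMv n el i - n q)) : Holds n el (addX st i q) := by
  have ha : addX st i q = st ||| 2 ^ (300 + (5 * i + q)) := rfl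
  rw [ha]
  obtain ⟨h1, h2, h3, h4⟩ := hh
  refine ⟨fun k hk hb => ?_, fun k hk hb => ?_, fun k hk r hr hb => ?_, fun k hk r hr hb => ?_⟩
  · rcases bit_or hb with hb | hb
    · exact h1 k hk hb
    · omega
  · rcases bit_or hb with hb | hb
    · exact h2 k hk hb
    · omega
  · rcases bit_or hb with hb | hb
    · exact h3 k hk r hr hb
    · have h5 : k = i := by omega
      have h6 : r = q := by omega
      rw [h5, h6]
      exact hm
  · rcases bit_or hb with hb | hb
    · exact h4 k hk r hr hb
    · omega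

theorem bit_addP (n el : ℕ → ℤ) (st i q : ℕ) (hh : Holds n el st) (hi : i < 150) (hq : q < 5)
    (hm : ¬ Mem n (MEMv n el i - n q)) : Holds n el (addP st i q) := by
  have ha : addP st i q = st ||| 2 ^ (1050 + (5 * i + q)) |||
    2 ^ (1050 + (5 * (5 * (i / 5) + q) + i % 5)) := rfl
  rw [ha]
  obtain ⟨h1, h2, h3, h4⟩ := hh
  refine ⟨fun k hk hb => ?_, fun k hk hb => ?_, fun k hk r hr hb => ?_, fun k hk r hr hb => ?_⟩
  · rcases bit_or hb with hb | hb
    · rcases bit_or hb with hb | hb
      · exact h1 k hk hb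
      · omega
    · omega
  · rcases bit_or hb with hb | hb
    · rcases bit_or hb with hb | hb
      · exact h2 k hk hb
      · omega
    · omega
  · rcases bit_or hb with hb | hb
    · rcases bit_or hb with hb | hb
      · exact h3 k hk r hr hb
      · omega
    · omega
  · rcases bit_or hb with hb | hb
    · rcases bit_or hb with hb | hb
      · exact h4 k hk r hr hb
      · have h5 : k = i := by omega
        have h6 : r = q := by omega
        rw [h5, h6]
        exact hm
    · have h5 : k = 5 * (i / 5) + q := by omega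
      have h6 : r = i % 5 := by omega
      rw [h5, h6]
      have h7 : MEMv n el (5 * (i / 5) + q) - n (i % 5) = MEMv n el i - n q := by
        unfold MEMv
        have e1 : (5 * (i / 5) + q) / 25 = i / 25 := by omega
        have e2 : (5 * (i / 5) + q) / 5 % 5 = i / 5 % 5 := by omega
        have e3 : (5 * (i / 5) + q) % 5 = q := by omega
        rw [e1, e2, e3]
        ring
      rw [h7]
      exact hm

theorem bit_and {st L k : ℕ} (h : Nat.land st L = L) (hb : L.testBit k = true) :
    st.testBit k = true := by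
  have h1 : st &&& L = L := h
  rw [← h1, Nat.testBit_and, Bool.and_eq_true] at hb
  exact hb.1

theorem bit (hM : MemAStmt) : BitStmt := by
  refine ⟨bit_bitT, fun st i _ h c hc h1 h2 => bit_full st i h c hc h1 h2,
    fun st i d _ h c hc h1 h2 h3 => bit_full2 st i d h c hc h1 h2 h3,
    fun st r _ h c hc h1 => bit_empty st r h c hc h1,
    bit_addM hM, bit_addN, bit_addX, bit_addP, ?_⟩
  rintro n el st L ⟨h1, h2, h3, h4⟩ h
  exact ⟨fun k hk hb => h1 k hk (bit_and h hb), fun k hk hb => h2 k hk (bit_and h hb),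
    fun k hk q hq hb => h3 k hk q hq (bit_and h hb), fun k hk q hq hb => h4 k hk q hq (bit_and h hb)⟩

end Pool.Agent.MP_62a449_al.Five
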