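import Pool.Agent.Lib.MP_62a449_al.Five.Spec

/-!
Every legal fact code represents a value outside the semigroup.
-/

namespace Pool.Agent.MP_62a449_al.Five

open Finset

/-- the form with constants `u j` and degree digits `d q` -/
def fct_G (u d : ℕ → ℤ) (p : ℕ) : ℤ :=
  (if p = 0 then u 0 else 0) + (if p = 48 then u 1 else 0) + (if p = 96 then u 2 else 0)
    + (if p = 144 then u 3 else 0) + (if p = 192 then u 4 else 0)
    + (if p = 240 then d 0 else 0) + (if p = 241 then d 1 else 0) + (if p = 242 then d 2 else 0)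
    + (if p = 243 then d 3 else 0)

theorem fct_G_const (u d : ℕ → ℤ) (j : ℕ) (hj : j < 5) : fct_G u d (48 * j) = u j := by
  unfold fct_G
  interval_cases j <;> simp

theorem fct_G_deg (u d : ℕ → ℤ) (q : ℕ) (hq : q < 4) : fct_G u d (240 + q) = d q := by
  unfold fct_G
  interval_cases q <;> simp

theorem fct_G_var (u d : ℕ → ℤ) (j i : ℕ) (hj : j < 5) (hi : i < 47) :
    fct_G u d (48 * j + (i + 1)) = 0 := by
  unfold fct_G
  rw [if_neg (by omega), if_neg (by omega), if_neg (by omega), if_neg (by omega), if_neg (by omega),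
    if_neg (by omega), if_neg (by omega), if_neg (by omega), if_neg (by omega)]
  simp

theorem fct_G_bound (u d : ℕ → ℤ) (c : ℤ) (h0 : 0 ≤ c) (hu : ∀ j, |u j| ≤ c) (hd : ∀ q, |d q| ≤ c)
    (p : ℕ) : |fct_G u d p| ≤ c := by
  by_cases h1 : p < 240
  · by_cases h2 : p % 48 = 0
    · have h3 : p = 48 * (p / 48) := by omega
      rw [h3, fct_G_const u d _ (by omega)]
      exact hu _
    · have h3 : p = 48 * (p / 48) + ((p % 48 - 1) + 1) := by omega
      rw [h3, fct_G_var u d _ _ (by omega) (by omega)]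
      simpa using h0
  · by_cases h2 : p < 244
    · have h3 : p = 240 + (p - 240) := by omega
      rw [h3, fct_G_deg u d _ (by omega)]
      exact hd _
    · unfold fct_G
      rw [if_neg (by omega), if_neg (by omega), if_neg (by omega), if_neg (by omega),
        if_neg (by omega), if_neg (by omega), if_neg (by omega), if_neg (by omega),
        if_neg (by omega)]
      simpa using h0

theorem fct_G_enc (hA : NumAStmt) (u d : ℕ → ℤ) :
    encZ (fct_G u d) = ∑ j ∈ range 5, u j * ((E j : ℕ) : ℤ) + ∑ q ∈ range 4, d q * ((D q : ℕ) : ℤ) := by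
  obtain ⟨-, -, hE, hD, hadd, -, hsing, -⟩ := hA
  have s0 := hsing 0 (by norm_num) (u 0)
  have s1 := hsing 48 (by norm_num) (u 1)
  have s2 := hsing 96 (by norm_num) (u 2)
  have s3 := hsing 144 (by norm_num) (u 3)
  have s4 := hsing 192 (by norm_num) (u 4)
  have s5 := hsing 240 (by norm_num) (d 0)
  have s6 := hsing 241 (by norm_num) (d 1)
  have s7 := hsing 242 (by norm_num) (d 2)
  have s8 := hsing 243 (by norm_num) (d 3)
  have e : encZ (fct_G u d) = encZ (fun p => if p = 0 then u 0 else 0)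
      + encZ (fun p => if p = 48 then u 1 else 0) + encZ (fun p => if p = 96 then u 2 else 0)
      + encZ (fun p => if p = 144 then u 3 else 0) + encZ (fun p => if p = 192 then u 4 else 0)
      + encZ (fun p => if p = 240 then d 0 else 0) + encZ (fun p => if p = 241 then d 1 else 0)
      + encZ (fun p => if p = 242 then d 2 else 0) + encZ (fun p => if p = 243 then d 3 else 0) := by
    rw [← hadd, ← hadd, ← hadd, ← hadd, ← hadd, ← hadd, ← hadd, ← hadd]
    rfl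
  rw [e, s0, s1, s2, s3, s4, s5, s6, s7, s8]
  have c0 : ((E 0 : ℕ) : ℤ) = 65536 ^ 0 := by rw [hE 0, Nat.cast_pow]; rfl
  have c1 : ((E 1 : ℕ) : ℤ) = 65536 ^ 48 := by rw [hE 1, Nat.cast_pow]; rfl
  have c2 : ((E 2 : ℕ) : ℤ) = 65536 ^ 96 := by rw [hE 2, Nat.cast_pow]; rfl
  have c3 : ((E 3 : ℕ) : ℤ) = 65536 ^ 144 := by rw [hE 3, Nat.cast_pow]; rfl
  have c4 : ((E 4 : ℕ) : ℤ) = 65536 ^ 192 := by rw [hE 4, Nat.cast_pow]; rfl
  have c5 : ((D 0 : ℕ) : ℤ) = 65536 ^ 240 := by rw [hD 0, Nat.cast_pow]; rfl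
  have c6 : ((D 1 : ℕ) : ℤ) = 65536 ^ 241 := by rw [hD 1, Nat.cast_pow]; rfl
  have c7 : ((D 2 : ℕ) : ℤ) = 65536 ^ 242 := by rw [hD 2, Nat.cast_pow]; rfl
  have c8 : ((D 3 : ℕ) : ℤ) = 65536 ^ 243 := by rw [hD 3, Nat.cast_pow]; rfl
  rw [← c0, ← c1, ← c2, ← c3, ← c4, ← c5, ← c6, ← c7, ← c8]
  simp only [Finset.sum_range_succ, Finset.sum_range_zero]
  ring

theorem fct_G_lin (n v : ℕ → ℤ) (Y : ℕ → ℕ → ℤ) (u d : ℕ → ℤ) :
    lin n v Y (fct_G u d) = ∑ j ∈ range 5, u j * n j - ∑ q ∈ range 4, d q * v q := by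
  unfold lin
  congr 1
  · refine Finset.sum_congr rfl (fun j hj => ?_)
    have hj5 := Finset.mem_range.1 hj
    have : cval Y (fct_G u d) j = u j := by
      unfold cval
      rw [fct_G_const u d j hj5, Finset.sum_eq_zero, add_zero]
      intro i hi
      rw [fct_G_var u d j i hj5 (Finset.mem_range.1 hi), zero_mul]
    rw [this]
  · refine Finset.sum_congr rfl (fun q hq => ?_)
    rw [fct_G_deg u d q (Finset.mem_range.1 hq)]

/-- nonnegativity of the integer value of a form -/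
theorem fct_nonneg (hA : NumAStmt) (u d : ℕ → ℤ) (hu : ∀ j, |u j| ≤ 4) (hd : ∀ q, |d q| ≤ 4) :
    0 ≤ ((OFF : ℕ) : ℤ) + ∑ j ∈ range 5, u j * ((E j : ℕ) : ℤ) + ∑ q ∈ range 4, d q * ((D q : ℕ) : ℤ) := by
  have h1 := hA.2.2.2.2.2.2.2.1 (fct_G u d) (fun p _ =>
    le_trans (fct_G_bound u d 4 (by norm_num) hu hd p) (by norm_num))
  rw [fct_G_enc hA, ← hA.1] at h1
  linarith

/-- the criterion -/
theorem fct_main (hA : NumAStmt) (n v : ℕ → ℤ) (Y : ℕ → ℕ → ℤ) (u d : ℕ → ℤ) (X : ℕ)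
    (hu : ∀ j, |u j| ≤ 4) (hd : ∀ q, |d q| ≤ 4)
    (hX : (X : ℤ) = ((OFF : ℕ) : ℤ) + ∑ j ∈ range 5, u j * ((E j : ℕ) : ℤ)
      + ∑ q ∈ range 4, d q * ((D q : ℕ) : ℤ))
    (hm : ¬ Mem n (∑ j ∈ range 5, u j * n j - ∑ q ∈ range 4, d q * v q)) : FOk n v Y X := by
  refine ⟨fct_G u d, ?_, ?_⟩
  · rw [hA.2.2.2.2.2.2.2.2.1]
    refine ⟨?_, fun p _ => fct_G_bound u d 4 (by norm_num) hu hd p⟩
    rw [fct_G_enc hA, ← hA.1, hX]
    ring
  · rw [fct_G_lin]
    exact hm

/-- four degree digits -/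
def fct_v (a b c e : ℤ) (q : ℕ) : ℤ :=
  if q = 0 then a else if q = 1 then b else if q = 2 then c else if q = 3 then e else 0

theorem fct_v_bound (a b c e m : ℤ) (h0 : 0 ≤ m) (ha : |a| ≤ m) (hb : |b| ≤ m) (hc : |c| ≤ m)
    (he : |e| ≤ m) (q : ℕ) : |fct_v a b c e q| ≤ m := by
  unfold fct_v
  split_ifs
  · exact ha
  · exact hb
  · exact hc
  · exact he
  · simpa using h0

theorem fct_v_sum (a b c e : ℤ) (w : ℕ → ℤ) :
    ∑ q ∈ range 4, fct_v a b c e q * w q = a * w 0 + b * w 1 + c * w 2 + e * w 3 := by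
  simp only [Finset.sum_range_succ, Finset.sum_range_zero, fct_v]
  simp

/-- value of a table entry -/
def fct_val (el : ℕ → ℤ) (F : ℤ) (i : ℕ) : ℤ :=
  if i < 6 then el i else if i = 7 then F else - el (i - 8)

theorem fct_mk (sf : Bool) (el : ℕ → ℤ) (F : ℤ) (i X : ℕ) (a b c e : ℤ)
    (ha : |a| ≤ 2) (hb : |b| ≤ 2) (hc : |c| ≤ 2) (he : |e| ≤ 2)
    (hX : (X : ℤ) = ((OFF : ℕ) : ℤ) + (a * ((D 0 : ℕ) : ℤ) + b * ((D 1 : ℕ) : ℤ)
      + c * ((D 2 : ℕ) : ℤ) + e * ((D 3 : ℕ) : ℤ)))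
    (hv : - (a * env sf el F 0 + b * env sf el F 1 + c * env sf el F 2 + e * env sf el F 3)
      = fct_val el F i) :
    ∃ d : ℕ → ℤ, (∀ q, |d q| ≤ 2) ∧
      (X : ℤ) = ((OFF : ℕ) : ℤ) + ∑ q ∈ range 4, d q * ((D q : ℕ) : ℤ) ∧
      - ∑ q ∈ range 4, d q * env sf el F q = fct_val el F i := by
  refine ⟨fct_v a b c e, fct_v_bound a b c e 2 (by norm_num) ha hb hc he, ?_, ?_⟩
  · rw [fct_v_sum a b c e (fun q => ((D q : ℕ) : ℤ))]
    exact hX
  · rw [fct_v_sum a b c e (fun q => env sf el F q)]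
    exact hv

theorem fct_D (hA : NumAStmt) (q : ℕ) (hq : q < 4) : 4 * D q ≤ OFF := by
  have h := fct_nonneg hA (fun _ => 0) (fun r => if r = q then -4 else 0) (by simp)
    (fun r => by
      show |(if r = q then (-4 : ℤ) else 0)| ≤ 4
      split_ifs <;> norm_num)
  simp only [zero_mul, Finset.sum_const_zero, add_zero, ite_mul, zero_mul, Finset.sum_ite_eq',
    Finset.mem_range, hq, if_true] at h
  have : (4 : ℤ) * ((D q : ℕ) : ℤ) ≤ ((OFF : ℕ) : ℤ) := by linarith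
  exact_mod_cast this

theorem fct_dxF (hA : NumAStmt) (hD : NumDStmt) (n el : ℕ → ℤ) (F : ℤ)
    (hG : Good false n el F) (i : ℕ) (hi : i < 14) (h6 : i ≠ 6) :
    ∃ d : ℕ → ℤ, (∀ q, |d q| ≤ 2) ∧
      ((getT (dxT false) i : ℕ) : ℤ) = ((OFF : ℕ) : ℤ) + ∑ q ∈ range 4, d q * ((D q : ℕ) : ℤ) ∧
      - ∑ q ∈ range 4, d q * env false el F q = fct_val el F i := by
  rw [hD.2.2.2.2.1 false i hi]
  have d0 := fct_D hA 0 (by norm_num)
  have d1 := fct_D hA 1 (by norm_num)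
  have d2 := fct_D hA 2 (by norm_num)
  have d3 := fct_D hA 3 (by norm_num)
  have e1 : el 1 = F - el 0 := hG.el_dual 0 (by norm_num)
  have e3 : el 3 = F - el 2 := hG.el_dual 2 (by norm_num)
  have e5 : el 5 = F - el 4 := hG.el_dual 4 (by norm_num)
  have v0 : env false el F 0 = F := rfl
  have v1 : env false el F 1 = el 0 := rfl
  have v2 : env false el F 2 = el 2 := rfl
  have v3 : env false el F 3 = el 4 := rfl
  interval_cases i
  · refine fct_mk false el F _ _ 0 (-1) 0 0 (by norm_num) (by norm_num) (by norm_num) (by norm_num) ?_ ?_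
    · show ((OFF - D 1 : ℕ) : ℤ) = _
      omega
    · rw [v0, v1, v2, v3]; show _ = el 0; ring
  · refine fct_mk false el F _ _ (-1) 1 0 0 (by norm_num) (by norm_num) (by norm_num) (by norm_num) ?_ ?_
    · show ((OFF + D 1 - D 0 : ℕ) : ℤ) = _
      omega
    · rw [v0, v1, v2, v3]; show _ = el 1; linarith
  · refine fct_mk false el F _ _ 0 0 (-1) 0 (by norm_num) (by norm_num) (by norm_num) (by norm_num) ?_ ?_
    · show ((OFF - D 2 : ℕ) : ℤ) = _
      omega
    · rw [v0, v1, v2, v3]; show _ = el 2; ring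
  · refine fct_mk false el F _ _ (-1) 0 1 0 (by norm_num) (by norm_num) (by norm_num) (by norm_num) ?_ ?_
    · show ((OFF + D 2 - D 0 : ℕ) : ℤ) = _
      omega
    · rw [v0, v1, v2, v3]; show _ = el 3; linarith
  · refine fct_mk false el F _ _ 0 0 0 (-1) (by norm_num) (by norm_num) (by norm_num) (by norm_num) ?_ ?_
    · show ((OFF - D 3 : ℕ) : ℤ) = _
      omega
    · rw [v0, v1, v2, v3]; show _ = el 4; ring
  · refine fct_mk false el F _ _ (-1) 0 0 1 (by norm_num) (by norm_num) (by norm_num) (by norm_num) ?_ ?_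
    · show ((OFF + D 3 - D 0 : ℕ) : ℤ) = _
      omega
    · rw [v0, v1, v2, v3]; show _ = el 5; linarith
  · exact absurd rfl h6
  · refine fct_mk false el F _ _ (-1) 0 0 0 (by norm_num) (by norm_num) (by norm_num) (by norm_num) ?_ ?_
    · show ((OFF - D 0 : ℕ) : ℤ) = _
      omega
    · rw [v0, v1, v2, v3]; show _ = F; ring
  · refine fct_mk false el F _ _ 0 1 0 0 (by norm_num) (by norm_num) (by norm_num) (by norm_num) ?_ ?_
    · show ((OFF + D 1 : ℕ) : ℤ) = _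
      omega
    · rw [v0, v1, v2, v3]; show _ = - el 0; ring
  · refine fct_mk false el F _ _ 1 (-1) 0 0 (by norm_num) (by norm_num) (by norm_num) (by norm_num) ?_ ?_
    · show ((OFF + D 0 - D 1 : ℕ) : ℤ) = _
      omega
    · rw [v0, v1, v2, v3]; show _ = - el 1; linarith
  · refine fct_mk false el F _ _ 0 0 1 0 (by norm_num) (by norm_num) (by norm_num) (by norm_num) ?_ ?_
    · show ((OFF + D 2 : ℕ) : ℤ) = _
      omega
    · rw [v0, v1, v2, v3]; show _ = - el 2; ring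
  · refine fct_mk false el F _ _ 1 0 (-1) 0 (by norm_num) (by norm_num) (by norm_num) (by norm_num) ?_ ?_
    · show ((OFF + D 0 - D 2 : ℕ) : ℤ) = _
      omega
    · rw [v0, v1, v2, v3]; show _ = - el 3; linarith
  · refine fct_mk false el F _ _ 0 0 0 1 (by norm_num) (by norm_num) (by norm_num) (by norm_num) ?_ ?_
    · show ((OFF + D 3 : ℕ) : ℤ) = _
      omega
    · rw [v0, v1, v2, v3]; show _ = - el 4; ring
  · refine fct_mk false el F _ _ 1 0 0 (-1) (by norm_num) (by norm_num) (by norm_num) (by norm_num) ?_ ?_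
    · show ((OFF + D 0 - D 3 : ℕ) : ℤ) = _
      omega
    · rw [v0, v1, v2, v3]; show _ = - el 5; linarith

theorem fct_dxT (hA : NumAStmt) (hD : NumDStmt) (n el : ℕ → ℤ) (F : ℤ)
    (hG : Good true n el F) (i : ℕ) (hi : i < 14) (h6 : i ≠ 6) :
    ∃ d : ℕ → ℤ, (∀ q, |d q| ≤ 2) ∧
      ((getT (dxT true) i : ℕ) : ℤ) = ((OFF : ℕ) : ℤ) + ∑ q ∈ range 4, d q * ((D q : ℕ) : ℤ) ∧
      - ∑ q ∈ range 4, d q * env true el F q = fct_val el F i := by
  rw [hD.2.2.2.2.1 true i hi]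
  have d0 := fct_D hA 0 (by norm_num)
  have d1 := fct_D hA 1 (by norm_num)
  have d2 := fct_D hA 2 (by norm_num)
  have d3 := fct_D hA 3 (by norm_num)
  have e0 : el 0 = F - el 0 := hG.el_dual 0 (by norm_num)
  have e1 : el 1 = el 0 := hG.self_eq rfl
  have e3 : el 3 = F - el 2 := hG.el_dual 2 (by norm_num)
  have e5 : el 5 = F - el 4 := hG.el_dual 4 (by norm_num)
  have v0 : env true el F 0 = el 0 := rfl
  have v1 : env true el F 1 = el 2 := rfl
  have v2 : env true el F 2 = el 4 := rfl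
  have v3 : env true el F 3 = 0 := rfl
  interval_cases i
  · refine fct_mk true el F _ _ (-1) 0 0 0 (by norm_num) (by norm_num) (by norm_num) (by norm_num) ?_ ?_
    · show ((OFF - D 0 : ℕ) : ℤ) = _
      omega
    · rw [v0, v1, v2, v3]; show _ = el 0; ring
  · refine fct_mk true el F _ _ (-1) 0 0 0 (by norm_num) (by norm_num) (by norm_num) (by norm_num) ?_ ?_
    · show ((OFF - D 0 : ℕ) : ℤ) = _
      omega
    · rw [v0, v1, v2, v3]; show _ = el 1; linarith
  · refine fct_mk true el F _ _ 0 (-1) 0 0 (by norm_num) (by norm_num) (by norm_num) (by norm_num) ?_ ?_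
    · show ((OFF - D 1 : ℕ) : ℤ) = _
      omega
    · rw [v0, v1, v2, v3]; show _ = el 2; ring
  · refine fct_mk true el F _ _ (-2) 1 0 0 (by norm_num) (by norm_num) (by norm_num) (by norm_num) ?_ ?_
    · show ((OFF + D 1 - 2 * D 0 : ℕ) : ℤ) = _
      omega
    · rw [v0, v1, v2, v3]; show _ = el 3; linarith
  · refine fct_mk true el F _ _ 0 0 (-1) 0 (by norm_num) (by norm_num) (by norm_num) (by norm_num) ?_ ?_
    · show ((OFF - D 2 : ℕ) : ℤ) = _
      omega
    · rw [v0, v1, v2, v3]; show _ = el 4; ring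
  · refine fct_mk true el F _ _ (-2) 0 1 0 (by norm_num) (by norm_num) (by norm_num) (by norm_num) ?_ ?_
    · show ((OFF + D 2 - 2 * D 0 : ℕ) : ℤ) = _
      omega
    · rw [v0, v1, v2, v3]; show _ = el 5; linarith
  · exact absurd rfl h6
  · refine fct_mk true el F _ _ (-2) 0 0 0 (by norm_num) (by norm_num) (by norm_num) (by norm_num) ?_ ?_
    · show ((OFF - 2 * D 0 : ℕ) : ℤ) = _
      omega
    · rw [v0, v1, v2, v3]; show _ = F; linarith
  · refine fct_mk true el F _ _ 1 0 0 0 (by norm_num) (by norm_num) (by norm_num) (by norm_num) ?_ ?_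
    · show ((OFF + D 0 : ℕ) : ℤ) = _
      omega
    · rw [v0, v1, v2, v3]; show _ = - el 0; ring
  · refine fct_mk true el F _ _ 1 0 0 0 (by norm_num) (by norm_num) (by norm_num) (by norm_num) ?_ ?_
    · show ((OFF + D 0 : ℕ) : ℤ) = _
      omega
    · rw [v0, v1, v2, v3]; show _ = - el 1; linarith
  · refine fct_mk true el F _ _ 0 1 0 0 (by norm_num) (by norm_num) (by norm_num) (by norm_num) ?_ ?_
    · show ((OFF + D 1 : ℕ) : ℤ) = _
      omega
    · rw [v0, v1, v2, v3]; show _ = - el 2; ring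
  · refine fct_mk true el F _ _ 2 (-1) 0 0 (by norm_num) (by norm_num) (by norm_num) (by norm_num) ?_ ?_
    · show ((OFF + 2 * D 0 - D 1 : ℕ) : ℤ) = _
      omega
    · rw [v0, v1, v2, v3]; show _ = - el 3; linarith
  · refine fct_mk true el F _ _ 0 0 1 0 (by norm_num) (by norm_num) (by norm_num) (by norm_num) ?_ ?_
    · show ((OFF + D 2 : ℕ) : ℤ) = _
      omega
    · rw [v0, v1, v2, v3]; show _ = - el 4; ring
  · refine fct_mk true el F _ _ 2 0 (-1) 0 (by norm_num) (by norm_num) (by norm_num) (by norm_num) ?_ ?_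
    · show ((OFF + 2 * D 0 - D 2 : ℕ) : ℤ) = _
      omega
    · rw [v0, v1, v2, v3]; show _ = - el 5; linarith

theorem fct_dx (hA : NumAStmt) (hD : NumDStmt) (sf : Bool) (n el : ℕ → ℤ) (F : ℤ)
    (hG : Good sf n el F) (i : ℕ) (hi : i < 14) (h6 : i ≠ 6) :
    ∃ d : ℕ → ℤ, (∀ q, |d q| ≤ 2) ∧
      ((getT (dxT sf) i : ℕ) : ℤ) = ((OFF : ℕ) : ℤ) + ∑ q ∈ range 4, d q * ((D q : ℕ) : ℤ) ∧
      - ∑ q ∈ range 4, d q * env sf el F q = fct_val el F i := by
  cases sf
  · exact fct_dxF hA hD n el F hG i hi h6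
  · exact fct_dxT hA hD n el F hG i hi h6

/-! ### Constants -/

/-- unit vector -/
def fct_e (a j : ℕ) : ℤ := if j = a then 1 else 0

theorem fct_e_sum (a : ℕ) (ha : a < 5) (w : ℕ → ℤ) : ∑ j ∈ range 5, fct_e a j * w j = w a := by
  unfold fct_e
  simp only [ite_mul, one_mul, zero_mul, Finset.sum_ite_eq', Finset.mem_range, ha, if_true]

theorem fct_e_bound (a j : ℕ) : |fct_e a j| ≤ 1 := by
  unfold fct_e
  split_ifs <;> norm_num

theorem fct_bit (st k : ℕ) (h : bitT st k ≠ 0) : bitT st k = 1 ∧ st.testBit k = true := by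
  have h1 : bitT st k = st / 2 ^ k % 2 := by
    show (st >>> k) % 2 = _
    rw [Nat.shiftRight_eq_div_pow]
  have h2 : st / 2 ^ k % 2 = 1 := by
    have := Nat.mod_two_eq_zero_or_one (st / 2 ^ k)
    rw [h1] at h
    omega
  refine ⟨h1.trans h2, ?_⟩
  rw [Nat.testBit_eq_decide_div_mod_eq, h2]
  rfl

/-- two constants and a table entry -/
theorem fct_two (hA : NumAStmt) (n v : ℕ → ℤ) (Y : ℕ → ℕ → ℤ) (d : ℕ → ℤ) (G a b : ℕ)
    (hd : ∀ q, |d q| ≤ 2) (ha : a < 5) (hb : b < 5)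
    (hGt : (G : ℤ) = ((OFF : ℕ) : ℤ) + ∑ q ∈ range 4, d q * ((D q : ℕ) : ℤ))
    (hm : ¬ Mem n (n a - n b + - ∑ q ∈ range 4, d q * v q)) :
    FOk n v Y (G + E a - E b) ∧
      (((G + E a - E b : ℕ)) : ℤ) = ((OFF : ℕ) : ℤ) + (((E a : ℕ) : ℤ) - ((E b : ℕ) : ℤ))
        + ∑ q ∈ range 4, d q * ((D q : ℕ) : ℤ) := by
  have hs : ∀ w : ℕ → ℤ, ∑ j ∈ range 5, (fct_e a j - fct_e b j) * w j = w a - w b := by
    intro w
    simp only [sub_mul, Finset.sum_sub_distrib]
    rw [fct_e_sum a ha, fct_e_sum b hb]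
  have hu : ∀ j, |fct_e a j - fct_e b j| ≤ 4 := fun j =>
    le_trans (abs_sub _ _) (by have := fct_e_bound a j; have := fct_e_bound b j; linarith)
  have hd4 : ∀ q, |d q| ≤ 4 := fun q => le_trans (hd q) (by norm_num)
  have hnn := fct_nonneg hA (fun j => fct_e a j - fct_e b j) d hu hd4
  have hs1 : ∑ j ∈ range 5, (fct_e a j - fct_e b j) * ((E j : ℕ) : ℤ)
      = ((E a : ℕ) : ℤ) - ((E b : ℕ) : ℤ) := hs (fun j => ((E j : ℕ) : ℤ))
  rw [hs1] at hnn
  have hX : (((G + E a - E b : ℕ)) : ℤ) = ((OFF : ℕ) : ℤ) + (((E a : ℕ) : ℤ) - ((E b : ℕ) : ℤ))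
        + ∑ q ∈ range 4, d q * ((D q : ℕ) : ℤ) := by
    generalize ∑ q ∈ range 4, d q * ((D q : ℕ) : ℤ) = S at *
    omega
  refine ⟨?_, hX⟩
  refine fct_main hA n v Y (fun j => fct_e a j - fct_e b j) d _ hu hd4 ?_ ?_
  · rw [hX, hs1]
  · rw [hs n]
    rw [sub_eq_add_neg]
    exact hm

theorem fct_zero (hA : NumAStmt) (hD : NumDStmt) (sf : Bool) (n el : ℕ → ℤ) (F : ℤ) (Y : ℕ → ℕ → ℤ)
    (st r : ℕ) (hG : Good sf n el F) (hH : Holds n el st) (h : fact0 (dxT sf) st r ≠ 0) :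
    FOk n (env sf el F) Y (fact0 (dxT sf) st r) := by
  rcases hb : Nat.ble r 149 with _ | _
  · exfalso; apply h; unfold fact0; rw [hb]; rfl
  have hr : r ≤ 149 := Nat.le_of_ble_eq_true hb
  have h1 : fact0 (dxT sf) st r
      = bitT st (150 + r) * (getT (dxT sf) (r / 25) + E (r / 5 % 5) - E (r % 5)) := by
    unfold fact0; rw [hb]; generalize dxT sf = dx; rfl
  rw [h1] at h ⊢
  have hbit := fct_bit st (150 + r) (fun h0 => h (by rw [h0, zero_mul]))
  rw [hbit.1, one_mul]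
  obtain ⟨d, hd, hd1, hd2⟩ := fct_dx hA hD sf n el F hG (r / 25) (by omega) (by omega)
  refine (fct_two hA n (env sf el F) Y d _ (r / 5 % 5) (r % 5) hd (Nat.mod_lt _ (by norm_num))
    (Nat.mod_lt _ (by norm_num)) hd1 ?_).1
  rw [hd2]
  have h2 := hH.2.1 r (by omega) hbit.2
  unfold MEMv at h2
  unfold fct_val
  rw [if_pos (by omega)]
  rwa [show n (r / 5 % 5) - n (r % 5) + el (r / 25) = el (r / 25) + n (r / 5 % 5) - n (r % 5) by ring]

theorem fct_triv (O : ℕ) : (O : ℤ) = (O : ℤ) + ∑ q ∈ range 4, (0 : ℤ) * ((D q : ℕ) : ℤ) := by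
  simp

theorem fct_one (hA : NumAStmt) (sf : Bool) (n el : ℕ → ℤ) (F : ℤ) (Y : ℕ → ℕ → ℤ)
    (r b : ℕ) (hG : Good sf n el F) (h : fact1 r b ≠ 0) :
    FOk n (env sf el F) Y (fact1 r b) := by
  rcases h1 : Nat.beq r b with _ | _
  swap
  · exfalso; apply h; unfold fact1; rw [h1]; rfl
  rcases h2 : Nat.ble r 4 with _ | _
  · exfalso; apply h; unfold fact1; rw [h1, h2]; rfl
  rcases h3 : Nat.ble b 4 with _ | _
  · exfalso; apply h; unfold fact1; rw [h1, h2, h3]; rfl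
  have hr : r ≤ 4 := Nat.le_of_ble_eq_true h2
  have hb : b ≤ 4 := Nat.le_of_ble_eq_true h3
  have hne : r ≠ b := by
    intro h0
    rw [h0, Nat.beq_refl] at h1
    exact absurd h1 (by decide)
  have e : fact1 r b = OFF + E r - E b := by
    unfold fact1; rw [h1, h2, h3]; generalize OFF = O; rfl
  rw [e]
  refine (fct_two hA n (env sf el F) Y (fun _ => 0) OFF r b (by simp) (by omega) (by omega)
    (fct_triv OFF) ?_).1
  simp only [zero_mul, Finset.sum_const_zero, neg_zero, add_zero]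
  exact hG.gen r (by omega) b (by omega) hne

theorem fct_deg (hA : NumAStmt) (n v : ℕ → ℤ) (Y : ℕ → ℕ → ℤ) (d : ℕ → ℤ) (X : ℕ)
    (hd : ∀ q, |d q| ≤ 4)
    (hX : (X : ℤ) = ((OFF : ℕ) : ℤ) + ∑ q ∈ range 4, d q * ((D q : ℕ) : ℤ))
    (hm : ¬ Mem n (- ∑ q ∈ range 4, d q * v q)) : FOk n v Y X := by
  refine fct_main hA n v Y (fun _ => 0) d X (by simp) hd ?_ ?_
  · simp only [zero_mul, Finset.sum_const_zero, add_zero]
    exact hX
  · simp only [zero_mul, Finset.sum_const_zero, zero_sub]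
    exact hm

theorem fct_twoF (hA : NumAStmt) (hD : NumDStmt) (sf : Bool) (n el : ℕ → ℤ) (F : ℤ) (Y : ℕ → ℕ → ℤ)
    (r : ℕ) (hG : Good sf n el F) (h : fact2 (dxT sf) r ≠ 0) :
    FOk n (env sf el F) Y (fact2 (dxT sf) r) := by
  rcases h1 : Nat.beq r 6 with _ | _
  swap
  · exfalso; apply h; unfold fact2; rw [h1]; rfl
  rcases h2 : Nat.ble r 7 with _ | _
  · exfalso; apply h; unfold fact2; rw [h1, h2]; rfl
  have hr : r ≤ 7 := Nat.le_of_ble_eq_true h2
  have hne : r ≠ 6 := by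
    intro h0
    rw [h0] at h1
    exact absurd h1 (by decide)
  have e : fact2 (dxT sf) r = getT (dxT sf) r := by
    unfold fact2; rw [h1, h2]; generalize dxT sf = dx; rfl
  rw [e]
  obtain ⟨d, hd, hd1, hd2⟩ := fct_dx hA hD sf n el F hG r (by omega) hne
  refine fct_deg hA n (env sf el F) Y d _ (fun q => le_trans (hd q) (by norm_num)) hd1 ?_
  rw [hd2]
  unfold fct_val
  by_cases h6 : r < 6
  · rw [if_pos h6]; exact hG.el_not r h6
  · rw [if_neg h6, if_pos (by omega)]; exact hG.F_not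

theorem fct_c3 (dx r b O : ℕ) :
    (cond false (nat_lit 0) (cond false (nat_lit 0) (cond (cond true true false)
      (Nat.sub (Nat.add (getT dx r) (getT dx (Nat.add (nat_lit 8) b))) O) (nat_lit 0))))
      = getT dx r + getT dx (8 + b) - O := by
  show (Nat.sub (Nat.add (getT dx r) (getT dx (Nat.add (nat_lit 8) b))) O)
    = getT dx r + getT dx (8 + b) - O
  have h : Nat.add (nat_lit 8) b = 8 + b := rfl
  rw [h]
  generalize getT dx r = x
  generalize getT dx (8 + b) = y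
  rfl

theorem fct_eq3 (dx : ℕ) (sf : Bool) (r b : ℕ)
    (h0 : cond sf (cond (Nat.ble r 1) (Nat.ble b 1) false) false = false)
    (h1 : Nat.beq r b = false) (h2 : Nat.ble r 5 = true) (h3 : Nat.ble b 5 = true) :
    fact3 dx sf r b = getT dx r + getT dx (8 + b) - OFF := by
  unfold fact3
  rw [h0, h1, h2, h3]
  exact fct_c3 _ _ _ _

theorem fct_cast (G H O : ℕ) (S T : ℤ) (h1 : (G : ℤ) = (O : ℤ) + S) (h2 : (H : ℤ) = (O : ℤ) + T)
    (h3 : 0 ≤ (O : ℤ) + (S + T)) : ((G + H - O : ℕ) : ℤ) = (O : ℤ) + (S + T) := by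
  omega

theorem fct_three (hA : NumAStmt) (hD : NumDStmt) (sf : Bool) (n el : ℕ → ℤ) (F : ℤ)
    (Y : ℕ → ℕ → ℤ) (r b : ℕ) (hG : Good sf n el F) (h : fact3 (dxT sf) sf r b ≠ 0) :
    FOk n (env sf el F) Y (fact3 (dxT sf) sf r b) := by
  rcases h0 : cond sf (cond (Nat.ble r 1) (Nat.ble b 1) false) false with _ | _
  swap
  · exfalso; apply h; unfold fact3; rw [h0]; rfl
  rcases h1 : Nat.beq r b with _ | _
  swap
  · exfalso; apply h; unfold fact3; rw [h0, h1]; rfl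
  rcases h2 : Nat.ble r 5 with _ | _
  · exfalso; apply h; unfold fact3; rw [h0, h1, h2]; rfl
  rcases h3 : Nat.ble b 5 with _ | _
  · exfalso; apply h; unfold fact3; rw [h0, h1, h2, h3]; rfl
  have hr : r ≤ 5 := Nat.le_of_ble_eq_true h2
  have hb : b ≤ 5 := Nat.le_of_ble_eq_true h3
  have hne : r ≠ b := by
    intro h5
    rw [h5, Nat.beq_refl] at h1
    exact absurd h1 (by decide)
  have hsf : ¬ (sf = true ∧ r ≤ 1 ∧ b ≤ 1) := by
    rintro ⟨k1, k2, k3⟩
    rw [k1, Nat.ble_eq_true_of_le k2, Nat.ble_eq_true_of_le k3] at h0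
    exact absurd h0 (by decide)
  rw [fct_eq3 (dxT sf) sf r b h0 h1 h2 h3]
  obtain ⟨d, hd, hd1, hd2⟩ := fct_dx hA hD sf n el F hG r (by omega) (by omega)
  obtain ⟨d', hd', hd1', hd2'⟩ := fct_dx hA hD sf n el F hG (8 + b) (by omega) (by omega)
  have hs : ∀ w : ℕ → ℤ, ∑ q ∈ range 4, (d q + d' q) * w q
      = ∑ q ∈ range 4, d q * w q + ∑ q ∈ range 4, d' q * w q := by
    intro w
    simp only [add_mul, Finset.sum_add_distrib]
  have hd4 : ∀ q, |d q + d' q| ≤ 4 := fun q =>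
    le_trans (abs_add_le _ _) (by have := hd q; have := hd' q; linarith)
  refine fct_deg hA n (env sf el F) Y (fun q => d q + d' q) _ hd4 ?_ ?_
  · have hnn := fct_nonneg hA (fun _ => 0) (fun q => d q + d' q) (by simp) hd4
    have hs1 : ∑ q ∈ range 4, (d q + d' q) * ((D q : ℕ) : ℤ)
        = ∑ q ∈ range 4, d q * ((D q : ℕ) : ℤ) + ∑ q ∈ range 4, d' q * ((D q : ℕ) : ℤ) :=
      hs (fun q => ((D q : ℕ) : ℤ))
    simp only [zero_mul, Finset.sum_const_zero, add_zero] at hnn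
    rw [hs1] at hnn ⊢
    exact fct_cast _ _ OFF _ _ hd1 hd1' hnn
  · rw [hs]
    have e2 : -(∑ q ∈ range 4, d q * env sf el F q + ∑ q ∈ range 4, d' q * env sf el F q)
        = el r - el b := by
      have k1 : fct_val el F r = el r := by unfold fct_val; rw [if_pos (by omega)]
      have k2 : fct_val el F (8 + b) = - el b := by
        unfold fct_val
        rw [if_neg (by omega), if_neg (by omega), show 8 + b - 8 = b by omega]
      rw [k1] at hd2
      rw [k2] at hd2'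
      linarith
    rw [e2]
    exact hG.diff r (by omega) b (by omega) hne hsf

theorem fct_four (hA : NumAStmt) (hD : NumDStmt) (sf : Bool) (n el : ℕ → ℤ) (F : ℤ)
    (Y : ℕ → ℕ → ℤ) (st r b : ℕ) (hG : Good sf n el F) (hH : Holds n el st)
    (h : fact4 (dxT sf) st r b ≠ 0) :
    FOk n (env sf el F) Y (fact4 (dxT sf) st r b) := by
  rcases h1 : Nat.ble r 149 with _ | _
  · exfalso; apply h; unfold fact4; rw [h1]; rfl
  rcases h2 : Nat.ble b 4 with _ | _
  · exfalso; apply h; unfold fact4; rw [h1, h2]; rfl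
  have hr : r ≤ 149 := Nat.le_of_ble_eq_true h1
  have hb : b ≤ 4 := Nat.le_of_ble_eq_true h2
  have e : fact4 (dxT sf) st r b = bitT st (1050 + (5 * r + b))
      * (getT (dxT sf) (r / 25) + E (r / 5 % 5) - E (r % 5) - E b) := by
    unfold fact4; rw [h1, h2]; generalize dxT sf = dx; rfl
  rw [e] at h ⊢
  have hbit := fct_bit st (1050 + (5 * r + b)) (fun h0 => h (by rw [h0, zero_mul]))
  rw [hbit.1, one_mul]
  obtain ⟨d, hd, hd1, hd2⟩ := fct_dx hA hD sf n el F hG (r / 25) (by omega) (by omega)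
  have ha5 : r / 5 % 5 < 5 := Nat.mod_lt _ (by norm_num)
  have hb5 : r % 5 < 5 := Nat.mod_lt _ (by norm_num)
  have h3 := hH.2.2.2 r (by omega) b (by omega) hbit.2
  unfold MEMv at h3
  have hs : ∀ w : ℕ → ℤ, ∑ j ∈ range 5, (fct_e (r / 5 % 5) j - fct_e (r % 5) j - fct_e b j) * w j
      = w (r / 5 % 5) - w (r % 5) - w b := by
    intro w
    simp only [sub_mul, Finset.sum_sub_distrib]
    rw [fct_e_sum _ ha5, fct_e_sum _ hb5, fct_e_sum b (by omega)]
  have hs' : ∀ w : ℕ → ℤ, ∑ j ∈ range 5, (fct_e (r / 5 % 5) j - fct_e (r % 5) j) * w j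
      = w (r / 5 % 5) - w (r % 5) := by
    intro w
    simp only [sub_mul, Finset.sum_sub_distrib]
    rw [fct_e_sum _ ha5, fct_e_sum _ hb5]
  have hu : ∀ j, |fct_e (r / 5 % 5) j - fct_e (r % 5) j - fct_e b j| ≤ 4 := fun j =>
    le_trans (abs_sub _ _) (by
      have k1 := abs_sub (fct_e (r / 5 % 5) j) (fct_e (r % 5) j)
      have k2 := fct_e_bound (r / 5 % 5) j
      have k3 := fct_e_bound (r % 5) j
      have k4 := fct_e_bound b j
      linarith)
  have hu' : ∀ j, |fct_e (r / 5 % 5) j - fct_e (r % 5) j| ≤ 4 := fun j => by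
      have k1 := abs_sub (fct_e (r / 5 % 5) j) (fct_e (r % 5) j)
      have k2 := fct_e_bound (r / 5 % 5) j
      have k3 := fct_e_bound (r % 5) j
      linarith
  have hd4 : ∀ q, |d q| ≤ 4 := fun q => le_trans (hd q) (by norm_num)
  have hnn := fct_nonneg hA (fun j => fct_e (r / 5 % 5) j - fct_e (r % 5) j - fct_e b j) d hu hd4
  have hnn' := fct_nonneg hA (fun j => fct_e (r / 5 % 5) j - fct_e (r % 5) j) d hu' hd4
  have hs1 : ∑ j ∈ range 5, (fct_e (r / 5 % 5) j - fct_e (r % 5) j - fct_e b j) * ((E j : ℕ) : ℤ)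
      = ((E (r / 5 % 5) : ℕ) : ℤ) - ((E (r % 5) : ℕ) : ℤ) - ((E b : ℕ) : ℤ) :=
    hs (fun j => ((E j : ℕ) : ℤ))
  have hs1' : ∑ j ∈ range 5, (fct_e (r / 5 % 5) j - fct_e (r % 5) j) * ((E j : ℕ) : ℤ)
      = ((E (r / 5 % 5) : ℕ) : ℤ) - ((E (r % 5) : ℕ) : ℤ) := hs' (fun j => ((E j : ℕ) : ℤ))
  rw [hs1] at hnn
  rw [hs1'] at hnn'
  refine fct_main hA n _ Y (fun j => fct_e (r / 5 % 5) j - fct_e (r % 5) j - fct_e b j) d _ hu hd4 ?_ ?_
  · rw [hs1]
    generalize ∑ q ∈ range 4, d q * ((D q : ℕ) : ℤ) = S at *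
    generalize getT (dxT sf) (r / 25) = G at *
    omega
  · rw [hs n]
    have k1 : fct_val el F (r / 25) = el (r / 25) := by unfold fct_val; rw [if_pos (by omega)]
    rw [k1] at hd2
    have e2 : n (r / 5 % 5) - n (r % 5) - n b - ∑ q ∈ range 4, d q * env sf el F q
        = el (r / 25) + n (r / 5 % 5) - n (r % 5) - n b := by linarith
    rw [e2]
    exact h3

/-- **Fct.** -/
theorem fct (hA : NumAStmt) (hD : NumDStmt) : FctStmt := by
  intro sf n el F Y st k r b hG hH hr hb h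
  rcases k with _ | _ | _ | _ | k
  · exact fct_zero hA hD sf n el F Y st r hG hH h
  · exact fct_one hA sf n el F Y r b hG h
  · exact fct_twoF hA hD sf n el F Y r hG h
  · exact fct_three hA hD sf n el F Y r b hG h
  · exact fct_four hA hD sf n el F Y st r b hG hH h

end Pool.Agent.MP_62a449_al.Five
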