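import Pool.Agent.Lib.MP_62a449_al.Five.Spec

/-!
`Fsm`: soundness of the Farkas certificates.
-/

namespace Pool.Agent.MP_62a449_al.Five

open Finset

theorem fsm_psi_add (Y : ℕ → ℕ → ℤ) (g h : ℕ → ℤ) (c : ℤ) :
    psi Y (fun p => g p + c * h p) = psi Y g + c * psi Y h := by
  unfold psi cval
  rw [Finset.mul_sum, ← Finset.sum_add_distrib]
  refine Finset.sum_congr rfl fun j _ => ?_
  have h1 : ∑ i ∈ range 47, (g (48 * j + (i + 1)) + c * h (48 * j + (i + 1))) * Y i j =
      ∑ i ∈ range 47, g (48 * j + (i + 1)) * Y i j + c * ∑ i ∈ range 47, h (48 * j + (i + 1)) * Y i j := by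
    rw [Finset.mul_sum, ← Finset.sum_add_distrib]
    refine Finset.sum_congr rfl fun i _ => ?_
    ring
  rw [h1]
  ring

theorem fsm_fEnd (T j Lam : ℕ) (h : fEnd T j Lam = true) :
    Lam ≤ 150 ∧ Nat.land T OFF = OFF ∧ 32769 ≤ (T >>> (768 * j)) % 65536 := by
  unfold fEnd at h
  rcases h1 : Nat.ble Lam 150 with _ | _
  · rw [show Nat.ble Lam (nat_lit 150) = false from h1] at h
    exact absurd h (by simp)
  rw [show Nat.ble Lam (nat_lit 150) = true from h1] at h
  rcases h2 : Nat.beq (Nat.land T OFF) OFF with _ | _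
  · rw [h2] at h
    exact absurd h (by simp)
  rw [h2] at h
  exact ⟨Nat.le_of_ble_eq_true h1, Nat.eq_of_beq_eq_true h2, Nat.le_of_ble_eq_true h⟩

theorem fsm_pos (Y : ℕ → ℕ → ℤ) (hY : ∀ i j, 0 ≤ Y i j) (g : ℕ → ℤ) (hg : ∀ p < 244, 0 ≤ g p) (j : ℕ) (hj : j < 5)
    (h1 : 1 ≤ g (48 * j)) : 1 ≤ psi Y g := by
  have hc : ∀ k < 5, g (48 * k) ≤ cval Y g k := by
    intro k hk
    have : 0 ≤ ∑ i ∈ range 47, g (48 * k + (i + 1)) * Y i k := by
      refine Finset.sum_nonneg fun i hi => ?_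
      rw [Finset.mem_range] at hi
      exact mul_nonneg (hg _ (by omega)) (hY _ _)
    unfold cval
    linarith
  have h2 : cval Y g j ≤ psi Y g := by
    unfold psi
    refine Finset.single_le_sum (f := fun k => cval Y g k) (fun k hk => ?_) (Finset.mem_range.2 hj)
    rw [Finset.mem_range] at hk
    exact le_trans (hg _ (by omega)) (hc k hk)
  exact le_trans h1 (le_trans (hc j hj) h2)

theorem fsm (hA : NumAStmt) (hC : NumCStmt) : FsmStmt := by
  obtain ⟨hO, -, -, -, hadd, hmul, -, hnn, hrep, -, -, -, -, -⟩ := hA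
  obtain ⟨-, -, hc3, -, hc5, -⟩ := hC
  intro Y cb nc j hY hnc hj hctx m
  induction m with
  | zero =>
    intro c S Lam g hS hg hpsi hf
    have e : fsum cb nc j 0 c S Lam = fEnd (S - Lam * OFF) j Lam := rfl
    rw [e] at hf
    obtain ⟨hL, hl, hd⟩ := fsm_fEnd _ _ _ hf
    have hL' : (Lam : ℤ) ≤ 150 := by exact_mod_cast hL
    have hg' : ∀ p < 244, |g p| ≤ 31500 := fun p hp => by
      have := hg p hp
      omega
    have hnn' : 0 ≤ encZ g + encZ (fun _ => 32768) := hnn g fun p hp => by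
      have := hg' p hp
      omega
    have hT : ((S - Lam * OFF : ℕ) : ℤ) = encZ g + encZ (fun _ => 32768) := by
      have h1 : (Lam * OFF : ℕ) ≤ S := by
        zify
        rw [hS, hO]
        nlinarith
      rw [Nat.cast_sub h1, hS]
      push_cast
      rw [hO]
      ring
    have hR : Rep (S - Lam * OFF) g 31500 := (hrep _ _ _).2 ⟨hT, hg'⟩
    have hpos := hc3 _ _ _ hR (by norm_num) hl
    have hone := hc5 _ _ _ j hR (by norm_num) hj hd
    have := fsm_pos Y hY g hpos j hj hone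
    omega
  | succ m ih =>
    intro c S Lam g hS hg hpsi hf
    have e : fsum cb nc j (m + 1) c S Lam = fsum cb nc j m (drp c 2)
      (S + byt c 1 * getT cb (byt c 0 % nc)) (Lam + byt c 1) := rfl
    rw [e] at hf
    obtain ⟨g', hg', hp'⟩ := hctx (byt c 0 % nc) (Nat.mod_lt _ hnc)
    rw [hrep] at hg'
    obtain ⟨hX, hb⟩ := hg'
    refine ih (drp c 2) _ _ (fun p => g p + (byt c 1 : ℤ) * g' p) ?_ ?_ ?_ hf
    · push_cast
      rw [hS, hX, hadd, hmul]
      ring
    · intro p hp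
      push_cast
      have h1 := hg p hp
      have h2 := hb p hp
      have h3 : (0 : ℤ) ≤ (byt c 1 : ℤ) := Int.natCast_nonneg _
      calc |g p + (byt c 1 : ℤ) * g' p| ≤ |g p| + |(byt c 1 : ℤ) * g' p| := abs_add_le _ _
        _ = |g p| + (byt c 1 : ℤ) * |g' p| := by rw [abs_mul, abs_of_nonneg h3]
        _ ≤ 210 * (Lam : ℤ) + (byt c 1 : ℤ) * 210 := add_le_add h1 (mul_le_mul_of_nonneg_left h2 h3)
        _ = 210 * ((Lam : ℤ) + (byt c 1 : ℤ)) := by ring
    · rw [fsm_psi_add]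
      have h3 : (0 : ℤ) ≤ (byt c 1 : ℤ) := Int.natCast_nonneg _
      have h4 : (byt c 1 : ℤ) * psi Y g' ≤ 0 := mul_nonpos_of_nonneg_of_nonpos h3 hp'
      omega

end Pool.Agent.MP_62a449_al.Five
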