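import Pool.Agent.Lib.MP_62a449_al.Five.Spec

/-!
Soundness of the introduction of vectors (`IntStmt`).
-/

namespace Pool.Agent.MP_62a449_al.Five

open Finset

attribute [local irreducible] OFF OFFc E D

/-- unit form -/
def int_u (p0 : ℕ) : ℕ → ℤ := fun p => if p = p0 then 1 else 0

theorem int_cval_add (Y : ℕ → ℕ → ℤ) (g h : ℕ → ℤ) (j : ℕ) :
    cval Y (g + h) j = cval Y g j + cval Y h j := by
  simp only [cval, Pi.add_apply, add_mul, sum_add_distrib]
  ring

theorem int_cval_smul (Y : ℕ → ℕ → ℤ) (c : ℤ) (g : ℕ → ℤ) (j : ℕ) :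
    cval Y (c • g) j = c * cval Y g j := by
  simp only [cval, Pi.smul_apply, smul_eq_mul, mul_add, mul_sum, mul_assoc]

theorem int_lin_add (n v : ℕ → ℤ) (Y : ℕ → ℕ → ℤ) (g h : ℕ → ℤ) :
    lin n v Y (g + h) = lin n v Y g + lin n v Y h := by
  simp only [lin, int_cval_add, Pi.add_apply, add_mul, sum_add_distrib]
  ring

theorem int_lin_smul (n v : ℕ → ℤ) (Y : ℕ → ℕ → ℤ) (c : ℤ) (g : ℕ → ℤ) :
    lin n v Y (c • g) = c * lin n v Y g := by
  simp only [lin, int_cval_smul, Pi.smul_apply, smul_eq_mul, mul_sub, mul_sum, mul_assoc]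

theorem int_lin_const (n v : ℕ → ℤ) (Y : ℕ → ℕ → ℤ) (c : ℕ) (hc : c < 5) :
    lin n v Y (int_u (48 * c)) = n c := by
  have h1 : ∀ j ∈ range 5, cval Y (int_u (48 * c)) j * n j = if j = c then n j else 0 := by
    intro j _
    have h2 : ∑ i ∈ range 47, int_u (48 * c) (48 * j + (i + 1)) * Y i j = 0 := by
      apply sum_eq_zero
      intro i hi
      have hi' := mem_range.mp hi
      have h3 : ¬ (48 * j + (i + 1) = 48 * c) := by omega
      simp [int_u, h3]
    rw [cval, h2]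
    by_cases hjc : j = c
    · simp [int_u, hjc]
    · have h3 : ¬ (48 * j = 48 * c) := by omega
      simp [int_u, hjc]
  have h3 : ∀ q ∈ range 4, int_u (48 * c) (240 + q) * v q = 0 := by
    intro q _
    have h4 : ¬ (240 + q = 48 * c) := by omega
    simp [int_u, h4]
  rw [lin, sum_congr rfl h1, sum_congr rfl h3, sum_ite_eq']
  simp [hc]

theorem int_lin_var (n v : ℕ → ℤ) (Y : ℕ → ℕ → ℤ) (c k : ℕ) (hc : c < 5) (hk : k < 47) :
    lin n v Y (int_u (48 * c + (k + 1))) = Y k c * n c := by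
  have h1 : ∀ j ∈ range 5, cval Y (int_u (48 * c + (k + 1))) j * n j = if j = c then Y k j * n j else 0 := by
    intro j _
    have h2 : int_u (48 * c + (k + 1)) (48 * j) = 0 := by
      have h3 : ¬ (48 * j = 48 * c + (k + 1)) := by omega
      simp [int_u, h3]
    rw [cval, h2, zero_add]
    by_cases hjc : j = c
    · subst hjc
      have h4 : ∀ i ∈ range 47, int_u (48 * j + (k + 1)) (48 * j + (i + 1)) * Y i j = if i = k then Y i j else 0 := by
        intro i _
        by_cases hik : i = k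
        · simp [int_u, hik]
        · have h5 : ¬ (48 * j + (i + 1) = 48 * j + (k + 1)) := by omega
          simp [int_u, hik]
      rw [sum_congr rfl h4, sum_ite_eq']
      simp [hk]
    · have h4 : ∑ i ∈ range 47, int_u (48 * c + (k + 1)) (48 * j + (i + 1)) * Y i j = 0 := by
        apply sum_eq_zero
        intro i hi
        have hi' := mem_range.mp hi
        have h3 : ¬ (48 * j + (i + 1) = 48 * c + (k + 1)) := by omega
        simp [int_u, h3]
      rw [h4]
      simp [hjc]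
  have h3 : ∀ q ∈ range 4, int_u (48 * c + (k + 1)) (240 + q) * v q = 0 := by
    intro q _
    have h4 : ¬ (240 + q = 48 * c + (k + 1)) := by omega
    simp [int_u, h4]
  rw [lin, sum_congr rfl h1, sum_congr rfl h3, sum_ite_eq']
  simp [hc]

theorem int_lin_deg (n v : ℕ → ℤ) (Y : ℕ → ℕ → ℤ) (q : ℕ) (hq : q < 4) :
    lin n v Y (int_u (240 + q)) = - v q := by
  have h1 : ∀ j ∈ range 5, cval Y (int_u (240 + q)) j * n j = 0 := by
    intro j hj
    have hj' := mem_range.mp hj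
    have h2 : int_u (240 + q) (48 * j) = 0 := by
      have h3 : ¬ (48 * j = 240 + q) := by omega
      simp [int_u, h3]
    have h4 : ∑ i ∈ range 47, int_u (240 + q) (48 * j + (i + 1)) * Y i j = 0 := by
      apply sum_eq_zero
      intro i hi
      have hi' := mem_range.mp hi
      have h3 : ¬ (48 * j + (i + 1) = 240 + q) := by omega
      simp [int_u, h3]
    rw [cval, h2, h4]
    simp
  have h3 : ∀ r ∈ range 4, int_u (240 + q) (240 + r) * v r = if r = q then v r else 0 := by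
    intro r _
    by_cases hrq : r = q
    · simp [int_u, hrq]
    · have h4 : ¬ (240 + r = 240 + q) := by omega
      simp [int_u, hrq]
  rw [lin, sum_congr rfl h1, sum_congr rfl h3, sum_ite_eq']
  simp [hq]

/-- changing the slot `k` does not change forms that do not see it -/
theorem int_lin_congr (n v : ℕ → ℤ) (Y Y' : ℕ → ℕ → ℤ) (k : ℕ) (g : ℕ → ℤ)
    (hY : ∀ i j, i ≠ k → Y' i j = Y i j) (hg : ∀ j < 5, g (48 * j + (k + 1)) = 0) :
    lin n v Y' g = lin n v Y g := by
  have h1 : ∀ j ∈ range 5, cval Y' g j * n j = cval Y g j * n j := by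
    intro j hj
    have hj' := mem_range.mp hj
    have h2 : ∀ i ∈ range 47, g (48 * j + (i + 1)) * Y' i j = g (48 * j + (i + 1)) * Y i j := by
      intro i _
      by_cases hik : i = k
      · subst hik
        rw [hg j hj']
        simp
      · rw [hY i j hik]
    rw [cval, cval, sum_congr rfl h2]
  rw [lin, lin, sum_congr rfl h1]

/-- `g` is a form with code `z`, bound `b`, and without variables of the slots `≥ k` -/
def int_P (k : ℕ) (z : ℤ) (g : ℕ → ℤ) (b : ℤ) : Prop :=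
  encZ g = z ∧ (∀ p, |g p| ≤ b) ∧ ∀ j < 5, ∀ i < 47, k ≤ i → g (48 * j + (i + 1)) = 0

theorem int_P_add (hA : NumAStmt) {k : ℕ} {z w : ℤ} {g h : ℕ → ℤ} {b c : ℤ} (h1 : int_P k z g b)
    (h2 : int_P k w h c) : int_P k (z + w) (g + h) (b + c) := by
  obtain ⟨-, -, -, -, hadd, -⟩ := hA
  refine ⟨?_, fun p => ?_, fun j hj i hi hk => ?_⟩
  · rw [← h1.1, ← h2.1]
    exact hadd g h
  · exact (abs_add_le _ _).trans (add_le_add (h1.2.1 p) (h2.2.1 p))
  · rw [Pi.add_apply, h1.2.2 j hj i hi hk, h2.2.2 j hj i hi hk, add_zero]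

theorem int_P_smul (hA : NumAStmt) {k : ℕ} {z : ℤ} {g : ℕ → ℤ} {b : ℤ} (c : ℤ) (h1 : int_P k z g b) :
    int_P k (c * z) (c • g) (|c| * b) := by
  obtain ⟨-, -, -, -, -, hmul, -⟩ := hA
  refine ⟨?_, fun p => ?_, fun j hj i hi hk => ?_⟩
  · rw [← h1.1]
    exact hmul c g
  · rw [Pi.smul_apply, smul_eq_mul, abs_mul]
    exact mul_le_mul_of_nonneg_left (h1.2.1 p) (abs_nonneg c)
  · rw [Pi.smul_apply, h1.2.2 j hj i hi hk, smul_zero]

theorem int_P_mono {k : ℕ} {z : ℤ} {g : ℕ → ℤ} {b c : ℤ} (h1 : int_P k z g b) (hbc : b ≤ c) :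
    int_P k z g c := ⟨h1.1, fun p => (h1.2.1 p).trans hbc, h1.2.2⟩

theorem int_P_up {k l : ℕ} {z : ℤ} {g : ℕ → ℤ} {b : ℤ} (h1 : int_P k z g b) (hkl : k ≤ l) :
    int_P l z g b := ⟨h1.1, h1.2.1, fun j hj i hi hk => h1.2.2 j hj i hi (hkl.trans hk)⟩

theorem int_P_unit (hA : NumAStmt) (k p0 : ℕ) (hp : p0 < 244)
    (h : ∀ j < 5, ∀ i < 47, k ≤ i → 48 * j + (i + 1) ≠ p0) : int_P k (65536 ^ p0) (int_u p0) 1 := by
  obtain ⟨-, -, -, -, -, -, hunit, -⟩ := hA
  refine ⟨?_, fun p => ?_, fun j hj i hi hk => ?_⟩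
  · have := hunit p0 hp 1
    rw [one_mul] at this
    exact this
  · by_cases h1 : p = p0
    · simp [int_u, h1]
    · simp [int_u, h1]
  · simp [int_u, h j hj i hi hk]

theorem int_P_zero (hA : NumAStmt) (k : ℕ) : int_P k 0 0 0 := by
  have h1 := int_P_smul hA 0 (int_P_unit hA 47 0 (by norm_num) (by intros; omega))
  rw [zero_smul, zero_mul, abs_zero, zero_mul] at h1
  exact ⟨h1.1, h1.2.1, fun j _ i _ _ => rfl⟩

/-! ### Bits -/

theorem int_bitT (st k : ℕ) (h : bitT st k = 1) : st.testBit k = true := by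
  have h1 : (st >>> k) % 2 = 1 := h
  rw [Nat.shiftRight_eq_div_pow] at h1
  rw [Nat.testBit_eq_decide_div_mod_eq, h1]
  rfl

theorem int_row (st r c : ℕ) (hc : c < 5) : (row st r).testBit c = st.testBit (150 + (5 * r + c)) := by
  have h1 : row st r = (st >>> (150 + 5 * r)) % 2 ^ 5 := rfl
  rw [h1, Nat.testBit_mod_two_pow, Nat.testBit_shiftRight]
  simp [hc, add_assoc]

theorem int_purrow (st i c : ℕ) (hc : c < 5) :
    (purrow st i).testBit c = st.testBit (1050 + (5 * i + c)) := by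
  have h1 : purrow st i = (st >>> (1050 + 5 * i)) % 2 ^ 5 := rfl
  rw [h1, Nat.testBit_mod_two_pow, Nat.testBit_shiftRight]
  simp [hc, add_assoc]

theorem int_M_bit (st kd i c : ℕ) (hc : c < 5) (h : (introM st kd i).testBit c = true) :
    st.testBit (150 + (5 * (i / 5) + c)) = true ∨ c = i / 5 % 5 ∨
      (∃ e, kd = e + 3 ∧ st.testBit (1050 + (5 * i + c)) = true) := by
  have h0 : introM st kd i = ((row st (i / 5) ||| 2 ^ (i / 5 % 5)) |||
      (Nat.casesOn kd 0 (fun kd => Nat.casesOn kd 0 (fun kd => Nat.casesOn kd 0 (fun _ => purrow st i))))) := rfl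
  rw [h0, Nat.testBit_or, Nat.testBit_or, Bool.or_eq_true, Bool.or_eq_true, int_row _ _ _ hc,
    Nat.testBit_two_pow] at h
  rcases h with (h | h) | h
  · exact Or.inl h
  · right; left
    have := of_decide_eq_true h
    omega
  · right; right
    rcases kd with _ | _ | _ | e
    · simp at h
    · simp at h
    · simp at h
    · refine ⟨e, rfl, ?_⟩
      rw [← int_purrow st i c hc]
      exact h

theorem int_M_lt (st kd i : ℕ) : introM st kd i < 32 := by
  have h0 : introM st kd i = ((row st (i / 5) ||| 2 ^ (i / 5 % 5)) |||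
      (Nat.casesOn kd 0 (fun kd => Nat.casesOn kd 0 (fun kd => Nat.casesOn kd 0 (fun _ => purrow st i))))) := rfl
  have h1 : row st (i / 5) < 2 ^ 5 := by
    have h1 : row st (i / 5) = (st >>> (150 + 5 * (i / 5))) % 2 ^ 5 := rfl
    rw [h1]
    exact Nat.mod_lt _ (by norm_num)
  have h2 : 2 ^ (i / 5 % 5) < 2 ^ 5 := Nat.pow_lt_pow_right (by norm_num) (Nat.mod_lt _ (by norm_num))
  have h3 : purrow st i < 2 ^ 5 := by
    have h1 : purrow st i = (st >>> (1050 + 5 * i)) % 2 ^ 5 := rfl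
    rw [h1]
    exact Nat.mod_lt _ (by norm_num)
  rw [h0]
  have h4 : (Nat.casesOn kd 0 (fun kd => Nat.casesOn kd 0 (fun kd => Nat.casesOn kd 0 (fun _ => purrow st i))) : ℕ)
      < 2 ^ 5 := by
    rcases kd with _ | _ | _ | e
    · norm_num
    · norm_num
    · norm_num
    · exact h3
  exact Nat.or_lt_two_pow (Nat.or_lt_two_pow h1 h2) h4

/-! ### The vector -/

theorem int_mem_sub (n : ℕ → ℤ) (y : ℕ → ℤ) (z : ℤ) (c : ℕ) (hc : c < 5) (hy : ∀ j, 0 ≤ y j)
    (hz : z = ∑ j ∈ range 5, y j * n j) (h1 : y c ≠ 0) : Mem n (z - n c) := by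
  refine ⟨fun j => if j = c then y j - 1 else y j, fun j => ?_, ?_⟩
  · show 0 ≤ if j = c then y j - 1 else y j
    by_cases hj : j = c
    · have := hy c
      rw [if_pos hj, hj]
      omega
    · rw [if_neg hj]
      exact hy j
  · have h2 : ∑ j ∈ range 5, (if j = c then y j - 1 else y j) * n j
        = ∑ j ∈ range 5, y j * n j - ∑ j ∈ range 5, (if j = c then n j else 0) := by
      rw [← sum_sub_distrib]
      refine sum_congr rfl fun j _ => ?_
      by_cases hj : j = c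
      · simp only [if_pos hj]
        ring
      · simp only [if_neg hj]
        ring
    rw [h2, sum_ite_eq', hz]
    simp [hc]

/-- the subtracted part of the vector -/
def int_w (n : ℕ → ℤ) (kd i q : ℕ) : ℤ :=
  Nat.casesOn kd 0 (fun kd => Nat.casesOn kd (n (i % 5)) (fun kd => Nat.casesOn kd (n (i % 5) + n q)
    (fun _ => n (i % 5))))

theorem int_w_mem (hM : MemAStmt) (n : ℕ → ℤ) (kd i q : ℕ) (hq : kd = 2 → q < 5) : Mem n (int_w n kd i q) := by
  obtain ⟨hadd, hgen, hzero, -⟩ := hM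
  have hb : i % 5 < 5 := Nat.mod_lt _ (by norm_num)
  rcases kd with _ | _ | _ | e
  · exact hzero n
  · exact hgen n _ hb
  · exact hadd n _ _ (hgen n _ hb) (hgen n _ (hq rfl))
  · exact hgen n _ hb

theorem int_ok2 (st i q : ℕ) (h : introOk st 2 i q = true) :
    q < 5 ∧ st.testBit (300 + (5 * i + q)) = true := by
  have h0 : introOk st 2 i q = cond (Nat.ble q 4) (Nat.beq (bitT st (300 + (5 * i + q))) 1) false := rfl
  rw [h0] at h
  cases h1 : Nat.ble q 4 with
  | false => rw [h1] at h; exact absurd h (by simp)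
  | true =>
    rw [h1, cond_true] at h
    refine ⟨?_, int_bitT _ _ (Nat.eq_of_beq_eq_true h)⟩
    have := Nat.le_of_ble_eq_true h1
    omega

theorem int_vec (hM : MemAStmt) {sf : Bool} {n el : ℕ → ℤ} {F : ℤ} {st : ℕ} (hg : Good sf n el F)
    (hh : Holds n el st) (kd i q : ℕ) (hi : i < 150) (hok : introOk st kd i q = true) :
    ∃ y : ℕ → ℤ, (∀ j, 0 ≤ y j) ∧ (∀ c < 5, (introM st kd i).testBit c = true → y c = 0) ∧
      el (i / 25) + n (i / 5 % 5) - int_w n kd i q = ∑ j ∈ range 5, y j * n j := by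
  have hx : i / 25 < 6 := by omega
  have ha : i / 5 % 5 < 5 := by omega
  have hb : i % 5 < 5 := by omega
  have hq5 : kd = 2 → q < 5 := by
    rintro rfl
    exact (int_ok2 st i q hok).1
  have hw := int_w_mem hM n kd i q hq5
  have hidx : ∀ c < 5, 5 * (i / 5) + c < 150 ∧ MEMv n el (5 * (i / 5) + c) = el (i / 25) + n (i / 5 % 5) - n c := by
    intro c hc
    have e1 : (5 * (i / 5) + c) / 25 = i / 25 := by omega
    have e2 : (5 * (i / 5) + c) / 5 % 5 = i / 5 % 5 := by omega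
    have e3 : (5 * (i / 5) + c) % 5 = c := by omega
    refine ⟨by omega, ?_⟩
    rw [MEMv, e1, e2, e3]
  have hmem : Mem n (el (i / 25) + n (i / 5 % 5) - int_w n kd i q) := by
    rcases kd with _ | _ | _ | e
    · have h1 := hg.el_add _ hx _ ha
      have e1 : el (i / 25) + n (i / 5 % 5) - int_w n 0 i q = el (i / 25) + n (i / 5 % 5) := by
        show el (i / 25) + n (i / 5 % 5) - 0 = _
        ring
      rw [e1]
      exact h1
    · obtain ⟨b', hb', hba, hmb⟩ := hM.2.2.2.1 sf n el F hg _ hx _ ha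
      have h0 : Nat.beq ((row st (i / 5) ||| 2 ^ (i / 5 % 5)) ||| 2 ^ (i % 5)) 31 = true := hok
      have h1 := Nat.eq_of_beq_eq_true h0
      have h2 : ((row st (i / 5) ||| 2 ^ (i / 5 % 5)) ||| 2 ^ (i % 5)).testBit b' = true := by
        rw [h1]
        have : ∀ c < 5, (31 : ℕ).testBit c = true := by decide
        exact this b' hb'
      rw [Nat.testBit_or, Nat.testBit_or, Bool.or_eq_true, Bool.or_eq_true, int_row _ _ _ hb',
        Nat.testBit_two_pow, Nat.testBit_two_pow] at h2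
      show Mem n (el (i / 25) + n (i / 5 % 5) - n (i % 5))
      rcases h2 with (h2 | h2) | h2
      · exfalso
        apply hh.2.1 _ (hidx b' hb').1 h2
        rw [(hidx b' hb').2]
        exact hmb
      · exact absurd (of_decide_eq_true h2).symm hba
      · rw [of_decide_eq_true h2]
        exact hmb
    · have h1 := int_ok2 st i q hok
      have h2 := hh.2.2.1 i hi q h1.1 h1.2
      show Mem n (el (i / 25) + n (i / 5 % 5) - (n (i % 5) + n q))
      have e1 : el (i / 25) + n (i / 5 % 5) - (n (i % 5) + n q) = MEMv n el i - n q := by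
        rw [MEMv]
        ring
      rw [e1]
      exact h2
    · have h0 : Nat.beq (bitT st i) 1 = true := hok
      have h1 := hh.1 i hi (int_bitT _ _ (Nat.eq_of_beq_eq_true h0))
      exact h1
  obtain ⟨y, hy, hsum⟩ := hmem
  refine ⟨y, hy, fun c hc hbit => ?_, hsum⟩
  by_contra hne
  have hsub := int_mem_sub n y _ c hc hy hsum hne
  have hadd := hM.1 n _ _ hsub hw
  have e1 : el (i / 25) + n (i / 5 % 5) - int_w n kd i q - n c + int_w n kd i q
      = el (i / 25) + n (i / 5 % 5) - n c := by ring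
  rw [e1] at hadd
  rcases int_M_bit st kd i c hc hbit with h | h | ⟨e, he, h⟩
  · apply hh.2.1 _ (hidx c hc).1 h
    rw [(hidx c hc).2]
    exact hadd
  · apply hg.el_not _ hx
    rw [h] at hadd
    have e2 : el (i / 25) + n (i / 5 % 5) - n (i / 5 % 5) = el (i / 25) := by ring
    rw [e2] at hadd
    exact hadd
  · subst he
    exact hh.2.2.2 i hi c hc h hsub

/-! ### The parts of the new entry -/

theorem int_E (hA : NumAStmt) (j : ℕ) : ((E j : ℕ) : ℤ) = 65536 ^ (48 * j) := by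
  rw [hA.2.2.1 j]
  push_cast
  rfl

theorem int_Dg (hA : NumAStmt) (j : ℕ) : ((D j : ℕ) : ℤ) = 65536 ^ (240 + j) := by
  rw [hA.2.2.2.1 j]
  push_cast
  rfl

theorem int_P_const (hA : NumAStmt) (k c : ℕ) (hc : c < 5) : int_P k ((E c : ℕ) : ℤ) (int_u (48 * c)) 1 := by
  rw [int_E hA]
  exact int_P_unit hA k (48 * c) (by omega) (by intros; omega)

theorem int_P_deg (hA : NumAStmt) (k q : ℕ) (hq : q < 4) : int_P k ((D q : ℕ) : ℤ) (int_u (240 + q)) 1 := by
  rw [int_Dg hA]
  exact int_P_unit hA k (240 + q) (by omega) (by intros; omega)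

theorem int_S (hA : NumAStmt) (n : ℕ → ℤ) (kd i q : ℕ) (hq : kd = 2 → q < 5) :
    ∃ g, int_P 0 ((introS kd i q : ℕ) : ℤ) g 2 ∧ ∀ v Y, lin n v Y g = int_w n kd i q := by
  have hb : i % 5 < 5 := Nat.mod_lt _ (by norm_num)
  rcases kd with _ | _ | _ | e
  · refine ⟨0, ?_, fun v Y => ?_⟩
    · show int_P 0 ((0 : ℕ) : ℤ) 0 2
      rw [Nat.cast_zero]
      exact int_P_mono (int_P_zero hA 0) (by norm_num)
    · have h1 := int_lin_smul n v Y 0 0
      rw [zero_smul, zero_mul] at h1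
      exact h1
  · refine ⟨int_u (48 * (i % 5)), int_P_mono (int_P_const hA 0 _ hb) (by norm_num), fun v Y => ?_⟩
    exact int_lin_const n v Y _ hb
  · refine ⟨int_u (48 * (i % 5)) + int_u (48 * q), ?_, fun v Y => ?_⟩
    · have h1 := int_P_add hA (int_P_const hA 0 _ hb) (int_P_const hA 0 _ (hq rfl))
      have e1 : ((introS 2 i q : ℕ) : ℤ) = ((E (i % 5) : ℕ) : ℤ) + ((E q : ℕ) : ℤ) := by
        rw [← Nat.cast_add]
        rfl
      rw [e1]
      exact int_P_mono h1 (by norm_num)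
    · rw [int_lin_add, int_lin_const n v Y _ hb, int_lin_const n v Y _ (hq rfl)]
      rfl
  · refine ⟨int_u (48 * (i % 5)), int_P_mono (int_P_const hA 0 _ hb) (by norm_num), fun v Y => ?_⟩
    exact int_lin_const n v Y _ hb

theorem int_beta (m c : ℕ) : (((1 - m / 2 ^ c % 2 : ℕ) : ℤ) = if m.testBit c = true then 0 else 1) := by
  rw [Nat.testBit_eq_decide_div_mod_eq]
  rcases Nat.mod_two_eq_zero_or_one (m / 2 ^ c) with h | h
  · rw [h]; simp
  · rw [h]; simp

theorem int_unm (hA : NumAStmt) (n : ℕ → ℤ) (m k : ℕ) (hk : k < 47) :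
    ∃ g, int_P (k + 1) (((unmE m * 2 ^ (16 * (k + 1)) : ℕ)) : ℤ) g 5 ∧
      ∀ v Y, lin n v Y g = ∑ c ∈ range 5, (if m.testBit c = true then 0 else 1) * (Y k c * n c) := by
  have key : ∀ e, (2 : ℕ) ^ (16 * e) = 65536 ^ e := fun e => by rw [pow_mul]; norm_num
  have hu : ∀ c < 5, int_P (k + 1) (65536 ^ (48 * c + (k + 1))) (int_u (48 * c + (k + 1))) 1 := by
    intro c hc
    exact int_P_unit hA (k + 1) _ (by omega) (by intros; omega)
  have hs : ∀ c < 5, int_P (k + 1) ((if m.testBit c = true then 0 else 1) * 65536 ^ (48 * c + (k + 1)))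
      ((if m.testBit c = true then (0 : ℤ) else 1) • int_u (48 * c + (k + 1))) 1 := by
    intro c hc
    refine int_P_mono (int_P_smul hA _ (hu c hc)) ?_
    by_cases h : m.testBit c = true
    · rw [if_pos h]; norm_num
    · rw [if_neg h]; norm_num
  have h1 := int_P_add hA (int_P_add hA (int_P_add hA (int_P_add hA (hs 0 (by norm_num)) (hs 1 (by norm_num)))
    (hs 2 (by norm_num))) (hs 3 (by norm_num))) (hs 4 (by norm_num))
  have e1 : (((unmE m * 2 ^ (16 * (k + 1)) : ℕ)) : ℤ) =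
      (if m.testBit 0 = true then 0 else 1) * 65536 ^ (48 * 0 + (k + 1)) +
      (if m.testBit 1 = true then 0 else 1) * 65536 ^ (48 * 1 + (k + 1)) +
      (if m.testBit 2 = true then 0 else 1) * 65536 ^ (48 * 2 + (k + 1)) +
      (if m.testBit 3 = true then 0 else 1) * 65536 ^ (48 * 3 + (k + 1)) +
      (if m.testBit 4 = true then 0 else 1) * 65536 ^ (48 * 4 + (k + 1)) := by
    have e2 : unmE m = (1 - m / 2 ^ 0 % 2) + (1 - m / 2 ^ 1 % 2) * 65536 ^ (48 * 1)
        + (1 - m / 2 ^ 2 % 2) * 65536 ^ (48 * 2) + (1 - m / 2 ^ 3 % 2) * 65536 ^ (48 * 3)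
        + (1 - m / 2 ^ 4 % 2) * 65536 ^ (48 * 4) := by
      rw [← key (48 * 1), ← key (48 * 2), ← key (48 * 3), ← key (48 * 4)]
      rw [show (2 : ℕ) ^ 0 = 1 from rfl, show (2 : ℕ) ^ 1 = 2 from rfl, show (2 : ℕ) ^ 2 = 4 from rfl,
        show (2 : ℕ) ^ 3 = 8 from rfl, show (2 : ℕ) ^ 4 = 16 from rfl, Nat.div_one,
        show 16 * (48 * 1) = 768 from rfl, show 16 * (48 * 2) = 1536 from rfl,
        show 16 * (48 * 3) = 2304 from rfl, show 16 * (48 * 4) = 3072 from rfl, unmE]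
    rw [e2, key, Nat.cast_mul, Nat.cast_add, Nat.cast_add, Nat.cast_add, Nat.cast_add, Nat.cast_mul,
      Nat.cast_mul, Nat.cast_mul, Nat.cast_mul, int_beta, int_beta, int_beta, int_beta, int_beta]
    rw [pow_add _ (48 * 0), pow_add _ (48 * 1), pow_add _ (48 * 2), pow_add _ (48 * 3), pow_add _ (48 * 4)]
    rw [mul_zero, pow_zero, one_mul]
    push_cast
    simp only [add_mul, mul_assoc]
  rw [← e1] at h1
  refine ⟨_, int_P_mono h1 (by norm_num), fun v Y => ?_⟩
  rw [int_lin_add, int_lin_add, int_lin_add, int_lin_add, int_lin_smul, int_lin_smul, int_lin_smul,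
    int_lin_smul, int_lin_smul, int_lin_var n v Y 0 k (by norm_num) hk, int_lin_var n v Y 1 k (by norm_num) hk,
    int_lin_var n v Y 2 k (by norm_num) hk, int_lin_var n v Y 3 k (by norm_num) hk,
    int_lin_var n v Y 4 k (by norm_num) hk]
  rw [sum_range_succ, sum_range_succ, sum_range_succ, sum_range_succ, sum_range_succ, sum_range_zero, zero_add]

theorem int_nonneg (hA : NumAStmt) {k : ℕ} {z : ℤ} {g : ℕ → ℤ} {b : ℤ} (h : int_P k z g b) (hb : b ≤ 32768) :
    0 ≤ z + ((OFF : ℕ) : ℤ) := by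
  rw [hA.1, ← h.1]
  exact hA.2.2.2.2.2.2.2.1 g (fun p _ => (h.2.1 p).trans hb)

theorem int_rep (hA : NumAStmt) {k : ℕ} {z : ℤ} {g : ℕ → ℤ} {b : ℤ} (X : ℕ) (h : int_P k z g b)
    (hX : (X : ℤ) = z + ((OFF : ℕ) : ℤ)) : Rep X g b := by
  rw [hA.2.2.2.2.2.2.2.2.1 X g b]
  refine ⟨?_, fun p _ => h.2.1 p⟩
  rw [hX, hA.1, h.1]

/-- degree part, first shape -/
theorem int_dg1 (hA : NumAStmt) (q : ℕ) (hq : q < 4) : ∃ (z : ℤ) (g : ℕ → ℤ),
    int_P 0 z g 8 ∧ ((OFF + D q : ℕ) : ℤ) = z + ((OFF : ℕ) : ℤ) ∧ ∀ n v Y, lin n v Y g = - v q := by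
  refine ⟨((D q : ℕ) : ℤ), int_u (240 + q), int_P_mono (int_P_deg hA 0 q hq) (by norm_num), ?_,
    fun n v Y => int_lin_deg n v Y q hq⟩
  rw [Nat.cast_add]
  ring

/-- degree part, second shape -/
theorem int_dg2 (hA : NumAStmt) (c q : ℕ) (hc : c ≤ 2) (hq : q < 4) : ∃ (z : ℤ) (g : ℕ → ℤ),
    int_P 0 z g 8 ∧ ((OFF + c * D 0 - D q : ℕ) : ℤ) = z + ((OFF : ℕ) : ℤ) ∧
    ∀ n v Y, lin n v Y g = - (c * v 0 - v q) := by
  have h1 := int_P_add hA (int_P_smul hA (c : ℤ) (int_P_deg hA 0 0 (by norm_num)))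
    (int_P_smul hA (-1) (int_P_deg hA 0 q hq))
  have hc2 : (|(c : ℤ)|) ≤ 2 := by
    rw [abs_of_nonneg (by positivity)]
    exact_mod_cast hc
  have h2 : |(c : ℤ)| * 1 + |(-1 : ℤ)| * 1 ≤ 8 := by
    rw [abs_neg, abs_one]
    linarith
  have h3 := int_P_mono h1 h2
  have h4 := int_nonneg hA h3 (by norm_num)
  refine ⟨_, _, h3, ?_, fun n v Y => ?_⟩
  · generalize hO : OFF = O at *
    generalize hD0 : D 0 = D0 at *
    generalize hDq : D q = Dq at *
    have h5 : Dq ≤ O + c * D0 := by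
      have : (Dq : ℤ) ≤ O + c * D0 := by linarith
      exact_mod_cast this
    rw [Nat.cast_sub h5]
    push_cast
    ring
  · rw [int_lin_add, int_lin_smul, int_lin_smul, int_lin_deg n v Y q hq]
    have := int_lin_deg n v Y 0 (by norm_num)
    rw [this]
    ring

theorem int_D (hA : NumAStmt) (hD : NumDStmt) {sf : Bool} {n el : ℕ → ℤ} {F : ℤ} (hg : Good sf n el F)
    (x : ℕ) (hx : x < 6) : ∃ (z : ℤ) (g : ℕ → ℤ),
    int_P 0 z g 8 ∧ ((getT (dxT sf) (8 + x) : ℕ) : ℤ) = z + ((OFF : ℕ) : ℤ) ∧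
    ∀ Y, lin n (env sf el F) Y g = - el x := by
  obtain ⟨-, -, -, -, htab, -⟩ := hD
  rw [htab sf (8 + x) (by omega)]
  cases sf with
  | false =>
    have d0 : el 1 = F - el 0 := hg.el_dual 0 (by norm_num)
    have d2 : el 3 = F - el 2 := hg.el_dual 2 (by norm_num)
    have d4 : el 5 = F - el 4 := hg.el_dual 4 (by norm_num)
    interval_cases x
    · obtain ⟨z, g, h1, h2, h3⟩ := int_dg1 hA 1 (by norm_num)
      exact ⟨z, g, h1, h2, fun Y => h3 n _ Y⟩
    · obtain ⟨z, g, h1, h2, h3⟩ := int_dg2 hA 1 1 (by norm_num) (by norm_num)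
      rw [one_mul] at h2
      refine ⟨z, g, h1, h2, fun Y => ?_⟩
      rw [h3 n _ Y, d0]
      show - (((1 : ℕ) : ℤ) * F - el 0) = _
      push_cast
      ring
    · obtain ⟨z, g, h1, h2, h3⟩ := int_dg1 hA 2 (by norm_num)
      exact ⟨z, g, h1, h2, fun Y => h3 n _ Y⟩
    · obtain ⟨z, g, h1, h2, h3⟩ := int_dg2 hA 1 2 (by norm_num) (by norm_num)
      rw [one_mul] at h2
      refine ⟨z, g, h1, h2, fun Y => ?_⟩
      rw [h3 n _ Y, d2]
      show - (((1 : ℕ) : ℤ) * F - el 2) = _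
      push_cast
      ring
    · obtain ⟨z, g, h1, h2, h3⟩ := int_dg1 hA 3 (by norm_num)
      exact ⟨z, g, h1, h2, fun Y => h3 n _ Y⟩
    · obtain ⟨z, g, h1, h2, h3⟩ := int_dg2 hA 1 3 (by norm_num) (by norm_num)
      rw [one_mul] at h2
      refine ⟨z, g, h1, h2, fun Y => ?_⟩
      rw [h3 n _ Y, d4]
      show - (((1 : ℕ) : ℤ) * F - el 4) = _
      push_cast
      ring
  | true =>
    have d0 : el 0 = F - el 0 := hg.el_dual 0 (by norm_num)
    have d1 : el 1 = el 0 := hg.self_eq rfl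
    have d2 : el 3 = F - el 2 := hg.el_dual 2 (by norm_num)
    have d4 : el 5 = F - el 4 := hg.el_dual 4 (by norm_num)
    interval_cases x
    · obtain ⟨z, g, h1, h2, h3⟩ := int_dg1 hA 0 (by norm_num)
      exact ⟨z, g, h1, h2, fun Y => h3 n _ Y⟩
    · obtain ⟨z, g, h1, h2, h3⟩ := int_dg1 hA 0 (by norm_num)
      refine ⟨z, g, h1, h2, fun Y => ?_⟩
      rw [h3 n _ Y, d1]
      rfl
    · obtain ⟨z, g, h1, h2, h3⟩ := int_dg1 hA 1 (by norm_num)
      exact ⟨z, g, h1, h2, fun Y => h3 n _ Y⟩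
    · obtain ⟨z, g, h1, h2, h3⟩ := int_dg2 hA 2 1 (by norm_num) (by norm_num)
      refine ⟨z, g, h1, h2, fun Y => ?_⟩
      rw [h3 n _ Y, d2]
      show - (((2 : ℕ) : ℤ) * el 0 - el 2) = _
      push_cast
      linarith
    · obtain ⟨z, g, h1, h2, h3⟩ := int_dg1 hA 2 (by norm_num)
      exact ⟨z, g, h1, h2, fun Y => h3 n _ Y⟩
    · obtain ⟨z, g, h1, h2, h3⟩ := int_dg2 hA 2 2 (by norm_num) (by norm_num)
      refine ⟨z, g, h1, h2, fun Y => ?_⟩
      rw [h3 n _ Y, d4]
      show - (((2 : ℕ) : ℤ) * el 0 - el 4) = _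
      push_cast
      linarith

/-! ### The new entry -/

theorem int_entry (hA : NumAStmt) (hD : NumDStmt) (hM : MemAStmt) {sf : Bool} {n el : ℕ → ℤ} {F : ℤ}
    {st : ℕ} (hg : Good sf n el F) (hh : Holds n el st) (kd i q k : ℕ) (hi : i < 150) (hk : k < 47)
    (hok : introOk st kd i q = true) (Y : ℕ → ℕ → ℤ) (hY : ∀ i j, 0 ≤ Y i j) :
    ∃ Y' : ℕ → ℕ → ℤ, (∀ i j, 0 ≤ Y' i j) ∧ (∀ i j, i ≠ k → Y' i j = Y i j) ∧
      ∃ (z : ℤ) (g : ℕ → ℤ), int_P (k + 1) z g 16 ∧
        ((introV (dxT sf) st k kd i q : ℕ) : ℤ) = z + ((OFF : ℕ) : ℤ) ∧ lin n (env sf el F) Y' g = 0 := by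
  have hx : i / 25 < 6 := by omega
  have ha : i / 5 % 5 < 5 := by omega
  have hq5 : kd = 2 → q < 5 := by
    rintro rfl
    exact (int_ok2 st i q hok).1
  obtain ⟨y, hy0, hyM, hysum⟩ := int_vec hM hg hh kd i q hi hok
  obtain ⟨z1, g1, p1, c1, l1⟩ := int_D hA hD hg (i / 25) hx
  obtain ⟨g2, p2, l2⟩ := int_S hA n kd i q hq5
  have hm := int_M_lt st kd i
  obtain ⟨g3, p3, l3⟩ := int_unm hA n (introM st kd i) k hk
  have p4 := int_P_smul hA (-1) (int_P_const hA (k + 1) (i / 5 % 5) ha)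
  have p := int_P_add hA (int_P_add hA (int_P_add hA (int_P_up p1 (Nat.zero_le (k + 1)))
    (int_P_up p2 (Nat.zero_le (k + 1)))) p3) p4
  have p' : int_P (k + 1) _ _ 16 := int_P_mono p (by rw [abs_neg, abs_one]; norm_num)
  refine ⟨fun i j => if i = k then y j else Y i j, fun i j => ?_, fun i j hij => if_neg hij, _, _, p', ?_, ?_⟩
  · show 0 ≤ if i = k then y j else Y i j
    by_cases h : i = k
    · rw [if_pos h]
      exact hy0 j
    · rw [if_neg h]
      exact hY i j
  · have e1 : introV (dxT sf) st k kd i q = getT (dxT sf) (8 + i / 25) + introS kd i q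
        + getT unmT (introM st kd i) * 2 ^ (16 * (k + 1)) - E (i / 5 % 5) := rfl
    rw [e1, hD.2.2.2.1 _ hm]
    have h4 := int_nonneg hA p' (by norm_num)
    generalize hu : unmE (introM st kd i) * 2 ^ (16 * (k + 1)) = U at *
    generalize hS : introS kd i q = S at *
    generalize hG : getT (dxT sf) (8 + i / 25) = G at *
    generalize hE : E (i / 5 % 5) = Ea at *
    generalize hO : OFF = O at *
    have h5 : Ea ≤ G + S + U := by
      have : (Ea : ℤ) ≤ G + S + U := by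
        rw [c1]
        linarith
      exact_mod_cast this
    rw [Nat.cast_sub h5]
    push_cast
    rw [c1]
    ring
  · rw [int_lin_add, int_lin_add, int_lin_add, int_lin_smul, l1, l2, l3, int_lin_const _ _ _ _ ha]
    have h5 : ∀ c ∈ range 5, (if (introM st kd i).testBit c = true then (0 : ℤ) else 1) *
        ((if k = k then y c else Y k c) * n c) = y c * n c := by
      intro c hc
      by_cases h : (introM st kd i).testBit c = true
      · rw [if_pos h, hyM c (mem_range.mp hc) h]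
        ring
      · rw [if_neg h, if_pos rfl]
        ring
    rw [sum_congr rfl h5, ← hysum]
    ring

/-! ### The induction -/

theorem int_succ (dx : ℕ) (sf : Bool) (st f c tbl k : ℕ) : intro dx sf st (f + 1) c tbl k =
    Nat.casesOn (motive := fun _ => Bool) (byt c 0)
      (run dx sf st 2000 true (drp c 1) tbl (1 + 2 * k) OFF 1 Stk.nil)
      (fun kd => introStep dx st (intro dx sf st f) (drp c 3) tbl k kd (byt c 1) (byt c 2)) := rfl

theorem int_stepEq (dx st : ℕ) (ih : ℕ → ℕ → ℕ → Bool) (c tbl k kd i q : ℕ) :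
    introStep dx st ih c tbl k kd i q =
      cond (cond (cond (Nat.ble i 149) (Nat.ble k 46) false) (introOk st kd i q) false)
        (ih c (appV tbl (1 + 2 * k) (introV dx st k kd i q)) (k + 1)) false := rfl

theorem int_cond {a b : Bool} (h : cond a b false = true) : a = true ∧ b = true := by
  cases a
  · exact absurd h (by simp)
  · exact ⟨rfl, h⟩

theorem int_main (hA : NumAStmt) (hD : NumDStmt) (hM : MemAStmt) (hR : RunStmt) {sf : Bool}
    {n el : ℕ → ℤ} {F : ℤ} {st : ℕ} (hg : Good sf n el F) (hh : Holds n el st) (f : ℕ) :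
    ∀ (Y : ℕ → ℕ → ℤ) (c tbl k : ℕ), (∀ i j, 0 ≤ Y i j) → tbl < 2 ^ (4096 * (1 + 2 * k)) →
      (∀ r < 1 + 2 * k, ∃ g, Rep (getT tbl r) g 33 ∧ lin n (env sf el F) Y g = 0 ∧
        ∀ j < 5, ∀ i < 47, k ≤ i → g (48 * j + (i + 1)) = 0) →
      intro (dxT sf) sf st f c tbl k = true → False := by
  induction f with
  | zero =>
    intro Y c tbl k _ _ _ h
    exact absurd h (by simp [intro])
  | succ f ih =>
    intro Y c tbl k hY ht hT h
    rw [int_succ] at h
    generalize byt c 0 = b0 at h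
    rcases b0 with _ | kd
    · have h' : run (dxT sf) sf st 2000 true (drp c 1) tbl (1 + 2 * k) OFF 1 Stk.nil = true := h
      have hT' : TOk n (env sf el F) Y tbl (1 + 2 * k) := by
        refine ⟨by omega, ht, fun r hr => ?_⟩
        obtain ⟨g, h1, h2, -⟩ := hT r hr
        exact ⟨g, h1, h2⟩
      have hO : OFF < 2 ^ (4096 * 1) := by
        rw [mul_one]
        exact hD.2.2.2.2.2.1
      have h1 := hR sf n el F Y st hg hh hY 2000 true (drp c 1) tbl (1 + 2 * k) OFF 1 Stk.nil hT'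
        (le_refl 1) hO trivial h'
      refine h1.1 rfl fun q hq => ?_
      have hq0 : q = 0 := by omega
      subst hq0
      rw [hD.2.2.2.2.2.2]
      refine ⟨fun _ => 0, hA.2.2.2.2.2.2.2.2.2.2.2.2.1 _ _ _ _ hA.2.2.2.2.2.2.2.2.2.1 (by norm_num), ?_⟩
      simp [psi, cval]
    · have h' : introStep (dxT sf) st (intro (dxT sf) sf st f) (drp c 3) tbl k kd (byt c 1) (byt c 2) = true := h
      rw [int_stepEq] at h'
      obtain ⟨h1, h2⟩ := int_cond h'
      obtain ⟨h3, hok⟩ := int_cond h1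
      obtain ⟨h4, h5⟩ := int_cond h3
      have hi : byt c 1 < 150 := by
        have := Nat.le_of_ble_eq_true h4
        omega
      have hk : k < 47 := by
        have := Nat.le_of_ble_eq_true h5
        omega
      generalize byt c 1 = i at *
      generalize byt c 2 = q at *
      obtain ⟨Y', hY', hYY, z, g, pg, cg, lg⟩ := int_entry hA hD hM hg hh kd i q k hi hk hok Y hY
      generalize hV : introV (dxT sf) st k kd i q = V at *
      have r1 : Rep V g 16 := int_rep hA V pg cg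
      have r2 : Rep V g 33 := hA.2.2.2.2.2.2.2.2.2.2.2.2.1 _ _ _ _ r1 (by norm_num)
      have r3 : Rep (2 * OFF - V) (fun p => - g p) 33 :=
        hA.2.2.2.2.2.2.2.2.2.2.2.1 _ _ _ r2 (by norm_num)
      have hp : (2 : ℕ) ^ 3904 ≤ 2 ^ 4096 := by
        have h8 : ∀ a b : ℕ, a ≤ b → (2 : ℕ) ^ a ≤ 2 ^ b := fun a b hab => Nat.pow_le_pow_right (by norm_num) hab
        exact h8 3904 4096 (by norm_num)
      have b1 : V < 2 ^ 4096 := (hA.2.2.2.2.2.2.2.2.2.2.2.2.2 _ _ _ r2 (by norm_num)).trans_le hp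
      have b2 : 2 * OFF - V < 2 ^ 4096 := (hA.2.2.2.2.2.2.2.2.2.2.2.2.2 _ _ _ r3 (by norm_num)).trans_le hp
      obtain ⟨t1, t2, t3, t4⟩ := hD.2.1 tbl (1 + 2 * k) V ht b1 b2
      have e1 : 1 + 2 * k + 2 = 1 + 2 * (k + 1) := by ring
      rw [e1] at t1
      refine ih Y' _ _ (k + 1) hY' t1 (fun r hr => ?_) h2
      have hr' : r < 1 + 2 * k ∨ r = 1 + 2 * k ∨ r = 1 + 2 * k + 1 := by omega
      rcases hr' with hr' | hr' | hr'
      · obtain ⟨g0, s1, s2, s3⟩ := hT r hr'
        rw [t4 r hr']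
        refine ⟨g0, s1, ?_, fun j hj i hi hki => s3 j hj i hi (by omega)⟩
        rw [int_lin_congr n _ Y Y' k g0 hYY (fun j hj => s3 j hj k hk (le_refl k))]
        exact s2
      · rw [hr', t2]
        exact ⟨g, r2, lg, pg.2.2⟩
      · rw [hr', t3]
        refine ⟨fun p => - g p, r3, ?_, fun j hj i hi hki => ?_⟩
        · have h6 := int_lin_smul n (env sf el F) Y' (-1) g
          rw [lg, mul_zero] at h6
          have h7 : (-1 : ℤ) • g = fun p => - g p := by
            funext p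
            simp
          rw [h7] at h6
          exact h6
        · show - g (48 * j + (i + 1)) = 0
          rw [pg.2.2 j hj i hi hki, neg_zero]

/-- **Int.** Soundness of a leaf. -/
theorem int (hA : NumAStmt) (hD : NumDStmt) (hM : MemAStmt) (hR : RunStmt) : IntStmt := by
  intro sf n el F st c hg hh h
  have h' : intro (dxT sf) sf st 100 c OFF 0 = true := h
  refine int_main hA hD hM hR hg hh 100 (fun _ _ => 0) c OFF 0 (fun _ _ => le_refl 0) ?_ (fun r hr => ?_) h'
  · have e1 : 4096 * (1 + 2 * 0) = 4096 := rfl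
    rw [e1]
    exact hD.2.2.2.2.2.1
  · have hr0 : r = 0 := by omega
    subst hr0
    rw [hD.2.2.2.2.2.2]
    refine ⟨fun _ => 0, hA.2.2.2.2.2.2.2.2.2.2.2.2.1 _ _ _ _ hA.2.2.2.2.2.2.2.2.2.1 (by norm_num), ?_,
      fun _ _ _ _ _ => rfl⟩
    simp [lin, cval]

end Pool.Agent.MP_62a449_al.Five
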