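import Pool.Agent.Lib.MP_62a449_al.Five.Spec

/-!
Elementary facts about the semigroup `Mem` and the good situations: `MemAStmt`.
-/

namespace Pool.Agent.MP_62a449_al.Five

open Finset

theorem mema_add (n : ℕ → ℤ) (y z : ℤ) (hy : Mem n y) (hz : Mem n z) : Mem n (y + z) := by
  obtain ⟨u, hu, rfl⟩ := hy
  obtain ⟨v, hv, rfl⟩ := hz
  refine ⟨fun j => u j + v j, fun j => add_nonneg (hu j) (hv j), ?_⟩
  rw [← Finset.sum_add_distrib]
  exact Finset.sum_congr rfl fun j _ => by ring

theorem mema_gen (n : ℕ → ℤ) (a : ℕ) (ha : a < 5) : Mem n (n a) := by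
  refine ⟨fun j => if j = a then 1 else 0, fun j => ?_, ?_⟩
  · show (0 : ℤ) ≤ if j = a then 1 else 0
    split_ifs <;> norm_num
  · simp [ha]

theorem mema_zero (n : ℕ → ℤ) : Mem n 0 := ⟨fun _ => 0, fun _ => le_rfl, by simp⟩

theorem mema_row (sf : Bool) (n el : ℕ → ℤ) (F : ℤ) (hG : Good sf n el F) (x : ℕ) (hx : x < 6)
    (a : ℕ) (ha : a < 5) : ∃ b < 5, b ≠ a ∧ Mem n (el x + n a - n b) := by
  obtain ⟨y, hy, hsum⟩ := hG.el_add x hx a ha
  by_cases hz : ∀ b < 5, y b = 0
  · exfalso
    have h0 : el x + n a = 0 := by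
      rw [hsum]
      exact Finset.sum_eq_zero fun j hj => by rw [hz j (Finset.mem_range.1 hj), zero_mul]
    obtain ⟨b, hb, hba⟩ : ∃ b < 5, b ≠ a := by
      by_cases h : a = 0
      · exact ⟨1, by norm_num, by omega⟩
      · exact ⟨0, by norm_num, fun h' => h h'.symm⟩
    refine hG.gen b hb a ha hba ?_
    have h1 := hG.el_add x hx b hb
    have h2 : n b - n a = el x + n b := by linarith
    rw [h2]
    exact h1
  · push Not at hz
    obtain ⟨b, hb, hyb⟩ := hz
    have hb1 : 1 ≤ y b := by
      have := hy b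
      omega
    have hm : Mem n (el x + n a - n b) := by
      refine ⟨fun j => if j = b then y j - 1 else y j, fun j => ?_, ?_⟩
      · show (0 : ℤ) ≤ if j = b then y j - 1 else y j
        split_ifs with h
        · rw [h]
          omega
        · exact hy j
      · have h3 : ∀ j ∈ Finset.range 5, (if j = b then y j - 1 else y j) * n j =
            y j * n j - (if j = b then n b else 0) := by
          intro j _
          split_ifs with h
          · rw [h]
            ring
          · ring
        rw [Finset.sum_congr rfl h3, Finset.sum_sub_distrib, ← hsum]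
        simp [hb]
    refine ⟨b, hb, fun hba => ?_, hm⟩
    rw [hba] at hm
    exact hG.el_not x hx (by simpa using hm)

theorem mema_dual (sf : Bool) (n el : ℕ → ℤ) (F : ℤ) (hG : Good sf n el F) (x : ℕ) (hx : x < 6)
    (a : ℕ) (b : ℕ) (h : Mem n (el x + n a - n b)) :
    ¬ Mem n (el (dlx sf x) + n b - n a) := by
  intro h'
  have h1 := mema_add n _ _ h h'
  rw [hG.el_dual x hx] at h1
  refine hG.F_not ?_
  have h2 : F = el x + n a - n b + (F - el x + n b - n a) := by ring
  rw [h2]
  exact h1

theorem memA : MemAStmt :=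
  ⟨mema_add, mema_gen, mema_zero, fun sf n el F hG x hx a ha => mema_row sf n el F hG x hx a ha,
    fun sf n el F hG x hx a _ b _ h => mema_dual sf n el F hG x hx a b h⟩

end Pool.Agent.MP_62a449_al.Five
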