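import Pool.Agent.Lib.MP_62a449_al.Five.Spec

/-!
Digits of codes (statement `NumBStmt`).
-/

namespace Pool.Agent.MP_62a449_al.Five

open Finset

theorem numb_lt (B : ℕ) (d : ℕ → ℕ) : ∀ N : ℕ, (∀ p < N, d p < B) →
    ∑ p ∈ range N, d p * B ^ p < B ^ N := by
  intro N
  induction N with
  | zero => intro _; simp
  | succ N ih =>
    intro hd
    have h1 := ih (fun p hp => hd p (by omega))
    have h2 : d N + 1 ≤ B := hd N (by omega)
    rw [sum_range_succ, pow_succ]
    have h3 : (d N + 1) * B ^ N ≤ B * B ^ N := Nat.mul_le_mul_right _ h2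
    calc ∑ p ∈ range N, d p * B ^ p + d N * B ^ N < B ^ N + d N * B ^ N := by omega
      _ = (d N + 1) * B ^ N := by ring
      _ ≤ B * B ^ N := h3
      _ = B ^ N * B := by ring

theorem numb_split (B : ℕ) (d : ℕ → ℕ) (s t : ℕ) :
    ∑ p ∈ range (s + t), d p * B ^ p =
      ∑ p ∈ range s, d p * B ^ p + B ^ s * ∑ i ∈ range t, d (s + i) * B ^ i := by
  rw [sum_range_add, mul_sum]
  congr 1
  refine sum_congr rfl fun i _ => ?_
  rw [pow_add]
  ring

theorem numb_dm (B : ℕ) (hB : 0 < B) (d : ℕ → ℕ) (N s t : ℕ) (h : s + t ≤ N)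
    (hd : ∀ p < N, d p < B) :
    (∑ p ∈ range N, d p * B ^ p) / B ^ s % B ^ t = ∑ i ∈ range t, d (s + i) * B ^ i := by
  obtain ⟨u, rfl⟩ : ∃ u, N = s + (t + u) := ⟨N - s - t, by omega⟩
  have hA : ∑ p ∈ range s, d p * B ^ p < B ^ s := numb_lt B d s (fun p hp => hd p (by omega))
  have hC : ∑ i ∈ range t, d (s + i) * B ^ i < B ^ t :=
    numb_lt B (fun i => d (s + i)) t (fun p hp => hd (s + p) (by omega))
  have hBs : 0 < B ^ s := Nat.pow_pos hB
  rw [numb_split B d s (t + u), Nat.add_mul_div_left _ _ hBs, Nat.div_eq_of_lt hA, Nat.zero_add]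
  have := numb_split B (fun i => d (s + i)) t u
  rw [this, Nat.add_mul_mod_self_left, Nat.mod_eq_of_lt hC]

/-- the natural digits of a code -/
theorem numb_nat {X : ℕ} {g : ℕ → ℤ} {b : ℤ} (h : Rep X g b) (hb : b < 32768) :
    (∀ p < 244, (g p + 32768).toNat < 65536) ∧
    (∀ p < 244, (((g p + 32768).toNat : ℕ) : ℤ) = g p + 32768) ∧
    X = ∑ p ∈ range 244, (g p + 32768).toNat * 65536 ^ p := by
  obtain ⟨hX, hg⟩ := h
  have h1 : ∀ p < 244, -32768 < g p ∧ g p < 32768 := fun p hp => by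
    have := abs_le.1 (hg p hp)
    constructor <;> linarith [this.1, this.2]
  have h2 : ∀ p < 244, (((g p + 32768).toNat : ℕ) : ℤ) = g p + 32768 := fun p hp =>
    Int.toNat_of_nonneg (by linarith [(h1 p hp).1])
  refine ⟨fun p hp => ?_, h2, ?_⟩
  · have := h2 p hp
    have h3 := (h1 p hp).2
    omega
  · have h3 : (X : ℤ) = ((∑ p ∈ range 244, (g p + 32768).toNat * 65536 ^ p : ℕ) : ℤ) := by
      rw [hX, encZ, Nat.cast_sum]
      refine sum_congr rfl fun p hp => ?_
      rw [Nat.cast_mul, h2 p (mem_range.1 hp), Nat.cast_pow]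
      rfl
    exact_mod_cast h3

theorem numb_digit {X : ℕ} {g : ℕ → ℤ} {b : ℤ} (h : Rep X g b) (hb : b < 32768) (p : ℕ)
    (hp : p < 244) : X / 65536 ^ p % 65536 = (g p + 32768).toNat := by
  obtain ⟨h1, _, h3⟩ := numb_nat h hb
  have := numb_dm 65536 (by norm_num) (fun p => (g p + 32768).toNat) 244 p 1 (by omega) h1
  rw [← h3] at this
  simpa using this

theorem numb_range48 (g : ℕ → ℤ) (j : ℕ) (hj : j < 5) :
    encZ (fun p => if 48 * j ≤ p ∧ p < 48 * j + 48 then g p else 0) =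
      (∑ i ∈ range 48, g (48 * j + i) * 65536 ^ i) * 65536 ^ (48 * j) := by
  obtain ⟨u, hu⟩ : ∃ u, 244 = 48 * j + (48 + u) := ⟨196 - 48 * j, by omega⟩
  unfold encZ
  rw [hu, sum_range_add, sum_range_add]
  have h1 : ∑ p ∈ range (48 * j), (if 48 * j ≤ p ∧ p < 48 * j + 48 then g p else 0) * (65536 : ℤ) ^ p = 0 := by
    refine sum_eq_zero fun p hp => ?_
    have := mem_range.1 hp
    rw [if_neg (by omega), zero_mul]
  have h2 : ∑ x ∈ range u, (if 48 * j ≤ 48 * j + (48 + x) ∧ 48 * j + (48 + x) < 48 * j + 48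
      then g (48 * j + (48 + x)) else 0) * (65536 : ℤ) ^ (48 * j + (48 + x)) = 0 := by
    refine sum_eq_zero fun p hp => ?_
    rw [if_neg (by omega), zero_mul]
  rw [h1, h2, zero_add, add_zero, sum_mul]
  refine sum_congr rfl fun i hi => ?_
  have := mem_range.1 hi
  show (if 48 * j ≤ 48 * j + i ∧ 48 * j + i < 48 * j + 48 then g (48 * j + i) else 0) * _ = _
  rw [if_pos (by omega), pow_add]
  ring

theorem numb_blk_eq (W j : ℕ) :
    blk W j = W >>> (768 * j) % 2 ^ 768 * E j + OFF - OFFc * E j := rfl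

/-- **NumB.** -/
theorem numB (hA : NumAStmt) : NumBStmt := by
  obtain ⟨hOFF, hOFFc, hE, -, -, -, -, hpos, hRep, -⟩ := hA
  refine ⟨?_, ?_, ?_⟩
  · intro X g b h hb p hp
    rw [numb_digit h hb p hp]
    exact (numb_nat h hb).2.1 p hp
  · intro W g b h hb0 hb j hj
    obtain ⟨h1, h2, h3⟩ := numb_nat h hb
    have hbound : ∀ p < 244, |(if 48 * j ≤ p ∧ p < 48 * j + 48 then g p else 0)| ≤ b := by
      intro p hp
      split_ifs
      · exact h.2 p hp
      · simpa using hb0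
    rw [hRep]
    refine ⟨?_, hbound⟩
    have hnn := hpos (fun p => if 48 * j ≤ p ∧ p < 48 * j + 48 then g p else 0)
      (fun p hp => by
        have := hbound p hp
        exact this.trans hb.le)
    rw [numb_range48 g j hj] at hnn ⊢
    have hsh : W >>> (768 * j) % 2 ^ 768 = ∑ i ∈ range 48, (g (48 * j + i) + 32768).toNat * 65536 ^ i := by
      have e1 : (2 : ℕ) ^ (768 * j) = 65536 ^ (48 * j) := by
        rw [show (65536 : ℕ) = 2 ^ 16 by norm_num, ← pow_mul]
        congr 1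
        ring
      have e2 : (2 : ℕ) ^ 768 = 65536 ^ 48 := by
        rw [show (65536 : ℕ) = 2 ^ 16 by norm_num, ← pow_mul]
      rw [Nat.shiftRight_eq_div_pow, e1, e2]
      have := numb_dm 65536 (by norm_num) (fun p => (g p + 32768).toNat) 244 (48 * j) 48 (by omega) h1
      rw [← h3] at this
      exact this
    have hS : ((∑ i ∈ range 48, (g (48 * j + i) + 32768).toNat * 65536 ^ i : ℕ) : ℤ) =
        ∑ i ∈ range 48, g (48 * j + i) * 65536 ^ i + ∑ p ∈ range 48, 32768 * 65536 ^ p := by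
      rw [Nat.cast_sum, ← sum_add_distrib]
      refine sum_congr rfl fun i hi => ?_
      have := mem_range.1 hi
      rw [Nat.cast_mul, h2 (48 * j + i) (by omega), Nat.cast_pow, add_mul]
      rfl
    have hkey : ((W >>> (768 * j) % 2 ^ 768 * E j + OFF : ℕ) : ℤ) =
        ((OFFc * E j : ℕ) : ℤ) + ((∑ i ∈ range 48, g (48 * j + i) * 65536 ^ i) * 65536 ^ (48 * j)
          + encZ (fun _ => 32768)) := by
      rw [hsh, Nat.cast_add, Nat.cast_mul, Nat.cast_mul, hS, hOFFc, hOFF, hE]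
      push_cast
      ring
    rw [numb_blk_eq, Nat.cast_sub, hkey]
    · ring
    · have : ((OFFc * E j : ℕ) : ℤ) ≤ ((W >>> (768 * j) % 2 ^ 768 * E j + OFF : ℕ) : ℤ) := by
        rw [hkey]
        linarith
      exact_mod_cast this
  · intro X g b h hb p hp k hk
    rw [← numb_digit h hb p hp]
    have e1 : (65536 : ℕ) ^ p = 2 ^ (16 * p) := by
      rw [show (65536 : ℕ) = 2 ^ 16 by norm_num, ← pow_mul]
    have e2 : (65536 : ℕ) = 2 ^ 16 := by norm_num
    rw [e1]
    conv_rhs => rw [e2]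
    rw [Nat.testBit_mod_two_pow, Nat.testBit_div_two_pow]
    simp [hk, Nat.add_comm]

end Pool.Agent.MP_62a449_al.Five
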