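import Pool.Agent.Lib.MP_62a449_al.Five.Spec

/-!
Consequences of `NumA`, `NumB`: literals, sign tests, constant digit, degree digits.
-/

namespace Pool.Agent.MP_62a449_al.Five

open Finset

theorem numc_pow (k : ℕ) : (2 : ℕ) ^ (16 * k) = 65536 ^ k := by
  rw [pow_mul]; norm_num

theorem numc_one (hA : NumAStmt) (hB : NumBStmt) (W : ℕ) (g : ℕ → ℤ) (b : ℤ) (hR : Rep W g b)
    (h0 : 0 ≤ b) (hb : b < 32767) (j : ℕ) (hj : j < 5) :
    Rep (lit W j) (fun p => (if 48 * j ≤ p ∧ p < 48 * j + 48 then g p else 0)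
      + (if p = 48 * j then 1 else 0)) (b + 1) := by
  obtain ⟨-, -, hE, -, hadd, -, hsing, -, hrep, -⟩ := hA
  have h1 := (hrep _ _ _).1 (hB.2.1 W g b hR h0 (by omega) j hj)
  rw [hrep]
  constructor
  · have e1 := hadd (fun p => if 48 * j ≤ p ∧ p < 48 * j + 48 then g p else 0)
      (fun p => if p = 48 * j then 1 else 0)
    have e2 := hsing (48 * j) (by omega) 1
    rw [e1, e2, show lit W j = blk W j + E j from rfl, Nat.cast_add, h1.1, hE j, Nat.cast_pow]
    push_cast
    generalize (65536 : ℤ) ^ (48 * j) = P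
    ring
  · intro p hp
    have h2 := h1.2 p hp
    have h3 : |(if p = 48 * j then (1 : ℤ) else 0)| ≤ 1 := by
      split_ifs <;> norm_num
    exact le_trans (abs_add_le _ _) (add_le_add h2 h3)

theorem numc_two (hA : NumAStmt) (hB : NumBStmt) (W : ℕ) (g : ℕ → ℤ) (b : ℤ) (hR : Rep W g b)
    (h0 : 0 ≤ b) (hb : b < 32768) (j : ℕ) (hj : j < 5) :
    Rep (ngl W j) (fun p => - (if 48 * j ≤ p ∧ p < 48 * j + 48 then g p else 0)) b := by
  obtain ⟨-, -, -, -, -, -, -, -, -, -, -, hneg, -⟩ := hA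
  have h1 := hneg (blk W j) _ b (hB.2.1 W g b hR h0 hb j hj) (le_of_lt hb)
  have e : ngl W j = 2 * OFF - blk W j := by
    unfold ngl
    generalize OFF = O
    rfl
  rw [e]
  exact h1

/-- a digit whose top bit is set is nonnegative -/
theorem numc_sign (x b : ℤ) (h : |x| ≤ b) (hb : b < 32768)
    (ht : (x + 32768).toNat.testBit 15 = true) : 0 ≤ x := by
  have h1 := Nat.ge_two_pow_of_testBit ht
  have h2 := abs_le.1 h
  norm_num at h1
  omega

theorem numc_land (W M s : ℕ) (h : Nat.land W M = M) (hM : M.testBit s = true) :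
    W.testBit s = true := by
  have h1 : (W &&& M).testBit s = true := by
    rw [show W &&& M = M from h]; exact hM
  rw [Nat.testBit_and, hM, Bool.and_true] at h1
  exact h1

theorem numc_three (hA : NumAStmt) (hB : NumBStmt) (T : ℕ) (g : ℕ → ℤ) (b : ℤ) (hR : Rep T g b)
    (hb : b < 32768) (hl : Nat.land T OFF = OFF) (p : ℕ) (hp : p < 244) : 0 ≤ g p := by
  have hO : Rep OFF (fun _ => 0) 0 := hA.2.2.2.2.2.2.2.2.2.1
  have h1 := hB.2.2 OFF (fun _ => 0) 0 hO (by norm_num) p hp 15 (by norm_num)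
  have h2 : OFF.testBit (16 * p + 15) = true := by
    rw [h1]; decide
  have h3 := numc_land T OFF _ hl h2
  rw [hB.2.2 T g b hR hb p hp 15 (by norm_num)] at h3
  exact numc_sign _ _ (hR.2 p hp) hb h3

/-- the mask has the top bits of the coordinates in `t` -/
theorem numc_top : ∀ t < 32, ∀ j < 5, t.testBit j = true → ∀ i < 48,
    (topE t).testBit (16 * (48 * j + i) + 15) = true := by
  decide +kernel

theorem numc_four (hB : NumBStmt) (W : ℕ) (g : ℕ → ℤ) (b : ℤ) (t : ℕ) (hR : Rep W g b)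
    (hb : b < 32768) (ht : t < 32) (hl : Nat.land W (topE t) = topE t)
    (j : ℕ) (hj : j < 5) (hbit : t.testBit j = true) (i : ℕ) (hi : i < 48) :
    0 ≤ g (48 * j + i) := by
  have h3 := numc_land W (topE t) _ hl (numc_top t ht j hj hbit i hi)
  rw [hB.2.2 W g b hR hb (48 * j + i) (by omega) 15 (by norm_num)] at h3
  exact numc_sign _ _ (hR.2 _ (by omega)) hb h3

theorem numc_five (hB : NumBStmt) (T : ℕ) (g : ℕ → ℤ) (b : ℤ) (j : ℕ) (hR : Rep T g b)
    (hb : b < 32768) (hj : j < 5) (h : 32769 ≤ (T >>> (768 * j)) % 65536) : 1 ≤ g (48 * j) := by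
  have h1 := hB.1 T g b hR hb (48 * j) (by omega)
  rw [Nat.shiftRight_eq_div_pow, show 768 * j = 16 * (48 * j) by ring, numc_pow] at h
  generalize T / 65536 ^ (48 * j) % 65536 = q at h h1
  omega

theorem numc_shift (X q : ℕ) : X / 65536 ^ (240 + q) = (X >>> 3840) / 65536 ^ q := by
  rw [Nat.shiftRight_eq_div_pow, show 3840 = 16 * 240 by norm_num, numc_pow, pow_add, Nat.div_div_eq_div_mul]

theorem numc_six (hA : NumAStmt) (hB : NumBStmt) (W : ℕ) (g : ℕ → ℤ) (b : ℤ) (hR : Rep W g b)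
    (hb : b < 32768) (h : W >>> 3840 = OFF >>> 3840) (q : ℕ) (hq : q < 4) : g (240 + q) = 0 := by
  have hO : Rep OFF (fun _ => 0) 0 := hA.2.2.2.2.2.2.2.2.2.1
  have h1 := hB.1 W g b hR hb (240 + q) (by omega)
  have h2 := hB.1 OFF (fun _ => 0) 0 hO (by norm_num) (240 + q) (by omega)
  rw [numc_shift] at h1 h2
  rw [h] at h1
  rw [h1] at h2
  linarith

/-- **NumC.** -/
theorem numC (hA : NumAStmt) (hB : NumBStmt) : NumCStmt :=
  ⟨fun W g b hR h0 hb j hj => numc_one hA hB W g b hR h0 hb j hj,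
   fun W g b hR h0 hb j hj => numc_two hA hB W g b hR h0 hb j hj,
   fun T g b hR hb hl p hp => numc_three hA hB T g b hR hb hl p hp,
   fun W g b t hR hb ht hl j hj hbit i hi => numc_four hB W g b t hR hb ht hl j hj hbit i hi,
   fun T g b j hR hb hj h => numc_five hB T g b j hR hb hj h,
   fun W g b hR hb h q hq => numc_six hA hB W g b hR hb h q hq⟩

end Pool.Agent.MP_62a449_al.Five
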