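import Pool.Agent.Lib.MP_62a449_al.Five.Spec

/-!
`NumD`: tables of codes (slots of 4096 bits).
-/

namespace Pool.Agent.MP_62a449_al.Five

theorem numd_OFF_eq : OFF = 32768 * (2 ^ 3904 / 65535) := by decide +kernel

theorem numd_OFFc_eq : OFFc = 32768 * (2 ^ 768 / 65535) := by decide +kernel

attribute [local irreducible] OFF OFFc

theorem numd_getT (t i : ℕ) : getT t i = t / (2 ^ 4096) ^ i % 2 ^ 4096 := by
  have h : getT t i = (t >>> (4096 * i)) % 2 ^ 4096 := rfl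
  rw [h, Nat.shiftRight_eq_div_pow, pow_mul]

theorem numd_app_eq (t n L : ℕ) : app t n L = t + L * (2 ^ 4096) ^ n := by
  have h : app t n L = t + L * 2 ^ (4096 * n) := rfl
  rw [h, pow_mul]

theorem numd_gen (B t n L : ℕ) (hB : 0 < B) (ht : t < B ^ n) (hL : L < B) :
    t + L * B ^ n < B ^ (n + 1) ∧ (t + L * B ^ n) / B ^ n % B = L ∧
      ∀ i < n, (t + L * B ^ n) / B ^ i % B = t / B ^ i % B := by
  refine ⟨?_, ?_, ?_⟩
  · calc t + L * B ^ n < B ^ n + L * B ^ n := by omega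
      _ = (L + 1) * B ^ n := by ring
      _ ≤ B * B ^ n := Nat.mul_le_mul_right _ hL
      _ = B ^ (n + 1) := by ring
  · have hp : 0 < B ^ n := Nat.pow_pos hB
    rw [Nat.add_mul_div_right _ _ hp, Nat.div_eq_of_lt ht, Nat.zero_add, Nat.mod_eq_of_lt hL]
  · intro i hi
    have hp : 0 < B ^ i := Nat.pow_pos hB
    obtain ⟨k, rfl⟩ : ∃ k, n = i + 1 + k := ⟨n - (i + 1), by omega⟩
    have e : L * B ^ (i + 1 + k) = (L * B ^ k * B) * B ^ i := by ring
    rw [e, Nat.add_mul_div_right _ _ hp, Nat.add_mul_mod_self_right]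

theorem numd_app (t n L : ℕ) (ht : t < 2 ^ (4096 * n)) (hL : L < 2 ^ 4096) :
    app t n L < 2 ^ (4096 * (n + 1)) ∧ getT (app t n L) n = L ∧ ∀ i < n, getT (app t n L) i = getT t i := by
  rw [pow_mul] at ht
  rw [pow_mul]
  obtain ⟨h1, h2, h3⟩ := numd_gen (2 ^ 4096) t n L (Nat.pow_pos (by omega)) ht hL
  refine ⟨?_, ?_, ?_⟩
  · rw [numd_app_eq]
    exact h1
  · rw [numd_app_eq, numd_getT]
    exact h2
  · intro i hi
    rw [numd_app_eq, numd_getT, numd_getT]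
    exact h3 i hi

theorem numd_appV_eq (t n V : ℕ) : appV t n V = app (app t n V) (n + 1) (2 * OFF - V) := by
  have h : appV t n V = t + (V + (2 * OFF - V) * 2 ^ 4096) * 2 ^ (4096 * n) := rfl
  rw [h, numd_app_eq, numd_app_eq, pow_mul]
  generalize (2 : ℕ) ^ 4096 = B
  ring

theorem numd_mkTab (l : List ℕ) (hl : ∀ a ∈ l, a < 2 ^ 4096) (i : ℕ) :
    getT (mkTab l) i = l.getD i 0 := by
  induction l generalizing i with
  | nil =>
    rw [numd_getT]
    have h : mkTab [] = 0 := rfl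
    rw [h]
    simp only [Nat.zero_div, Nat.zero_mod, List.getD_nil]
  | cons a l ih =>
    have h : mkTab (a :: l) = a + mkTab l * 2 ^ 4096 := rfl
    have ha : a < 2 ^ 4096 := hl a (List.mem_cons_self)
    have hl' : ∀ b ∈ l, b < 2 ^ 4096 := fun b hb => hl b (List.mem_cons_of_mem _ hb)
    rw [numd_getT, h]
    have hB : 0 < 2 ^ 4096 := Nat.pow_pos (by omega)
    rcases i with _ | i
    · rw [pow_zero, Nat.div_one, Nat.add_mul_mod_self_right, Nat.mod_eq_of_lt ha, List.getD_cons_zero]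
    · rw [List.getD_cons_succ, ← ih hl' i, numd_getT]
      have e : (2 ^ 4096) ^ (i + 1) = 2 ^ 4096 * (2 ^ 4096) ^ i := by
        generalize (2 : ℕ) ^ 4096 = B
        ring
      rw [e, ← Nat.div_div_eq_div_mul, Nat.add_mul_div_right _ _ hB, Nat.div_eq_of_lt ha, Nat.zero_add]

theorem numd_getD_map (f : ℕ → ℕ) (t : ℕ) (ht : t < 32) : ((List.range 32).map f).getD t 0 = f t := by
  rw [List.getD_eq_getElem _ _ (by simpa using ht)]
  simp

theorem numd_pw (k : ℕ) (hk : k ≤ 4096) : (2 : ℕ) ^ k ≤ 2 ^ 4096 := Nat.pow_le_pow_right (by omega) hk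

theorem numd_OFFc : OFFc ≤ 2 ^ 768 := by
  rw [numd_OFFc_eq]
  generalize (2 : ℕ) ^ 768 = B
  omega

theorem numd_OFF : OFF ≤ 2 ^ 3904 := by
  rw [numd_OFF_eq]
  generalize (2 : ℕ) ^ 3904 = B
  omega

theorem numd_two (k m : ℕ) (h : k + 1 ≤ m) : 2 * (2 : ℕ) ^ k ≤ 2 ^ m := by
  have e : 2 * (2 : ℕ) ^ k = 2 ^ (k + 1) := by ring
  rw [e]
  exact Nat.pow_le_pow_right (by omega) h

theorem numd_OFF_lt : 8 * OFF < 2 ^ 4096 := by
  have h := numd_OFF
  have h2 : (2 : ℕ) ^ 4096 = 2 ^ 3904 * 2 ^ 192 := by rw [← pow_add]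
  have h3 : (16 : ℕ) ≤ 2 ^ 192 := by norm_num
  have h4 : 0 < (2 : ℕ) ^ 3904 := Nat.pow_pos (by omega)
  rw [h2]
  generalize (2 : ℕ) ^ 3904 = B at *
  generalize (2 : ℕ) ^ 192 = G at *
  calc 8 * OFF ≤ 8 * B := Nat.mul_le_mul_left _ h
    _ < 16 * B := by omega
    _ ≤ G * B := Nat.mul_le_mul_right _ h3
    _ = B * G := by ring

theorem numd_sum_lt (a0 a1 a2 a3 a4 C : ℕ) (h0 : a0 ≤ 1) (h1 : a1 ≤ 1) (h2 : a2 ≤ 1) (h3 : a3 ≤ 1) (h4 : a4 ≤ 1)
    (hC : C ≤ 2 ^ 768) :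
    C * (a0 + a1 * 2 ^ 768 + a2 * 2 ^ 1536 + a3 * 2 ^ 2304 + a4 * 2 ^ 3072) < 2 ^ 4096 := by
  have e1 : (2 : ℕ) ^ 1536 = 2 ^ 768 * 2 ^ 768 := by rw [← pow_add]
  have e2 : (2 : ℕ) ^ 2304 = 2 ^ 768 * 2 ^ 768 * 2 ^ 768 := by rw [← pow_add, ← pow_add]
  have e3 : (2 : ℕ) ^ 3072 = 2 ^ 768 * 2 ^ 768 * 2 ^ 768 * 2 ^ 768 := by rw [← pow_add, ← pow_add, ← pow_add]
  have e4 : (2 : ℕ) ^ 4096 = 2 ^ 768 * 2 ^ 768 * 2 ^ 768 * 2 ^ 768 * 2 ^ 768 * 2 ^ 256 := by
    rw [← pow_add, ← pow_add, ← pow_add, ← pow_add, ← pow_add]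
  have h5 : (8 : ℕ) ≤ 2 ^ 256 := by norm_num
  have h6 : 0 < (2 : ℕ) ^ 768 := Nat.pow_pos (by omega)
  rw [e1, e2, e3, e4]
  generalize (2 : ℕ) ^ 768 = B at *
  generalize (2 : ℕ) ^ 256 = G at *
  have hb : a0 + a1 * B + a2 * (B * B) + a3 * (B * B * B) + a4 * (B * B * B * B) ≤ 5 * (B * B * B * B) := by
    have f0 : 1 ≤ B := h6
    have f1 : B ≤ B * B := Nat.le_mul_of_pos_left _ h6
    have f2 : B * B ≤ B * B * B := Nat.le_mul_of_pos_right _ h6
    have f3 : B * B * B ≤ B * B * B * B := Nat.le_mul_of_pos_right _ h6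
    have g1 : a1 * B ≤ 1 * B := Nat.mul_le_mul_right _ h1
    have g2 : a2 * (B * B) ≤ 1 * (B * B) := Nat.mul_le_mul_right _ h2
    have g3 : a3 * (B * B * B) ≤ 1 * (B * B * B) := Nat.mul_le_mul_right _ h3
    have g4 : a4 * (B * B * B * B) ≤ 1 * (B * B * B * B) := Nat.mul_le_mul_right _ h4
    omega
  have hp : 0 < B * B * B * B * B :=
    Nat.mul_pos (Nat.mul_pos (Nat.mul_pos (Nat.mul_pos h6 h6) h6) h6) h6
  calc C * (a0 + a1 * B + a2 * (B * B) + a3 * (B * B * B) + a4 * (B * B * B * B))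
      ≤ B * (5 * (B * B * B * B)) := Nat.mul_le_mul hC hb
    _ = 5 * (B * B * B * B * B) := by ring
    _ < 8 * (B * B * B * B * B) := by omega
    _ ≤ G * (B * B * B * B * B) := Nat.mul_le_mul_right _ h5
    _ = B * B * B * B * B * G := by ring

theorem numd_topE_lt (t : ℕ) : topE t < 2 ^ 4096 := by
  have h : topE t = OFFc * (t % 2 + (t / 2 % 2) * 2 ^ 768 + (t / 4 % 2) * 2 ^ 1536 + (t / 8 % 2) * 2 ^ 2304
    + (t / 16 % 2) * 2 ^ 3072) := rfl
  rw [h]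
  exact numd_sum_lt _ _ _ _ _ _ (by omega) (by omega) (by omega) (by omega) (by omega) numd_OFFc

theorem numd_unmE_lt (m : ℕ) : unmE m < 2 ^ 4096 := by
  have h : unmE m = (1 - m % 2) + (1 - m / 2 % 2) * 2 ^ 768 + (1 - m / 4 % 2) * 2 ^ 1536
    + (1 - m / 8 % 2) * 2 ^ 2304 + (1 - m / 16 % 2) * 2 ^ 3072 := rfl
  rw [h]
  have := numd_sum_lt (1 - m % 2) (1 - m / 2 % 2) (1 - m / 4 % 2) (1 - m / 8 % 2) (1 - m / 16 % 2) 1
    (by omega) (by omega) (by omega) (by omega) (by omega) (Nat.one_le_pow _ _ (by omega))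
  rw [one_mul] at this
  exact this

theorem numd_D_le (j : ℕ) (hj : j ≤ 3) : D j ≤ 2 ^ 3904 := by
  have h : D j = 2 ^ (3840 + 16 * j) := rfl
  rw [h]
  exact Nat.pow_le_pow_right (by omega) (by omega)

theorem numd_dxL (sf : Bool) : ∀ a ∈ dxL sf, a < 2 ^ 4096 := by
  have h := numd_OFF
  have d0 := numd_D_le 0 (by omega)
  have d1 := numd_D_le 1 (by omega)
  have d2 := numd_D_le 2 (by omega)
  have d3 := numd_D_le 3 (by omega)
  have h2 : (2 : ℕ) ^ 4096 = 2 ^ 3904 * 2 ^ 192 := by rw [← pow_add]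
  have h3 : (16 : ℕ) ≤ 2 ^ 192 := by norm_num
  have h4 : 0 < (2 : ℕ) ^ 3904 := Nat.pow_pos (by omega)
  have hh : 16 * 2 ^ 3904 ≤ (2 : ℕ) ^ 4096 := by
    rw [h2, Nat.mul_comm]
    exact Nat.mul_le_mul_left _ h3
  generalize (2 : ℕ) ^ 3904 = B at *
  generalize (2 : ℕ) ^ 4096 = B' at *
  intro a ha
  cases sf
  · have e : dxL false = [OFF - D 1, OFF + D 1 - D 0, OFF - D 2, OFF + D 2 - D 0, OFF - D 3, OFF + D 3 - D 0, OFF, OFF - D 0,
      OFF + D 1, OFF + D 0 - D 1, OFF + D 2, OFF + D 0 - D 2, OFF + D 3, OFF + D 0 - D 3] := rfl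
    rw [e] at ha
    simp only [List.mem_cons, List.not_mem_nil, or_false] at ha
    generalize OFF = F at *
    generalize D 0 = x0 at *
    generalize D 1 = x1 at *
    generalize D 2 = x2 at *
    generalize D 3 = x3 at *
    omega
  · have e : dxL true = [OFF - D 0, OFF - D 0, OFF - D 1, OFF + D 1 - 2 * D 0, OFF - D 2, OFF + D 2 - 2 * D 0, OFF, OFF - 2 * D 0,
      OFF + D 0, OFF + D 0, OFF + D 1, OFF + 2 * D 0 - D 1, OFF + D 2, OFF + 2 * D 0 - D 2] := rfl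
    rw [e] at ha
    simp only [List.mem_cons, List.not_mem_nil, or_false] at ha
    generalize OFF = F at *
    generalize D 0 = x0 at *
    generalize D 1 = x1 at *
    generalize D 2 = x2 at *
    generalize D 3 = x3 at *
    omega

theorem numD : NumDStmt := by
  refine ⟨numd_app, ?_, ?_, ?_, ?_, ?_, ?_⟩
  · intro t n V ht hV hW
    rw [numd_appV_eq]
    obtain ⟨a1, a2, a3⟩ := numd_app t n V ht hV
    obtain ⟨b1, b2, b3⟩ := numd_app (app t n V) (n + 1) (2 * OFF - V) a1 hW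
    refine ⟨b1, ?_, b2, ?_⟩
    · rw [b3 n (by omega), a2]
    · intro i hi
      rw [b3 i (by omega), a3 i hi]
  · intro t ht
    have h : topT = mkTab ((List.range 32).map topE) := rfl
    rw [h, numd_mkTab, numd_getD_map _ _ ht]
    intro a ha
    rw [List.mem_map] at ha
    obtain ⟨b, _, rfl⟩ := ha
    exact numd_topE_lt b
  · intro t ht
    have h : unmT = mkTab ((List.range 32).map unmE) := rfl
    rw [h, numd_mkTab, numd_getD_map _ _ ht]
    intro a ha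
    rw [List.mem_map] at ha
    obtain ⟨b, _, rfl⟩ := ha
    exact numd_unmE_lt b
  · intro sf i _
    have h : dxT sf = mkTab (dxL sf) := rfl
    rw [h, numd_mkTab _ (numd_dxL sf)]
  · have h := numd_OFF_lt
    generalize (2 : ℕ) ^ 4096 = B at *
    omega
  · have h := numd_OFF_lt
    rw [numd_getT, pow_zero, Nat.div_one]
    apply Nat.mod_eq_of_lt
    generalize (2 : ℕ) ^ 4096 = B at *
    omega

end Pool.Agent.MP_62a449_al.Five
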