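import Pool.Agent.Lib.MP_62a449_al.Five.Sem
import Pool.Agent.Lib.MP_62a449_al.Defs

/-!
Statements (with proofs in the docstrings) for the soundness of the checker `Five/Chk.lean` and for the
theorem `A(5) = 5`.  Used statements may be taken as hypotheses.

Remark on the definitions of `Chk.lean`: they are written with `Nat.add`, `Nat.div`, ... and
`nat_lit`; `Nat.add a b = a + b`, `Nat.sub`, `Nat.mul`, `Nat.div`, `Nat.mod`, `Nat.pow`, `Nat.shiftRight`, ... hold
by `rfl` (for instance `show` or `change` the unfolded term with the usual notation, or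
`simp only [Nat.add_eq, Nat.mul_eq, Nat.sub_eq, Nat.pow_eq, Nat.div_eq_div, Nat.mod_eq_mod]`-style lemmas, or prove
`foo = (usual expression) := rfl` first; do this for small functions, never unfold the big constants `2 ^ 3904` with `decide` or
`norm_num`; mark `OFF`, `OFFc`, `E`, `D` irreducible locally if needed).
`cond b x y` is `if b then x else y`; `Nat.casesOn k a f` on a variable: use `cases k` or `rcases k with _ | k`.
-/

namespace Pool.Agent.MP_62a449_al.Five

open Finset

/-! ## Numbers -/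

/-- **NumA.** Linear algebra of codes.
Proofs: `OFF = 32768 * (2^3904 / 65535)` and `2^3904 = 65536^244`, `(65536^244 - 1) = 65535 * ∑_{p<244} 65536^p`
(`Nat.geomSum_eq` / `geom_sum_eq`/ `mul_geom_sum`), so `2^3904 / 65535 = ∑ 65536^p` (`Nat.div_eq_of_lt_le`), hence
`(OFF : ℤ) = encZ (fun _ => 32768)`; `OFFc` in the same way with 48 digits.  `encZ` is linear (`sum_add_distrib`, `mul_sum`);
a single digit: `sum_ite_eq`.  If all `|g p| ≤ 32768` then `0 ≤ encZ (g + 32768)`, so `Rep` follows from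
the integer identity. Bound: digits `g p + 32768 ≤ 65535` (as `b < 32768`), so
`encZ ≤ ∑ 65535 * 65536^p = 65536^244 - 1 < 2^3904`. -/
def NumAStmt : Prop :=
  ((OFF : ℕ) : ℤ) = encZ (fun _ => 32768) ∧
  ((OFFc : ℕ) : ℤ) = ∑ p ∈ range 48, 32768 * 65536 ^ p ∧
  (∀ j, E j = 65536 ^ (48 * j)) ∧ (∀ j, D j = 65536 ^ (240 + j)) ∧
  (∀ g h : ℕ → ℤ, encZ (fun p => g p + h p) = encZ g + encZ h) ∧
  (∀ (c : ℤ) (g : ℕ → ℤ), encZ (fun p => c * g p) = c * encZ g) ∧
  (∀ p0 < 244, ∀ c : ℤ, encZ (fun p => if p = p0 then c else 0) = c * 65536 ^ p0) ∧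
  (∀ g : ℕ → ℤ, (∀ p < 244, |g p| ≤ 32768) → 0 ≤ encZ g + encZ (fun _ => 32768)) ∧
  -- `Rep` in terms of `encZ g`
  (∀ (X : ℕ) (g : ℕ → ℤ) (b : ℤ), Rep X g b ↔
    ((X : ℤ) = encZ g + encZ (fun _ => 32768) ∧ ∀ p < 244, |g p| ≤ b)) ∧
  Rep OFF (fun _ => 0) 0 ∧
  (∀ (X Y : ℕ) (g h : ℕ → ℤ) (b c : ℤ), Rep X g b → Rep Y h c → b + c ≤ 32768 →
    Rep (X + Y - OFF) (fun p => g p + h p) (b + c)) ∧
  (∀ (X : ℕ) (g : ℕ → ℤ) (b : ℤ), Rep X g b → b ≤ 32768 → Rep (2 * OFF - X) (fun p => - g p) b) ∧
  (∀ (X : ℕ) (g : ℕ → ℤ) (b c : ℤ), Rep X g b → b ≤ c → Rep X g c) ∧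
  (∀ (X : ℕ) (g : ℕ → ℤ) (b : ℤ), Rep X g b → b < 32768 → X < 2 ^ 3904)

/-- **NumB.** Digits.  With `d p = (g p + 32768).toNat < 65536` we have `X = ∑_{p<244} d p * 65536^p` in `ℕ`
(cast to `ℤ`, `Int.toNat_of_nonneg`).  General lemma, by splitting the sum (`sum_range_add` or induction):
for `d p < 65536` and `s + t ≤ 244`: `X / 65536^s % 65536^t = ∑_{i<t} d (s+i) * 65536^i`
(`∑_{p<s} d p 65536^p < 65536^s`: induction). The first claim is `t = 1`, the second is `s = 48 j`, `t = 48`
together with `X >>> k = X / 2^k` (`Nat.shiftRight_eq_div_pow`), `2^(768 j) = 65536^(48 j)`; then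
`blk` adds `OFF - OFFc * E j = ∑_{p not in the block} 32768 * 65536^p` (use `NumA`), so the code of the restriction results
(work in `ℤ`: `(blk W j : ℤ) = ∑_{i<48} (g (48 j + i) + 32768) 65536^(48 j + i) + OFF - ∑_{i<48} 32768 * 65536^(48 j + i)
= encZ (restriction) + OFF ≥ 0`, which also shows that the subtraction is exact).
Third claim: testBit: `X.testBit (16 p + k) = (X / 65536^p % 65536).testBit k` for `k < 16`
(`Nat.testBit_div_two_pow`/`Nat.testBit_shiftRight`, `Nat.testBit_mod_two_pow`). -/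
def NumBStmt : Prop :=
  (∀ (X : ℕ) (g : ℕ → ℤ) (b : ℤ), Rep X g b → b < 32768 → ∀ p < 244,
    ((X / 65536 ^ p % 65536 : ℕ) : ℤ) = g p + 32768) ∧
  (∀ (W : ℕ) (g : ℕ → ℤ) (b : ℤ), Rep W g b → 0 ≤ b → b < 32768 → ∀ j < 5,
    Rep (blk W j) (fun p => if 48 * j ≤ p ∧ p < 48 * j + 48 then g p else 0) b) ∧
  (∀ (X : ℕ) (g : ℕ → ℤ) (b : ℤ), Rep X g b → b < 32768 → ∀ p < 244, ∀ k < 16,
    X.testBit (16 * p + k) = (g p + 32768).toNat.testBit k)

/-- **NumC.** Consequences of `NumA`, `NumB` (hypotheses).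
(1), (2): `lit W j = blk W j + E j`, add the unit digit at `48 j` (`NumA`); `ngl W j = 2 * OFF - blk W j`.
(3) If `Nat.land T OFF = OFF` then for `p < 244` bit `16 p + 15` of `OFF` is `1` (`NumB` third part for
`Rep OFF 0 0`: `32768.testBit 15`), so bit `16 p + 15` of `T` is `1` (`Nat.testBit_and`), so by `NumB`
`(g p + 32768).toNat.testBit 15 = true`, and a number `< 65536` with bit 15 is `≥ 32768`; hence `g p ≥ 0`.
(4) `topE t = OFFc * ∑_j (t / 2^j % 2) * 2^(768 j)`: with `β j = t / 2^j % 2 ∈ {0,1}` it is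
`∑_{j<5} ∑_{i<48} β j * 32768 * 65536^(48 j + i)`, i.e. a number with digits `β (p/48) * 32768` for `p < 240`; its bit
`16 (48 j + i) + 15` is `1` if `t.testBit j` (same digit lemma as in `NumB`); conclude as in (3).
(5) constant digit: `T >>> (768 j) % 65536` is the digit number `48 j`.
(6) degree digits: `W >>> 3840 = W / 65536^240`, and digit `q` of it is digit `240 + q` of `W`; same for `OFF`. -/
def NumCStmt : Prop :=
  (∀ (W : ℕ) (g : ℕ → ℤ) (b : ℤ), Rep W g b → 0 ≤ b → b < 32767 → ∀ j < 5,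
    Rep (lit W j) (fun p => (if 48 * j ≤ p ∧ p < 48 * j + 48 then g p else 0) + (if p = 48 * j then 1 else 0)) (b + 1)) ∧
  (∀ (W : ℕ) (g : ℕ → ℤ) (b : ℤ), Rep W g b → 0 ≤ b → b < 32768 → ∀ j < 5,
    Rep (ngl W j) (fun p => - (if 48 * j ≤ p ∧ p < 48 * j + 48 then g p else 0)) b) ∧
  (∀ (T : ℕ) (g : ℕ → ℤ) (b : ℤ), Rep T g b → b < 32768 → Nat.land T OFF = OFF → ∀ p < 244, 0 ≤ g p) ∧
  (∀ (W : ℕ) (g : ℕ → ℤ) (b : ℤ) (t : ℕ), Rep W g b → b < 32768 → t < 32 → Nat.land W (topE t) = topE t →
    ∀ j < 5, t.testBit j = true → ∀ i < 48, 0 ≤ g (48 * j + i)) ∧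
  (∀ (T : ℕ) (g : ℕ → ℤ) (b : ℤ) (j : ℕ), Rep T g b → b < 32768 → j < 5 →
    32769 ≤ (T >>> (768 * j)) % 65536 → 1 ≤ g (48 * j)) ∧
  (∀ (W : ℕ) (g : ℕ → ℤ) (b : ℤ), Rep W g b → b < 32768 → W >>> 3840 = OFF >>> 3840 →
    ∀ q < 4, g (240 + q) = 0)

/-- **NumD.** Tables.  `getT t i = t / 2^(4096 i) % 2^4096`. If `t < 2^(4096 n)` and `L < 2^4096`, then
`t + L * 2^(4096 n) < 2^(4096 (n+1))`, its entry `n` is `L`, its entries `i < n` are those of `t`
(`(t + L 2^(4096 n)) / 2^(4096 i) = t / 2^(4096 i) + L * 2^(4096 (n - i))`, and `4096 (n-i) ≥ 4096`), the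
entries `> n` are `0`.  `appV` appends two entries.  `mkTab`: by induction on the list, if all
entries are `< 2^4096`: `getT (mkTab l) i = l.getD i 0`.  `unmE t`, `topE t`, the entries of `dxL` are `< 2^4096`
(bound them: `OFF < 2^3904`, `OFFc < 2^768`, `E`, `D` are powers). -/
def NumDStmt : Prop :=
  (∀ t n L : ℕ, t < 2 ^ (4096 * n) → L < 2 ^ 4096 →
    app t n L < 2 ^ (4096 * (n + 1)) ∧ getT (app t n L) n = L ∧ ∀ i < n, getT (app t n L) i = getT t i) ∧
  (∀ t n V : ℕ, t < 2 ^ (4096 * n) → V < 2 ^ 4096 → 2 * OFF - V < 2 ^ 4096 →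
    appV t n V < 2 ^ (4096 * (n + 2)) ∧ getT (appV t n V) n = V ∧ getT (appV t n V) (n + 1) = 2 * OFF - V ∧
    ∀ i < n, getT (appV t n V) i = getT t i) ∧
  (∀ t < 32, getT topT t = topE t) ∧ (∀ t < 32, getT unmT t = unmE t) ∧
  (∀ (sf : Bool) (i : ℕ), i < 14 → getT (dxT sf) i = (dxL sf).getD i 0) ∧
  OFF < 2 ^ 4096 ∧ getT OFF 0 = OFF

/-! ## Elementary facts about `Mem` and `Good` -/

/-- **MemA.** (1) sums, (2) generators and zero, (3) row rule: `el x + n a ∈ Γ`, say `= ∑ y_j n_j`. If `y = 0` on `range 5` then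
`el x = - n a`, take `b ≠ a`: `el x + n b = n b - n a ∈ Γ`, against `gen`. So some `y_b ≥ 1` (`b < 5`), and
`el x + n a - n b ∈ Γ`; `b ≠ a` because `el x ∉ Γ`.
(4) `F` is not the sum of two elements. -/
def MemAStmt : Prop :=
  (∀ (n : ℕ → ℤ) (y z : ℤ), Mem n y → Mem n z → Mem n (y + z)) ∧
  (∀ (n : ℕ → ℤ) (a : ℕ), a < 5 → Mem n (n a)) ∧ (∀ n : ℕ → ℤ, Mem n 0) ∧
  (∀ (sf : Bool) (n el : ℕ → ℤ) (F : ℤ), Good sf n el F → ∀ x < 6, ∀ a < 5,
    ∃ b < 5, b ≠ a ∧ Mem n (el x + n a - n b)) ∧
  (∀ (sf : Bool) (n el : ℕ → ℤ) (F : ℤ), Good sf n el F → ∀ x < 6, ∀ a < 5, ∀ b < 5,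
    Mem n (el x + n a - n b) → ¬ Mem n (el (dlx sf x) + n b - n a))

/-! ## The machine -/

/-- **Fct.** Every legal fact code represents a value outside the semigroup.
Hypotheses `NumAStmt`, `NumDStmt`. Case by case: `fact0`: `i ≤ 149` and bit `150 + i` of `st` is `1`
(`bitT st k = 1 ↔ st.testBit k`), the code is `(OFF - deg x) + E a - E b` with `x = i / 25`, `a = i / 5 % 5`, `b = i % 5`;
the form has degree digits of `- deg x` and constants `+1` at `48 a`, `-1` at `48 b` (they cancel if `a = b`), so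
`lin = n a - n b + el x` (using `el_dual` for the odd `x`: for `sf = false`: `deg 1 = D0 - D1`, value `F - el 0 = el 1`, `dlx false x = x xor 1`;
for `sf = true`: `deg 0 = deg 1 = D0`, `deg 2 = D1`, `deg 3 = 2 D0 - D1`, ... and `F = 2 el 0`, `el 1 = el 0`).
The variable digits are `0`, so `cval Y g j = g (48 j)`.  `fact1`: `n r - n b`, `fact2`: `F` or `el r`, `fact3`: `el r - el b`,
`fact4`: `MEMv i - n b`.  All digits are at most `4` in absolute value. -/
def FctStmt : Prop :=
  ∀ (sf : Bool) (n el : ℕ → ℤ) (F : ℤ) (Y : ℕ → ℕ → ℤ) (st k r b : ℕ), Good sf n el F → Holds n el st →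
    r < 256 → b < 256 → fact (dxT sf) sf st k r b ≠ 0 → FOk n (env sf el F) Y (fact (dxT sf) sf st k r b)

/-- **Fsm.** Farkas certificates.  Hypotheses `NumAStmt`, `NumCStmt`.
Induction on `m` (`Nat.rec` step by `rfl`): the new `S` has form `g + λ g_q` with `λ = byt c 1`, where `g_q` comes from
`Ctx` at `q = byt c 0 % nc < nc` (`Nat.mod_lt`), `psi` is linear, `λ ≥ 0`. End: `T = S - Lam * OFF`, `Lam ≤ 150`, is the code
of `g` with bound `210 * 150 < 32768` (the subtraction is exact because `encZ g + OFF ≥ 0`), so all digits are `≥ 0` and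
`g (48 j) ≥ 1` by `NumC` (3), (5); hence `psi Y g ≥ g (48 j) ≥ 1` (all terms of `cval` are `≥ 0`), contradiction. -/
def FsmStmt : Prop :=
  ∀ (Y : ℕ → ℕ → ℤ) (cb nc j : ℕ), (∀ i j, 0 ≤ Y i j) → 1 ≤ nc → j < 5 → Ctx Y cb nc →
    ∀ (m c S Lam : ℕ) (g : ℕ → ℤ), (S : ℤ) = encZ g + (1 + Lam) * encZ (fun _ => 32768) →
      (∀ p < 244, |g p| ≤ 210 * Lam) → psi Y g ≤ 0 → fsum cb nc j m c S Lam = true → False

/-- **Run.** Soundness of the machine. Hypotheses `NumAStmt`, `NumCStmt`, `NumDStmt`, `FctStmt`, `FsmStmt`.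
Induction on the fuel `f` for all modes and all arguments (`run dx sf st (f+1) = step ... (run dx sf st f)` by `rfl`).

Goal mode, op 0 and 2 (`clause3`, `clause6`): all references are `< nt` (mod), so `W` is `V1 + V2 + V3 + fact - 3 OFF`, a code with bound
`6 * 33 + 4 ≤ 209` (`NumA` in `ℤ`), form `g = g1 + g2 + g3 + gf`, `lin g = lin gf` by linearity, not in `Γ`. The degree digits of `g` vanish
(`NumC` (6)), so `lin g = ∑_j cval Y g j * n j`; if all `cval Y g j ≥ 0` this would be in `Γ`; so `WOk Y W`. The coordinates in the mask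
`tm` have nonnegative digits (`NumC` (4), `getT topT tm = topE tm`), so `cval Y g j ≥ 0` there. The continuation in frame
mode gives `SGoal` of the new stack: for `j` not in `tm`, `Ctx` and `cval ≤ -1` are contradictory. So from `Ctx Y cb nc`: the `j` with
`cval Y g j ≤ -1` gives a contradiction. (The form of a code is unique on `p < 244`: from the digits, `NumB`; or use that
`SGoal` is stated for all `g` with `Rep W g 209`.)
Op 1 (`fLeaf`): `fsum` with `S = OFF`, `Lam = 0`, `g = 0`: `Ctx` is contradictory; then `pop`.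
Op 3 (`divOp`): the stack is empty. `W = V1 + V2 - OFF` with `lin g = 0` and zero degree digits, `g ≤ 4`; each of the ten certificates
(`dChk`, `t = 9, ..., 0`) shows with `fsum` (initial form `l0 * dLit`, whose `psi` is `≤ 0` if the literal holds) that under `Ctx` the literal
`dLit W g w t` is false: so `cval Y g j ≤ gg * w_j` and `≥ gg * w_j`, `w_j = byt w j - 32`; hence `gg * ∑ w_j n_j = 0`, `∑ w_j n_j = 0`, and the new entry
`dNew` (form: constants `w_j`, `|w_j| ≤ 32`) and its negative are vectors: `TOk` for the new table (under `Ctx`), and the induction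
hypothesis gives the contradiction. The literals: even `t`: code of `gg w_j + 1 - W_j`, odd `t`: `W_j + 1 - gg w_j`, bound `66 + 129 ≤ 210`.

Frame mode, stack `cons W m cb nc s'` (for `nil`: `Stk.casesOn` gives `false`), `j = op % 5 < 5`, `m' = m ||| 2^j`:
t = 0 (`inl`): `fsum` with initial form `l0 * lit W j`: under `Ctx Y cb nc` the literal `cval Y g j + 1 ≤ 0` is impossible; if `m' = 31` the only
coordinate that may be missing in `m` is `j`; then `pop` gives `SGoal s'`; otherwise the continuation gives the obligations for `m'`.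
t = 1 (`lastC`): the continuation in goal mode with the context `app cb nc (lit W j)`: if `cval Y g j ≤ -1` this context is true (`psi` of the
restricted form is `cval Y g j + 1 ≤ 0`; `NumC` (1) with bound `210`, `NumD`).
t = 2 (`kid`), t = 3 (`kidN`): in the same way; for `kidN` the frame gets the negated literal: if `cval Y g j ≥ 0` then `Ctx` of the extended
list holds, otherwise the child gives the contradiction.
t ≥ 4 (`endF`): `m = 31`, no obligations.
`pop k c tbl nt s = true`: for `nil` nothing; otherwise the continuation in frame mode gives `SGoal s`. -/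
def RunStmt : Prop :=
  ∀ (sf : Bool) (n el : ℕ → ℤ) (F : ℤ) (Y : ℕ → ℕ → ℤ) (st : ℕ), Good sf n el F → Holds n el st →
    (∀ i j, 0 ≤ Y i j) → ∀ (f : ℕ) (md : Bool) (c tbl nt cb nc : ℕ) (s : Stk),
      TOk n (env sf el F) Y tbl nt → 1 ≤ nc → cb < 2 ^ (4096 * nc) → SWf Y s →
      run (dxT sf) sf st f md c tbl nt cb nc s = true →
      (md = true → Ctx Y cb nc → False) ∧ SGoal Y s

/-- **Int.** Soundness of a leaf.  Hypotheses `NumAStmt`, `NumDStmt`, `MemAStmt`, `RunStmt`.
Prove by induction on the fuel of `intro`, for all `Y ≥ 0`, `tbl`, `k ≤ 47`: if `1 + 2 k` entries are vectors `g` (with `Rep _ g 33`, `lin = 0`) whose digits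
`g (48 j + (i + 1))` vanish for `i ≥ k`, `j < 5`, `tbl < 2^(4096 (1+2k))` and `intro ... = true`, then `False`. End (byte 0): `RunStmt` with
`cb = OFF`, `nc = 1` (entry `0` is the zero form, `psi = 0`) and the empty stack. Step: `i ≤ 149`, `x = i / 25`, `a = i / 5 % 5`, `b = i % 5`; let
`v` be the value `el x + n a` (kind 0), `MEMv i` (kinds 1 and ≥ 3), `MEMv i - n q` (kind 2, `q ≤ 4`); it is in `Γ`: kind 0 by
`el_add`, kind 1 by the row rule (`MemA` (3): all `c ≠ a, b` are excluded by the bits `NON`, so the `b'` of the row rule is `b`;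
`bitT`, `row` bits are `st.testBit (150 + 5 r + c)`), kind 2, ≥ 3 by the bits. Say `v = ∑ y_j n_j`. For a coordinate `c < 5` in the mask
`introM` we have `y_c = 0`: otherwise `v - n c ∈ Γ`, and: `c = a`: then `el x ∈ Γ` after adding `n b`, `n q`; `NON (x,a,c)`: then `el x + n a - n c ∈ Γ` after adding;
`PUR (i, c)` (kinds ≥ 3): `MEMv i - n c ∈ Γ`. Put `Y'` = `Y` with slot `k` (i.e. `Y' k j`) replaced by `y j`. The entry
`introV` has the form: `+ deg x`, constants `-1` at `48 a`, `+1` at `48 b` (kinds ≥ 1), `+1` at `48 q` (kind 2), and digit `1` at `48 c + (k + 1)` for `c` not in the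
mask (`unmE` is the sum of the units `E c`, times `2^(16 (k+1))`); all digits `≤ 3` in absolute value, and
`lin = n b + n q + ∑_{c} y_c n_c - n a - el x = 0`. The old entries do not see slot `k`.  `i.e. lin n v Y' g = lin n v Y g`. -/
def IntStmt : Prop :=
  ∀ (sf : Bool) (n el : ℕ → ℤ) (F : ℤ) (st c : ℕ), Good sf n el F → Holds n el st →
    leaf (dxT sf) sf st c = true → False

/-! ## The pattern level -/

/-- **Bit.** Bits of states.  `bitT st k = if st.testBit k then 1 else 0`; `row st r` has bits `(row st r).testBit c = st.testBit (150 + 5 r + c)` for `c < 5`;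
`pw b = 2^b`.  `rowFull st i = true` says that every `c < 5` is `a`, `b` or has its `NON` bit (`Nat.lor`: `Nat.testBit_or`,
31 = all bits `< 5`). New states: if `Holds n el st` and the new fact is true then the new state holds (the regions `0..149`, `150..299`,
`300..1049`, `1050..1799` are disjoint; `testBit` of `st ||| 2^k`: `Nat.testBit_or`, `Nat.testBit_two_pow`; the dual index: `MEMv n el (dli sf i) =
el (dlx sf x) + n b - n a`, not in `Γ` by `MemA` (5) (hypothesis `MemAStmt`); `swq`: `MEMv (x,a,q) - n b = MEMv (x,a,b) - n q`). -/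
def BitStmt : Prop :=
  (∀ st k, bitT st k = if st.testBit k = true then 1 else 0) ∧
  (∀ st i, i < 150 → rowFull st i = true → ∀ c < 5, c ≠ i / 5 % 5 → c ≠ i % 5 →
    st.testBit (150 + (5 * (i / 5) + c)) = true) ∧
  (∀ st i d, i < 150 → rowFull2 st i d = true → ∀ c < 5, c ≠ i / 5 % 5 → c ≠ i % 5 → c ≠ d →
    st.testBit (150 + (5 * (i / 5) + c)) = true) ∧
  (∀ st r, r < 30 → rowEmpty st r = true → ∀ c < 5, c ≠ r % 5 → st.testBit (150 + (5 * r + c)) = true) ∧
  (∀ (sf : Bool) (n el : ℕ → ℤ) (F : ℤ) (st i : ℕ), Good sf n el F → Holds n el st → i < 150 →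
    Mem n (MEMv n el i) → Holds n el (addM sf st i)) ∧
  (∀ (n el : ℕ → ℤ) (st i : ℕ), Holds n el st → i < 150 → ¬ Mem n (MEMv n el i) → Holds n el (addN st i)) ∧
  (∀ (n el : ℕ → ℤ) (st i q : ℕ), Holds n el st → i < 150 → q < 5 → Mem n (MEMv n el i - n q) →
    Holds n el (addX st i q)) ∧
  (∀ (n el : ℕ → ℤ) (st i q : ℕ), Holds n el st → i < 150 → q < 5 → ¬ Mem n (MEMv n el i - n q) →
    Holds n el (addP st i q)) ∧
  (∀ (n el : ℕ → ℤ) (st L : ℕ), Holds n el st → Nat.land st L = L → Holds n el L)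

/-- **Prc.** The price test.  Hypotheses `BitStmt`, `MemAStmt`.
Induction on `m` in `prc`, with the invariant: there is a set `R` of indices `i < 150` read so far with distinct rows `i / 5 < lo` and
`S ≤ ∑_{i ∈ R} byt w (i / 25) * (if Arrow x a b then 12 / (1 + ecount x a b) else 0)`, and for the sum over all rows
`∑_{x<6} w_x * price x` is at least that (each `(x, a)` occurs once: `sum_le_sum_of_subset` after reindexing `i ↦ (x, a, b)`).
For a new index: `rowFull` gives `¬ Mem (el x + n a - n c)` for all `c ≠ a, b`. If `a = b` this contradicts the row rule (`MemA` (3)). So `Arrow x a b`.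
`ecount x a b ≤ eub`: the set in `ecount` is contained in `{c < 5 : c ≠ a, b}` (3 elements) minus the `c` with bit `MEM (dual x, c, a)`, since for
those `F - el x + n c - n a = MEMv (25 * dual x + 5 c + a) ∈ Γ`.  `Nat.div_le_div_left`. End: `61 ≤ S ≤ ∑ w_x price x ≤ 60` by `Good.wt`. -/
def PrcStmt : Prop :=
  ∀ (sf : Bool) (n el : ℕ → ℤ) (F : ℤ) (st wi m c : ℕ), Good sf n el F → Holds n el st →
    prc sf st (wtT sf wi) m c 0 0 = true → False

/-- **Rel.** Relabelling.  `Mem (n ∘ π) = Mem n` (reindex the sum by the permutation `π` of `range 5`; `y ∘ π⁻¹`), `Arrow`, `ecount`, `price` are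
invariant (sums and cards reindexed by `π`), and the swap `x ↦ x xor s` of the elements `0, 1` (only if `sf = false`) permutes `price 0`, `price 1`,
whose weights in `wtT false wi` are equal for every `wi` (the three values `0x0303`, `0x02020101`, `0x010101010101`; bytes by `decide`/`rfl`).
`dlx false (x xor s)` commutes. -/
def RelStmt : Prop :=
  ∀ (sf : Bool) (n el : ℕ → ℤ) (F : ℤ) (π : ℕ → ℕ) (s : ℕ), (∀ a < 5, π a < 5) →
    (∀ a < 5, ∀ b < 5, π a = π b → a = b) → s ≤ 1 → (sf = true → s = 0) → Good sf n el F →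
    Good sf (fun a => n (π a)) (fun x => if x < 2 then el (Nat.xor x s) else el x) F ∧
    (∀ z, Mem (fun a => n (π a)) z ↔ Mem n z)

/-- **Ref.** References. Hypotheses `RelStmt`, `BitStmt`. `permOk p`: the five bytes `byt p 0, ..., byt p 4` have `2^(byt p 0) ||| ... = 31`, so each is `< 5` (a power
of two that is part of `31`) and they are distinct (otherwise fewer than five bits). `refB`: by induction on the count, for every `i < 50`
the bits `i`, `150 + i` of `L` are `≤` the bits of `st` at the permuted index `i' = 25 (x xor s) + 5 p_a + p_b`, and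
`MEMv n el i' = MEMv n' el' i` for the relabelled `n' = n ∘ p`, `el'`. `refMask`: `L` has no other bits. So `Holds n' el' L` and
the claim for `L` applies to `n', el', F`. (`m2 = false` in the claim for `L`.) -/
def RefStmt : Prop :=
  ∀ (sf : Bool) (n el : ℕ → ℤ) (F : ℤ) (st L p s : ℕ), refOk sf st L p s = true → Claim sf false L →
    Good sf n el F → Holds n el st → False

/-- **Pat.** Soundness of the checker. Hypotheses `MemAStmt`, `IntStmt`, `BitStmt`, `PrcStmt`, `RefStmt`.
Induction on the fuel: `pat ... f c items st stk = true` implies that for all `n el F` with `Good` (and `NoArrow` if `m2`), `¬ Holds n el st` and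
`¬ Holds n el st'` for all `st' ∈ stk`. `close`: the pending states.  Op 1: `Mem (MEMv i)` or not. Op 2: row rule. Op 3: `Mem (MEMv i - n q)` or not.
Op 4: row rule. Op 5: `PrcStmt`. Op 6: `RefStmt` (`getL refs k` is `0` or in `refs`; `refOk` requires `1 ≤ L`). Op 7: `L ∈ refs`, `Holds L` by `Bit`. Op 8:
`¬ Arrow x a d` (`x < 2`): if `d = a` then all `c ≠ a, b` are excluded and the row rule gives `MEM i`; otherwise there is `c < 5`, `c ≠ a, d` with
`Mem (el x + n a - n c)`, and `c = b` because the others are excluded.  Op 9: all `c ≠ a, b` are excluded: if `a = b` contradiction with the row rule, otherwise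
`Arrow x a b`, contradiction.  Finally `check`. -/
def PatStmt : Prop :=
  ∀ (sf m2 : Bool) (refs items : List ℕ) (st : ℕ), check sf m2 refs items st = true →
    (∀ L ∈ refs, Claim sf false L) → Claim sf m2 st

/-! ## From the claims to the theorem -/

/-- **Tot.** The total price is at most `60`.  For `j < 5` let `c_j` be the least natural `c` with `c * n j - n k ∈ Γ` for some `k < 5`, `k ≠ j` (if there is one).
Let `x ∈ X` with `Arrow n el x a j` (`a, j < 5`). `el x + n a = ∑ y_k n_k`; `y_a = 0` (`el x ∉ Γ`), `y_k = 0` for `k ≠ a, j` (arrow), so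
`el x + n a = p * n j` with `p = y_j` natural. `p < c` whenever `c * n j - n k ∈ Γ`, `k ≠ j`: otherwise `el x + n a - n k = (p - c) n j + (c n j - n k) ∈ Γ`, impossible.
And `(p + 1) n j - n a = el x + n j ∈ Γ` with `a ≠ j`. So `p + 1` is the least such `c`: `p = c_j - 1` depends only on `j`.
If `Arrow n el x a j` and `Arrow n el y a' j` then `el x + n a = el y + n a'`; if `a = a'` then `el x = el y`, `x = y`. If `a ≠ a'` then
`el x + n a - n a' = el y ∉ Γ` and `F - el x + n a' - n a = F - el y ∉ Γ`, `a' ≠ a, j`: so `a'` is counted in `ecount x a j`.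
Hence for the set `A_j` of the pairs `(x, a)` with `Arrow x a j` the map `(x, a) ↦ a` is injective on `A_j`, and `ecount x a j ≥ |A_j| - 1` for each member; so
`∑_{(x,a) ∈ A_j} 12 / (1 + ecount x a j) ≤ |A_j| * (12 / |A_j|) ≤ 12`. Sum over `j < 5` (`sum_comm`). -/
def TotStmt : Prop :=
  ∀ (n el : ℕ → ℤ) (F : ℤ) (X : Finset ℕ), (∀ x ∈ X, ¬ Mem n (el x)) → (∀ x ∈ X, ¬ Mem n (F - el x)) →
    (∀ x ∈ X, ∀ a < 5, Mem n (el x + n a)) → (∀ x ∈ X, ∀ y ∈ X, el x = el y → x = y) →
    ∑ x ∈ X, price n el F x ≤ 60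

/-- **Nog.** No good situation exists. Hypothesis `RelStmt`; the three claims are the results of the computations.
The start state of the root is: `NON (0,4,1)`, `NON (0,4,2)`, `NON (0,4,3)`, i.e. the bits `150 + 20 + 1, 2, 3`.
`sf = true`: directly (state `0` has no bits). `sf = false`: if `NoArrow` use the first claim. Otherwise `Arrow n el x a b` with `x < 2`, `a, b < 5`, `a ≠ b`: relabel by
a permutation `π` of `range 5` with `π 4 = a`, `π 0 = b` and `s = x`: the new `el 0` is `el x`; the three `NON` bits hold by the arrow. -/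
def NogStmt : Prop :=
  Claim false true 0 → Claim false false (2 ^ 171 + 2 ^ 172 + 2 ^ 173) → Claim true false 0 →
    ∀ (sf : Bool) (n el : ℕ → ℤ) (F : ℤ), ¬ Good sf n el F

/-- **Fam.** From a finite set of values to a good situation. Hypothesis `TotStmt`.
`P` is a finite set of at least five integers closed under `v ↦ F - v` with the listed properties. At most one `v ∈ P` has `2 v = F`.
Case A: `P` contains three disjoint pairs `{v, F - v}` with `v ≠ F - v`. Order them by the price of the pair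
(`price` of an element depends only on its value: `price n el F x = price n (fun _ => el x) F 0`), `p1 ≤ p2 ≤ p3`, and
take `el = v1, F - v1, v2, F - v2, v3, F - v3` (index by `x < 6`, any value for `x ≥ 6`). `Tot`: `p1 + p2 + p3 ≤ 60`, so
`3 p1 ≤ 60`, `p1 + 2 p2 ≤ 60`: `Good.wt` for `sf = false` (the weights are `0x0303` = (3,3,0,0,0,0), `0x02020101` = (1,1,2,2,0,0) and (1,...,1); `wtT false wi` is one of
them for every `wi`; `byt` by `decide`/`rfl`). `dlx false x = x xor 1`.
Case B: otherwise `P` has exactly two such pairs and an element `h` with `2 h = F` (`|P| ≥ 5`): `el = h, h, v1, F - v1, v2, F - v2`, `price` of pair 1 ≤ pair 2, weights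
(1,0,2,2,0,0) and (1,0,1,1,1,1), `Tot` for the five elements (`X = {0,2,3,4,5}`): `Good.wt` for `sf = true`.
(One way: choose three elements `v1, v2, v3` of `P` with `v_i ≠ v_j`, `v_i + v_j ≠ F` for `i ≠ j`: greedily, each choice kills at most 2 elements of the at least 5.
If all `2 v_i ≠ F` it is case A; otherwise exactly one of them is `h`: case B.) The differences: `v - w ∈ Γ` for `v ≠ w` in `P` is excluded by hypothesis. -/
def FamStmt : Prop :=
  ∀ (n : ℕ → ℤ) (F : ℤ) (P : Finset ℤ), ¬ Mem n F → (∀ a < 5, ∀ b < 5, a ≠ b → ¬ Mem n (n a - n b)) →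
    (∀ v ∈ P, ¬ Mem n v) → (∀ v ∈ P, ∀ a < 5, Mem n (v + n a)) → (∀ v ∈ P, F - v ∈ P) →
    (∀ v ∈ P, ∀ w ∈ P, v ≠ w → ¬ Mem n (v - w)) → 5 ≤ P.card →
    ∃ (sf : Bool) (el : ℕ → ℤ), Good sf n el F

/-- **Upp.** The upper bound. Hypothesis `FamStmt`. Let `Γ` be almost symmetric numerical with `embDim Γ = 5`, `F` its Frobenius number
(`IsGreatest`). There are five generators (`Nat.sInf_mem`), `Γ = closure s`, `s.card = 5`, minimal: no generator is in the closure of the others (otherwise
`embDim ≤ 4`). Enumerate them as `n 0, ..., n 4` (`s.equivFin` / `Finset.exists_list...`). `Mem n z ↔ z ∈ asInt Γ` (closure of a finite set: `AddSubmonoid.closure` of a range,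
`AddSubmonoid.mem_closure_finset` or induction both ways). `n a - n b ∉ Γ` for `a ≠ b`: if `n a = n b + γ`, `γ ∈ Γ`, `γ = ∑ y_k n_k`; `n a > 0` (0 cannot be in a minimal generating set), if `y_a ≥ 1` then `n a ≥ n b + n a > n a`; so
`n a` is a combination of the others, contradiction to minimality. `pseudoFrobenius Γ` is finite (bounded: a pseudo-Frobenius number `x` satisfies `x + n 0 ∈ Γ`, so `x ≥ - n 0`, and `x ≤ F`) and contains `F`. If its `ncard` is at least
`6`, let `P` be the pseudo-Frobenius numbers other than `F`, `|P| ≥ 5`. For `v ∈ P`, `v ∉ Γ`; almost symmetry: `F - v ∈ Γ` or `F - v` pseudo-Frobenius. If `F - v ∈ Γ`: `F - v = 0` is excluded, otherwise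
`v + (F - v) = F ∈ Γ`, contradiction. So `F - v ∈ PF`, and `F - v ≠ F` because `v ≠ 0` (`0 ∈ Γ`). Differences: `v = w + γ` with `γ ∈ Γ`, `γ ≠ 0`, gives `v ∈ Γ` because `w` is pseudo-Frobenius.
`FamStmt` gives a good situation, contradiction with the hypothesis. -/
def UppStmt : Prop :=
  (∀ (sf : Bool) (n el : ℕ → ℤ) (F : ℤ), ¬ Good sf n el F) →
    ∀ Γ : AddSubmonoid ℕ, Pool.Agent.MP_62a449_al.IsNumericalSemigroup Γ →
      Pool.Agent.MP_62a449_al.IsAlmostSymmetric Γ → Pool.Agent.MP_62a449_al.embDim Γ = 5 →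
      Pool.Agent.MP_62a449_al.semigroupType Γ ≤ 5

/-- **Low.** The lower bound: `Γ = ⟨14, 15, 17, 19, 20⟩`, Frobenius number `41`, pseudo-Frobenius numbers `16, 18, 23, 25, 41`. The elements of `Γ` below `42` are
0, 14, 15, 17, 19, 20, 28, 29, 30, 31, 32, 33, 34, 35, 36, 37, 38, 39, 40; everything `≥ 42` is in `Γ` (42 = 14*3, ..., 55 and add multiples of 14).
`embDim = 5`: every generating set contains 14, 15, 17, 19, 20 (none is a sum of two nonzero elements); see the end of
`Pool/Agent/Lib/MP_62a449_al/Family.lean` (`Gam_embDim`) for a similar argument. -/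
def LowStmt : Prop := (5 : ℕ∞) ≤ Pool.Agent.MP_62a449_al.maxType 5

end Pool.Agent.MP_62a449_al.Five
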