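import Mathlib
import Pool.Agent.Lib.MP_62a449_al.Five.Spec

/-!
References of the pattern level: soundness.
-/

set_option autoImplicit false

namespace Pool.Agent.MP_62a449_al.Five

/-- the permuted index -/
def refI (p s i : ℕ) : ℕ := 25 * Nat.xor (i / 25) s + (5 * byt p (i / 5 % 5) + byt p (i % 5))

theorem ref_cond_and {a b : Bool} (h : cond a b false = true) : a = true ∧ b = true := by
  cases a
  · simp at h
  · exact ⟨rfl, h⟩

theorem refB_succ (st L p s n : ℕ) : refB st L p s (n + 1) =
    cond (cond (Nat.ble (bitT L n) (bitT st (refI p s n)))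
      (Nat.ble (bitT L (150 + n)) (bitT st (150 + refI p s n))) false) (refB st L p s n) false := rfl

theorem ref_ble (hB : BitStmt) {L st a b : ℕ} (h : Nat.ble (bitT L a) (bitT st b) = true)
    (hL : L.testBit a = true) : st.testBit b = true := by
  have h1 := Nat.le_of_ble_eq_true h
  rw [hB.1 L a, hB.1 st b, if_pos hL] at h1
  by_contra hb
  rw [if_neg hb] at h1
  omega

theorem ref_B (hB : BitStmt) (st L p s : ℕ) : ∀ n, refB st L p s n = true → ∀ i < n,
    (L.testBit i = true → st.testBit (refI p s i) = true) ∧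
    (L.testBit (150 + i) = true → st.testBit (150 + refI p s i) = true) := by
  intro n
  induction n with
  | zero => intro _ i hi; omega
  | succ n ih =>
    intro h i hi
    rw [refB_succ] at h
    obtain ⟨h1, h2⟩ := ref_cond_and h
    obtain ⟨h3, h4⟩ := ref_cond_and h1
    rcases Nat.lt_succ_iff_lt_or_eq.mp hi with hlt | heq
    · exact ih h2 i hlt
    · subst heq
      exact ⟨ref_ble hB h3, ref_ble hB h4⟩

theorem ref_mask_lt : refMask < 2 ^ 200 := by
  have h : refMask = (2 ^ 50 - 1) * (1 + 2 ^ 150) := rfl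
  rw [h]
  norm_num

set_option maxRecDepth 10000 in
theorem ref_mask_low : ∀ k < 200, refMask.testBit k = true → k < 50 ∨ 150 ≤ k := by
  decide

theorem ref_mask {L : ℕ} (hL : Nat.land L refMask = L) {k : ℕ} (hk : L.testBit k = true) :
    k < 50 ∨ (150 ≤ k ∧ k < 200) := by
  have h1 : refMask.testBit k = true := by
    have h2 : (L &&& refMask).testBit k = true := by
      rw [show L &&& refMask = L from hL]
      exact hk
    rw [Nat.testBit_and, Bool.and_eq_true] at h2
    exact h2.2
  have h3 : k < 200 := by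
    by_contra h
    have h4 : refMask < 2 ^ k :=
      lt_of_lt_of_le ref_mask_lt (Nat.pow_le_pow_right (by norm_num) (by omega))
    rw [Nat.testBit_eq_false_of_lt h4] at h1
    exact absurd h1 (by simp)
  rcases ref_mask_low k h3 h1 with h | h
  · exact Or.inl h
  · exact Or.inr ⟨h, h3⟩

theorem ref_perm {p : ℕ} (h : permOk p = true) :
    (∀ a < 5, byt p a < 5) ∧ (∀ a < 5, ∀ b < 5, byt p a = byt p b → a = b) := by
  have h1 : 2 ^ byt p 0 ||| 2 ^ byt p 1 ||| 2 ^ byt p 2 ||| 2 ^ byt p 3 ||| 2 ^ byt p 4 = 31 :=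
    Nat.eq_of_beq_eq_true h
  have h2 : ∀ k, Nat.testBit 31 k = true ↔ (byt p 0 = k ∨ byt p 1 = k ∨ byt p 2 = k ∨
      byt p 3 = k ∨ byt p 4 = k) := by
    intro k
    rw [← h1]
    simp only [Nat.testBit_or, Nat.testBit_two_pow, Bool.or_eq_true, decide_eq_true_eq, or_assoc]
  have h3 : ∀ k, Nat.testBit 31 k = true → k < 5 := by
    intro k hk
    by_contra h
    have h4 : 31 < 2 ^ k :=
      lt_of_lt_of_le (by norm_num : 31 < 2 ^ 5) (Nat.pow_le_pow_right (by norm_num) (by omega))
    rw [Nat.testBit_eq_false_of_lt h4] at hk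
    exact absurd hk (by simp)
  have hlt : ∀ a < 5, byt p a < 5 := by
    intro a ha
    apply h3
    rw [h2]
    interval_cases a <;> simp
  refine ⟨hlt, ?_⟩
  let f : Fin 5 → Fin 5 := fun a => ⟨byt p a, hlt a a.2⟩
  have hs : Function.Surjective f := by
    intro k
    have hk : Nat.testBit 31 k = true := by
      fin_cases k <;> rfl
    rcases (h2 k).mp hk with h | h | h | h | h
    · exact ⟨0, Fin.ext h⟩
    · exact ⟨1, Fin.ext h⟩
    · exact ⟨2, Fin.ext h⟩
    · exact ⟨3, Fin.ext h⟩
    · exact ⟨4, Fin.ext h⟩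
  have hi : Function.Injective f := Finite.injective_iff_surjective.mpr hs
  intro a ha b hb hab
  have h5 : f ⟨a, ha⟩ = f ⟨b, hb⟩ := Fin.ext hab
  exact congrArg Fin.val (hi h5)

theorem ref_xor_lt {x s : ℕ} (hx : x < 2) (hs : s ≤ 1) : Nat.xor x s < 2 := by
  interval_cases x <;> interval_cases s <;> decide

theorem ref_memv (n el : ℕ → ℤ) {p s i : ℕ} (hp : ∀ a < 5, byt p a < 5) (hs : s ≤ 1)
    (hi : i < 50) : refI p s i < 50 ∧ MEMv n el (refI p s i) =
      MEMv (fun a => n (byt p a)) (fun x => if x < 2 then el (Nat.xor x s) else el x) i := by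
  have hx : i / 25 < 2 := by omega
  have h1 := ref_xor_lt hx hs
  have h2 := hp (i / 5 % 5) (by omega)
  have h3 := hp (i % 5) (by omega)
  have e1 : refI p s i / 25 = Nat.xor (i / 25) s := by
    unfold refI
    omega
  have e2 : refI p s i / 5 % 5 = byt p (i / 5 % 5) := by
    unfold refI
    omega
  have e3 : refI p s i % 5 = byt p (i % 5) := by
    unfold refI
    omega
  refine ⟨by unfold refI; omega, ?_⟩
  unfold MEMv
  rw [e1, e2, e3]
  beta_reduce
  rw [if_pos hx]

theorem ref_sound (hR : RelStmt) (hB : BitStmt) : RefStmt := by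
  intro sf n el F st L p s hok hcl hG hH
  unfold refOk at hok
  obtain ⟨h1, hB1⟩ := ref_cond_and hok
  obtain ⟨_, h2⟩ := ref_cond_and h1
  obtain ⟨hp, h3⟩ := ref_cond_and h2
  obtain ⟨hm, h4⟩ := ref_cond_and h3
  have hm' : Nat.land L refMask = L := Nat.eq_of_beq_eq_true hm
  have hs : s ≤ 1 ∧ (sf = true → s = 0) := by
    cases sf
    · refine ⟨Nat.le_of_ble_eq_true h4, fun h => absurd h (by simp)⟩
    · have h5 : s = 0 := Nat.eq_of_beq_eq_true h4
      exact ⟨by omega, fun _ => h5⟩
  obtain ⟨hlt, hinj⟩ := ref_perm hp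
  obtain ⟨hG', hM⟩ := hR sf n el F (byt p) s hlt hinj hs.1 hs.2 hG
  have hb := ref_B hB st L p s 50 hB1
  obtain ⟨q1, q2, -, -⟩ := hH
  refine hcl _ _ F hG' (fun h => absurd h (by simp)) ⟨?_, ?_, ?_, ?_⟩
  · intro i hi hbit
    have hi' : i < 50 := by
      rcases ref_mask hm' hbit with h | h
      · exact h
      · omega
    obtain ⟨hr, he⟩ := ref_memv n el hlt hs.1 hi'
    rw [← he, hM]
    exact q1 _ (by omega) ((hb i hi').1 hbit)
  · intro i hi hbit
    have hi' : i < 50 := by
      rcases ref_mask hm' hbit with h | h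
      · omega
      · omega
    obtain ⟨hr, he⟩ := ref_memv n el hlt hs.1 hi'
    rw [← he, hM]
    exact q2 _ (by omega) ((hb i hi').2 hbit)
  · intro i hi q hq hbit
    exfalso
    rcases ref_mask hm' hbit with h | h
    · omega
    · omega
  · intro i hi q hq hbit
    exfalso
    rcases ref_mask hm' hbit with h | h
    · omega
    · omega

end Pool.Agent.MP_62a449_al.Five
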