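import Pool.Agent.Lib.MP_62a449_al.Five.Spec

/-!
Relabelling of the generators and of the elements `0`, `1`.
-/

set_option autoImplicit false

namespace Pool.Agent.MP_62a449_al.Five

open Finset

/-- the swap of the elements `0`, `1` (if `s = 1`) -/
def rel_T (s x : ℕ) : ℕ := if x < 2 then Nat.xor x s else x

theorem rel_surj (π : ℕ → ℕ) (h1 : ∀ a < 5, π a < 5) (h2 : ∀ a < 5, ∀ b < 5, π a = π b → a = b) :
    ∀ b < 5, ∃ a < 5, π a = b := by
  have h := Finset.surjOn_of_injOn_of_card_le (s := range 5) (t := range 5) π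
    (fun a ha => by simpa using h1 a (by simpa using ha))
    (fun a ha b hb hab => h2 a (by simpa using ha) b (by simpa using hb) hab) le_rfl
  intro b hb
  obtain ⟨a, ha, hab⟩ := h (show b ∈ ((range 5 : Finset ℕ) : Set ℕ) by simpa using hb)
  exact ⟨a, by simpa using ha, hab⟩

theorem rel_sum {M : Type} [AddCommMonoid M] (π : ℕ → ℕ) (h1 : ∀ a < 5, π a < 5)
    (h2 : ∀ a < 5, ∀ b < 5, π a = π b → a = b) (f : ℕ → M) :
    ∑ a ∈ range 5, f (π a) = ∑ a ∈ range 5, f a := by
  refine Finset.sum_nbij π ?_ ?_ ?_ ?_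
  · intro a ha
    simpa using h1 a (by simpa using ha)
  · intro a ha b hb hab
    exact h2 a (by simpa using ha) b (by simpa using hb) hab
  · intro b hb
    obtain ⟨a, ha, hab⟩ := rel_surj π h1 h2 b (by simpa using hb)
    exact ⟨a, by simpa using ha, hab⟩
  · intro a _
    rfl

theorem rel_mem (n : ℕ → ℤ) (π : ℕ → ℕ) (h1 : ∀ a < 5, π a < 5)
    (h2 : ∀ a < 5, ∀ b < 5, π a = π b → a = b) (z : ℤ) :
    Mem (fun a => n (π a)) z ↔ Mem n z := by
  classical
  constructor
  · rintro ⟨y, hy, hz⟩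
    choose! ρ hρ1 hρ2 using rel_surj π h1 h2
    refine ⟨fun j => y (ρ j), fun j => hy _, ?_⟩
    rw [hz, ← rel_sum π h1 h2 (fun j => y (ρ j) * n j)]
    refine Finset.sum_congr rfl fun a ha => ?_
    have ha' : a < 5 := by simpa using ha
    have : ρ (π a) = a := h2 _ (hρ1 _ (h1 a ha')) _ ha' (hρ2 _ (h1 a ha'))
    simp only [this]
  · rintro ⟨y, hy, hz⟩
    refine ⟨fun j => y (π j), fun j => hy _, ?_⟩
    rw [hz, ← rel_sum π h1 h2 (fun j => y j * n j)]

section

variable {n el n' el' : ℕ → ℤ} {F : ℤ} {π τ : ℕ → ℕ}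

theorem rel_arrow (h1 : ∀ a < 5, π a < 5) (h2 : ∀ a < 5, ∀ b < 5, π a = π b → a = b)
    (hn : ∀ a, n' a = n (π a)) (he : ∀ x, el' x = el (τ x)) (hM : ∀ z, Mem n' z ↔ Mem n z)
    (x a b : ℕ) (ha : a < 5) (hb : b < 5) :
    Arrow n' el' x a b ↔ Arrow n el (τ x) (π a) (π b) := by
  constructor
  · rintro ⟨hab, h⟩
    refine ⟨fun e => hab (h2 a ha b hb e), fun c hc hca hcb => ?_⟩
    obtain ⟨c', hc', rfl⟩ := rel_surj π h1 h2 c hc
    have := h c' hc' (by rintro rfl; exact hca rfl) (by rintro rfl; exact hcb rfl)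
    rwa [hM, he, hn, hn] at this
  · rintro ⟨hab, h⟩
    refine ⟨fun e => hab (by rw [e]), fun c hc hca hcb => ?_⟩
    rw [hM, he, hn, hn]
    exact h (π c) (h1 c hc) (fun e => hca (h2 c hc a ha e)) (fun e => hcb (h2 c hc b hb e))

theorem rel_ecount (h1 : ∀ a < 5, π a < 5) (h2 : ∀ a < 5, ∀ b < 5, π a = π b → a = b)
    (hn : ∀ a, n' a = n (π a)) (he : ∀ x, el' x = el (τ x)) (hM : ∀ z, Mem n' z ↔ Mem n z)
    (x a b : ℕ) (ha : a < 5) (hb : b < 5) :
    ecount n' el' F x a b = ecount n el F (τ x) (π a) (π b) := by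
  classical
  unfold ecount
  rw [Finset.card_filter, Finset.card_filter,
    ← rel_sum π h1 h2 (fun c => if c ≠ π a ∧ c ≠ π b ∧ ¬ Mem n (el (τ x) + n (π a) - n c) ∧
      ¬ Mem n (F - el (τ x) + n c - n (π a)) then 1 else 0)]
  refine Finset.sum_congr rfl fun c hc => ?_
  have hc' : c < 5 := by simpa using hc
  have e1 : (c ≠ a) = (π c ≠ π a) := by
    refine propext ⟨fun h e => h (h2 c hc' a ha e), fun h e => h (by rw [e])⟩
  have e2 : (c ≠ b) = (π c ≠ π b) := by
    refine propext ⟨fun h e => h (h2 c hc' b hb e), fun h e => h (by rw [e])⟩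
  simp only [e1, e2, hM, he, hn]

theorem rel_price (h1 : ∀ a < 5, π a < 5) (h2 : ∀ a < 5, ∀ b < 5, π a = π b → a = b)
    (hn : ∀ a, n' a = n (π a)) (he : ∀ x, el' x = el (τ x)) (hM : ∀ z, Mem n' z ↔ Mem n z)
    (x : ℕ) : price n' el' F x = price n el F (τ x) := by
  classical
  unfold price
  rw [← rel_sum π h1 h2 (fun a => ∑ b ∈ range 5, if Arrow n el (τ x) a b then
    12 / (1 + ecount n el F (τ x) a b) else 0)]
  refine Finset.sum_congr rfl fun a ha => ?_
  have ha' : a < 5 := by simpa using ha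
  rw [← rel_sum π h1 h2 (fun b => if Arrow n el (τ x) (π a) b then
    12 / (1 + ecount n el F (τ x) (π a) b) else 0)]
  refine Finset.sum_congr rfl fun b hb => ?_
  have hb' : b < 5 := by simpa using hb
  rw [rel_ecount h1 h2 hn he hM x a b ha' hb']
  have h := rel_arrow h1 h2 hn he hM x a b ha' hb'
  by_cases hA : Arrow n' el' x a b
  · rw [if_pos hA, if_pos (h.1 hA)]
  · rw [if_neg hA, if_neg (fun h' => hA (h.2 h'))]

end

theorem rel_byt (wi : ℕ) : byt (wtT false wi) 1 = byt (wtT false wi) 0 := by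
  have h : wtT false wi = 0x0303 ∨ wtT false wi = 0x02020101 ∨ wtT false wi = 0x010101010101 := by
    show (cond (Nat.beq wi 0) 0x0303 (cond (Nat.beq wi 1) 0x02020101 0x010101010101) : ℕ) = 0x0303 ∨
      (cond (Nat.beq wi 0) 0x0303 (cond (Nat.beq wi 1) 0x02020101 0x010101010101) : ℕ) = 0x02020101 ∨
      (cond (Nat.beq wi 0) 0x0303 (cond (Nat.beq wi 1) 0x02020101 0x010101010101) : ℕ) =
        0x010101010101
    cases Nat.beq wi 0
    · cases Nat.beq wi 1
      · exact Or.inr (Or.inr rfl)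
      · exact Or.inr (Or.inl rfl)
    · exact Or.inl rfl
  rcases h with h | h | h <;> rw [h] <;> decide

theorem rel_T_lt (s : ℕ) (hs : s ≤ 1) : ∀ x < 6, rel_T s x < 6 := by
  interval_cases s <;> decide

theorem rel_T_inj (s : ℕ) (hs : s ≤ 1) : ∀ x < 6, ∀ y < 6, rel_T s x = rel_T s y → x = y := by
  interval_cases s <;> decide

theorem rel_T_le (s : ℕ) (hs : s ≤ 1) : ∀ x < 6, rel_T s x ≤ 1 → x ≤ 1 := by
  interval_cases s <;> decide

theorem rel_T_dlx (sf : Bool) (s : ℕ) (hs : s ≤ 1) (h : sf = true → s = 0) :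
    ∀ x < 6, rel_T s (dlx sf x) = dlx sf (rel_T s x) := by
  cases sf
  · interval_cases s <;> decide
  · obtain rfl := h rfl
    decide

theorem rel : RelStmt := by
  intro sf n el F π s h1 h2 hs hsf hG
  have hM := rel_mem n π h1 h2
  refine ⟨?_, hM⟩
  have he : ∀ x, (fun x => if x < 2 then el (Nat.xor x s) else el x) x = el (rel_T s x) := by
    intro x
    unfold rel_T
    by_cases hx : x < 2
    · simp only [if_pos hx]
    · simp only [if_neg hx]
  have hn : ∀ a, (fun a => n (π a)) a = n (π a) := fun a => rfl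
  set n' : ℕ → ℤ := fun a => n (π a) with hn'
  set el' : ℕ → ℤ := fun x => if x < 2 then el (Nat.xor x s) else el x with hel'
  constructor
  · rw [hM]
    exact hG.F_not
  · intro x hx
    rw [hM, he]
    exact hG.el_not _ (rel_T_lt s hs x hx)
  · intro x hx a ha
    rw [hM, he, hn]
    exact hG.el_add _ (rel_T_lt s hs x hx) _ (h1 a ha)
  · intro x hx
    rw [he, he, rel_T_dlx sf s hs hsf x hx]
    exact hG.el_dual _ (rel_T_lt s hs x hx)
  · intro h
    obtain rfl := hsf h
    rw [he, he]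
    exact hG.self_eq h
  · intro x hx y hy hxy hno
    rw [hM, he, he]
    refine hG.diff _ (rel_T_lt s hs x hx) _ (rel_T_lt s hs y hy)
      (fun e => hxy (rel_T_inj s hs x hx y hy e)) ?_
    rintro ⟨h, hx1, hy1⟩
    exact hno ⟨h, rel_T_le s hs x hx hx1, rel_T_le s hs y hy hy1⟩
  · intro a ha b hb hab
    rw [hM, hn, hn]
    exact hG.gen _ (h1 a ha) _ (h1 b hb) (fun e => hab (h2 a ha b hb e))
  · intro wi
    have hp : ∀ x, price n' el' F x = price n el F (rel_T s x) :=
      rel_price h1 h2 hn he hM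
    have hw := hG.wt wi
    simp only [hp]
    cases sf
    · interval_cases s
      · exact hw
      · simp only [Finset.sum_range_succ, Finset.sum_range_zero, zero_add, rel_byt] at hw ⊢
        have t0 : rel_T 1 0 = 1 := by decide
        have t1 : rel_T 1 1 = 0 := by decide
        have t2 : rel_T 1 2 = 2 := by decide
        have t3 : rel_T 1 3 = 3 := by decide
        have t4 : rel_T 1 4 = 4 := by decide
        have t5 : rel_T 1 5 = 5 := by decide
        rw [t0, t1, t2, t3, t4, t5]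
        linarith
    · obtain rfl := hsf rfl
      exact hw

end Pool.Agent.MP_62a449_al.Five
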