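import Pool.Agent.Lib.MP_62a449_al.Five.Pat
import Pool.Agent.Lib.MP_62a449_al.Five.Rel
import Pool.Agent.Lib.MP_62a449_al.Five.Ref

/-!
Variant of `Pat.lean`: with the hypothesis that there are no arrows at the elements 0, 1 (`m2 = true`)
the references may use this hypothesis too.
-/

namespace Pool.Agent.MP_62a449_al.Five

open Finset

attribute [local irreducible] OFF OFFc E D

/-- `NoArrow` is invariant under relabelling. -/
theorem noArrow_rel (n el : ℕ → ℤ) (π : ℕ → ℕ) (s : ℕ) (h1 : ∀ a < 5, π a < 5)
    (h2 : ∀ a < 5, ∀ b < 5, π a = π b → a = b) (hs : s ≤ 1) (hN : NoArrow n el) :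
    NoArrow (fun a => n (π a)) (fun x => if x < 2 then el (Nat.xor x s) else el x) := by
  intro x hx a ha b hb hA
  have he : ∀ x, (fun x => if x < 2 then el (Nat.xor x s) else el x) x = el (rel_T s x) := by
    intro x
    unfold rel_T
    by_cases hx : x < 2
    · simp only [if_pos hx]
    · simp only [if_neg hx]
  have h := (rel_arrow h1 h2 (fun _ => rfl) he (rel_mem n π h1 h2) x a b ha hb).1 hA
  have hx' : rel_T s x < 2 := by
    unfold rel_T
    rw [if_pos hx]
    exact ref_xor_lt hx hs
  exact hN _ hx' _ (h1 a ha) _ (h1 b hb) h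

/-- references with a permutation, for every `m2` -/
theorem ref_sound2 (hR : RelStmt) (hB : BitStmt) (sf m2 : Bool) (n el : ℕ → ℤ) (F : ℤ) (st L p s : ℕ)
    (hok : refOk sf st L p s = true) (hcl : Claim sf m2 L) (hG : Good sf n el F)
    (hna : m2 = true → NoArrow n el) (hH : Holds n el st) : False := by
  unfold refOk at hok
  obtain ⟨h1, hB1⟩ := ref_cond_and hok
  obtain ⟨_, h2⟩ := ref_cond_and h1
  obtain ⟨hp, h3⟩ := ref_cond_and h2
  obtain ⟨hm, h4⟩ := ref_cond_and h3
  have hm' : Nat.land L refMask = L := Nat.eq_of_beq_eq_true hm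
  have hs : s ≤ 1 ∧ (sf = true → s = 0) := by
    cases sf
    · refine ⟨Nat.le_of_ble_eq_true h4, fun h => absurd h (by simp)⟩
    · have h5 : s = 0 := Nat.eq_of_beq_eq_true h4
      exact ⟨by omega, fun _ => h5⟩
  obtain ⟨hlt, hinj⟩ := ref_perm hp
  obtain ⟨hG', hM⟩ := hR sf n el F (byt p) s hlt hinj hs.1 hs.2 hG
  have hb := ref_B hB st L p s 50 hB1
  obtain ⟨q1, q2, -, -⟩ := hH
  refine hcl _ _ F hG' (fun h => noArrow_rel n el (byt p) s hlt hinj hs.1 (hna h)) ⟨?_, ?_, ?_, ?_⟩
  · intro i hi hbit
    have hi' : i < 50 := by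
      rcases ref_mask hm' hbit with h | h
      · exact h
      · omega
    obtain ⟨hr, he⟩ := ref_memv n el hlt hs.1 hi'
    rw [← he, hM]
    exact q1 _ (by omega) ((hb i hi').1 hbit)
  · intro i hi hbit
    have hi' : i < 50 := by
      rcases ref_mask hm' hbit with h | h
      · omega
      · omega
    obtain ⟨hr, he⟩ := ref_memv n el hlt hs.1 hi'
    rw [← he, hM]
    exact q2 _ (by omega) ((hb i hi').2 hbit)
  · intro i hi q hq hbit
    exfalso
    rcases ref_mask hm' hbit with h | h
    · omega
    · omega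
  · intro i hi q hq hbit
    exfalso
    rcases ref_mask hm' hbit with h | h
    · omega
    · omega

theorem pat_main2 (hM : MemAStmt) (hI : IntStmt) (hB : BitStmt) (hP : PrcStmt) (hR : RelStmt)
    {sf m2 : Bool} {refs : List ℕ} (hrefs : ∀ L ∈ refs, Claim sf m2 L)
    {n el : ℕ → ℤ} {F : ℤ} (hg : Good sf n el F) (hna : m2 = true → NoArrow n el) (f : ℕ) :
    ∀ (c : ℕ) (items : List ℕ) (st : ℕ) (stk : List ℕ), pat (dxT sf) sf m2 refs f c items st stk = true →
      ¬ Holds n el st ∧ ∀ s ∈ stk, ¬ Holds n el s := by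
  induction f with
  | zero =>
    intro c items st stk h
    rw [pat_zero] at h
    exact absurd h (by simp)
  | succ f ih =>
    intro c items st stk h
    rw [pat_succ] at h
    generalize pat (dxT sf) sf m2 refs f = k at h ih
    have hclose : close k items stk = true → ∀ s ∈ stk, ¬ Holds n el s := by
      intro hc s hs
      rcases stk with _ | ⟨s1, stk1⟩
      · exact absurd hs (by simp)
      · rcases items with _ | ⟨c1, items1⟩
        · exact absurd hc (by simp [close])
        · have hc' : k c1 items1 s1 stk1 = true := hc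
          have h1 := ih _ _ _ _ hc'
          rcases List.mem_cons.mp hs with rfl | hs
          · exact h1.1
          · exact h1.2 s hs
    generalize byt c 0 = op at h
    rcases op with _ | _ | _ | _ | _ | _ | _ | _ | _ | op
    · -- leaf
      have h' : cond (leaf (dxT sf) sf st (drp c 1)) (close k items stk) false = true := h
      obtain ⟨h1, h2⟩ := pat_cond h'
      exact ⟨fun hh => hI sf n el F st _ hg hh h1, hclose h2⟩
    · -- split
      have h' : cond (Nat.ble (byt c 1) 149)
          (k (drp c 2) items (addM sf st (byt c 1)) (List.cons (addN st (byt c 1)) stk)) false = true := h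
      obtain ⟨h1, h2⟩ := pat_cond h'
      have hi : byt c 1 < 150 := Nat.lt_succ_of_le (Nat.le_of_ble_eq_true h1)
      obtain ⟨h3, h4⟩ := ih _ _ _ _ h2
      refine ⟨fun hh => ?_, fun s hs => h4 s (List.mem_cons_of_mem _ hs)⟩
      by_cases hm : Mem n (MEMv n el (byt c 1))
      · exact h3 (hB.2.2.2.2.1 sf n el F st _ hg hh hi hm)
      · exact h4 _ List.mem_cons_self (hB.2.2.2.2.2.1 n el st _ hh hi hm)
    · -- row derivation
      have h' : cond (cond (Nat.ble (byt c 1) 149) (rowFull st (byt c 1)) false)
          (k (drp c 2) items (addM sf st (byt c 1)) stk) false = true := h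
      obtain ⟨h1, h2⟩ := pat_cond h'
      obtain ⟨h3, h4⟩ := pat_cond h1
      have hi : byt c 1 < 150 := Nat.lt_succ_of_le (Nat.le_of_ble_eq_true h3)
      obtain ⟨h5, h6⟩ := ih _ _ _ _ h2
      refine ⟨fun hh => ?_, h6⟩
      exact h5 (hB.2.2.2.2.1 sf n el F st _ hg hh hi (pat_full hM hB hg hh _ hi h4).2)
    · -- mixed split
      have h' : cond (cond (Nat.ble (byt c 1) 149) (Nat.ble (byt c 2) 4) false)
          (k (drp c 3) items (addX st (byt c 1) (byt c 2))
            (List.cons (addP st (byt c 1) (byt c 2)) stk)) false = true := h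
      obtain ⟨h1, h2⟩ := pat_cond h'
      obtain ⟨h3, h4⟩ := pat_cond h1
      have hi : byt c 1 < 150 := Nat.lt_succ_of_le (Nat.le_of_ble_eq_true h3)
      have hq : byt c 2 < 5 := Nat.lt_succ_of_le (Nat.le_of_ble_eq_true h4)
      obtain ⟨h5, h6⟩ := ih _ _ _ _ h2
      refine ⟨fun hh => ?_, fun s hs => h6 s (List.mem_cons_of_mem _ hs)⟩
      by_cases hm : Mem n (MEMv n el (byt c 1) - n (byt c 2))
      · exact h5 (hB.2.2.2.2.2.2.1 n el st _ _ hh hi hq hm)
      · exact h6 _ List.mem_cons_self (hB.2.2.2.2.2.2.2.1 n el st _ _ hh hi hq hm)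
    · -- empty row
      have h' : cond (cond (Nat.ble (byt c 1) 29) (rowEmpty st (byt c 1)) false)
          (close k items stk) false = true := h
      obtain ⟨h1, h2⟩ := pat_cond h'
      obtain ⟨h3, h4⟩ := pat_cond h1
      have hr : byt c 1 < 30 := Nat.lt_succ_of_le (Nat.le_of_ble_eq_true h3)
      refine ⟨fun hh => ?_, hclose h2⟩
      generalize byt c 1 = r at hr h4
      have e0 : 5 * r / 5 = r := by omega
      obtain ⟨_, _, _, hf, _⟩ := pat_row hM hg hh (5 * r) (by omega) (fun _ => False)
        (fun c hc hca _ => by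
          rw [e0] at hca ⊢
          exact hB.2.2.2.1 st r hr h4 c hc hca)
      exact hf
    · -- price
      have h' : cond (prc sf st (wtT sf (byt c 1)) (byt c 2) (drp c 3) 0 0) (close k items stk) false = true := h
      obtain ⟨h1, h2⟩ := pat_cond h'
      exact ⟨fun hh => hP sf n el F st _ _ _ hg hh h1, hclose h2⟩
    · -- reference with a permutation
      have h' : cond (refOk sf st (getL refs (byt c 1)) (drp c 3) (byt c 2)) (close k items stk) false = true := h
      obtain ⟨h1, h2⟩ := pat_cond h'
      refine ⟨fun hh => ?_, hclose h2⟩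
      have h3 : cond (Nat.ble 1 (getL refs (byt c 1))) _ false = true := (pat_cond h1).1
      have h4 := Nat.le_of_ble_eq_true (pat_cond h3).1
      exact ref_sound2 hR hB sf m2 n el F st _ _ _ h1 (hrefs _ (pat_getL refs _ h4)) hg hna hh
    · -- reference
      have h' : cond (cond (Nat.ble 1 (getL refs (byt c 1 + 256 * byt c 2)))
          (Nat.beq (Nat.land st (getL refs (byt c 1 + 256 * byt c 2))) (getL refs (byt c 1 + 256 * byt c 2))) false)
          (close k items stk) false = true := h
      obtain ⟨h1, h2⟩ := pat_cond h'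
      obtain ⟨h3, h4⟩ := pat_cond h1
      generalize byt c 1 + 256 * byt c 2 = r at h3 h4
      refine ⟨fun hh => ?_, hclose h2⟩
      have h5 := hB.2.2.2.2.2.2.2.2 n el st _ hh (Nat.eq_of_beq_eq_true h4)
      exact hrefs _ (pat_getL refs r (Nat.le_of_ble_eq_true h3)) n el F hg hna h5
    · -- no arrow, derivation
      have h' : cond (cond m2 (cond (cond (Nat.ble (byt c 1) 49) (Nat.ble (byt c 2) 4) false)
          (rowFull2 st (byt c 1) (byt c 2)) false) false)
          (k (drp c 3) items (addM sf st (byt c 1)) stk) false = true := h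
      obtain ⟨h1, h2⟩ := pat_cond h'
      obtain ⟨hm2, h3⟩ := pat_cond h1
      obtain ⟨h4, h5⟩ := pat_cond h3
      obtain ⟨h6, h7⟩ := pat_cond h4
      have hi : byt c 1 < 50 := Nat.lt_succ_of_le (Nat.le_of_ble_eq_true h6)
      have hq : byt c 2 < 5 := Nat.lt_succ_of_le (Nat.le_of_ble_eq_true h7)
      obtain ⟨h8, h9⟩ := ih _ _ _ _ h2
      refine ⟨fun hh => ?_, h9⟩
      generalize byt c 1 = i at *
      generalize byt c 2 = d at *
      have hi' : i < 150 := by omega
      have hbits := hB.2.2.1 st i d hi' h5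
      refine h8 (hB.2.2.2.2.1 sf n el F st _ hg hh hi' ?_)
      by_cases hda : d = i / 5 % 5
      · obtain ⟨c, hc, hca, hcb, hm⟩ := pat_row hM hg hh i hi' (fun c => c = i % 5)
          (fun c hc hca hcb => hbits c hc hca hcb (by rw [hda]; exact hca))
        rw [hcb] at hm
        exact hm
      · have hx : i / 25 < 2 := by omega
        have ha : i / 5 % 5 < 5 := by omega
        have hno := hna hm2 (i / 25) hx (i / 5 % 5) ha d hq
        by_contra hmem
        apply hno
        refine ⟨fun h => hda h.symm, fun c hc hca hcd hm => ?_⟩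
        by_cases hcb : c = i % 5
        · rw [hcb] at hm
          exact hmem hm
        · exact pat_non hh i c hi' hc (hbits c hc hca hcb hcd) hm
    · -- no arrow, contradiction
      have h' : cond (cond m2 (cond (Nat.ble (byt c 1) 49) (rowFull st (byt c 1)) false) false)
          (close k items stk) false = true := h
      obtain ⟨h1, h2⟩ := pat_cond h'
      obtain ⟨hm2, h3⟩ := pat_cond h1
      obtain ⟨h4, h5⟩ := pat_cond h3
      have hi : byt c 1 < 50 := Nat.lt_succ_of_le (Nat.le_of_ble_eq_true h4)
      refine ⟨fun hh => ?_, hclose h2⟩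
      generalize byt c 1 = i at *
      have hi' : i < 150 := by omega
      have h6 := pat_full hM hB hg hh i hi' h5
      refine hna hm2 (i / 25) (by omega) (i / 5 % 5) (by omega) (i % 5) (by omega) ⟨h6.1, fun c hc hca hcb => ?_⟩
      exact pat_non hh i c hi' hc (hB.2.1 st i hi' h5 c hc hca hcb)

/-- soundness of the checker, with references of the same kind -/
theorem pat_sound2 (hM : MemAStmt) (hI : IntStmt) (hB : BitStmt) (hP : PrcStmt) (hR : RelStmt)
    (sf m2 : Bool) (refs items : List ℕ) (st : ℕ) (h : check sf m2 refs items st = true)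
    (hrefs : ∀ L ∈ refs, Claim sf m2 L) : Claim sf m2 st := by
  intro n el F hg hna hh
  rcases items with _ | ⟨c, items⟩
  · exact absurd h (by simp [check])
  · have h' : pat (dxT sf) sf m2 refs 1000000 c items st List.nil = true := h
    exact (pat_main2 hM hI hB hP hR hrefs hg hna 1000000 c items st List.nil h').1 hh

end Pool.Agent.MP_62a449_al.Five
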