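import Pool.Agent.Lib.MP_62a449_al.Five.Spec

/-!
Soundness of the price test.  The rows `r = 5 x + a < 30`; `prc_row` is the weighted price of a row.
The sum read so far is at most the sum of the rows `r < lo`.
-/

namespace Pool.Agent.MP_62a449_al.Five

open Finset

open Classical in
/-- weighted price of the row `r = 5 x + a` -/
noncomputable def prc_row (n el : ℕ → ℤ) (F : ℤ) (w r : ℕ) : ℕ :=
  byt w (r / 5) * ∑ b ∈ range 5,
    if Arrow n el (r / 5) (r % 5) b then 12 / (1 + ecount n el F (r / 5) (r % 5) b) else 0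

theorem prc_reindex (h : ℕ → ℕ → ℕ) :
    ∑ r ∈ range 30, h (r / 5) (r % 5) = ∑ x ∈ range 6, ∑ a ∈ range 5, h x a := by
  simp only [Finset.sum_range_succ, Finset.sum_range_zero, Nat.reduceDiv, Nat.reduceMod]
  ring

theorem prc_total (n el : ℕ → ℤ) (F : ℤ) (w : ℕ) :
    ∑ r ∈ range 30, prc_row n el F w r = ∑ x ∈ range 6, byt w x * price n el F x := by
  classical
  have h := prc_reindex (fun x a => byt w x * ∑ b ∈ range 5,
    @ite ℕ (Arrow n el x a b) (Classical.propDecidable _) (12 / (1 + ecount n el F x a b)) 0)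
  have h1 : ∑ r ∈ range 30, prc_row n el F w r
      = ∑ r ∈ range 30, byt w (r / 5) * ∑ b ∈ range 5,
    @ite ℕ (Arrow n el (r / 5) (r % 5) b) (Classical.propDecidable _)
      (12 / (1 + ecount n el F (r / 5) (r % 5) b)) 0 := rfl
  rw [h1, h]
  refine Finset.sum_congr rfl (fun x _ => ?_)
  rw [← Finset.mul_sum]
  rfl

theorem prc_dlx (sf : Bool) (x : ℕ) (hx : x < 6) : dlx sf x < 6 := by
  cases sf <;> interval_cases x <;> decide

theorem prc_bit (hB : BitStmt) (st k : ℕ) : bitT st k ≤ 1 := by
  rw [hB.1 st k]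
  split_ifs <;> omega

/-- one summand of `eub` -/
def prc_t (st a b c k : ℕ) : ℕ :=
  cond (cond (Nat.beq a c) true (Nat.beq b c)) 0 (bitT st k)

open Classical in
/-- bound of one summand -/
theorem prc_term (hB : BitStmt) (sf : Bool) (n el : ℕ → ℤ) (F : ℤ) (st x a b c k : ℕ)
    (hG : Good sf n el F) (hH : Holds n el st) (hx : x < 6) (ha : a < 5) (hab : a ≠ b)
    (hc : c < 5) (hk : k = 25 * dlx sf x + (5 * c + a)) :
    (if c ≠ a ∧ c ≠ b ∧ ¬ Mem n (el x + n a - n c) ∧ ¬ Mem n (F - el x + n c - n a) then 1 else 0)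
      + prc_t st a b c k
      + (if a = c then 1 else 0) + (if b = c then 1 else 0) ≤ 1 := by
  unfold prc_t
  by_cases h1 : a = c
  · have e1 : Nat.beq a c = true := by rw [h1]; exact Nat.beq_refl c
    have e2 : b ≠ c := fun h => hab (h1.trans h.symm)
    rw [e1, if_pos h1, if_neg e2, if_neg (fun h => h.1 h1.symm)]
    exact le_refl 1
  · by_cases h2 : b = c
    · have e1 : Nat.beq b c = true := by rw [h2]; exact Nat.beq_refl c
      have e3 : Nat.beq a c = false := by
        rcases h : Nat.beq a c with _ | _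
        · rfl
        · exact absurd (Nat.eq_of_beq_eq_true h) h1
      rw [e1, e3, if_neg h1, if_pos h2, if_neg (fun h => h.2.1 h2.symm)]
      exact le_refl 1
    · have e1 : Nat.beq b c = false := by
        rcases h : Nat.beq b c with _ | _
        · rfl
        · exact absurd (Nat.eq_of_beq_eq_true h) h2
      have e3 : Nat.beq a c = false := by
        rcases h : Nat.beq a c with _ | _
        · rfl
        · exact absurd (Nat.eq_of_beq_eq_true h) h1
      rw [e1, e3, if_neg h1, if_neg h2]
      show _ + bitT st k + 0 + 0 ≤ 1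
      by_cases h3 : st.testBit k = true
      · have hd := prc_dlx sf x hx
        have hk150 : k < 150 := by omega
        have m1 := hH.1 k hk150 h3
        have k1 : k / 25 = dlx sf x := by omega
        have k2 : k / 5 % 5 = c := by omega
        have k3 : k % 5 = a := by omega
        unfold MEMv at m1
        rw [k1, k2, k3, hG.el_dual x hx] at m1
        rw [if_neg (fun h => h.2.2.2 m1)]
        have := prc_bit hB st k
        omega
      · rw [hB.1 st k, if_neg h3]
        split_ifs <;> omega

theorem prc_ecount (hB : BitStmt) (sf : Bool) (n el : ℕ → ℤ) (F : ℤ) (st x a b : ℕ)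
    (hG : Good sf n el F) (hH : Holds n el st) (hx : x < 6) (ha : a < 5) (hb : b < 5) (hab : a ≠ b) :
    ecount n el F x a b ≤ eub sf st x a b := by
  classical
  have t0 := prc_term hB sf n el F st x a b 0 (25 * dlx sf x + a)
    hG hH hx ha hab (by omega) (by omega)
  have t1 := prc_term hB sf n el F st x a b 1
    (25 * dlx sf x + (5 + a))
    hG hH hx ha hab (by omega) (by omega)
  have t2 := prc_term hB sf n el F st x a b 2
    (25 * dlx sf x + (10 + a))
    hG hH hx ha hab (by omega) (by omega)
  have t3 := prc_term hB sf n el F st x a b 3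
    (25 * dlx sf x + (15 + a))
    hG hH hx ha hab (by omega) (by omega)
  have t4 := prc_term hB sf n el F st x a b 4
    (25 * dlx sf x + (20 + a))
    hG hH hx ha hab (by omega) (by omega)
  have hsa : (if a = 0 then 1 else 0) + (if a = 1 then 1 else 0) + (if a = 2 then 1 else 0)
      + (if a = 3 then 1 else 0) + (if a = 4 then 1 else 0) = 1 := by
    interval_cases a <;> rfl
  have hsb : (if b = 0 then 1 else 0) + (if b = 1 then 1 else 0) + (if b = 2 then 1 else 0)
      + (if b = 3 then 1 else 0) + (if b = 4 then 1 else 0) = 1 := by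
    interval_cases b <;> rfl
  unfold ecount
  rw [Finset.card_filter]
  simp only [Finset.sum_range_succ, Finset.sum_range_zero]
  have he : eub sf st x a b = 3 - (prc_t st a b 0 (25 * dlx sf x + a)
      + prc_t st a b 1 (25 * dlx sf x + (5 + a)) + prc_t st a b 2 (25 * dlx sf x + (10 + a))
      + prc_t st a b 3 (25 * dlx sf x + (15 + a)) + prc_t st a b 4 (25 * dlx sf x + (20 + a))) := rfl
  rw [he]
  omega

theorem prc_step (hM : MemAStmt) (hB : BitStmt) (sf : Bool) (n el : ℕ → ℤ) (F : ℤ) (st w i : ℕ)
    (hG : Good sf n el F) (hH : Holds n el st) (hi : i < 150) (hr : rowFull st i = true) :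
    byt w (i / 25) * (12 / (1 + eub sf st (i / 25) (i / 5 % 5) (i % 5)))
      ≤ prc_row n el F w (i / 5) := by
  classical
  have hx : i / 25 < 6 := by omega
  have ha : i / 5 % 5 < 5 := Nat.mod_lt _ (by norm_num)
  have hb : i % 5 < 5 := Nat.mod_lt _ (by norm_num)
  have hnot : ∀ c < 5, c ≠ i / 5 % 5 → c ≠ i % 5 → ¬ Mem n (el (i / 25) + n (i / 5 % 5) - n c) := by
    intro c hc h1 h2
    have hbit := hB.2.1 st i hi hr c hc h1 h2
    have := hH.2.1 (5 * (i / 5) + c) (by omega) hbit
    unfold MEMv at this
    rwa [show (5 * (i / 5) + c) / 25 = i / 25 by omega,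
      show (5 * (i / 5) + c) / 5 % 5 = i / 5 % 5 by omega,
      show (5 * (i / 5) + c) % 5 = c by omega] at this
  have hab : i / 5 % 5 ≠ i % 5 := by
    intro h
    obtain ⟨c, hc, hca, hm⟩ := hM.2.2.2.1 sf n el F hG (i / 25) hx (i / 5 % 5) ha
    exact hnot c hc hca (by rw [← h]; exact hca) hm
  have harr : Arrow n el (i / 25) (i / 5 % 5) (i % 5) := ⟨hab, hnot⟩
  have hec := prc_ecount hB sf n el F st (i / 25) (i / 5 % 5) (i % 5) hG hH hx ha hb hab
  unfold prc_row
  rw [show i / 5 / 5 = i / 25 by omega]
  apply Nat.mul_le_mul_left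
  refine le_trans ?_ (Finset.single_le_sum (fun _ _ => Nat.zero_le _) (Finset.mem_range.2 hb))
  rw [if_pos harr]
  exact Nat.div_le_div_left (by omega) (by omega)

theorem prc_ind (hM : MemAStmt) (hB : BitStmt) (sf : Bool) (n el : ℕ → ℤ) (F : ℤ) (st w : ℕ)
    (hG : Good sf n el F) (hH : Holds n el st) :
    ∀ m c lo S, lo ≤ 30 → S ≤ ∑ r ∈ range lo, prc_row n el F w r → prc sf st w m c lo S = true →
      61 ≤ ∑ r ∈ range 30, prc_row n el F w r := by
  intro m
  induction m with
  | zero =>
    intro c lo S hlo hS h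
    have h61 : 61 ≤ S := Nat.le_of_ble_eq_true h
    refine le_trans h61 (le_trans hS ?_)
    exact Finset.sum_le_sum_of_subset (Finset.range_mono hlo)
  | succ m ih =>
    intro c lo S hlo hS h
    have h' : cond (cond (Nat.ble lo (byt c 0 / 5))
          (cond (Nat.ble (byt c 0) 149) (rowFull st (byt c 0)) false) false)
        (prc sf st w m (drp c 1) (byt c 0 / 5 + 1)
          (S + byt w (byt c 0 / 25) * (12 / (1 + eub sf st (byt c 0 / 25) (byt c 0 / 5 % 5) (byt c 0 % 5)))))
        false = true := h
    generalize byt c 0 = i at h'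
    rcases hb1 : Nat.ble lo (i / 5) with _ | _
    · rw [hb1] at h'; exact absurd h' (by simp)
    rcases hb2 : Nat.ble i 149 with _ | _
    · rw [hb1, hb2] at h'; exact absurd h' (by simp)
    rcases hb3 : rowFull st i with _ | _
    · rw [hb1, hb2, hb3] at h'; exact absurd h' (by simp)
    rw [hb1, hb2, hb3] at h'
    simp only [cond_true] at h'
    have hi : i ≤ 149 := Nat.le_of_ble_eq_true hb2
    have hlo2 : lo ≤ i / 5 := Nat.le_of_ble_eq_true hb1
    refine ih _ _ _ (by omega) ?_ h'
    rw [Finset.sum_range_succ]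
    refine add_le_add (le_trans hS ?_) ?_
    · exact Finset.sum_le_sum_of_subset (Finset.range_mono hlo2)
    · exact prc_step hM hB sf n el F st w i hG hH (by omega) hb3

/-- Soundness of the price test. -/
theorem prc_sound (hM : MemAStmt) (hB : BitStmt) : PrcStmt := by
  intro sf n el F st wi m c hG hH h
  have h1 := prc_ind hM hB sf n el F st (wtT sf wi) hG hH m c 0 0 (by omega) (by simp) h
  rw [prc_total] at h1
  have h2 := hG.wt wi
  omega

end Pool.Agent.MP_62a449_al.Five
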