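import Pool.Agent.Lib.MP_62a449_al.Five.Spec

/-!
Soundness of the machine (statement `RunStmt`).
-/

namespace Pool.Agent.MP_62a449_al.Five

open Finset

attribute [local irreducible] OFF OFFc E D

theorem run_cond {b x : Bool} (h : cond b x false = true) : b = true ∧ x = true := by
  cases b
  · exact absurd h (by simp)
  · exact ⟨rfl, h⟩

theorem run_condf {b x : Bool} (h : cond b false x = true) : b = false ∧ x = true := by
  cases b
  · exact ⟨rfl, h⟩
  · exact absurd h (by simp)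

theorem run_beq {a b : ℕ} (h : Nat.beq a b = true) : a = b := Nat.eq_of_beq_eq_true h

theorem run_ble {a b : ℕ} (h : Nat.ble a b = true) : a ≤ b := Nat.le_of_ble_eq_true h

theorem run_byt (c i : ℕ) : byt c i < 256 := Nat.mod_lt _ (by norm_num)

/-! ### linearity -/

theorem run_cval_add (Y : ℕ → ℕ → ℤ) (g h : ℕ → ℤ) (j : ℕ) :
    cval Y (fun p => g p + h p) j = cval Y g j + cval Y h j := by
  simp only [cval, add_mul, sum_add_distrib]
  ring

theorem run_cval_smul (Y : ℕ → ℕ → ℤ) (c : ℤ) (g : ℕ → ℤ) (j : ℕ) :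
    cval Y (fun p => c * g p) j = c * cval Y g j := by
  simp only [cval, mul_add, mul_sum, mul_assoc]

theorem run_cval_neg (Y : ℕ → ℕ → ℤ) (g : ℕ → ℤ) (j : ℕ) :
    cval Y (fun p => - g p) j = - cval Y g j := by
  simp only [cval, neg_mul, sum_neg_distrib]
  ring

theorem run_psi_add (Y : ℕ → ℕ → ℤ) (g h : ℕ → ℤ) :
    psi Y (fun p => g p + h p) = psi Y g + psi Y h := by
  simp only [psi, run_cval_add, sum_add_distrib]

theorem run_psi_smul (Y : ℕ → ℕ → ℤ) (c : ℤ) (g : ℕ → ℤ) :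
    psi Y (fun p => c * g p) = c * psi Y g := by
  simp only [psi, run_cval_smul, mul_sum]

theorem run_psi_neg (Y : ℕ → ℕ → ℤ) (g : ℕ → ℤ) : psi Y (fun p => - g p) = - psi Y g := by
  simp only [psi, run_cval_neg, sum_neg_distrib]

theorem run_lin_add (n v : ℕ → ℤ) (Y : ℕ → ℕ → ℤ) (g h : ℕ → ℤ) :
    lin n v Y (fun p => g p + h p) = lin n v Y g + lin n v Y h := by
  simp only [lin, run_cval_add, add_mul, sum_add_distrib]
  ring

theorem run_lin_neg (n v : ℕ → ℤ) (Y : ℕ → ℕ → ℤ) (g : ℕ → ℤ) :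
    lin n v Y (fun p => - g p) = - lin n v Y g := by
  simp only [lin, run_cval_neg, neg_mul, sum_neg_distrib]
  ring

theorem run_cval_R (Y : ℕ → ℕ → ℤ) (g : ℕ → ℤ) (j j' : ℕ) :
    cval Y (fun p => if 48 * j ≤ p ∧ p < 48 * j + 48 then g p else 0) j' =
      if j' = j then cval Y g j else 0 := by
  unfold cval
  beta_reduce
  by_cases h : j' = j
  · subst h
    rw [if_pos rfl, if_pos (by omega)]
    congr 1
    refine sum_congr rfl fun i hi => ?_
    have := mem_range.1 hi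
    rw [if_pos (by omega)]
  · rw [if_neg h, if_neg (by omega), zero_add]
    refine sum_eq_zero fun i hi => ?_
    have := mem_range.1 hi
    rw [if_neg (by omega), zero_mul]

theorem run_cval_U (Y : ℕ → ℕ → ℤ) (c : ℤ) (j j' : ℕ) :
    cval Y (fun p => if p = 48 * j then c else 0) j' = if j' = j then c else 0 := by
  unfold cval
  beta_reduce
  have h0 : ∑ i ∈ range 47, (if 48 * j' + (i + 1) = 48 * j then c else 0) * Y i j' = 0 := by
    refine sum_eq_zero fun i hi => ?_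
    have := mem_range.1 hi
    rw [if_neg (by omega), zero_mul]
  rw [h0, add_zero]
  by_cases h : j' = j
  · rw [if_pos h, if_pos (by omega)]
  · rw [if_neg h, if_neg (by omega)]

theorem run_psi_R (Y : ℕ → ℕ → ℤ) (g : ℕ → ℤ) (j : ℕ) (hj : j < 5) :
    psi Y (fun p => if 48 * j ≤ p ∧ p < 48 * j + 48 then g p else 0) = cval Y g j := by
  unfold psi
  simp only [run_cval_R]
  rw [sum_ite_eq' (range 5) j, if_pos (mem_range.2 hj)]

theorem run_psi_U (Y : ℕ → ℕ → ℤ) (c : ℤ) (j : ℕ) (hj : j < 5) :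
    psi Y (fun p => if p = 48 * j then c else 0) = c := by
  unfold psi
  simp only [run_cval_U]
  rw [sum_ite_eq' (range 5) j, if_pos (mem_range.2 hj)]

theorem run_cval_nonneg (Y : ℕ → ℕ → ℤ) (hY : ∀ i j, 0 ≤ Y i j) (g : ℕ → ℤ) (j : ℕ)
    (h : ∀ i < 48, 0 ≤ g (48 * j + i)) : 0 ≤ cval Y g j := by
  unfold cval
  have h0 := h 0 (by norm_num)
  rw [add_zero] at h0
  refine add_nonneg h0 (sum_nonneg fun i hi => mul_nonneg (h (i + 1) ?_) (hY i j))
  have := mem_range.1 hi
  omega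

/-! ### the invariant -/

/-- soundness of a continuation -/
def RunOk (n v : ℕ → ℤ) (Y : ℕ → ℕ → ℤ) (k : Kt) : Prop :=
  ∀ (md : Bool) (c tbl nt cb nc : ℕ) (s : Stk), TOk n v Y tbl nt → 1 ≤ nc →
    cb < 2 ^ (4096 * nc) → SWf Y s → k md c tbl nt cb nc s = true →
      (md = true → Ctx Y cb nc → False) ∧ SGoal Y s

/-- sum of `m` codes of vectors -/
def RunVS (n v : ℕ → ℤ) (Y : ℕ → ℕ → ℤ) (m : ℕ) (X : ℕ) : Prop :=
  ∃ g : ℕ → ℤ, (X : ℤ) = encZ g + m * encZ (fun _ => 32768) ∧ (∀ p < 244, |g p| ≤ 33 * m) ∧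
    lin n v Y g = 0

theorem run_vs1 (hA : NumAStmt) {n v : ℕ → ℤ} {Y : ℕ → ℕ → ℤ} {X : ℕ} (h : VOk n v Y X) :
    RunVS n v Y 1 X := by
  obtain ⟨-, -, -, -, -, -, -, -, hRep, -⟩ := hA
  obtain ⟨g, hg, hl⟩ := h
  obtain ⟨h1, h2⟩ := (hRep X g 33).1 hg
  refine ⟨g, ?_, fun p hp => ?_, hl⟩
  · rw [h1]
    push_cast
    ring
  · have := h2 p hp
    push_cast
    linarith

theorem run_vsadd (hA : NumAStmt) {n v : ℕ → ℤ} {Y : ℕ → ℕ → ℤ} {X Z m : ℕ}
    (h : RunVS n v Y m X) (h' : VOk n v Y Z) : RunVS n v Y (m + 1) (X + Z) := by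
  obtain ⟨-, -, -, -, hadd, -, -, -, hRep, -⟩ := hA
  obtain ⟨g, hg1, hg2, hg3⟩ := h
  obtain ⟨g', hg', hl'⟩ := h'
  obtain ⟨h1, h2⟩ := (hRep Z g' 33).1 hg'
  refine ⟨fun p => g p + g' p, ?_, fun p hp => ?_, ?_⟩
  · rw [hadd, Nat.cast_add, hg1, h1]
    push_cast
    ring
  · have := h2 p hp
    have := hg2 p hp
    have := abs_add_le (g p) (g' p)
    push_cast
    linarith
  · rw [run_lin_add, hg3, hl', add_zero]

theorem run_get {n v : ℕ → ℤ} {Y : ℕ → ℕ → ℤ} {tbl nt : ℕ} (h : TOk n v Y tbl nt) (x : ℕ) :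
    VOk n v Y (getT tbl (Nat.mod x nt)) := h.2.2 _ (Nat.mod_lt _ h.1)

theorem run_pop {n v : ℕ → ℤ} {Y : ℕ → ℕ → ℤ} {k : Kt} (hk : RunOk n v Y k) {c tbl nt : ℕ}
    {s : Stk} (hT : TOk n v Y tbl nt) (hs : SWf Y s) (h : pop k c tbl nt s = true) :
    SGoal Y s := by
  cases s with
  | nil => trivial
  | cons W m cb nc s =>
    have h' : k false c tbl nt cb nc (Stk.cons W m cb nc s) = true := h
    exact (hk _ _ _ _ _ _ _ hT hs.2.1 hs.2.2.1 hs h').2

theorem run_lt (hA : NumAStmt) {X : ℕ} {g : ℕ → ℤ} {b : ℤ} (h : Rep X g b) (hb : b < 32768) :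
    X < 2 ^ 4096 := by
  obtain ⟨-, -, -, -, -, -, -, -, -, -, -, -, -, hlt⟩ := hA
  exact lt_of_lt_of_le (hlt X g b h hb) (Nat.pow_le_pow_right (by norm_num) (by norm_num))

theorem run_ctx (hA : NumAStmt) (hD : NumDStmt) {Y : ℕ → ℕ → ℤ} {cb nc L : ℕ}
    (hcb : cb < 2 ^ (4096 * nc)) (hL : COk Y L) :
    app cb nc L < 2 ^ (4096 * (nc + 1)) ∧ (Ctx Y cb nc → Ctx Y (app cb nc L) (nc + 1)) := by
  have hL' : L < 2 ^ 4096 := by
    obtain ⟨g, hg, -⟩ := hL
    exact run_lt hA hg (by norm_num)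
  obtain ⟨h1, h2, h3⟩ := hD.1 cb nc L hcb hL'
  refine ⟨h1, fun hc q hq => ?_⟩
  rcases Nat.lt_succ_iff_lt_or_eq.1 hq with h | h
  · rw [h3 q h]
    exact hc q h
  · rw [h, h2]
    exact hL

theorem run_app_lt (hD : NumDStmt) {cb nc L : ℕ}
    (hcb : cb < 2 ^ (4096 * nc)) (hL : L < 2 ^ 4096) : app cb nc L < 2 ^ (4096 * (nc + 1)) :=
  (hD.1 cb nc L hcb hL).1

theorem run_lit_rep (hC : NumCStmt) {Y : ℕ → ℕ → ℤ} {W : ℕ} {g : ℕ → ℤ}
    (hg : Rep W g 209) {j : ℕ} (hj : j < 5) :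
    ∃ h, Rep (lit W j) h 210 ∧ psi Y h = cval Y g j + 1 := by
  refine ⟨_, hC.1 W g 209 hg (by norm_num) (by norm_num) j hj, ?_⟩
  rw [run_psi_add, run_psi_R Y g j hj, run_psi_U Y 1 j hj]

theorem run_ngl_rep (hA : NumAStmt) (hC : NumCStmt) {Y : ℕ → ℕ → ℤ} {W : ℕ} {g : ℕ → ℤ}
    (hg : Rep W g 209) {j : ℕ} (hj : j < 5) :
    ∃ h, Rep (ngl W j) h 210 ∧ psi Y h = - cval Y g j := by
  obtain ⟨-, -, -, -, -, -, -, -, -, -, -, -, hmono, -⟩ := hA
  refine ⟨_, hmono _ _ _ _ (hC.2.1 W g 209 hg (by norm_num) (by norm_num) j hj) (by norm_num), ?_⟩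
  rw [run_psi_neg, run_psi_R Y g j hj]

/-- a Farkas certificate with one literal `X` -/
theorem run_fsm (hA : NumAStmt) (hS : FsmStmt) {Y : ℕ → ℕ → ℤ} (hY : ∀ i j, 0 ≤ Y i j)
    {cb nc j X : ℕ} (hnc : 1 ≤ nc) (hj : j < 5) (hctx : Ctx Y cb nc) {h : ℕ → ℤ}
    (hX : Rep X h 210) (hpsi : psi Y h ≤ 0) {m c l : ℕ}
    (hf : fsum cb nc j m c (OFF + l * X) l = true) : False := by
  obtain ⟨hOFF, -, -, -, -, hsm, -, -, hRep, -⟩ := hA
  obtain ⟨h1, h2⟩ := (hRep X h 210).1 hX
  refine hS Y cb nc j hY hnc hj hctx m c (OFF + l * X) l (fun p => (l : ℤ) * h p) ?_ ?_ ?_ hf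
  · rw [hsm, Nat.cast_add, Nat.cast_mul, h1, hOFF]
    ring
  · intro p hp
    have := h2 p hp
    rw [abs_mul, abs_of_nonneg (Int.natCast_nonneg l)]
    have h0 : (0 : ℤ) ≤ l := Int.natCast_nonneg l
    nlinarith
  · rw [run_psi_smul]
    have h0 : (0 : ℤ) ≤ l := Int.natCast_nonneg l
    nlinarith

theorem run_fsm0 (hA : NumAStmt) (hS : FsmStmt) {Y : ℕ → ℕ → ℤ} (hY : ∀ i j, 0 ≤ Y i j)
    {cb nc j : ℕ} (hnc : 1 ≤ nc) (hj : j < 5) (hctx : Ctx Y cb nc) {m c : ℕ}
    (hf : fsum cb nc j m c OFF 0 = true) : False := by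
  obtain ⟨hOFF, -, -, -, -, hsm, -, -, hRep, -⟩ := hA
  have hz := hsm 0 (fun _ => 0)
  simp only [zero_mul] at hz
  refine hS Y cb nc j hY hnc hj hctx m c OFF 0 (fun _ => 0) ?_ ?_ ?_ hf
  · rw [hz, hOFF]
    push_cast
    ring
  · intro p hp
    simp
  · have := run_psi_smul Y 0 (fun _ => 0)
    simp only [zero_mul] at this
    exact this.le

/-! ### goal mode: clauses -/

theorem run_ck (hA : NumAStmt) (hC : NumCStmt) (hD : NumDStmt) {n v : ℕ → ℤ} {Y : ℕ → ℕ → ℤ}
    (hY : ∀ i j, 0 ≤ Y i j) {k : Kt} (hk : RunOk n v Y k) {c tbl nt cb nc : ℕ} {s : Stk}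
    (hT : TOk n v Y tbl nt) (hnc : 1 ≤ nc) (hcb : cb < 2 ^ (4096 * nc)) (hs : SWf Y s)
    {S tm fc m : ℕ} (hS : RunVS n v Y m S) (hm : m ≤ 6) (htm : tm < 32)
    (hfc : fc ≠ 0 → FOk n v Y fc) (h : ckF k c tbl nt cb nc s S tm fc m = true) :
    (Ctx Y cb nc → False) ∧ SGoal Y s := by
  obtain ⟨h1, h2⟩ := run_condf h
  have hfc0 : fc ≠ 0 := by
    rintro rfl
    exact absurd h1 (by simp)
  obtain ⟨gf, hgf, hnm⟩ := hfc hfc0
  obtain ⟨g, hg1, hg2, hg3⟩ := hS
  obtain ⟨h3, h4⟩ := run_cond h2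
  obtain ⟨h5, h6⟩ := run_cond h4
  have h3' := run_beq h3
  have h5' := run_beq h5
  rw [hD.2.2.1 tm htm] at h3'
  obtain ⟨hOFF, -, -, -, hadd, -, -, hpos, hRep, -⟩ := hA
  obtain ⟨hf1, hf2⟩ := (hRep fc gf 4).1 hgf
  have hm' : (m : ℤ) ≤ 6 := by exact_mod_cast hm
  have hbd : ∀ p < 244, |g p + gf p| ≤ 209 := by
    intro p hp
    have := hf2 p hp
    have := hg2 p hp
    have := abs_add_le (g p) (gf p)
    linarith
  have hW : Rep (S + fc - m * OFF) (fun p => g p + gf p) 209 := by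
    rw [hRep]
    refine ⟨?_, hbd⟩
    have hnn := hpos (fun p => g p + gf p) (fun p hp => (hbd p hp).trans (by norm_num))
    have hkey : ((S + fc : ℕ) : ℤ) = ((m * OFF : ℕ) : ℤ) + (encZ (fun p => g p + gf p) +
        encZ (fun _ => 32768)) := by
      rw [hadd, Nat.cast_add, Nat.cast_mul, hg1, hf1, hOFF]
      ring
    rw [Nat.cast_sub, hkey]
    · ring
    · have : ((m * OFF : ℕ) : ℤ) ≤ ((S + fc : ℕ) : ℤ) := by
        rw [hkey]
        linarith
      exact_mod_cast this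
  have hlin : lin n v Y (fun p => g p + gf p) = lin n v Y gf := by
    rw [run_lin_add, hg3, zero_add]
  have hdeg := hC.2.2.2.2.2 _ _ _ hW (by norm_num) h5'
  have hlin2 : lin n v Y (fun p => g p + gf p) =
      ∑ j ∈ range 5, cval Y (fun p => g p + gf p) j * n j := by
    unfold lin
    rw [sum_eq_zero (s := range 4), sub_zero]
    intro q hq
    have h0 := hdeg q (mem_range.1 hq)
    beta_reduce at h0 ⊢
    rw [h0, zero_mul]
  have hex : ∃ j < 5, cval Y (fun p => g p + gf p) j ≤ -1 := by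
    by_contra hcon
    push Not at hcon
    apply hnm
    rw [← hlin, hlin2]
    refine ⟨fun j => if j < 5 then cval Y (fun p => g p + gf p) j else 0, fun j => ?_, ?_⟩
    · beta_reduce
      split_ifs with hj
      · have := hcon j hj
        omega
      · exact le_refl _
    · refine sum_congr rfl fun j hj => ?_
      beta_reduce
      rw [if_pos (mem_range.1 hj)]
  have hwf : SWf Y (Stk.cons (S + fc - m * OFF) tm cb nc s) := ⟨⟨_, hW, hex⟩, hnc, hcb, hs⟩
  have hr := (hk false c tbl nt cb nc _ hT hnc hcb hwf h6).2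
  refine ⟨fun hctx => ?_, hr.2⟩
  obtain ⟨j, hj, hj1⟩ := hex
  by_cases hb : tm.testBit j = true
  · have h0 := hC.2.2.2.1 _ _ _ tm hW (by norm_num) htm h3' j hj hb
    have := run_cval_nonneg Y hY (fun p => g p + gf p) j h0
    omega
  · exact hr.1 _ hW j hj (by simpa using hb) hctx hj1

/-! ### division rule -/

theorem run_dchk {W g w cb nc : ℕ} : ∀ (N c : ℕ), dChk W g w cb nc N c ≠ 0 → ∀ t < N,
    ∃ m c' l, fsum cb nc (t / 2) m c' (OFF + l * dLit W g w t) l = true := by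
  intro N
  induction N with
  | zero => intro c _ t ht; omega
  | succ N ih =>
    intro c hc t ht
    have e : dChk W g w cb nc (N + 1) c = cond (fsum cb nc (N / 2) (byt c 0) (drp c 2)
        (OFF + byt c 1 * dLit W g w N) (byt c 1))
        (dChk W g w cb nc N (drp c (2 + 2 * byt c 0))) 0 := rfl
    rw [e] at hc
    cases hf : fsum cb nc (N / 2) (byt c 0) (drp c 2) (OFF + byt c 1 * dLit W g w N) (byt c 1) with
    | false =>
      rw [hf] at hc
      exact absurd rfl hc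
    | true =>
      rw [hf] at hc
      rcases Nat.lt_succ_iff_lt_or_eq.1 ht with h | h
      · exact ih _ hc t h
      · subst h
        exact ⟨_, _, _, hf⟩

theorem run_hE (hE : ∀ j, E j = 65536 ^ (48 * j)) (j : ℕ) :
    (65536 : ℤ) ^ (48 * j) = ((E j : ℕ) : ℤ) := by
  rw [hE j, Nat.cast_pow]
  rfl

theorem run_blk (hA : NumAStmt) (hC : NumCStmt) {W : ℕ} {g : ℕ → ℤ} {b : ℤ} (hg : Rep W g b)
    (hb0 : 0 ≤ b) (hb : b < 32767) {j : ℕ} (hj : j < 5) :
    (blk W j : ℤ) = encZ (fun p => if 48 * j ≤ p ∧ p < 48 * j + 48 then g p else 0) +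
      encZ (fun _ => 32768) := by
  obtain ⟨-, -, hE, -, hadd, -, hone, -, hRep, -⟩ := hA
  have h1 := ((hRep _ _ _).1 (hC.1 W g b hg hb0 hb j hj)).1
  have e : lit W j = blk W j + E j := rfl
  rw [e, hadd, hone (48 * j) (by omega), Nat.cast_add, run_hE hE] at h1
  linarith

theorem run_dl0_eq (W g w t : ℕ) (h : Nat.beq (Nat.mod t 2) 0 = true) : dLit W g w t =
    2 * OFF + (1 + g * byt w (t / 2)) * E (t / 2) - 32 * g * E (t / 2) - blk W (t / 2) := by
  unfold dLit
  rw [h, cond_true]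
  generalize OFF = x
  generalize blk W = y
  generalize E = z
  generalize byt w = u
  rfl

theorem run_dl1_eq (W g w t : ℕ) (h : Nat.beq (Nat.mod t 2) 0 = false) : dLit W g w t =
    blk W (t / 2) + (1 + 32 * g) * E (t / 2) - g * byt w (t / 2) * E (t / 2) := by
  unfold dLit
  rw [h, cond_false]
  generalize OFF = x
  generalize blk W = y
  generalize E = z
  generalize byt w = u
  rfl

theorem run_dnew_eq (w : ℕ) : dNew w = OFF + (byt w 0 * E 0 + byt w 1 * E 1 + byt w 2 * E 2 +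
    byt w 3 * E 3 + byt w 4 * E 4) - 32 * (E 0 + E 1 + E 2 + E 3 + E 4) := by
  unfold dNew
  generalize OFF = x
  generalize E = z
  generalize byt w = u
  rfl

theorem run_dl0 (hA : NumAStmt) (hC : NumCStmt) (Y : ℕ → ℕ → ℤ) {W : ℕ} {g : ℕ → ℤ}
    (hg : Rep W g 66) {j : ℕ} (hj : j < 5) {gg w : ℕ} (hgg : gg ≤ 4) (hw : byt w j ≤ 64) :
    ∃ h, Rep (dLit W gg w (2 * j)) h 210 ∧
      psi Y h = gg * ((byt w j : ℤ) - 32) + 1 - cval Y g j := by
  have hblk := run_blk hA hC hg (by norm_num) (by norm_num) hj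
  have hC' := hC
  obtain ⟨hOFF, -, hE, -, hadd, hsm, hone, hpos, hRep, -⟩ := hA
  have hw' : (byt w j : ℤ) ≤ 64 := by exact_mod_cast hw
  have hw0 : (0 : ℤ) ≤ byt w j := Int.natCast_nonneg _
  have hgg' : (gg : ℤ) ≤ 4 := by exact_mod_cast hgg
  have hgg0 : (0 : ℤ) ≤ gg := Int.natCast_nonneg _
  have hbnd : ∀ p < 244, |(if p = 48 * j then (gg : ℤ) * ((byt w j : ℤ) - 32) + 1 else 0) +
      (-1) * (if 48 * j ≤ p ∧ p < 48 * j + 48 then g p else 0)| ≤ 210 := by
    intro p hp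
    have h1 := abs_le.1 (hg.2 p hp)
    have h2 : (gg : ℤ) * ((byt w j : ℤ) - 32) ≤ 128 := by nlinarith
    have h3 : -128 ≤ (gg : ℤ) * ((byt w j : ℤ) - 32) := by nlinarith
    rw [abs_le]
    split_ifs <;> constructor <;> linarith [h1.1, h1.2]
  refine ⟨fun p => (if p = 48 * j then (gg : ℤ) * ((byt w j : ℤ) - 32) + 1 else 0) +
      (-1) * (if 48 * j ≤ p ∧ p < 48 * j + 48 then g p else 0), ?_, ?_⟩
  · rw [hRep]
    refine ⟨?_, hbnd⟩
    have hnn := hpos (fun p => (if p = 48 * j then (gg : ℤ) * ((byt w j : ℤ) - 32) + 1 else 0) +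
      (-1) * (if 48 * j ≤ p ∧ p < 48 * j + 48 then g p else 0))
      (fun p hp => (hbnd p hp).trans (by norm_num))
    have e : dLit W gg w (2 * j) = 2 * OFF + (1 + gg * byt w (2 * j / 2)) * E (2 * j / 2) -
        32 * gg * E (2 * j / 2) - blk W (2 * j / 2) := by
      have h0 : Nat.beq (Nat.mod (2 * j) 2) 0 = true := by
        rw [Nat.beq_eq]
        exact Nat.mul_mod_right 2 j
      exact run_dl0_eq _ _ _ _ h0
    have e2 : 2 * j / 2 = j := by omega
    rw [e2] at e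
    have hval : ((2 * OFF + (1 + gg * byt w j) * E j : ℕ) : ℤ) = ((32 * gg * E j : ℕ) : ℤ) +
        ((blk W j : ℤ) + (encZ (fun p => (if p = 48 * j then (gg : ℤ) * ((byt w j : ℤ) - 32) + 1 else 0) +
          (-1) * (if 48 * j ≤ p ∧ p < 48 * j + 48 then g p else 0)) + encZ (fun _ => 32768))) := by
      rw [hadd, hsm, hone (48 * j) (by omega), hblk, run_hE hE]
      push_cast
      rw [hOFF]
      ring
    have hb1 : 32 * gg * E j ≤ 2 * OFF + (1 + gg * byt w j) * E j := by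
      have : ((32 * gg * E j : ℕ) : ℤ) ≤ ((2 * OFF + (1 + gg * byt w j) * E j : ℕ) : ℤ) := by
        rw [hval]
        have := Int.natCast_nonneg (blk W j)
        linarith
      exact_mod_cast this
    have hb2 : blk W j ≤ 2 * OFF + (1 + gg * byt w j) * E j - 32 * gg * E j := by
      have : ((blk W j : ℕ) : ℤ) ≤ ((2 * OFF + (1 + gg * byt w j) * E j - 32 * gg * E j : ℕ) : ℤ) := by
        rw [Nat.cast_sub hb1, hval]
        linarith
      exact_mod_cast this
    rw [e, Nat.cast_sub hb2, Nat.cast_sub hb1, hval]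
    ring
  · rw [run_psi_add, run_psi_U Y _ j hj, run_psi_smul, run_psi_R Y g j hj]
    ring

theorem run_dl1 (hA : NumAStmt) (hC : NumCStmt) (Y : ℕ → ℕ → ℤ) {W : ℕ} {g : ℕ → ℤ}
    (hg : Rep W g 66) {j : ℕ} (hj : j < 5) {gg w : ℕ} (hgg : gg ≤ 4) (hw : byt w j ≤ 64) :
    ∃ h, Rep (dLit W gg w (2 * j + 1)) h 210 ∧
      psi Y h = cval Y g j + 1 - gg * ((byt w j : ℤ) - 32) := by
  have hblk := run_blk hA hC hg (by norm_num) (by norm_num) hj
  obtain ⟨hOFF, -, hE, -, hadd, hsm, hone, hpos, hRep, -⟩ := hA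
  have hw' : (byt w j : ℤ) ≤ 64 := by exact_mod_cast hw
  have hw0 : (0 : ℤ) ≤ byt w j := Int.natCast_nonneg _
  have hgg' : (gg : ℤ) ≤ 4 := by exact_mod_cast hgg
  have hgg0 : (0 : ℤ) ≤ gg := Int.natCast_nonneg _
  have hbnd : ∀ p < 244, |(if p = 48 * j then 1 - (gg : ℤ) * ((byt w j : ℤ) - 32) else 0) +
      (if 48 * j ≤ p ∧ p < 48 * j + 48 then g p else 0)| ≤ 210 := by
    intro p hp
    have h1 := abs_le.1 (hg.2 p hp)
    have h2 : (gg : ℤ) * ((byt w j : ℤ) - 32) ≤ 128 := by nlinarith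
    have h3 : -128 ≤ (gg : ℤ) * ((byt w j : ℤ) - 32) := by nlinarith
    rw [abs_le]
    split_ifs <;> constructor <;> linarith [h1.1, h1.2]
  refine ⟨fun p => (if p = 48 * j then 1 - (gg : ℤ) * ((byt w j : ℤ) - 32) else 0) +
      (if 48 * j ≤ p ∧ p < 48 * j + 48 then g p else 0), ?_, ?_⟩
  · rw [hRep]
    refine ⟨?_, hbnd⟩
    have hnn := hpos (fun p => (if p = 48 * j then 1 - (gg : ℤ) * ((byt w j : ℤ) - 32) else 0) +
      (if 48 * j ≤ p ∧ p < 48 * j + 48 then g p else 0))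
      (fun p hp => (hbnd p hp).trans (by norm_num))
    have e : dLit W gg w (2 * j + 1) = blk W ((2 * j + 1) / 2) + (1 + 32 * gg) * E ((2 * j + 1) / 2) -
        gg * byt w ((2 * j + 1) / 2) * E ((2 * j + 1) / 2) := by
      have h0 : Nat.beq (Nat.mod (2 * j + 1) 2) 0 = false := by
        have : Nat.mod (2 * j + 1) 2 = 1 := by
          show (2 * j + 1) % 2 = 1
          omega
        rw [this]
        rfl
      exact run_dl1_eq _ _ _ _ h0
    have e2 : (2 * j + 1) / 2 = j := by omega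
    rw [e2] at e
    have hval : ((blk W j + (1 + 32 * gg) * E j : ℕ) : ℤ) = ((gg * byt w j * E j : ℕ) : ℤ) +
        (encZ (fun p => (if p = 48 * j then 1 - (gg : ℤ) * ((byt w j : ℤ) - 32) else 0) +
          (if 48 * j ≤ p ∧ p < 48 * j + 48 then g p else 0)) + encZ (fun _ => 32768)) := by
      rw [hadd, hone (48 * j) (by omega), Nat.cast_add, hblk, run_hE hE]
      push_cast
      ring
    have hb1 : gg * byt w j * E j ≤ blk W j + (1 + 32 * gg) * E j := by
      have : ((gg * byt w j * E j : ℕ) : ℤ) ≤ ((blk W j + (1 + 32 * gg) * E j : ℕ) : ℤ) := by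
        rw [hval]
        linarith
      exact_mod_cast this
    rw [e, Nat.cast_sub hb1, hval]
    ring
  · rw [run_psi_add, run_psi_U Y _ j hj, run_psi_R Y g j hj]
    ring

/-- the form of the new entry -/
def runG (w : ℕ) (p : ℕ) : ℤ :=
  ((((if p = 48 * 0 then (byt w 0 : ℤ) - 32 else 0) + (if p = 48 * 1 then (byt w 1 : ℤ) - 32 else 0)) +
    (if p = 48 * 2 then (byt w 2 : ℤ) - 32 else 0)) + (if p = 48 * 3 then (byt w 3 : ℤ) - 32 else 0)) +
    (if p = 48 * 4 then (byt w 4 : ℤ) - 32 else 0)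

theorem run_dnew (hA : NumAStmt) {w : ℕ} (hw : ∀ j < 5, byt w j ≤ 64) :
    Rep (dNew w) (runG w) 33 := by
  obtain ⟨hOFF, -, hE, -, hadd, hsm, hone, hpos, hRep, -⟩ := hA
  have b0 : (byt w 0 : ℤ) ≤ 64 := by exact_mod_cast hw 0 (by norm_num)
  have b1 : (byt w 1 : ℤ) ≤ 64 := by exact_mod_cast hw 1 (by norm_num)
  have b2 : (byt w 2 : ℤ) ≤ 64 := by exact_mod_cast hw 2 (by norm_num)
  have b3 : (byt w 3 : ℤ) ≤ 64 := by exact_mod_cast hw 3 (by norm_num)
  have b4 : (byt w 4 : ℤ) ≤ 64 := by exact_mod_cast hw 4 (by norm_num)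
  have c0 : (0 : ℤ) ≤ byt w 0 := Int.natCast_nonneg _
  have c1 : (0 : ℤ) ≤ byt w 1 := Int.natCast_nonneg _
  have c2 : (0 : ℤ) ≤ byt w 2 := Int.natCast_nonneg _
  have c3 : (0 : ℤ) ≤ byt w 3 := Int.natCast_nonneg _
  have c4 : (0 : ℤ) ≤ byt w 4 := Int.natCast_nonneg _
  have hbnd : ∀ p < 244, |runG w p| ≤ 33 := by
    intro p _
    rw [abs_le]
    unfold runG
    by_cases h0 : p = 48 * 0
    · rw [if_pos h0, if_neg (by omega), if_neg (by omega), if_neg (by omega), if_neg (by omega)]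
      constructor <;> linarith
    by_cases h1 : p = 48 * 1
    · rw [if_neg h0, if_pos h1, if_neg (by omega), if_neg (by omega), if_neg (by omega)]
      constructor <;> linarith
    by_cases h2 : p = 48 * 2
    · rw [if_neg h0, if_neg h1, if_pos h2, if_neg (by omega), if_neg (by omega)]
      constructor <;> linarith
    by_cases h3 : p = 48 * 3
    · rw [if_neg h0, if_neg h1, if_neg h2, if_pos h3, if_neg (by omega)]
      constructor <;> linarith
    by_cases h4 : p = 48 * 4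
    · rw [if_neg h0, if_neg h1, if_neg h2, if_neg h3, if_pos h4]
      constructor <;> linarith
    · rw [if_neg h0, if_neg h1, if_neg h2, if_neg h3, if_neg h4]
      constructor <;> linarith
  rw [hRep]
  refine ⟨?_, hbnd⟩
  have hnn := hpos (runG w) (fun p hp => (hbnd p hp).trans (by norm_num))
  have hG : encZ (runG w) = ((((byt w 0 : ℤ) - 32) * (E 0 : ℕ) + ((byt w 1 : ℤ) - 32) * (E 1 : ℕ) +
      ((byt w 2 : ℤ) - 32) * (E 2 : ℕ)) + ((byt w 3 : ℤ) - 32) * (E 3 : ℕ)) +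
      ((byt w 4 : ℤ) - 32) * (E 4 : ℕ) := by
    unfold runG
    rw [hadd, hadd, hadd, hadd, hone (48 * 0) (by norm_num), hone (48 * 1) (by norm_num),
      hone (48 * 2) (by norm_num), hone (48 * 3) (by norm_num), hone (48 * 4) (by norm_num),
      run_hE hE, run_hE hE, run_hE hE, run_hE hE, run_hE hE]
  have e := run_dnew_eq w
  have hval : ((OFF + (byt w 0 * E 0 + byt w 1 * E 1 + byt w 2 * E 2 + byt w 3 * E 3 + byt w 4 * E 4) : ℕ) : ℤ) =
      ((32 * (E 0 + E 1 + E 2 + E 3 + E 4) : ℕ) : ℤ) + (encZ (runG w) + encZ (fun _ => 32768)) := by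
    rw [hG]
    push_cast
    rw [hOFF]
    ring
  rw [e, Nat.cast_sub, hval]
  · ring
  · have : ((32 * (E 0 + E 1 + E 2 + E 3 + E 4) : ℕ) : ℤ) ≤
        ((OFF + (byt w 0 * E 0 + byt w 1 * E 1 + byt w 2 * E 2 + byt w 3 * E 3 + byt w 4 * E 4) : ℕ) : ℤ) := by
      rw [hval]
      linarith
    exact_mod_cast this

theorem run_lin_G (n v : ℕ → ℤ) (Y : ℕ → ℕ → ℤ) (w : ℕ) :
    lin n v Y (runG w) = ∑ j ∈ range 5, ((byt w j : ℤ) - 32) * n j := by
  have h1 : ∀ j < 5, cval Y (runG w) j = (byt w j : ℤ) - 32 := by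
    intro j hj
    have e : cval Y (runG w) j = ((((if j = 0 then (byt w 0 : ℤ) - 32 else 0) +
        (if j = 1 then (byt w 1 : ℤ) - 32 else 0)) +
        (if j = 2 then (byt w 2 : ℤ) - 32 else 0)) + (if j = 3 then (byt w 3 : ℤ) - 32 else 0)) +
        (if j = 4 then (byt w 4 : ℤ) - 32 else 0) := by
      unfold runG
      rw [run_cval_add, run_cval_add, run_cval_add, run_cval_add, run_cval_U, run_cval_U, run_cval_U,
        run_cval_U, run_cval_U]
    rw [e]
    interval_cases j <;> simp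
  have h2 : ∀ q, runG w (240 + q) = 0 := by
    intro q
    unfold runG
    rw [if_neg (by omega), if_neg (by omega), if_neg (by omega), if_neg (by omega), if_neg (by omega)]
    norm_num
  unfold lin
  rw [sum_eq_zero (s := range 4) (fun q _ => by rw [h2 q, zero_mul]), sub_zero]
  exact sum_congr rfl fun j hj => by rw [h1 j (mem_range.1 hj)]

theorem run_divGo (hA : NumAStmt) (hC : NumCStmt) (hD : NumDStmt) (hS : FsmStmt) {n v : ℕ → ℤ}
    {Y : ℕ → ℕ → ℤ} (hY : ∀ i j, 0 ≤ Y i j) {k : Kt} (hk : RunOk n v Y k) {c tbl nt cb nc : ℕ}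
    (hT : TOk n v Y tbl nt) (hnc : 1 ≤ nc) (hcb : cb < 2 ^ (4096 * nc)) {W gg : ℕ} {g : ℕ → ℤ}
    (hg : Rep W g 66) (hl : lin n v Y g = 0) (h : divGo k c tbl nt cb nc W gg = true) :
    Ctx Y cb nc → False := by
  intro hctx
  obtain ⟨h1, h2⟩ := run_cond h
  obtain ⟨h3, h4⟩ := run_cond h1
  obtain ⟨h5, h6⟩ := run_cond h4
  obtain ⟨h7, h8⟩ := run_cond h5
  have h3' := run_beq h3
  have hgg1 : 1 ≤ gg := run_ble h7
  have hgg4 : gg ≤ 4 := run_ble h8
  have hw : ∀ j < 5, byt c j ≤ 64 := by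
    obtain ⟨a0, k0⟩ := run_cond h6
    obtain ⟨a1, k1⟩ := run_cond k0
    obtain ⟨a2, k2⟩ := run_cond k1
    obtain ⟨a3, k3⟩ := run_cond k2
    intro j hj
    interval_cases j
    · exact run_ble a0
    · exact run_ble a1
    · exact run_ble a2
    · exact run_ble a3
    · exact run_ble k3
  have hdeg := hC.2.2.2.2.2 _ _ _ hg (by norm_num) h3'
  cases hch : dChk W gg c cb nc 10 (drp c 5) with
  | zero =>
    have h2' : Nat.casesOn (motive := fun _ => Bool) (dChk W gg c cb nc 10 (drp c 5)) false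
      (fun c' => k true c' (appV tbl nt (dNew c)) (nt + 2) cb nc Stk.nil) = true := h2
    rw [hch] at h2'
    exact absurd h2' (by simp)
  | succ c' =>
    have h2' : Nat.casesOn (motive := fun _ => Bool) (dChk W gg c cb nc 10 (drp c 5)) false
      (fun c' => k true c' (appV tbl nt (dNew c)) (nt + 2) cb nc Stk.nil) = true := h2
    rw [hch] at h2'
    have h2'' : k true c' (appV tbl nt (dNew c)) (nt + 2) cb nc Stk.nil = true := h2'
    have hne : dChk W gg c cb nc 10 (drp c 5) ≠ 0 := by rw [hch]; exact Nat.succ_ne_zero _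
    have hcv : ∀ j < 5, cval Y g j = gg * ((byt c j : ℤ) - 32) := by
      intro j hj
      apply le_antisymm
      · by_contra hcon
        push Not at hcon
        obtain ⟨h, hh1, hh2⟩ := run_dl0 hA hC Y hg hj hgg4 (hw j hj)
        obtain ⟨m, c'', l, hf⟩ := run_dchk 10 (drp c 5) hne (2 * j) (by omega)
        have e2 : 2 * j / 2 = j := by omega
        rw [e2] at hf
        exact run_fsm hA hS hY hnc hj hctx hh1 (by rw [hh2]; omega) hf
      · by_contra hcon
        push Not at hcon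
        obtain ⟨h, hh1, hh2⟩ := run_dl1 hA hC Y hg hj hgg4 (hw j hj)
        obtain ⟨m, c'', l, hf⟩ := run_dchk 10 (drp c 5) hne (2 * j + 1) (by omega)
        have e2 : (2 * j + 1) / 2 = j := by omega
        rw [e2] at hf
        exact run_fsm hA hS hY hnc hj hctx hh1 (by rw [hh2]; omega) hf
    have hsum : lin n v Y (runG c) = 0 := by
      rw [run_lin_G]
      have h0 : (gg : ℤ) * ∑ j ∈ range 5, ((byt c j : ℤ) - 32) * n j = 0 := by
        have e1 : lin n v Y g = ∑ j ∈ range 5, cval Y g j * n j := by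
          unfold lin
          rw [sum_eq_zero (s := range 4) (fun q hq => by rw [hdeg q (mem_range.1 hq), zero_mul]), sub_zero]
        rw [← hl, e1, mul_sum]
        refine sum_congr rfl fun j hj => ?_
        rw [hcv j (mem_range.1 hj)]
        ring
      rcases mul_eq_zero.1 h0 with h | h
      · exfalso
        have : gg = 0 := by exact_mod_cast h
        omega
      · exact h
    have hV := run_dnew hA hw
    have hneg : Rep (2 * OFF - dNew c) (fun p => - runG c p) 33 := by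
      obtain ⟨-, -, -, -, -, -, -, -, -, -, -, hn, -⟩ := hA
      exact hn _ _ _ hV (by norm_num)
    obtain ⟨q1, q2, q3, q4⟩ := hD.2.1 tbl nt (dNew c) hT.2.1 (run_lt hA hV (by norm_num))
      (run_lt hA hneg (by norm_num))
    have hT' : TOk n v Y (appV tbl nt (dNew c)) (nt + 2) := by
      refine ⟨by omega, q1, fun r hr => ?_⟩
      by_cases hr1 : r < nt
      · rw [q4 r hr1]
        exact hT.2.2 r hr1
      · by_cases hr2 : r = nt
        · rw [hr2, q2]
          exact ⟨_, hV, hsum⟩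
        · have hr3 : r = nt + 1 := by omega
          rw [hr3, q3]
          refine ⟨_, hneg, ?_⟩
          rw [run_lin_neg, hsum, neg_zero]
    exact (hk true c' _ _ cb nc Stk.nil hT' hnc hcb trivial h2'').1 rfl hctx

/-! ### frame mode -/

theorem run_bit_ne {m j jj : ℕ} (hm : m.testBit jj = false) (h : jj ≠ j) :
    (Nat.lor m (pw j)).testBit jj = false := by
  show (m ||| 2 ^ j).testBit jj = false
  rw [Nat.testBit_or, hm, Nat.testBit_two_pow]
  simp [Ne.symm h]

theorem run_31 {m jj : ℕ} (hj : jj < 5) (h : m = 31) : m.testBit jj = true := by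
  subst h
  interval_cases jj <;> decide

theorem run_frame (hA : NumAStmt) (hC : NumCStmt) (hD : NumDStmt) (hS : FsmStmt) {n v : ℕ → ℤ}
    {Y : ℕ → ℕ → ℤ} (hY : ∀ i j, 0 ≤ Y i j) {k : Kt} (hk : RunOk n v Y k) {c tbl nt : ℕ} {s : Stk}
    (hT : TOk n v Y tbl nt) (hs : SWf Y s) {t j : ℕ} (hj : j < 5)
    (h : frameOp k c tbl nt s t j = true) : SGoal Y s := by
  cases s with
  | nil => trivial
  | cons W m cb nc s' =>
    obtain ⟨hW, hnc, hcb, hs'⟩ := hs
    have hlt : lit W j < 2 ^ 4096 := by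
      obtain ⟨g, hg, -⟩ := hW
      obtain ⟨h, hh1, -⟩ := run_lit_rep hC (Y := Y) hg hj
      exact run_lt hA hh1 (by norm_num)
    have happ := run_app_lt hD hcb hlt
    rcases t with _ | _ | _ | _ | t
    · have h' : inl k (drp c 3) tbl nt (byt c 1) (byt c 2) W (Nat.lor m (pw j)) cb nc s' j = true := h
      obtain ⟨h1, h2⟩ := run_cond h'
      have hlit : ∀ g, Rep W g 209 → Ctx Y cb nc → cval Y g j ≤ -1 → False := by
        intro g hg hctx hcv
        obtain ⟨h, hh1, hh2⟩ := run_lit_rep hC (Y := Y) hg hj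
        exact run_fsm hA hS hY hnc hj hctx hh1 (by rw [hh2]; omega) h1
      cases hb : Nat.beq (Nat.lor m (pw j)) (nat_lit 31) with
      | true =>
        rw [hb] at h2
        have hpop : pop k _ tbl nt s' = true := h2
        refine ⟨fun g hg jj hjj hbit hctx hcv => ?_, run_pop hk hT hs' hpop⟩
        by_cases e : jj = j
        · subst e
          exact hlit g hg hctx hcv
        · exact absurd (run_bit_ne hbit e) (by rw [run_31 hjj (run_beq hb)]; simp)
      | false =>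
        rw [hb] at h2
        have hgo : k false _ tbl nt cb nc (Stk.cons W (Nat.lor m (pw j)) cb nc s') = true := h2
        have hr := (hk false _ tbl nt cb nc (Stk.cons W (Nat.lor m (pw j)) cb nc s') hT hnc hcb
          ⟨hW, hnc, hcb, hs'⟩ hgo).2
        refine ⟨fun g hg jj hjj hbit hctx hcv => ?_, hr.2⟩
        by_cases e : jj = j
        · subst e
          exact hlit g hg hctx hcv
        · exact hr.1 g hg jj hjj (run_bit_ne hbit e) hctx hcv
    · have h' : lastC k (drp c 1) tbl nt W (Nat.lor m (pw j)) cb nc s' j = true := h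
      obtain ⟨h1, h2⟩ := run_cond h'
      have h2' : k true (drp c 1) tbl nt (app cb nc (lit W j)) (nc + 1) s' = true := h2
      have hr := hk true _ tbl nt _ (nc + 1) s' hT (by omega) happ hs' h2'
      refine ⟨fun g hg jj hjj hbit hctx hcv => ?_, hr.2⟩
      by_cases e : jj = j
      · subst e
        obtain ⟨h, hh1, hh2⟩ := run_lit_rep hC (Y := Y) hg hj
        exact hr.1 rfl ((run_ctx hA hD hcb ⟨h, hh1, by rw [hh2]; omega⟩).2 hctx)
      · exact absurd (run_bit_ne hbit e) (by rw [run_31 hjj (run_beq h1)]; simp)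
    · have h2' : k true (drp c 1) tbl nt (app cb nc (lit W j)) (nc + 1)
        (Stk.cons W (Nat.lor m (pw j)) cb nc s') = true := h
      have hr := hk true _ tbl nt _ (nc + 1) (Stk.cons W (Nat.lor m (pw j)) cb nc s') hT (by omega)
        happ ⟨hW, hnc, hcb, hs'⟩ h2'
      refine ⟨fun g hg jj hjj hbit hctx hcv => ?_, hr.2.2⟩
      by_cases e : jj = j
      · subst e
        obtain ⟨h, hh1, hh2⟩ := run_lit_rep hC (Y := Y) hg hj
        exact hr.1 rfl ((run_ctx hA hD hcb ⟨h, hh1, by rw [hh2]; omega⟩).2 hctx)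
      · exact hr.2.1 g hg jj hjj (run_bit_ne hbit e) hctx hcv
    · have h2' : k true (drp c 1) tbl nt (app cb nc (lit W j)) (nc + 1)
        (Stk.cons W (Nat.lor m (pw j)) (app cb nc (ngl W j)) (nc + 1) s') = true := h
      have hlt2 : ngl W j < 2 ^ 4096 := by
        obtain ⟨g, hg, -⟩ := hW
        obtain ⟨h, hh1, -⟩ := run_ngl_rep hA hC (Y := Y) hg hj
        exact run_lt hA hh1 (by norm_num)
      have happ2 := run_app_lt hD hcb hlt2
      have hr := hk true _ tbl nt _ (nc + 1) (Stk.cons W (Nat.lor m (pw j)) (app cb nc (ngl W j))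
        (nc + 1) s') hT (by omega) happ ⟨hW, by omega, happ2, hs'⟩ h2'
      refine ⟨fun g hg jj hjj hbit hctx hcv => ?_, hr.2.2⟩
      by_cases hneg : cval Y g j ≤ -1
      · obtain ⟨h, hh1, hh2⟩ := run_lit_rep hC (Y := Y) hg hj
        exact hr.1 rfl ((run_ctx hA hD hcb ⟨h, hh1, by rw [hh2]; omega⟩).2 hctx)
      · have e : jj ≠ j := by
          rintro rfl
          exact hneg hcv
        obtain ⟨h, hh1, hh2⟩ := run_ngl_rep hA hC (Y := Y) hg hj
        exact hr.2.1 g hg jj hjj (run_bit_ne hbit e)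
          ((run_ctx hA hD hcb ⟨h, hh1, by rw [hh2]; omega⟩).2 hctx) hcv
    · have h' : endF k (drp c 1) tbl nt m s' = true := h
      obtain ⟨h1, h2⟩ := run_cond h'
      refine ⟨fun g hg jj hjj hbit hctx hcv => ?_, run_pop hk hT hs' h2⟩
      exact absurd hbit (by rw [run_31 hjj (run_beq h1)]; simp)

theorem run_goal (hA : NumAStmt) (hC : NumCStmt) (hD : NumDStmt) (hF : FctStmt) (hS : FsmStmt)
    {sf : Bool} {n el : ℕ → ℤ} {F : ℤ} {st : ℕ} (hG : Good sf n el F) (hH : Holds n el st)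
    {Y : ℕ → ℕ → ℤ} (hY : ∀ i j, 0 ≤ Y i j) {k : Kt} (hk : RunOk n (env sf el F) Y k)
    {c tbl nt cb nc : ℕ} {s : Stk} (hT : TOk n (env sf el F) Y tbl nt) (hnc : 1 ≤ nc)
    (hcb : cb < 2 ^ (4096 * nc)) (hs : SWf Y s) {op : ℕ}
    (h : goalOp (dxT sf) sf st k c tbl nt cb nc s op = true) :
    (Ctx Y cb nc → False) ∧ SGoal Y s := by
  rcases op with _ | _ | _ | op
  · have h' : clause3 (dxT sf) sf st k c tbl nt cb nc s = true := h
    unfold clause3 at h'
    refine run_ck hA hC hD hY hk hT hnc hcb hs ?_ (by norm_num) (Nat.mod_lt _ (by norm_num))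
      (fun h0 => hF sf n el F Y st _ _ _ hG hH (run_byt _ _) (run_byt _ _) h0) h'
    exact run_vsadd hA (run_vsadd hA (run_vs1 hA (run_get hT _)) (run_get hT _)) (run_get hT _)
  · have h' : fLeaf k (drp c 3) tbl nt cb nc s (byt c 1) (byt c 2) = true := h
    obtain ⟨h1, h2⟩ := run_cond h'
    obtain ⟨h3, h4⟩ := run_cond h1
    have hj : byt c 1 < 5 := Nat.lt_succ_of_le (run_ble h3)
    exact ⟨fun hctx => run_fsm0 hA hS hY hnc hj hctx h4, run_pop hk hT hs h2⟩
  · have h' : clause6 (dxT sf) sf st k c tbl nt cb nc s = true := h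
    unfold clause6 at h'
    refine run_ck hA hC hD hY hk hT hnc hcb hs ?_ (by norm_num) (Nat.mod_lt _ (by norm_num))
      (fun h0 => hF sf n el F Y st _ _ _ hG hH (run_byt _ _) (run_byt _ _) h0) h'
    exact run_vsadd hA (run_vsadd hA (run_vsadd hA (run_vsadd hA (run_vsadd hA
      (run_vs1 hA (run_get hT _)) (run_get hT _)) (run_get hT _)) (run_get hT _)) (run_get hT _))
      (run_get hT _)
  · have h' : divOp k c tbl nt cb nc s = true := h
    cases s with
    | cons W m cb nc s' => exact absurd h' (by simp [divOp])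
    | nil =>
      have h2 : divGo k (drp c 4) tbl nt cb nc
        (getT tbl (Nat.mod (byt c 1) nt) + getT tbl (Nat.mod (byt c 2) nt) - OFF) (byt c 3) = true := h'
      obtain ⟨g1, hg1, hl1⟩ := run_get hT (byt c 1)
      obtain ⟨g2, hg2, hl2⟩ := run_get hT (byt c 2)
      have hW : Rep (getT tbl (Nat.mod (byt c 1) nt) + getT tbl (Nat.mod (byt c 2) nt) - OFF)
          (fun p => g1 p + g2 p) 66 := by
        have hA' := hA
        obtain ⟨-, -, -, -, -, -, -, -, -, -, ha, -⟩ := hA'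
        have := ha _ _ _ _ _ _ hg1 hg2 (by norm_num)
        norm_num at this
        exact this
      refine ⟨run_divGo hA hC hD hS hY hk hT hnc hcb hW ?_ h2, trivial⟩
      rw [run_lin_add, hl1, hl2, add_zero]

/-- **Run.** -/
theorem run_sound (hA : NumAStmt) (_hB : NumBStmt) (hC : NumCStmt) (hD : NumDStmt) (hF : FctStmt)
    (hS : FsmStmt) : RunStmt := by
  intro sf n el F Y st hG hH hY
  have key : ∀ f, RunOk n (env sf el F) Y (run (dxT sf) sf st f) := by
    intro f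
    induction f with
    | zero =>
      intro md c tbl nt cb nc s _ _ _ _ h
      have h' : false = true := h
      exact absurd h' (by simp)
    | succ f ih =>
      intro md c tbl nt cb nc s hT hnc hcb hs h
      have h' : step (dxT sf) sf st (run (dxT sf) sf st f) md c tbl nt cb nc s = true := h
      cases md with
      | true =>
        have h2 : goalOp (dxT sf) sf st (run (dxT sf) sf st f) c tbl nt cb nc s (byt c 0) = true := h'
        have := run_goal hA hC hD hF hS hG hH hY ih hT hnc hcb hs h2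
        exact ⟨fun _ => this.1, this.2⟩
      | false =>
        have h2 : frameOp (run (dxT sf) sf st f) c tbl nt s (Nat.div (byt c 0) 5)
          (Nat.mod (byt c 0) 5) = true := h'
        exact ⟨fun h => absurd h (by simp),
          run_frame hA hC hD hS hY ih hT hs (Nat.mod_lt _ (by norm_num)) h2⟩
  intro f
  exact key f

end Pool.Agent.MP_62a449_al.Five
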