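import Pool.Agent.Lib.MP_62a449_al.Five.NumA
import Pool.Agent.Lib.MP_62a449_al.Five.NumB
import Pool.Agent.Lib.MP_62a449_al.Five.NumC
import Pool.Agent.Lib.MP_62a449_al.Five.NumD
import Pool.Agent.Lib.MP_62a449_al.Five.MemA
import Pool.Agent.Lib.MP_62a449_al.Five.Fct
import Pool.Agent.Lib.MP_62a449_al.Five.Fsm
import Pool.Agent.Lib.MP_62a449_al.Five.Run
import Pool.Agent.Lib.MP_62a449_al.Five.Int
import Pool.Agent.Lib.MP_62a449_al.Five.Bit
import Pool.Agent.Lib.MP_62a449_al.Five.Prc
import Pool.Agent.Lib.MP_62a449_al.Five.Rel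
import Pool.Agent.Lib.MP_62a449_al.Five.Pat2

/-!
Soundness of the checker, assembled.
-/

namespace Pool.Agent.MP_62a449_al.Five

theorem asm_numB : NumBStmt := numB numA
theorem asm_numC : NumCStmt := numC numA asm_numB
theorem asm_fct : FctStmt := fct numA numD
theorem asm_fsm : FsmStmt := fsm numA asm_numC
theorem asm_run : RunStmt := run_sound numA asm_numB asm_numC numD asm_fct asm_fsm
theorem asm_int : IntStmt := int numA numD memA asm_run
theorem asm_bit : BitStmt := bit memA
theorem asm_prc : PrcStmt := prc_sound memA asm_bit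

/-- a checked certificate proves its claim -/
theorem clm {sf m2 : Bool} {refs items : List ℕ} {st : ℕ} (h : check sf m2 refs items st = true)
    (hr : ∀ L ∈ refs, Claim sf m2 L) : Claim sf m2 st :=
  pat_sound2 memA asm_int asm_bit asm_prc rel sf m2 refs items st h hr

theorem rnil {sf m2 : Bool} : ∀ L ∈ ([] : List ℕ), Claim sf m2 L := fun L h => absurd h (by simp)

theorem rcons {sf m2 : Bool} {a : ℕ} {l : List ℕ} (h1 : Claim sf m2 a) (h2 : ∀ L ∈ l, Claim sf m2 L) :
    ∀ L ∈ a :: l, Claim sf m2 L := by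
  intro L h
  rcases List.mem_cons.mp h with rfl | h
  · exact h1
  · exact h2 L h

theorem rapp {sf m2 : Bool} {l m : List ℕ} (h1 : ∀ L ∈ l, Claim sf m2 L) (h2 : ∀ L ∈ m, Claim sf m2 L) :
    ∀ L ∈ l ++ m, Claim sf m2 L := by
  intro L h
  rcases List.mem_append.mp h with h | h
  · exact h1 L h
  · exact h2 L h

end Pool.Agent.MP_62a449_al.Five
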