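

/-!
The certificate checker for the theorem `A(5) = 5`.

Everything is a computation with natural numbers written with the functions that the kernel
evaluates directly (`Nat.add`, `Nat.mul`, `Nat.div`, ...), by direct recursion on a fuel.

A *form* has 244 integer digits `g p` with `p < 244`: `p = 48 j + i` (`j < 5`, `i < 48`) is the coefficient
of the variable number `i` of coordinate `j` (`i = 0`: the constant), `p = 240 + q` (`q < 4`) is a degree
digit.  Its code is `∑ (g p + 2^15) * 2^(16 p)`.  Tables are numbers with slots of 4096 bits.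
-/

namespace Pool.Agent.MP_62a449_al.Five

/-- the code of the zero form -/
def OFF : Nat := Nat.mul (nat_lit 32768) (Nat.div (Nat.pow (nat_lit 2) (nat_lit 3904)) (nat_lit 65535))
/-- the part of `OFF` in one coordinate -/
def OFFc : Nat := Nat.mul (nat_lit 32768) (Nat.div (Nat.pow (nat_lit 2) (nat_lit 768)) (nat_lit 65535))
/-- unit of coordinate j -/
def E (j : Nat) : Nat := Nat.pow (nat_lit 2) (Nat.mul (nat_lit 768) j)
/-- unit of the degree digit j -/
def D (j : Nat) : Nat := Nat.pow (nat_lit 2) (Nat.add (nat_lit 3840) (Nat.mul (nat_lit 16) j))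
/-- entry of a table -/
def getT (t i : Nat) : Nat :=
  Nat.mod (Nat.shiftRight t (Nat.mul (nat_lit 4096) i)) (Nat.pow (nat_lit 2) (nat_lit 4096))
def bitT (t i : Nat) : Nat := Nat.mod (Nat.shiftRight t i) (nat_lit 2)
/-- byte number `i` of the certificate `c` -/
def byt (c i : Nat) : Nat := Nat.mod (Nat.shiftRight c (Nat.mul (nat_lit 8) i)) (nat_lit 256)
/-- drop `i` bytes -/
def drp (c i : Nat) : Nat := Nat.shiftRight c (Nat.mul (nat_lit 8) i)

def mkTab : List Nat → Nat
  | [] => 0
  | a :: l => Nat.add a (Nat.mul (mkTab l) (2 ^ 4096))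

/-- degree table: entry `x`: `- deg x`; entry 7: `- deg F`; entry `8 + x`: `deg x` (codes) -/
def dxL (sf : Bool) : List Nat := cond sf
  [OFF - D 0, OFF - D 0, OFF - D 1, OFF + D 1 - 2 * D 0, OFF - D 2, OFF + D 2 - 2 * D 0, OFF, OFF - 2 * D 0,
    OFF + D 0, OFF + D 0, OFF + D 1, OFF + 2 * D 0 - D 1, OFF + D 2, OFF + 2 * D 0 - D 2]
  [OFF - D 1, OFF + D 1 - D 0, OFF - D 2, OFF + D 2 - D 0, OFF - D 3, OFF + D 3 - D 0, OFF, OFF - D 0,
    OFF + D 1, OFF + D 0 - D 1, OFF + D 2, OFF + D 0 - D 2, OFF + D 3, OFF + D 0 - D 3]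
def dxT (sf : Bool) : Nat := mkTab (dxL sf)

/-- sum of the units of the coordinates whose bit in `m` is `0` -/
def unmE (m : Nat) : Nat :=
  (1 - m % 2) + (1 - m / 2 % 2) * 2 ^ 768 + (1 - m / 4 % 2) * 2 ^ 1536 + (1 - m / 8 % 2) * 2 ^ 2304
    + (1 - m / 16 % 2) * 2 ^ 3072
def unmT : Nat := mkTab ((List.range 32).map unmE)
/-- top bits of the coordinates in the mask `t` -/
def topE (t : Nat) : Nat :=
  OFFc * (t % 2 + (t / 2 % 2) * 2 ^ 768 + (t / 4 % 2) * 2 ^ 1536 + (t / 8 % 2) * 2 ^ 2304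
    + (t / 16 % 2) * 2 ^ 3072)
def topT : Nat := mkTab ((List.range 32).map topE)

/-- the five bits `NON (x, a, ·)` of the row `r = 5 x + a` -/
def row (st r : Nat) : Nat :=
  Nat.mod (Nat.shiftRight st (Nat.add (nat_lit 150) (Nat.mul (nat_lit 5) r))) (nat_lit 32)
/-- the five bits `PUR (i, ·)`, `i = 5 r + b` -/
def purrow (st i : Nat) : Nat :=
  Nat.mod (Nat.shiftRight st (Nat.add (nat_lit 1050) (Nat.mul (nat_lit 5) i))) (nat_lit 32)
def pw (b : Nat) : Nat := Nat.pow (nat_lit 2) b

/-! ### Facts -/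

/-- `NON i`, `i < 150` -/
def fact0 (dx st i : Nat) : Nat :=
  cond (Nat.ble i (nat_lit 149))
    (Nat.mul (bitT st (Nat.add (nat_lit 150) i))
      (Nat.sub (Nat.add (getT dx (Nat.div i (nat_lit 25))) (E (Nat.mod (Nat.div i (nat_lit 5)) (nat_lit 5))))
        (E (Nat.mod i (nat_lit 5))))) (nat_lit 0)
/-- `n r - n b` for `r ≠ b`, `r, b < 5` -/
def fact1 (r b : Nat) : Nat :=
  cond (Nat.beq r b) (nat_lit 0)
    (cond (Nat.ble r (nat_lit 4)) (cond (Nat.ble b (nat_lit 4)) (Nat.sub (Nat.add OFF (E r)) (E b)) (nat_lit 0)) (nat_lit 0))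
/-- `F` (`r = 7`) or the element `r < 6` -/
def fact2 (dx r : Nat) : Nat :=
  cond (Nat.beq r (nat_lit 6)) (nat_lit 0) (cond (Nat.ble r (nat_lit 7)) (getT dx r) (nat_lit 0))
/-- the difference of the elements `r ≠ b` -/
def fact3 (dx : Nat) (sf : Bool) (r b : Nat) : Nat :=
  cond (cond sf (cond (Nat.ble r (nat_lit 1)) (Nat.ble b (nat_lit 1)) false) false) (nat_lit 0)
    (cond (Nat.beq r b) (nat_lit 0)
      (cond (cond (Nat.ble r (nat_lit 5)) (Nat.ble b (nat_lit 5)) false)
        (Nat.sub (Nat.add (getT dx r) (getT dx (Nat.add (nat_lit 8) b))) OFF) (nat_lit 0)))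
/-- `PUR (i, b)`, `i < 150`, `b < 5` -/
def fact4 (dx st i b : Nat) : Nat :=
  cond (cond (Nat.ble i (nat_lit 149)) (Nat.ble b (nat_lit 4)) false)
    (Nat.mul (bitT st (Nat.add (nat_lit 1050) (Nat.add (Nat.mul (nat_lit 5) i) b)))
      (Nat.sub (Nat.sub (Nat.add (getT dx (Nat.div i (nat_lit 25))) (E (Nat.mod (Nat.div i (nat_lit 5)) (nat_lit 5))))
        (E (Nat.mod i (nat_lit 5)))) (E b))) (nat_lit 0)
/-- code of a fact (a form whose value is not in the semigroup); `0` if it is not legal -/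
def fact (dx : Nat) (sf : Bool) (st k r b : Nat) : Nat :=
  Nat.casesOn k (fact0 dx st r) (fun k => Nat.casesOn k (fact1 r b) (fun k => Nat.casesOn k (fact2 dx r)
    (fun k => Nat.casesOn k (fact3 dx sf r b) (fun _ => fact4 dx st r b))))

/-! ### Literals -/

/-- the part of `W` in coordinate `j`, as a code -/
def blk (W j : Nat) : Nat :=
  Nat.sub (Nat.add (Nat.mul (Nat.mod (Nat.shiftRight W (Nat.mul (nat_lit 768) j)) (Nat.pow (nat_lit 2) (nat_lit 768))) (E j)) OFF)
    (Nat.mul OFFc (E j))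
/-- the literal `W_j + 1 ≤ 0` -/
def lit (W j : Nat) : Nat := Nat.add (blk W j) (E j)
/-- the literal `- W_j ≤ 0` -/
def ngl (W j : Nat) : Nat := Nat.sub (Nat.mul (nat_lit 2) OFF) (blk W j)
/-- append a constraint -/
def app (cb nc L : Nat) : Nat := Nat.add cb (Nat.mul L (Nat.pow (nat_lit 2) (Nat.mul (nat_lit 4096) nc)))

/-- final test of a Farkas certificate: all digits nonnegative, constant of coordinate `j` positive -/
def fEnd (T j Lam : Nat) : Bool :=
  cond (Nat.ble Lam (nat_lit 150))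
    (cond (Nat.beq (Nat.land T OFF) OFF)
      (Nat.ble (nat_lit 32769) (Nat.mod (Nat.shiftRight T (Nat.mul (nat_lit 768) j)) (nat_lit 65536))) false) false

/-- Farkas combination: `n` pairs (index, multiplier), `S` the sum, `Lam` the sum of the multipliers -/
noncomputable def fsum (cb nc j n : Nat) : Nat → Nat → Nat → Bool :=
  Nat.rec (fun _ S Lam => fEnd (Nat.sub S (Nat.mul Lam OFF)) j Lam)
    (fun _ ih => fun c S Lam => ih (drp c (nat_lit 2))
      (Nat.add S (Nat.mul (byt c (nat_lit 1)) (getT cb (Nat.mod (byt c (nat_lit 0)) nc))))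
      (Nat.add Lam (byt c (nat_lit 1)))) n

/-- stack of clause frames: the form `W`, the mask of the coordinates already treated, the constraints -/
inductive Stk
  | nil : Stk
  | cons (W m cb nc : Nat) (s : Stk) : Stk

/-- continuation: mode (`true`: goal, `false`: frame), certificate, table, its size, constraints, their number, stack -/
abbrev Kt := Bool → Nat → Nat → Nat → Nat → Nat → Stk → Bool

/-- return to the frame on top -/
def pop (k : Kt) (c tbl nt : Nat) (s : Stk) : Bool :=
  Stk.casesOn s true (fun _ _ cb' nc' _ => k false c tbl nt cb' nc' s)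

def clauseGo (k : Kt) (c tbl nt cb nc : Nat) (s : Stk) (W tm TM : Nat) : Bool :=
  cond (Nat.beq (Nat.land W TM) TM)
    (cond (Nat.beq (Nat.shiftRight W (nat_lit 3840)) (Nat.shiftRight OFF (nat_lit 3840)))
      (k false c tbl nt cb nc (Stk.cons W tm cb nc s)) false) false

def ckF (k : Kt) (c tbl nt cb nc : Nat) (s : Stk) (S tm fc m : Nat) : Bool :=
  cond (Nat.beq fc (nat_lit 0)) false
    (clauseGo k c tbl nt cb nc s (Nat.sub (Nat.add S fc) (Nat.mul m OFF)) tm (getT topT tm))

def clause3 (dx : Nat) (sf : Bool) (st : Nat) (k : Kt) (c tbl nt cb nc : Nat) (s : Stk) : Bool :=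
  ckF k (drp c (nat_lit 8)) tbl nt cb nc s
    (Nat.add (Nat.add (getT tbl (Nat.mod (byt c (nat_lit 1)) nt)) (getT tbl (Nat.mod (byt c (nat_lit 2)) nt)))
      (getT tbl (Nat.mod (byt c (nat_lit 3)) nt)))
    (Nat.mod (byt c (nat_lit 7)) (nat_lit 32))
    (fact dx sf st (byt c (nat_lit 4)) (byt c (nat_lit 5)) (byt c (nat_lit 6))) (nat_lit 3)

def clause6 (dx : Nat) (sf : Bool) (st : Nat) (k : Kt) (c tbl nt cb nc : Nat) (s : Stk) : Bool :=
  ckF k (drp c (nat_lit 11)) tbl nt cb nc s
    (Nat.add (Nat.add (Nat.add (Nat.add (Nat.add (getT tbl (Nat.mod (byt c (nat_lit 1)) nt))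
      (getT tbl (Nat.mod (byt c (nat_lit 2)) nt)))
      (getT tbl (Nat.mod (byt c (nat_lit 3)) nt))) (getT tbl (Nat.mod (byt c (nat_lit 4)) nt)))
      (getT tbl (Nat.mod (byt c (nat_lit 5)) nt))) (getT tbl (Nat.mod (byt c (nat_lit 6)) nt)))
    (Nat.mod (byt c (nat_lit 10)) (nat_lit 32))
    (fact dx sf st (byt c (nat_lit 7)) (byt c (nat_lit 8)) (byt c (nat_lit 9))) (nat_lit 6)

/-- Farkas leaf: bytes j, n, pairs -/
noncomputable def fLeaf (k : Kt) (c tbl nt cb nc : Nat) (s : Stk) (j n : Nat) : Bool :=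
  cond (cond (Nat.ble j (nat_lit 4)) (fsum cb nc j n c OFF (nat_lit 0)) false)
    (pop k (drp c (Nat.mul (nat_lit 2) n)) tbl nt s) false

/-! Division rule: two references give a form `W` of degree `0`; `10` Farkas certificates show
`W_j = g * w_j`; then `w` is a new entry. -/

/-- literal number `t < 10` of the division rule; `w` are the bytes `w_j + 32` -/
def dLit (W g w t : Nat) : Nat :=
  cond (Nat.beq (Nat.mod t (nat_lit 2)) (nat_lit 0))
    -- g w + 1 - W_j ≤ 0
    (Nat.sub (Nat.sub (Nat.add (Nat.mul (nat_lit 2) OFF)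
      (Nat.mul (Nat.add (nat_lit 1) (Nat.mul g (byt w (Nat.div t (nat_lit 2))))) (E (Nat.div t (nat_lit 2)))))
      (Nat.mul (Nat.mul (nat_lit 32) g) (E (Nat.div t (nat_lit 2))))) (blk W (Nat.div t (nat_lit 2))))
    -- W_j + 1 - g w ≤ 0
    (Nat.sub (Nat.add (blk W (Nat.div t (nat_lit 2)))
      (Nat.mul (Nat.add (nat_lit 1) (Nat.mul (nat_lit 32) g)) (E (Nat.div t (nat_lit 2)))))
      (Nat.mul (Nat.mul g (byt w (Nat.div t (nat_lit 2)))) (E (Nat.div t (nat_lit 2)))))

/-- the ten Farkas certificates; returns the rest of the certificate plus one, or zero -/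
noncomputable def dChk (W g w cb nc n : Nat) : Nat → Nat :=
  Nat.rec (fun c => Nat.succ c)
    (fun t ih => fun c =>
      cond (fsum cb nc (Nat.div t (nat_lit 2)) (byt c (nat_lit 0)) (drp c (nat_lit 2))
          (Nat.add OFF (Nat.mul (byt c (nat_lit 1)) (dLit W g w t))) (byt c (nat_lit 1)))
        (ih (drp c (Nat.add (nat_lit 2) (Nat.mul (nat_lit 2) (byt c (nat_lit 0)))))) (nat_lit 0)) n

/-- the new entry `w` (bytes `w_j + 32`) -/
def dNew (w : Nat) : Nat :=
  Nat.sub (Nat.add OFF (Nat.add (Nat.add (Nat.add (Nat.add (Nat.mul (byt w (nat_lit 0)) (E (nat_lit 0)))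
    (Nat.mul (byt w (nat_lit 1)) (E (nat_lit 1)))) (Nat.mul (byt w (nat_lit 2)) (E (nat_lit 2))))
    (Nat.mul (byt w (nat_lit 3)) (E (nat_lit 3)))) (Nat.mul (byt w (nat_lit 4)) (E (nat_lit 4)))))
    (Nat.mul (nat_lit 32) (Nat.add (Nat.add (Nat.add (Nat.add (E (nat_lit 0)) (E (nat_lit 1))) (E (nat_lit 2)))
      (E (nat_lit 3))) (E (nat_lit 4))))

def bytOk (w : Nat) : Bool :=
  cond (Nat.ble (byt w (nat_lit 0)) (nat_lit 64)) (cond (Nat.ble (byt w (nat_lit 1)) (nat_lit 64))
    (cond (Nat.ble (byt w (nat_lit 2)) (nat_lit 64)) (cond (Nat.ble (byt w (nat_lit 3)) (nat_lit 64))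
      (Nat.ble (byt w (nat_lit 4)) (nat_lit 64)) false) false) false) false

/-- append the entries `V` and `- V` to the table -/
def appV (tbl nt V : Nat) : Nat :=
  Nat.add tbl (Nat.mul (Nat.add V (Nat.mul (Nat.sub (Nat.mul (nat_lit 2) OFF) V) (Nat.pow (nat_lit 2) (nat_lit 4096))))
    (Nat.pow (nat_lit 2) (Nat.mul (nat_lit 4096) nt)))

noncomputable def divGo (k : Kt) (c tbl nt cb nc : Nat) (W g : Nat) : Bool :=
  cond (cond (Nat.beq (Nat.shiftRight W (nat_lit 3840)) (Nat.shiftRight OFF (nat_lit 3840)))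
      (cond (cond (Nat.ble (nat_lit 1) g) (Nat.ble g (nat_lit 4)) false) (bytOk c) false) false)
    (Nat.casesOn (dChk W g c cb nc (nat_lit 10) (drp c (nat_lit 5))) false
      (fun c' => k true c' (appV tbl nt (dNew c)) (Nat.add nt (nat_lit 2)) cb nc Stk.nil)) false

/-- bytes: r1, r2, g, w0, ..., w4, then ten certificates (n, multiplier of the literal, pairs) -/
noncomputable def divOp (k : Kt) (c tbl nt cb nc : Nat) (s : Stk) : Bool :=
  Stk.casesOn s
    (divGo k (drp c (nat_lit 4)) tbl nt cb nc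
      (Nat.sub (Nat.add (getT tbl (Nat.mod (byt c (nat_lit 1)) nt)) (getT tbl (Nat.mod (byt c (nat_lit 2)) nt))) OFF)
      (byt c (nat_lit 3)))
    (fun _ _ _ _ _ => false)

/-- operations in goal mode -/
noncomputable def goalOp (dx : Nat) (sf : Bool) (st : Nat) (k : Kt) (c tbl nt cb nc : Nat) (s : Stk) (op : Nat) : Bool :=
  Nat.casesOn op (clause3 dx sf st k c tbl nt cb nc s) (fun op => Nat.casesOn op
    (fLeaf k (drp c (nat_lit 3)) tbl nt cb nc s (byt c (nat_lit 1)) (byt c (nat_lit 2)))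
    (fun op => Nat.casesOn op (clause6 dx sf st k c tbl nt cb nc s)
      (fun _ => divOp k c tbl nt cb nc s)))

/-- child closed by a Farkas certificate: bytes n, l0, pairs -/
noncomputable def inl (k : Kt) (c tbl nt : Nat) (n l0 W m cb nc : Nat) (s' : Stk) (j : Nat) : Bool :=
  cond (fsum cb nc j n c (Nat.add OFF (Nat.mul l0 (lit W j))) l0)
    (cond (Nat.beq m (nat_lit 31)) (pop k (drp c (Nat.mul (nat_lit 2) n)) tbl nt s')
      (k false (drp c (Nat.mul (nat_lit 2) n)) tbl nt cb nc (Stk.cons W m cb nc s'))) false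

/-- last child -/
def lastC (k : Kt) (c tbl nt : Nat) (W m cb nc : Nat) (s' : Stk) (j : Nat) : Bool :=
  cond (Nat.beq m (nat_lit 31)) (k true c tbl nt (app cb nc (lit W j)) (Nat.add nc (nat_lit 1)) s') false
/-- child -/
def kid (k : Kt) (c tbl nt : Nat) (W m cb nc : Nat) (s' : Stk) (j : Nat) : Bool :=
  k true c tbl nt (app cb nc (lit W j)) (Nat.add nc (nat_lit 1)) (Stk.cons W m cb nc s')
/-- child, afterwards its negation is kept -/
def kidN (k : Kt) (c tbl nt : Nat) (W m cb nc : Nat) (s' : Stk) (j : Nat) : Bool :=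
  k true c tbl nt (app cb nc (lit W j)) (Nat.add nc (nat_lit 1))
    (Stk.cons W m (app cb nc (ngl W j)) (Nat.add nc (nat_lit 1)) s')
def endF (k : Kt) (c tbl nt m : Nat) (s' : Stk) : Bool :=
  cond (Nat.beq m (nat_lit 31)) (pop k c tbl nt s') false

/-- operations in frame mode, `op = 5 t + j` -/
noncomputable def frameOp (k : Kt) (c tbl nt : Nat) (s : Stk) (t j : Nat) : Bool :=
  Stk.casesOn s false (fun W m cb nc s' =>
    Nat.casesOn t (inl k (drp c (nat_lit 3)) tbl nt (byt c (nat_lit 1)) (byt c (nat_lit 2)) W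
        (Nat.lor m (pw j)) cb nc s' j)
      (fun t => Nat.casesOn t (lastC k (drp c (nat_lit 1)) tbl nt W (Nat.lor m (pw j)) cb nc s' j)
        (fun t => Nat.casesOn t (kid k (drp c (nat_lit 1)) tbl nt W (Nat.lor m (pw j)) cb nc s' j)
          (fun t => Nat.casesOn t (kidN k (drp c (nat_lit 1)) tbl nt W (Nat.lor m (pw j)) cb nc s' j)
            (fun _ => endF k (drp c (nat_lit 1)) tbl nt m s')))))

noncomputable def step (dx : Nat) (sf : Bool) (st : Nat) (k : Kt) (md : Bool) (c tbl nt cb nc : Nat) (s : Stk) : Bool :=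
  cond md (goalOp dx sf st k c tbl nt cb nc s (byt c (nat_lit 0)))
    (frameOp k c tbl nt s (Nat.div (byt c (nat_lit 0)) (nat_lit 5)) (Nat.mod (byt c (nat_lit 0)) (nat_lit 5)))

/-- the machine for the clause proof -/
noncomputable def run (dx : Nat) (sf : Bool) (st f : Nat) : Kt :=
  Nat.rec (fun _ _ _ _ _ _ _ => false) (fun _ ih => fun md c tbl nt cb nc s => step dx sf st ih md c tbl nt cb nc s) f

/-! ### Introduction of vectors -/

/-- kinds: 0 plain, 1 from the row (arrow), 2 `MIX (i, q)`, 3 `MEM i` -/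
def introOk (st kd i q : Nat) : Bool :=
  Nat.casesOn kd true (fun kd => Nat.casesOn kd
    (Nat.beq (Nat.lor (Nat.lor (row st (Nat.div i (nat_lit 5))) (pw (Nat.mod (Nat.div i (nat_lit 5)) (nat_lit 5))))
      (pw (Nat.mod i (nat_lit 5)))) (nat_lit 31))
    (fun kd => Nat.casesOn kd (cond (Nat.ble q (nat_lit 4))
        (Nat.beq (bitT st (Nat.add (nat_lit 300) (Nat.add (Nat.mul (nat_lit 5) i) q))) (nat_lit 1)) false)
      (fun _ => Nat.beq (bitT st i) (nat_lit 1))))
/-- the subtracted part -/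
def introS (kd i q : Nat) : Nat :=
  Nat.casesOn kd (nat_lit 0) (fun kd => Nat.casesOn kd (E (Nat.mod i (nat_lit 5)))
    (fun kd => Nat.casesOn kd (Nat.add (E (Nat.mod i (nat_lit 5))) (E q)) (fun _ => E (Nat.mod i (nat_lit 5)))))
/-- mask of the coordinates that vanish -/
def introM (st kd i : Nat) : Nat :=
  Nat.lor (Nat.lor (row st (Nat.div i (nat_lit 5))) (pw (Nat.mod (Nat.div i (nat_lit 5)) (nat_lit 5))))
    (Nat.casesOn kd (nat_lit 0) (fun kd => Nat.casesOn kd (nat_lit 0) (fun kd => Nat.casesOn kd (nat_lit 0)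
      (fun _ => purrow st i))))
def introV (dx st k kd i q : Nat) : Nat :=
  Nat.sub (Nat.add (Nat.add (getT dx (Nat.add (nat_lit 8) (Nat.div i (nat_lit 25)))) (introS kd i q))
    (Nat.mul (getT unmT (introM st kd i)) (Nat.pow (nat_lit 2) (Nat.mul (nat_lit 16) (Nat.add k (nat_lit 1))))))
    (E (Nat.mod (Nat.div i (nat_lit 5)) (nat_lit 5)))

def introStep (dx st : Nat) (ih : Nat → Nat → Nat → Bool) (c tbl k kd i q : Nat) : Bool :=
  cond (cond (cond (Nat.ble i (nat_lit 149)) (Nat.ble k (nat_lit 46)) false) (introOk st kd i q) false)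
    (ih c (appV tbl (Nat.add (nat_lit 1) (Nat.mul (nat_lit 2) k)) (introV dx st k kd i q)) (Nat.add k (nat_lit 1))) false

/-- introductions: `k` vectors already introduced; table entry `0` is the zero form -/
noncomputable def intro (dx : Nat) (sf : Bool) (st f : Nat) : Nat → Nat → Nat → Bool :=
  Nat.rec (fun _ _ _ => false) (fun _ ih => fun c tbl k =>
    Nat.casesOn (byt c (nat_lit 0))
      (run dx sf st (nat_lit 2000) true (drp c (nat_lit 1)) tbl (Nat.add (nat_lit 1) (Nat.mul (nat_lit 2) k)) OFF (nat_lit 1) Stk.nil)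
      (fun kd => introStep dx st ih (drp c (nat_lit 3)) tbl k kd (byt c (nat_lit 1)) (byt c (nat_lit 2)))) f

noncomputable def leaf (dx : Nat) (sf : Bool) (st c : Nat) : Bool := intro dx sf st (nat_lit 100) c OFF (nat_lit 0)

/-! ### Pattern level -/

def dlx (sf : Bool) (x : Nat) : Nat :=
  cond (cond sf (Nat.ble x (nat_lit 1)) false) x (Nat.xor x (nat_lit 1))
/-- dual index: `(x, a, b)` to `(dual x, b, a)` -/
def dli (sf : Bool) (i : Nat) : Nat :=
  Nat.add (Nat.mul (nat_lit 25) (dlx sf (Nat.div i (nat_lit 25))))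
    (Nat.add (Nat.mul (nat_lit 5) (Nat.mod i (nat_lit 5))) (Nat.mod (Nat.div i (nat_lit 5)) (nat_lit 5)))
/-- add `MEM i` and `NON (dual i)` -/
def addM (sf : Bool) (st i : Nat) : Nat :=
  Nat.lor (Nat.lor st (pw i)) (pw (Nat.add (nat_lit 150) (dli sf i)))
def addN (st i : Nat) : Nat := Nat.lor st (pw (Nat.add (nat_lit 150) i))
def addX (st i q : Nat) : Nat := Nat.lor st (pw (Nat.add (nat_lit 300) (Nat.add (Nat.mul (nat_lit 5) i) q)))
/-- `(x, a, b), q` to `(x, a, q), b` -/
def swq (i q : Nat) : Nat :=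
  Nat.add (Nat.mul (nat_lit 5) (Nat.add (Nat.mul (nat_lit 5) (Nat.div i (nat_lit 5))) q)) (Nat.mod i (nat_lit 5))
def addP (st i q : Nat) : Nat :=
  Nat.lor (Nat.lor st (pw (Nat.add (nat_lit 1050) (Nat.add (Nat.mul (nat_lit 5) i) q))))
    (pw (Nat.add (nat_lit 1050) (swq i q)))

abbrev Pt := Nat → List Nat → Nat → List Nat → Bool

/-- goal closed: take the next item and the next pending state -/
def close (k : Pt) (items : List Nat) (stk : List Nat) : Bool :=
  List.casesOn stk true (fun st' stk' => List.casesOn items false (fun c' items' => k c' items' st' stk'))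

/-- row test: the row of `i` together with its own bit and the bit of `b` is full -/
def rowFull (st i : Nat) : Bool :=
  Nat.beq (Nat.lor (Nat.lor (row st (Nat.div i (nat_lit 5))) (pw (Nat.mod (Nat.div i (nat_lit 5)) (nat_lit 5))))
    (pw (Nat.mod i (nat_lit 5)))) (nat_lit 31)
def rowFull2 (st i c : Nat) : Bool :=
  Nat.beq (Nat.lor (Nat.lor (Nat.lor (row st (Nat.div i (nat_lit 5))) (pw (Nat.mod (Nat.div i (nat_lit 5)) (nat_lit 5))))
    (pw (Nat.mod i (nat_lit 5)))) (pw c)) (nat_lit 31)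
def rowEmpty (st r : Nat) : Bool :=
  Nat.beq (Nat.lor (row st r) (pw (Nat.mod r (nat_lit 5)))) (nat_lit 31)

/-- weights of the price inequalities -/
def wtT (sf : Bool) (wi : Nat) : Nat :=
  cond sf (cond (Nat.beq wi (nat_lit 0)) (nat_lit 0x02020001) (nat_lit 0x010101010001))
    (cond (Nat.beq wi (nat_lit 0)) (nat_lit 0x0303)
      (cond (Nat.beq wi (nat_lit 1)) (nat_lit 0x02020101) (nat_lit 0x010101010101)))
/-- the number of `c ≠ a, b` for which `MEM (dual x, c, a)` is not known -/
def eub (sf : Bool) (st x a b : Nat) : Nat :=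
  Nat.sub (nat_lit 3)
    (Nat.add (Nat.add (Nat.add (Nat.add
      (cond (cond (Nat.beq a (nat_lit 0)) true (Nat.beq b (nat_lit 0))) (nat_lit 0) (bitT st (Nat.add (Nat.mul (nat_lit 25) (dlx sf x)) a)))
      (cond (cond (Nat.beq a (nat_lit 1)) true (Nat.beq b (nat_lit 1))) (nat_lit 0) (bitT st (Nat.add (Nat.mul (nat_lit 25) (dlx sf x)) (Nat.add (nat_lit 5) a)))))
      (cond (cond (Nat.beq a (nat_lit 2)) true (Nat.beq b (nat_lit 2))) (nat_lit 0) (bitT st (Nat.add (Nat.mul (nat_lit 25) (dlx sf x)) (Nat.add (nat_lit 10) a)))))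
      (cond (cond (Nat.beq a (nat_lit 3)) true (Nat.beq b (nat_lit 3))) (nat_lit 0) (bitT st (Nat.add (Nat.mul (nat_lit 25) (dlx sf x)) (Nat.add (nat_lit 15) a)))))
      (cond (cond (Nat.beq a (nat_lit 4)) true (Nat.beq b (nat_lit 4))) (nat_lit 0) (bitT st (Nat.add (Nat.mul (nat_lit 25) (dlx sf x)) (Nat.add (nat_lit 20) a)))))

/-- price test: `n` indices `i = (x, a, b)` with increasing rows, each an arrow; `S` the total so far,
`lo` the least row still allowed -/
noncomputable def prc (sf : Bool) (st w n : Nat) : Nat → Nat → Nat → Bool :=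
  Nat.rec (fun _ _ S => Nat.ble (nat_lit 61) S)
    (fun _ ih => fun c lo S =>
      cond (cond (Nat.ble lo (Nat.div (byt c (nat_lit 0)) (nat_lit 5)))
          (cond (Nat.ble (byt c (nat_lit 0)) (nat_lit 149)) (rowFull st (byt c (nat_lit 0))) false) false)
        (ih (drp c (nat_lit 1)) (Nat.add (Nat.div (byt c (nat_lit 0)) (nat_lit 5)) (nat_lit 1))
          (Nat.add S (Nat.mul (byt w (Nat.div (byt c (nat_lit 0)) (nat_lit 25)))
            (Nat.div (nat_lit 12) (Nat.add (nat_lit 1)
              (eub sf st (Nat.div (byt c (nat_lit 0)) (nat_lit 25)) (Nat.mod (Nat.div (byt c (nat_lit 0)) (nat_lit 5)) (nat_lit 5))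
                (Nat.mod (byt c (nat_lit 0)) (nat_lit 5)))))))) false) n

/-- reference with a permutation `p` (bytes) and a swap `s` of the elements 0, 1: bit `i < 50` of `L`
must be in `st` at the permuted place -/
noncomputable def refB (st L p s n : Nat) : Bool :=
  Nat.rec true
    (fun i ih =>
      cond (cond (Nat.ble (bitT L i)
          (bitT st (Nat.add (Nat.mul (nat_lit 25) (Nat.xor (Nat.div i (nat_lit 25)) s))
            (Nat.add (Nat.mul (nat_lit 5) (byt p (Nat.mod (Nat.div i (nat_lit 5)) (nat_lit 5)))) (byt p (Nat.mod i (nat_lit 5)))))))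
        (Nat.ble (bitT L (Nat.add (nat_lit 150) i))
          (bitT st (Nat.add (nat_lit 150) (Nat.add (Nat.mul (nat_lit 25) (Nat.xor (Nat.div i (nat_lit 25)) s))
            (Nat.add (Nat.mul (nat_lit 5) (byt p (Nat.mod (Nat.div i (nat_lit 5)) (nat_lit 5)))) (byt p (Nat.mod i (nat_lit 5))))))))
        false) ih false) n

def permOk (p : Nat) : Bool :=
  Nat.beq (Nat.lor (Nat.lor (Nat.lor (Nat.lor (pw (byt p (nat_lit 0))) (pw (byt p (nat_lit 1)))) (pw (byt p (nat_lit 2))))
    (pw (byt p (nat_lit 3)))) (pw (byt p (nat_lit 4)))) (nat_lit 31)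
/-- `L` has only bits `MEM`, `NON` of the elements 0, 1 -/
def refMask : Nat := Nat.mul (Nat.sub (Nat.pow (nat_lit 2) (nat_lit 50)) (nat_lit 1))
  (Nat.add (nat_lit 1) (Nat.pow (nat_lit 2) (nat_lit 150)))
noncomputable def refOk (sf : Bool) (st L p s : Nat) : Bool :=
  cond (cond (Nat.ble (nat_lit 1) L) (cond (permOk p) (cond (Nat.beq (Nat.land L refMask) L)
    (cond sf (Nat.beq s (nat_lit 0)) (Nat.ble s (nat_lit 1))) false) false) false) (refB st L p s (nat_lit 50)) false

def getL (refs : List Nat) (k : Nat) : Nat := refs.getD k 0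

/-- operations of the pattern level -/
noncomputable def patOp (dx : Nat) (sf m2 : Bool) (refs : List Nat) (k : Pt) (c : Nat) (items : List Nat)
    (st : Nat) (stk : List Nat) (op : Nat) : Bool :=
  Nat.casesOn op
    -- 0: leaf
    (cond (leaf dx sf st (drp c (nat_lit 1))) (close k items stk) false) (fun op => Nat.casesOn op
    -- 1: split on i
    (cond (Nat.ble (byt c (nat_lit 1)) (nat_lit 149))
      (k (drp c (nat_lit 2)) items (addM sf st (byt c (nat_lit 1))) (List.cons (addN st (byt c (nat_lit 1))) stk)) false)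
    (fun op => Nat.casesOn op
    -- 2: row derivation of MEM i
    (cond (cond (Nat.ble (byt c (nat_lit 1)) (nat_lit 149)) (rowFull st (byt c (nat_lit 1))) false)
      (k (drp c (nat_lit 2)) items (addM sf st (byt c (nat_lit 1))) stk) false)
    (fun op => Nat.casesOn op
    -- 3: mixed split i, q
    (cond (cond (Nat.ble (byt c (nat_lit 1)) (nat_lit 149)) (Nat.ble (byt c (nat_lit 2)) (nat_lit 4)) false)
      (k (drp c (nat_lit 3)) items (addX st (byt c (nat_lit 1)) (byt c (nat_lit 2)))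
        (List.cons (addP st (byt c (nat_lit 1)) (byt c (nat_lit 2))) stk)) false)
    (fun op => Nat.casesOn op
    -- 4: empty row r
    (cond (cond (Nat.ble (byt c (nat_lit 1)) (nat_lit 29)) (rowEmpty st (byt c (nat_lit 1))) false) (close k items stk) false)
    (fun op => Nat.casesOn op
    -- 5: price wi, n
    (cond (prc sf st (wtT sf (byt c (nat_lit 1))) (byt c (nat_lit 2)) (drp c (nat_lit 3)) (nat_lit 0) (nat_lit 0))
      (close k items stk) false)
    (fun op => Nat.casesOn op
    -- 6: reference k, s, permutation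
    (cond (refOk sf st (getL refs (byt c (nat_lit 1))) (drp c (nat_lit 3)) (byt c (nat_lit 2))) (close k items stk) false)
    (fun op => Nat.casesOn op
    -- 7: reference k, identity (two bytes)
    (cond (cond (Nat.ble (nat_lit 1) (getL refs (Nat.add (byt c (nat_lit 1)) (Nat.mul (nat_lit 256) (byt c (nat_lit 2))))))
        (Nat.beq (Nat.land st (getL refs (Nat.add (byt c (nat_lit 1)) (Nat.mul (nat_lit 256) (byt c (nat_lit 2))))))
          (getL refs (Nat.add (byt c (nat_lit 1)) (Nat.mul (nat_lit 256) (byt c (nat_lit 2)))))) false)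
      (close k items stk) false)
    (fun op => Nat.casesOn op
    -- 8: no arrow: MEM i because the row of i has only i and c
    (cond (cond m2 (cond (cond (Nat.ble (byt c (nat_lit 1)) (nat_lit 49)) (Nat.ble (byt c (nat_lit 2)) (nat_lit 4)) false)
        (rowFull2 st (byt c (nat_lit 1)) (byt c (nat_lit 2))) false) false)
      (k (drp c (nat_lit 3)) items (addM sf st (byt c (nat_lit 1))) stk) false)
    -- 9: no arrow: contradiction
    (fun _ => cond (cond m2 (cond (Nat.ble (byt c (nat_lit 1)) (nat_lit 49)) (rowFull st (byt c (nat_lit 1))) false) false)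
      (close k items stk) false)))))))))

noncomputable def patStep (dx : Nat) (sf m2 : Bool) (refs : List Nat) (k : Pt) (c : Nat) (items : List Nat)
    (st : Nat) (stk : List Nat) : Bool := patOp dx sf m2 refs k c items st stk (byt c (nat_lit 0))

noncomputable def pat (dx : Nat) (sf m2 : Bool) (refs : List Nat) (f : Nat) : Pt :=
  Nat.rec (fun _ _ _ _ => false) (fun _ ih => fun c items st stk => patStep dx sf m2 refs ih c items st stk) f

/-- the checker: `items` is a proof that the state `st` is contradictory -/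
noncomputable def check (sf m2 : Bool) (refs : List Nat) (items : List Nat) (st : Nat) : Bool :=
  List.casesOn items false (fun c items' => pat (dxT sf) sf m2 refs (nat_lit 1000000) c items' st List.nil)

end Pool.Agent.MP_62a449_al.Five
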