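import Pool.Agent.Lib.MP_62a449_al.Five.Spec

/-!
From a finite set of values to a good situation (`FamStmt`).
-/

namespace Pool.Agent.MP_62a449_al.Five

open Finset

attribute [local irreducible] OFF OFFc E D

/-- the price of a value -/
noncomputable def fam_pr (n : ℕ → ℤ) (F v : ℤ) : ℕ := price n (fun _ => v) F 0

theorem fam_price (n el : ℕ → ℤ) (F : ℤ) (x : ℕ) : price n el F x = fam_pr n F (el x) := rfl

/-- six values -/
def fam_el (a b c d e f : ℤ) (x : ℕ) : ℤ :=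
  match x with
  | 0 => a
  | 1 => b
  | 2 => c
  | 3 => d
  | 4 => e
  | _ => f

theorem fam_el0 (a b c d e f : ℤ) : fam_el a b c d e f 0 = a := rfl
theorem fam_el1 (a b c d e f : ℤ) : fam_el a b c d e f 1 = b := rfl
theorem fam_el2 (a b c d e f : ℤ) : fam_el a b c d e f 2 = c := rfl
theorem fam_el3 (a b c d e f : ℤ) : fam_el a b c d e f 3 = d := rfl
theorem fam_el4 (a b c d e f : ℤ) : fam_el a b c d e f 4 = e := rfl
theorem fam_el5 (a b c d e f : ℤ) : fam_el a b c d e f 5 = f := rfl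

theorem fam_caseA (hT : TotStmt) {n : ℕ → ℤ} {F : ℤ} {P : Finset ℤ} (hF : ¬ Mem n F)
    (hgen : ∀ a < 5, ∀ b < 5, a ≠ b → ¬ Mem n (n a - n b)) (hnot : ∀ v ∈ P, ¬ Mem n v)
    (hadd : ∀ v ∈ P, ∀ a < 5, Mem n (v + n a)) (hdual : ∀ v ∈ P, F - v ∈ P)
    (hdiff : ∀ v ∈ P, ∀ w ∈ P, v ≠ w → ¬ Mem n (v - w)) (v1 v2 v3 : ℤ) (h1 : v1 ∈ P) (h2 : v2 ∈ P)
    (h3 : v3 ∈ P) (d1 : v1 + v1 ≠ F) (d2 : v2 + v2 ≠ F) (d3 : v3 + v3 ≠ F)
    (n12 : v1 ≠ v2) (n13 : v1 ≠ v3) (n23 : v2 ≠ v3) (s12 : v1 + v2 ≠ F) (s13 : v1 + v3 ≠ F) (s23 : v2 + v3 ≠ F)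
    (p12 : fam_pr n F v1 + fam_pr n F (F - v1) ≤ fam_pr n F v2 + fam_pr n F (F - v2))
    (p23 : fam_pr n F v2 + fam_pr n F (F - v2) ≤ fam_pr n F v3 + fam_pr n F (F - v3)) :
    ∃ (sf : Bool) (el : ℕ → ℤ), Good sf n el F := by
  refine ⟨false, fam_el v1 (F - v1) v2 (F - v2) v3 (F - v3), ?_⟩
  have hel : ∀ x < 6, fam_el v1 (F - v1) v2 (F - v2) v3 (F - v3) x ∈ P := by
    intro x hx
    interval_cases x
    · exact h1
    · exact hdual _ h1
    · exact h2
    · exact hdual _ h2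
    · exact h3
    · exact hdual _ h3
  have hinj : ∀ x < 6, ∀ y < 6, x ≠ y → fam_el v1 (F - v1) v2 (F - v2) v3 (F - v3) x ≠
      fam_el v1 (F - v1) v2 (F - v2) v3 (F - v3) y := by
    intro x hx y hy hxy
    interval_cases x <;> interval_cases y <;>
      simp only [fam_el0, fam_el1, fam_el2, fam_el3, fam_el4, fam_el5] <;> omega
  have htot := hT n (fam_el v1 (F - v1) v2 (F - v2) v3 (F - v3)) F (range 6)
    (fun x hx => hnot _ (hel x (mem_range.mp hx)))
    (fun x hx => hnot _ (hdual _ (hel x (mem_range.mp hx))))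
    (fun x hx a ha => hadd _ (hel x (mem_range.mp hx)) a ha)
    (fun x hx y hy hxy => by
      by_contra hne
      exact hinj x (mem_range.mp hx) y (mem_range.mp hy) hne hxy)
  simp only [sum_range_succ, sum_range_zero, fam_price, fam_el0, fam_el1, fam_el2, fam_el3, fam_el4,
    fam_el5] at htot
  refine ⟨hF, fun x hx => hnot _ (hel x hx), fun x hx a ha => hadd _ (hel x hx) a ha, ?_, ?_, ?_, hgen, ?_⟩
  · intro x hx
    interval_cases x
    · show F - v1 = F - v1
      rfl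
    · show v1 = F - (F - v1)
      ring
    · show F - v2 = F - v2
      rfl
    · show v2 = F - (F - v2)
      ring
    · show F - v3 = F - v3
      rfl
    · show v3 = F - (F - v3)
      ring
  · intro h
    exact absurd h (by simp)
  · intro x hx y hy hxy _
    exact hdiff _ (hel x hx) _ (hel y hy) (hinj x hx y hy hxy)
  · intro wi
    simp only [sum_range_succ, sum_range_zero, fam_price, fam_el0, fam_el1, fam_el2, fam_el3, fam_el4,
      fam_el5]
    rcases wi with _ | _ | wi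
    · have b0 : byt (wtT false 0) 0 = 3 := by decide
      have b1 : byt (wtT false 0) 1 = 3 := by decide
      have b2 : byt (wtT false 0) 2 = 0 := by decide
      have b3 : byt (wtT false 0) 3 = 0 := by decide
      have b4 : byt (wtT false 0) 4 = 0 := by decide
      have b5 : byt (wtT false 0) 5 = 0 := by decide
      rw [b0, b1, b2, b3, b4, b5]
      omega
    · have b0 : byt (wtT false (0 + 1)) 0 = 1 := by decide
      have b1 : byt (wtT false (0 + 1)) 1 = 1 := by decide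
      have b2 : byt (wtT false (0 + 1)) 2 = 2 := by decide
      have b3 : byt (wtT false (0 + 1)) 3 = 2 := by decide
      have b4 : byt (wtT false (0 + 1)) 4 = 0 := by decide
      have b5 : byt (wtT false (0 + 1)) 5 = 0 := by decide
      rw [b0, b1, b2, b3, b4, b5]
      omega
    · have e0 : wtT false (wi + 1 + 1) = 0x010101010101 := rfl
      have b0 : byt 0x010101010101 0 = 1 := by decide
      have b1 : byt 0x010101010101 1 = 1 := by decide
      have b2 : byt 0x010101010101 2 = 1 := by decide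
      have b3 : byt 0x010101010101 3 = 1 := by decide
      have b4 : byt 0x010101010101 4 = 1 := by decide
      have b5 : byt 0x010101010101 5 = 1 := by decide
      rw [e0, b0, b1, b2, b3, b4, b5]
      omega

theorem fam_caseB (hT : TotStmt) {n : ℕ → ℤ} {F : ℤ} {P : Finset ℤ} (hF : ¬ Mem n F)
    (hgen : ∀ a < 5, ∀ b < 5, a ≠ b → ¬ Mem n (n a - n b)) (hnot : ∀ v ∈ P, ¬ Mem n v)
    (hadd : ∀ v ∈ P, ∀ a < 5, Mem n (v + n a)) (hdual : ∀ v ∈ P, F - v ∈ P)
    (hdiff : ∀ v ∈ P, ∀ w ∈ P, v ≠ w → ¬ Mem n (v - w)) (v1 v2 v3 : ℤ) (h1 : v1 ∈ P) (h2 : v2 ∈ P)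
    (h3 : v3 ∈ P) (d1 : v1 + v1 = F)
    (n12 : v1 ≠ v2) (n13 : v1 ≠ v3) (n23 : v2 ≠ v3) (s23 : v2 + v3 ≠ F)
    (p23 : fam_pr n F v2 + fam_pr n F (F - v2) ≤ fam_pr n F v3 + fam_pr n F (F - v3)) :
    ∃ (sf : Bool) (el : ℕ → ℤ), Good sf n el F := by
  refine ⟨true, fam_el v1 v1 v2 (F - v2) v3 (F - v3), ?_⟩
  have hel : ∀ x < 6, fam_el v1 v1 v2 (F - v2) v3 (F - v3) x ∈ P := by
    intro x hx
    interval_cases x
    · exact h1
    · exact h1
    · exact h2
    · exact hdual _ h2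
    · exact h3
    · exact hdual _ h3
  have hinj : ∀ x < 6, ∀ y < 6, x ≠ y → ¬ (x ≤ 1 ∧ y ≤ 1) → fam_el v1 v1 v2 (F - v2) v3 (F - v3) x ≠
      fam_el v1 v1 v2 (F - v2) v3 (F - v3) y := by
    intro x hx y hy hxy hxy1
    interval_cases x <;> interval_cases y <;>
      simp only [fam_el0, fam_el1, fam_el2, fam_el3, fam_el4, fam_el5] <;> omega
  have hX : ∀ x ∈ ({0, 2, 3, 4, 5} : Finset ℕ), x < 6 ∧ (x ≤ 1 → x = 0) := by decide
  have htot := hT n (fam_el v1 v1 v2 (F - v2) v3 (F - v3)) F {0, 2, 3, 4, 5}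
    (fun x hx => hnot _ (hel x (hX x hx).1))
    (fun x hx => hnot _ (hdual _ (hel x (hX x hx).1)))
    (fun x hx a ha => hadd _ (hel x (hX x hx).1) a ha)
    (fun x hx y hy hxy => by
      by_contra hne
      refine hinj x (hX x hx).1 y (hX y hy).1 hne (fun h => hne ?_) hxy
      rw [(hX x hx).2 h.1, (hX y hy).2 h.2])
  have htot2 : fam_pr n F v1 + (fam_pr n F v2 + (fam_pr n F (F - v2) + (fam_pr n F v3 +
      fam_pr n F (F - v3)))) ≤ 60 := by
    have e1 : ∑ x ∈ ({0, 2, 3, 4, 5} : Finset ℕ), price n (fam_el v1 v1 v2 (F - v2) v3 (F - v3)) F x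
        = fam_pr n F v1 + (fam_pr n F v2 + (fam_pr n F (F - v2) + (fam_pr n F v3 +
      fam_pr n F (F - v3)))) := by
      rw [sum_insert (by decide), sum_insert (by decide), sum_insert (by decide), sum_insert (by decide),
        sum_singleton]
      rfl
    rw [← e1]
    exact htot
  refine ⟨hF, fun x hx => hnot _ (hel x hx), fun x hx a ha => hadd _ (hel x hx) a ha, ?_, ?_, ?_, hgen, ?_⟩
  · intro x hx
    interval_cases x
    · show v1 = F - v1
      omega
    · show v1 = F - v1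
      omega
    · show F - v2 = F - v2
      rfl
    · show v2 = F - (F - v2)
      ring
    · show F - v3 = F - v3
      rfl
    · show v3 = F - (F - v3)
      ring
  · intro _
    rfl
  · intro x hx y hy hxy hxy1
    exact hdiff _ (hel x hx) _ (hel y hy) (hinj x hx y hy hxy (fun h => hxy1 ⟨rfl, h⟩))
  · intro wi
    simp only [sum_range_succ, sum_range_zero, fam_price, fam_el0, fam_el1, fam_el2, fam_el3, fam_el4,
      fam_el5]
    rcases wi with _ | wi
    · have b0 : byt (wtT true 0) 0 = 1 := by decide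
      have b1 : byt (wtT true 0) 1 = 0 := by decide
      have b2 : byt (wtT true 0) 2 = 2 := by decide
      have b3 : byt (wtT true 0) 3 = 2 := by decide
      have b4 : byt (wtT true 0) 4 = 0 := by decide
      have b5 : byt (wtT true 0) 5 = 0 := by decide
      rw [b0, b1, b2, b3, b4, b5]
      omega
    · have e0 : wtT true (wi + 1) = 0x010101010001 := rfl
      have b0 : byt 0x010101010001 0 = 1 := by decide
      have b1 : byt 0x010101010001 1 = 0 := by decide
      have b2 : byt 0x010101010001 2 = 1 := by decide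
      have b3 : byt 0x010101010001 3 = 1 := by decide
      have b4 : byt 0x010101010001 4 = 1 := by decide
      have b5 : byt 0x010101010001 5 = 1 := by decide
      rw [e0, b0, b1, b2, b3, b4, b5]
      omega

theorem fam_choose {F : ℤ} {P : Finset ℤ} (hcard : 5 ≤ P.card) :
    ∃ v1 ∈ P, ∃ v2 ∈ P, ∃ v3 ∈ P, v1 ≠ v2 ∧ v1 ≠ v3 ∧ v2 ≠ v3 ∧ v1 + v2 ≠ F ∧ v1 + v3 ≠ F ∧ v2 + v3 ≠ F := by
  have h1 : ∃ v1, v1 ∈ P := Finset.card_pos.mp (by omega)
  obtain ⟨v1, hv1⟩ := h1
  have c1 : ({v1, F - v1} : Finset ℤ).card ≤ 2 := card_le_two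
  have h2 : ∃ v2, v2 ∈ P \ {v1, F - v1} := by
    apply Finset.card_pos.mp
    have := le_card_sdiff ({v1, F - v1} : Finset ℤ) P
    omega
  obtain ⟨v2, hv2⟩ := h2
  have c2 : ({v1, F - v1, v2, F - v2} : Finset ℤ).card ≤ 4 := card_le_four
  have h3 : ∃ v3, v3 ∈ P \ {v1, F - v1, v2, F - v2} := by
    apply Finset.card_pos.mp
    have := le_card_sdiff ({v1, F - v1, v2, F - v2} : Finset ℤ) P
    omega
  obtain ⟨v3, hv3⟩ := h3
  simp only [mem_sdiff, mem_insert, mem_singleton, not_or] at hv2 hv3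
  obtain ⟨a1, a2, a3⟩ := hv2
  obtain ⟨b1, b2, b3, b4, b5⟩ := hv3
  exact ⟨v1, hv1, v2, a1, v3, b1, by omega, by omega, by omega, by omega, by omega, by omega⟩

/-- **Fam.** From a finite set of values to a good situation. -/
theorem fam (hT : TotStmt) : FamStmt := by
  intro n F P hF hgen hnot hadd hdual hdiff hcard
  obtain ⟨v1, h1, v2, h2, v3, h3, n12, n13, n23, s12, s13, s23⟩ := fam_choose (F := F) hcard
  have hB : ∀ v1 ∈ P, ∀ v2 ∈ P, ∀ v3 ∈ P, v1 + v1 = F → v1 ≠ v2 → v1 ≠ v3 → v2 ≠ v3 → v2 + v3 ≠ F →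
      ∃ (sf : Bool) (el : ℕ → ℤ), Good sf n el F := by
    intro v1 h1 v2 h2 v3 h3 d1 n12 n13 n23 s23
    rcases le_total (fam_pr n F v2 + fam_pr n F (F - v2)) (fam_pr n F v3 + fam_pr n F (F - v3)) with p | p
    · exact fam_caseB hT hF hgen hnot hadd hdual hdiff v1 v2 v3 h1 h2 h3 d1 n12 n13 n23 s23 p
    · exact fam_caseB hT hF hgen hnot hadd hdual hdiff v1 v3 v2 h1 h3 h2 d1 n13 n12 n23.symm
        (by rw [add_comm]; exact s23) p
  by_cases d1 : v1 + v1 = F
  · exact hB v1 h1 v2 h2 v3 h3 d1 n12 n13 n23 s23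
  by_cases d2 : v2 + v2 = F
  · exact hB v2 h2 v1 h1 v3 h3 d2 n12.symm n23 n13 s13
  by_cases d3 : v3 + v3 = F
  · exact hB v3 h3 v1 h1 v2 h2 d3 n13.symm n23.symm n12 s12
  have s21 : v2 + v1 ≠ F := by rw [add_comm]; exact s12
  have s31 : v3 + v1 ≠ F := by rw [add_comm]; exact s13
  have s32 : v3 + v2 ≠ F := by rw [add_comm]; exact s23
  rcases le_total (fam_pr n F v1 + fam_pr n F (F - v1)) (fam_pr n F v2 + fam_pr n F (F - v2)) with p12 | p21
  · rcases le_total (fam_pr n F v2 + fam_pr n F (F - v2)) (fam_pr n F v3 + fam_pr n F (F - v3)) with p23 | p32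
    · exact fam_caseA hT hF hgen hnot hadd hdual hdiff v1 v2 v3 h1 h2 h3 d1 d2 d3 n12 n13 n23 s12 s13 s23 p12 p23
    · rcases le_total (fam_pr n F v1 + fam_pr n F (F - v1)) (fam_pr n F v3 + fam_pr n F (F - v3)) with p13 | p31
      · exact fam_caseA hT hF hgen hnot hadd hdual hdiff v1 v3 v2 h1 h3 h2 d1 d3 d2 n13 n12 n23.symm s13 s12 s32
          p13 p32
      · exact fam_caseA hT hF hgen hnot hadd hdual hdiff v3 v1 v2 h3 h1 h2 d3 d1 d2 n13.symm n23.symm n12
          s31 s32 s12 p31 p12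
  · rcases le_total (fam_pr n F v1 + fam_pr n F (F - v1)) (fam_pr n F v3 + fam_pr n F (F - v3)) with p13 | p31
    · exact fam_caseA hT hF hgen hnot hadd hdual hdiff v2 v1 v3 h2 h1 h3 d2 d1 d3 n12.symm n23 n13 s21 s23 s13
        p21 p13
    · rcases le_total (fam_pr n F v2 + fam_pr n F (F - v2)) (fam_pr n F v3 + fam_pr n F (F - v3)) with p23 | p32
      · exact fam_caseA hT hF hgen hnot hadd hdual hdiff v2 v3 v1 h2 h3 h1 d2 d3 d1 n23 n12.symm n13.symm
          s23 s21 s31 p23 p31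
      · exact fam_caseA hT hF hgen hnot hadd hdual hdiff v3 v2 v1 h3 h2 h1 d3 d2 d1 n23.symm n13.symm n12.symm
          s32 s31 s21 p32 p21

end Pool.Agent.MP_62a449_al.Five
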