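import Pool.Agent.Lib.MP_62a449_al.Five.Spec

/-!
The lower bound `5 ≤ maxType 5`: the numerical semigroup generated by `14, 15, 17, 19, 20`.
-/

namespace Pool.Agent.MP_62a449_al.Five

/-- membership in the semigroup generated by `14, 15, 17, 19, 20` -/
def low_In (x : ℤ) : Prop :=
  x = 0 ∨ x = 14 ∨ x = 15 ∨ x = 17 ∨ x = 19 ∨ x = 20 ∨ (28 ≤ x ∧ x ≤ 40) ∨ 42 ≤ x

lemma low_In_add {x y : ℤ} (hx : low_In x) (hy : low_In y) : low_In (x + y) := by
  unfold low_In at *
  rcases hx with h | h | h | h | h | h | ⟨h, h'⟩ | h <;>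
    rcases hy with g | g | g | g | g | g | ⟨g, g'⟩ | g <;> omega

/-- the semigroup generated by `14, 15, 17, 19, 20` -/
def low_G : AddSubmonoid ℕ where
  carrier := {x | low_In (x : ℤ)}
  zero_mem' := by
    show low_In ((0 : ℕ) : ℤ)
    unfold low_In; simp
  add_mem' := by
    intro a b ha hb
    show low_In ((a + b : ℕ) : ℤ)
    push_cast
    exact low_In_add ha hb

lemma low_mem {x : ℕ} : x ∈ low_G ↔ low_In (x : ℤ) := Iff.rfl

lemma low_asInt {x : ℤ} : x ∈ asInt low_G ↔ low_In x := by
  constructor
  · rintro ⟨n, hn, rfl⟩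
    exact hn
  · intro h
    have hx : 0 ≤ x := by unfold low_In at h; omega
    obtain ⟨n, rfl⟩ := Int.eq_ofNat_of_zero_le hx
    exact ⟨n, h, rfl⟩

lemma low_num : IsNumericalSemigroup low_G := by
  unfold IsNumericalSemigroup
  apply (Set.finite_Iio 42).subset
  intro x hx
  simp only [Set.mem_setOf_eq, low_mem, low_In] at hx
  simp only [Set.mem_Iio]
  omega

lemma low_pf {x : ℤ} : x ∈ pseudoFrobenius low_G ↔
    (x = 16 ∨ x = 18 ∨ x = 23 ∨ x = 25 ∨ x = 41) := by
  unfold pseudoFrobenius
  simp only [Set.mem_setOf_eq, low_asInt]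
  constructor
  · rintro ⟨h1, h2⟩
    have e1 := h2 14 (by unfold low_In; omega) (by omega)
    have e2 := h2 15 (by unfold low_In; omega) (by omega)
    have e3 := h2 17 (by unfold low_In; omega) (by omega)
    have e4 := h2 19 (by unfold low_In; omega) (by omega)
    have e5 := h2 20 (by unfold low_In; omega) (by omega)
    clear h2
    have hlo : -14 ≤ x := by unfold low_In at e1; omega
    have hhi : x ≤ 41 := by unfold low_In at h1; omega
    unfold low_In at *
    interval_cases x <;> omega
  · rintro (rfl | rfl | rfl | rfl | rfl)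
    all_goals
      refine ⟨by unfold low_In; omega, ?_⟩
      intro s hs hs0
      unfold low_In at *
      omega

lemma low_pf_eq : pseudoFrobenius low_G = (({16, 18, 23, 25, 41} : Finset ℤ) : Set ℤ) := by
  ext x
  rw [low_pf]
  simp

lemma low_type : semigroupType low_G = 5 := by
  unfold semigroupType
  rw [low_pf_eq, Set.ncard_coe_finset]
  rfl

lemma low_as : IsAlmostSymmetric low_G := by
  refine ⟨41, ⟨?_, ?_⟩, ?_⟩
  · simp only [Set.mem_setOf_eq, low_asInt]
    unfold low_In; omega
  · intro x hx
    simp only [Set.mem_setOf_eq, low_asInt] at hx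
    unfold low_In at hx; omega
  · intro x hx
    rw [low_pf, low_pf, low_asInt]
    rw [low_asInt] at hx
    unfold low_In at *
    omega

lemma low_closure : AddSubmonoid.closure ((({14, 15, 17, 19, 20} : Finset ℕ)) : Set ℕ) = low_G := by
  apply le_antisymm
  · rw [AddSubmonoid.closure_le]
    intro x hx
    have h : x = 14 ∨ x = 15 ∨ x = 17 ∨ x = 19 ∨ x = 20 := by simpa using hx
    show low_In (x : ℤ)
    unfold low_In
    omega
  · have m14 : 14 ∈ AddSubmonoid.closure ((({14, 15, 17, 19, 20} : Finset ℕ)) : Set ℕ) :=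
      AddSubmonoid.subset_closure (by simp)
    have m15 : 15 ∈ AddSubmonoid.closure ((({14, 15, 17, 19, 20} : Finset ℕ)) : Set ℕ) :=
      AddSubmonoid.subset_closure (by simp)
    have m17 : 17 ∈ AddSubmonoid.closure ((({14, 15, 17, 19, 20} : Finset ℕ)) : Set ℕ) :=
      AddSubmonoid.subset_closure (by simp)
    have m19 : 19 ∈ AddSubmonoid.closure ((({14, 15, 17, 19, 20} : Finset ℕ)) : Set ℕ) :=
      AddSubmonoid.subset_closure (by simp)
    have m20 : 20 ∈ AddSubmonoid.closure ((({14, 15, 17, 19, 20} : Finset ℕ)) : Set ℕ) :=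
      AddSubmonoid.subset_closure (by simp)
    generalize AddSubmonoid.closure ((({14, 15, 17, 19, 20} : Finset ℕ)) : Set ℕ) = C at *
    have key : ∀ x : ℕ, x < 56 → low_In (x : ℤ) → x ∈ C := by
      intro x hx h
      have h28 : 28 ∈ C := by simpa using add_mem m14 m14
      have h29 : 29 ∈ C := by simpa using add_mem m14 m15
      have h30 : 30 ∈ C := by simpa using add_mem m15 m15
      have h31 : 31 ∈ C := by simpa using add_mem m14 m17
      have h32 : 32 ∈ C := by simpa using add_mem m15 m17
      have h33 : 33 ∈ C := by simpa using add_mem m14 m19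
      have h34 : 34 ∈ C := by simpa using add_mem m17 m17
      have h35 : 35 ∈ C := by simpa using add_mem m15 m20
      have h36 : 36 ∈ C := by simpa using add_mem m17 m19
      have h37 : 37 ∈ C := by simpa using add_mem m17 m20
      have h38 : 38 ∈ C := by simpa using add_mem m19 m19
      have h39 : 39 ∈ C := by simpa using add_mem m19 m20
      have h40 : 40 ∈ C := by simpa using add_mem m20 m20
      have h42 : 42 ∈ C := by simpa using add_mem m14 h28
      have h43 : 43 ∈ C := by simpa using add_mem m14 h29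
      have h44 : 44 ∈ C := by simpa using add_mem m14 h30
      have h45 : 45 ∈ C := by simpa using add_mem m14 h31
      have h46 : 46 ∈ C := by simpa using add_mem m14 h32
      have h47 : 47 ∈ C := by simpa using add_mem m14 h33
      have h48 : 48 ∈ C := by simpa using add_mem m14 h34
      have h49 : 49 ∈ C := by simpa using add_mem m14 h35
      have h50 : 50 ∈ C := by simpa using add_mem m14 h36
      have h51 : 51 ∈ C := by simpa using add_mem m14 h37
      have h52 : 52 ∈ C := by simpa using add_mem m14 h38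
      have h53 : 53 ∈ C := by simpa using add_mem m14 h39
      have h54 : 54 ∈ C := by simpa using add_mem m14 h40
      have h55 : 55 ∈ C := by simpa using add_mem m15 h40
      unfold low_In at h
      have h0 : 0 ∈ C := zero_mem C
      interval_cases x
      all_goals first
        | assumption
        | (exfalso; omega)
    intro x
    show low_In (x : ℤ) → x ∈ C
    induction x using Nat.strong_induction_on with
    | _ x ih =>
      intro h
      by_cases hx : x < 56
      · exact key x hx h
      · have h1 := ih (x - 14) (by omega) (by unfold low_In; omega)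
        have h2 := add_mem h1 m14
        have h3 : x - 14 + 14 = x := by omega
        rwa [h3] at h2

lemma low_mem_of_irred {Γ : AddSubmonoid ℕ} {t : Set ℕ} (ht : AddSubmonoid.closure t = Γ) {x : ℕ}
    (hx : x ∈ Γ) (hx0 : x ≠ 0) (hirr : ∀ u ∈ Γ, ∀ v ∈ Γ, u ≠ 0 → v ≠ 0 → x ≠ u + v) : x ∈ t := by
  have hmain : ∀ y ∈ AddSubmonoid.closure t,
      y = 0 ∨ y ∈ t ∨ ∃ u ∈ Γ, ∃ v ∈ Γ, u ≠ 0 ∧ v ≠ 0 ∧ y = u + v := by
    intro y hy
    induction hy using AddSubmonoid.closure_induction with
    | mem y hy => exact Or.inr (Or.inl hy)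
    | zero => exact Or.inl rfl
    | add a b ha hb iha ihb =>
      by_cases ha0 : a = 0
      · subst ha0; simpa using ihb
      by_cases hb0 : b = 0
      · subst hb0; simpa using iha
      right; right
      exact ⟨a, by rw [← ht]; exact ha, b, by rw [← ht]; exact hb, ha0, hb0, rfl⟩
  rcases hmain x (by rw [ht]; exact hx) with h | h | ⟨u, hu, v, hv, hu0, hv0, h⟩
  · exact absurd h hx0
  · exact h
  · exact absurd h (hirr u hu v hv hu0 hv0)

lemma low_embDim : embDim low_G = 5 := by
  unfold embDim
  apply le_antisymm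
  · apply Nat.sInf_le
    exact ⟨{14, 15, 17, 19, 20}, low_closure, rfl⟩
  · apply le_csInf
    · exact ⟨5, {14, 15, 17, 19, 20}, low_closure, rfl⟩
    · rintro k ⟨t, ht, rfl⟩
      have h5 : (({14, 15, 17, 19, 20} : Finset ℕ)).card = 5 := rfl
      rw [← h5]
      apply Finset.card_le_card
      intro x hx
      have h : x = 14 ∨ x = 15 ∨ x = 17 ∨ x = 19 ∨ x = 20 := by simpa using hx
      have := low_mem_of_irred (x := x) ht (by rw [low_mem]; unfold low_In; omega) (by omega) (by
        intro u hu v hv hu0 hv0 huv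
        rw [low_mem] at hu hv
        unfold low_In at hu hv
        omega)
      exact this

theorem low : LowStmt := by
  unfold LowStmt maxType
  have h := le_iSup (fun Γ : {Γ : AddSubmonoid ℕ // IsNumericalSemigroup Γ ∧ IsAlmostSymmetric Γ ∧
    embDim Γ = 5} => (semigroupType Γ.1 : ℕ∞)) ⟨low_G, low_num, low_as, low_embDim⟩
  simp only [low_type] at h
  exact h

end Pool.Agent.MP_62a449_al.Five
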