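import Pool.Agent.Lib.MP_62a449_al.Five.Spec

/-!
The total price is at most `60`.
-/

namespace Pool.Agent.MP_62a449_al.Five

open Finset

/-- subtract one generator -/
theorem tot_sub (n y : ℕ → ℤ) (hy : ∀ j, 0 ≤ y j) (k : ℕ) (hk : k < 5) (hk0 : y k ≠ 0) :
    Mem n (∑ j ∈ range 5, y j * n j - n k) := by
  refine ⟨fun j => y j - if j = k then 1 else 0, ?_, ?_⟩
  · intro j
    by_cases h : j = k
    · subst h
      have h1 := hy j
      simp only [if_true]
      omega
    · simp only [if_neg h, sub_zero]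
      exact hy j
  · simp only [sub_mul, ite_mul, one_mul, zero_mul]
    rw [sum_sub_distrib, sum_ite_eq', if_pos (mem_range.2 hk)]

theorem tot_add (n : ℕ → ℤ) (c z : ℤ) (j : ℕ) (hj : j < 5) (hc : 0 ≤ c) (hz : Mem n z) :
    Mem n (c * n j + z) := by
  obtain ⟨y, hy, rfl⟩ := hz
  refine ⟨fun k => (if k = j then c else 0) + y k, ?_, ?_⟩
  · intro k
    by_cases h : k = j
    · subst h
      simp only [if_true]
      exact add_nonneg hc (hy k)
    · simp only [if_neg h, zero_add]
      exact hy k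
  · simp only [add_mul, ite_mul, zero_mul]
    rw [sum_add_distrib, sum_ite_eq', if_pos (mem_range.2 hj)]

/-- `el x + n a` is a multiple of `n j` -/
theorem tot_mul {n el : ℕ → ℤ} {x a j : ℕ} (ha : a < 5) (hj : j < 5) (hA : Arrow n el x a j)
    (h1 : ¬ Mem n (el x)) (h2 : Mem n (el x + n a)) : ∃ p : ℤ, 0 ≤ p ∧ el x + n a = p * n j := by
  obtain ⟨y, hy, h3⟩ := h2
  have ha0 : y a = 0 := by
    by_contra h
    have h4 := tot_sub n y hy a ha h
    rw [← h3, add_sub_cancel_right] at h4
    exact h1 h4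
  have hk0 : ∀ k ∈ range 5, k ≠ j → y k * n k = 0 := by
    intro k hk hkj
    by_cases hka : k = a
    · subst hka
      rw [ha0, zero_mul]
    · have h5 : y k = 0 := by
        by_contra h
        have h4 := tot_sub n y hy k (mem_range.1 hk) h
        rw [← h3] at h4
        exact hA.2 k (mem_range.1 hk) hka hkj h4
      rw [h5, zero_mul]
  refine ⟨y j, hy j, ?_⟩
  rw [h3]
  exact sum_eq_single_of_mem j (mem_range.2 hj) hk0

theorem tot_lt {n el : ℕ → ℤ} {x a j : ℕ} (hj : j < 5) (hA : Arrow n el x a j)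
    (h1 : ¬ Mem n (el x)) {p : ℤ} (hp : el x + n a = p * n j) {c : ℤ} {k : ℕ} (hk : k < 5)
    (hkj : k ≠ j) (hc : Mem n (c * n j - n k)) : p < c := by
  by_contra h
  rw [not_lt] at h
  have h2 := tot_add n (p - c) _ j hj (by omega) hc
  have h3 : (p - c) * n j + (c * n j - n k) = el x + n a - n k := by
    rw [hp]
    ring
  rw [h3] at h2
  by_cases hka : k = a
  · subst hka
    rw [add_sub_cancel_right] at h2
    exact h1 h2
  · exact hA.2 k hk hka hkj h2

theorem tot_eq {n el : ℕ → ℤ} {x y a a' j : ℕ} (ha : a < 5) (ha' : a' < 5) (hj : j < 5)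
    (hA : Arrow n el x a j) (hA' : Arrow n el y a' j)
    (h1 : ¬ Mem n (el x)) (h1' : ¬ Mem n (el y)) (h2 : ∀ b < 5, Mem n (el x + n b))
    (h2' : ∀ b < 5, Mem n (el y + n b)) : el x + n a = el y + n a' := by
  obtain ⟨p, hp0, hp⟩ := tot_mul ha hj hA h1 (h2 a ha)
  obtain ⟨q, hq0, hq⟩ := tot_mul ha' hj hA' h1' (h2' a' ha')
  have h3 : Mem n ((p + 1) * n j - n a) := by
    have h4 : (p + 1) * n j - n a = el x + n j := by
      have h5 : (p + 1) * n j = p * n j + n j := by ring
      rw [h5, ← hp]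
      ring
    rw [h4]
    exact h2 j hj
  have h3' : Mem n ((q + 1) * n j - n a') := by
    have h4 : (q + 1) * n j - n a' = el y + n j := by
      have h5 : (q + 1) * n j = q * n j + n j := by ring
      rw [h5, ← hq]
      ring
    rw [h4]
    exact h2' j hj
  have h5 := tot_lt hj hA h1 hp ha' hA'.1 h3'
  have h6 := tot_lt hj hA' h1' hq ha hA.1 h3
  have h7 : p = q := by omega
  rw [hp, hq, h7]

theorem tot : TotStmt := by
  classical
  intro n el F X hX hFX hXa hinj
  have key : ∀ j ∈ range 5, ∑ t ∈ X ×ˢ range 5,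
      (if Arrow n el t.1 t.2 j then 12 / (1 + ecount n el F t.1 t.2 j) else 0) ≤ 12 := by
    intro j hj
    have hj' := mem_range.1 hj
    rw [← sum_filter]
    set A := (X ×ˢ range 5).filter (fun t => Arrow n el t.1 t.2 j) with hAdef
    have hA : ∀ t ∈ A, t.1 ∈ X ∧ t.2 < 5 ∧ Arrow n el t.1 t.2 j := by
      intro t ht
      obtain ⟨h1, h2⟩ := mem_filter.1 ht
      obtain ⟨h3, h4⟩ := mem_product.1 h1
      exact ⟨h3, mem_range.1 h4, h2⟩
    have hEq : ∀ t ∈ A, ∀ u ∈ A, el t.1 + n t.2 = el u.1 + n u.2 := by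
      intro t ht u hu
      obtain ⟨h1, h2, h3⟩ := hA t ht
      obtain ⟨g1, g2, g3⟩ := hA u hu
      exact tot_eq h2 g2 hj' h3 g3 (hX _ h1) (hX _ g1) (hXa _ h1) (hXa _ g1)
    have hsnd : ∀ t ∈ A, ∀ u ∈ A, t.2 = u.2 → t = u := by
      intro t ht u hu htu
      have h1 := hEq t ht u hu
      rw [htu] at h1
      have h2 : el t.1 = el u.1 := by omega
      exact Prod.ext (hinj _ (hA t ht).1 _ (hA u hu).1 h2) htu
    have hcard : ∀ t ∈ A, A.card ≤ 1 + ecount n el F t.1 t.2 j := by
      intro t ht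
      have h1 : ((A.erase t).image Prod.snd).card = (A.erase t).card := by
        refine card_image_of_injOn ?_
        intro u hu v hv huv
        exact hsnd u (mem_of_mem_erase hu) v (mem_of_mem_erase hv) huv
      have h2 : (A.erase t).image Prod.snd ⊆ (range 5).filter (fun c => c ≠ t.2 ∧ c ≠ j ∧
          ¬ Mem n (el t.1 + n t.2 - n c) ∧ ¬ Mem n (F - el t.1 + n c - n t.2)) := by
        intro c hc
        obtain ⟨u, hu, rfl⟩ := mem_image.1 hc
        obtain ⟨hut, huA⟩ := mem_erase.1 hu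
        obtain ⟨g1, g2, g3⟩ := hA u huA
        have h3 := hEq t ht u huA
        refine mem_filter.2 ⟨mem_range.2 g2, fun h4 => hut (hsnd u huA t ht h4), g3.1, ?_, ?_⟩
        · have h4 : el t.1 + n t.2 - n u.2 = el u.1 := by omega
          rw [h4]
          exact hX _ g1
        · have h4 : F - el t.1 + n u.2 - n t.2 = F - el u.1 := by omega
          rw [h4]
          exact hFX _ g1
      have h3 := card_le_card h2
      rw [h1, card_erase_of_mem ht] at h3
      unfold ecount
      have h4 : (filter (fun c => c ≠ t.2 ∧ c ≠ j ∧ ¬ Mem n (el t.1 + n t.2 - n c) ∧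
          ¬ Mem n (F - el t.1 + n c - n t.2)) (range 5)).card ≤
          (filter (fun c => c ≠ t.2 ∧ c ≠ j ∧ ¬ Mem n (el t.1 + n t.2 - n c) ∧
          ¬ Mem n (F - el t.1 + n c - n t.2)) (range 5)).card := le_refl _
      omega
    rcases A.eq_empty_or_nonempty with h0 | h0
    · rw [h0, sum_empty]
      exact Nat.zero_le _
    · have h1 : ∀ t ∈ A, 12 / (1 + ecount n el F t.1 t.2 j) ≤ 12 / A.card := by
        intro t ht
        exact Nat.div_le_div_left (hcard t ht) (card_pos.2 h0)
      refine (sum_le_sum h1).trans ?_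
      rw [sum_const, smul_eq_mul]
      exact Nat.mul_div_le _ _
  have h1 : ∑ x ∈ X, price n el F x = ∑ j ∈ range 5, ∑ t ∈ X ×ˢ range 5,
      (if Arrow n el t.1 t.2 j then 12 / (1 + ecount n el F t.1 t.2 j) else 0) := by
    unfold price
    rw [sum_comm (s := range 5) (t := X ×ˢ range 5), sum_product]
  rw [h1]
  refine (sum_le_sum key).trans ?_
  rw [sum_const, card_range, smul_eq_mul]

end Pool.Agent.MP_62a449_al.Five
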