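import Pool.Agent.Lib.MP_62a449_al.Five.Spec

/-!
The upper bound: an almost symmetric numerical semigroup with five generators and at least six pseudo-Frobenius
numbers gives a good situation.
-/

namespace Pool.Agent.MP_62a449_al.Five

open Finset

theorem upp_sum_mem (m y : ℕ → ℕ) (t : Finset ℕ) :
    ∑ k ∈ t, y k * m k ∈ AddSubmonoid.closure (((t.image m : Finset ℕ)) : Set ℕ) := by
  refine AddSubmonoid.sum_mem _ fun k hk => ?_
  rw [← smul_eq_mul]
  exact AddSubmonoid.nsmul_mem _ (AddSubmonoid.subset_closure (mem_coe.2 (mem_image_of_mem m hk))) _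

theorem upp_mem_nat (m : ℕ → ℕ) (x : ℕ)
    (hx : x ∈ AddSubmonoid.closure ((((range 5).image m : Finset ℕ)) : Set ℕ)) :
    ∃ y : ℕ → ℕ, x = ∑ j ∈ range 5, y j * m j := by
  induction hx using AddSubmonoid.closure_induction with
  | mem x hx =>
    obtain ⟨a, ha, rfl⟩ := mem_image.1 (mem_coe.1 hx)
    refine ⟨fun j => if j = a then 1 else 0, ?_⟩
    simp only [ite_mul, one_mul, zero_mul]
    rw [sum_ite_eq', if_pos ha]
  | zero => exact ⟨fun _ => 0, by simp⟩
  | add x y _ _ hx hy =>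
    obtain ⟨u, hu⟩ := hx
    obtain ⟨v, hv⟩ := hy
    refine ⟨fun j => u j + v j, ?_⟩
    rw [hu, hv, ← sum_add_distrib]
    exact sum_congr rfl fun j _ => (add_mul _ _ _).symm

theorem upp_mem (m : ℕ → ℕ) (Γ : AddSubmonoid ℕ)
    (h : AddSubmonoid.closure ((((range 5).image m : Finset ℕ)) : Set ℕ) = Γ) (z : ℤ) :
    Mem (fun j => (m j : ℤ)) z ↔ z ∈ asInt Γ := by
  constructor
  · rintro ⟨y, hy, rfl⟩
    refine ⟨∑ k ∈ range 5, (y k).toNat * m k, ?_, ?_⟩
    · rw [← h]
      exact upp_sum_mem m (fun k => (y k).toNat) (range 5)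
    · push_cast
      refine sum_congr rfl fun k _ => ?_
      rw [Int.toNat_of_nonneg (hy k)]
  · rintro ⟨x, hx, rfl⟩
    rw [← h] at hx
    obtain ⟨y, rfl⟩ := upp_mem_nat m x hx
    refine ⟨fun k => (y k : ℤ), fun k => Int.natCast_nonneg _, ?_⟩
    push_cast
    rfl

/-- enumeration of a set of five elements -/
theorem upp_enum (s : Finset ℕ) (hs : s.card = 5) : ∃ m : ℕ → ℕ, (range 5).image m = s := by
  classical
  let e := s.equivFinOfCardEq hs
  refine ⟨fun j => if h : j < 5 then ((e.symm ⟨j, h⟩ : s) : ℕ) else 0, ?_⟩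
  ext x
  rw [mem_image]
  constructor
  · rintro ⟨j, hj, rfl⟩
    rw [dif_pos (mem_range.1 hj)]
    exact (e.symm _).2
  · intro hx
    refine ⟨(e ⟨x, hx⟩ : Fin 5), mem_range.2 (e ⟨x, hx⟩).2, ?_⟩
    rw [dif_pos (e ⟨x, hx⟩).2]
    simp

theorem upp_irr (m : ℕ → ℕ) (Γ : AddSubmonoid ℕ)
    (h : AddSubmonoid.closure ((((range 5).image m : Finset ℕ)) : Set ℕ) = Γ) (hd : embDim Γ = 5)
    (a : ℕ) :
    a < 5 → m a ∉ AddSubmonoid.closure (((((range 5).erase a).image m : Finset ℕ)) : Set ℕ) := by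
  intro ha hma
  have h1 : AddSubmonoid.closure (((((range 5).erase a).image m : Finset ℕ)) : Set ℕ) = Γ := by
    refine le_antisymm ?_ ?_
    · rw [← h]
      refine AddSubmonoid.closure_mono ?_
      exact coe_subset.2 (image_subset_image (erase_subset _ _))
    · rw [← h, AddSubmonoid.closure_le]
      intro x hx
      obtain ⟨b, hb, rfl⟩ := mem_image.1 (mem_coe.1 hx)
      by_cases hab : b = a
      · subst hab
        exact hma
      · exact AddSubmonoid.subset_closure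
          (mem_coe.2 (mem_image_of_mem m (mem_erase.2 ⟨hab, hb⟩)))
  have h2 : embDim Γ ≤ (((range 5).erase a).image m).card := Nat.sInf_le ⟨_, h1, rfl⟩
  have h3 : (((range 5).erase a).image m).card ≤ ((range 5).erase a).card := card_image_le
  rw [card_erase_of_mem (mem_range.2 ha), card_range] at h3
  omega

theorem upp_gen (m : ℕ → ℕ) (Γ : AddSubmonoid ℕ)
    (h : AddSubmonoid.closure ((((range 5).image m : Finset ℕ)) : Set ℕ) = Γ) (hd : embDim Γ = 5)
    (a : ℕ) (ha : a < 5) (b : ℕ) (hb : b < 5) (hab : a ≠ b) :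
    ¬ Mem (fun j => (m j : ℤ)) ((m a : ℤ) - m b) := by
  intro hM
  have hb0 : m b ≠ 0 := by
    intro h0
    refine upp_irr m Γ h hd b hb ?_
    rw [h0]
    exact AddSubmonoid.zero_mem _
  obtain ⟨x, hx, hxe⟩ := (upp_mem m Γ h _).1 hM
  have h1 : m a = m b + x := by omega
  rw [← h] at hx
  obtain ⟨y, hy⟩ := upp_mem_nat m x hx
  rw [← add_sum_erase _ _ (mem_range.2 ha)] at hy
  rcases Nat.eq_zero_or_pos (y a) with h0 | h0
  · rw [h0, zero_mul, zero_add] at hy
    refine upp_irr m Γ h hd a ha ?_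
    rw [h1, hy]
    refine AddSubmonoid.add_mem _ ?_ (upp_sum_mem m y _)
    exact AddSubmonoid.subset_closure
      (mem_coe.2 (mem_image_of_mem m (mem_erase.2 ⟨hab.symm, mem_range.2 hb⟩)))
  · have h2 : m a ≤ y a * m a := Nat.le_mul_of_pos_left _ h0
    omega

theorem upp (hF : FamStmt) : UppStmt := by
  classical
  intro hgood Γ _ hAS hd
  by_contra hty
  rw [not_le] at hty
  -- generators
  have hne : {k | ∃ s : Finset ℕ, AddSubmonoid.closure (s : Set ℕ) = Γ ∧ s.card = k}.Nonempty := by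
    by_contra hne
    rw [Set.not_nonempty_iff_eq_empty] at hne
    unfold embDim at hd
    rw [hne, Nat.sInf_empty] at hd
    omega
  have hmem := Nat.sInf_mem hne
  have hd' : sInf {k | ∃ s : Finset ℕ, AddSubmonoid.closure (s : Set ℕ) = Γ ∧ s.card = k} = 5 := hd
  rw [hd'] at hmem
  obtain ⟨s, hs, hs5⟩ := hmem
  obtain ⟨m, hm⟩ := upp_enum s hs5
  have h : AddSubmonoid.closure ((((range 5).image m : Finset ℕ)) : Set ℕ) = Γ := by
    rw [hm]
    exact hs
  have hM := upp_mem m Γ h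
  obtain ⟨F, ⟨hFn, hFu⟩, hsym⟩ := hAS
  have hle : ∀ x : ℤ, x ∉ asInt Γ → x ≤ F := fun x hx => hFu hx
  have hpos : ∀ s ∈ asInt Γ, 0 ≤ s := by
    rintro s ⟨k, _, rfl⟩
    exact Int.natCast_nonneg _
  have h0 : (0 : ℤ) ∈ asInt Γ := ⟨0, Γ.zero_mem, rfl⟩
  have hma : ∀ a < 5, ((m a : ℕ) : ℤ) ∈ asInt Γ := by
    intro a ha
    refine ⟨m a, ?_, rfl⟩
    rw [← h]
    exact AddSubmonoid.subset_closure (mem_coe.2 (mem_image_of_mem m (mem_range.2 ha)))
  have hm0 : ∀ a < 5, ((m a : ℕ) : ℤ) ≠ 0 := by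
    intro a ha h1
    refine upp_irr m Γ h hd a ha ?_
    have h2 : m a = 0 := by exact_mod_cast h1
    rw [h2]
    exact AddSubmonoid.zero_mem _
  have hfin : (pseudoFrobenius Γ).Finite := by
    refine (Set.finite_Icc (-(m 0 : ℤ)) F).subset ?_
    rintro x ⟨hx1, hx2⟩
    refine ⟨?_, hle x hx1⟩
    have h1 := hpos _ (hx2 _ (hma 0 (by omega)) (hm0 0 (by omega)))
    omega
  have hFPF : F ∈ pseudoFrobenius Γ := by
    refine ⟨hFn, fun s hs hs0 => ?_⟩
    by_contra h1
    have h2 := hle _ h1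
    have h3 := hpos s hs
    omega
  obtain ⟨sf, el, hg⟩ := hF (fun j => (m j : ℤ)) F (hfin.toFinset.erase F)
    (fun h1 => hFn ((hM F).1 h1))
    (fun a ha b hb hab => upp_gen m Γ h hd a ha b hb hab)
    (fun v hv h1 => ((hfin.mem_toFinset.1 (mem_erase.1 hv).2).1 ((hM v).1 h1)))
    (fun v hv a ha => (hM _).2 ((hfin.mem_toFinset.1 (mem_erase.1 hv).2).2 _ (hma a ha) (hm0 a ha)))
    (by
      intro v hv
      obtain ⟨hvF, hv1⟩ := mem_erase.1 hv
      obtain ⟨hv2, hv3⟩ := hfin.mem_toFinset.1 hv1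
      rcases hsym v hv2 with h1 | ⟨_, h1⟩
      · exfalso
        have h2 := hv3 _ h1 (fun h3 => hvF (by omega))
        rw [add_sub_cancel] at h2
        exact hFn h2
      · refine mem_erase.2 ⟨fun h2 => hv2 ?_, hfin.mem_toFinset.2 h1⟩
        have h3 : v = 0 := by omega
        rw [h3]
        exact h0)
    (by
      intro v hv w hw hvw h1
      obtain ⟨hv2, hv3⟩ := hfin.mem_toFinset.1 (mem_erase.1 hv).2
      obtain ⟨hw2, hw3⟩ := hfin.mem_toFinset.1 (mem_erase.1 hw).2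
      have h2 := hw3 _ ((hM _).1 h1) (fun h3 => hvw (by omega))
      rw [add_sub_cancel] at h2
      exact hv2 h2)
    (by
      rw [card_erase_of_mem (hfin.mem_toFinset.2 hFPF)]
      have h1 : hfin.toFinset.card = semigroupType Γ := (Set.ncard_eq_toFinset_card _ hfin).symm
      omega)
  exact hgood sf _ el F hg

end Pool.Agent.MP_62a449_al.Five
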