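import Pool.Agent.Lib.MP_62a449_al.Five.Nog
import Pool.Agent.Lib.MP_62a449_al.Five.Tot
import Pool.Agent.Lib.MP_62a449_al.Five.Fam
import Pool.Agent.Lib.MP_62a449_al.Five.Upp
import Pool.Agent.Lib.MP_62a449_al.Five.Low
import Pool.Agent.Lib.MP_62a449_al.Five.Cert.ClmX
import Pool.Agent.Lib.MP_62a449_al.Five.Cert.ClmR
import Pool.Agent.Lib.MP_62a449_al.Five.Cert.ClmS

/-!
`A(5) = 5`.
-/

namespace Pool.Agent.MP_62a449_al.Five

/-- no good situation exists -/
theorem no_good (sf : Bool) (n el : ℕ → ℤ) (F : ℤ) : ¬ Good sf n el F := by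
  refine nog rel claimX0 ?_ claimS sf n el F
  have h : (2 ^ 171 + 2 ^ 172 + 2 ^ 173 : ℕ) = 0x38000000000000000000000000000000000000000000 := by norm_num
  rw [h]
  exact claimROOT

/-- An almost symmetric numerical semigroup of embedding dimension `5` has type at most `5`. -/
theorem type_le (Γ : AddSubmonoid ℕ) (h1 : Pool.Agent.MP_62a449_al.IsNumericalSemigroup Γ)
    (h2 : Pool.Agent.MP_62a449_al.IsAlmostSymmetric Γ) (h3 : Pool.Agent.MP_62a449_al.embDim Γ = 5) :
    Pool.Agent.MP_62a449_al.semigroupType Γ ≤ 5 :=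
  upp (fam tot) no_good Γ h1 h2 h3

end Pool.Agent.MP_62a449_al.Five
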