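import Pool.Agent.Lib.MP_62a449_al.Five.Spec

/-!
No good situation exists, given the three claims: `NogStmt`.
-/

namespace Pool.Agent.MP_62a449_al.Five

open Finset

/-- the state `0` says nothing -/
theorem nog_zero (n el : ℕ → ℤ) : Holds n el 0 :=
  ⟨fun i _ h => absurd h (by simp), fun i _ h => absurd h (by simp),
    fun i _ q _ h => absurd h (by simp), fun i _ q _ h => absurd h (by simp)⟩

theorem nog_bits (j : ℕ) (h : (2 ^ 171 + 2 ^ 172 + 2 ^ 173 : ℕ).testBit j = true) :
    j = 171 ∨ j = 172 ∨ j = 173 := by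
  have h7 : (2 ^ 171 + 2 ^ 172 + 2 ^ 173 : ℕ) = 7 * 2 ^ 171 := by norm_num
  rw [h7, Nat.testBit_mul_two_pow] at h
  simp only [Bool.and_eq_true, decide_eq_true_eq] at h
  obtain ⟨h1, h2⟩ := h
  by_cases h3 : j < 174
  · omega
  · exfalso
    have h4 : (7 : ℕ) < 2 ^ (j - 171) :=
      lt_of_lt_of_le (by norm_num : (7 : ℕ) < 2 ^ 3) (Nat.pow_le_pow_right (by norm_num) (by omega))
    rw [Nat.testBit_lt_two_pow h4] at h2
    exact absurd h2 (by simp)

theorem nog_perm (a b : ℕ) (ha : a < 5) (hb : b < 5) (hab : a ≠ b) :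
    ∃ π : ℕ → ℕ, (∀ t < 5, π t < 5) ∧ (∀ t < 5, ∀ u < 5, π t = π u → t = u) ∧ π 4 = a ∧ π 0 = b := by
  have hsw : ∀ c d : ℕ, c < 5 → d < 5 → ∀ t < 5, Equiv.swap c d t < 5 := by
    intro c d hc hd t ht
    rw [Equiv.swap_apply_def]
    split_ifs <;> assumption
  have hc : Equiv.swap 4 a b < 5 := hsw 4 a (by norm_num) ha b hb
  have hc4 : Equiv.swap 4 a b ≠ 4 := by
    intro h
    apply hab
    have h2 := Equiv.swap_apply_self 4 a b
    rw [h, Equiv.swap_apply_left] at h2
    exact h2
  refine ⟨fun t => Equiv.swap 4 a (Equiv.swap 0 (Equiv.swap 4 a b) t), ?_, ?_, ?_, ?_⟩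
  · intro t ht
    exact hsw 4 a (by norm_num) ha _ (hsw 0 _ (by norm_num) hc t ht)
  · intro t _ u _ h
    exact (Equiv.swap 0 (Equiv.swap 4 a b)).injective ((Equiv.swap 4 a).injective h)
  · show Equiv.swap 4 a (Equiv.swap 0 (Equiv.swap 4 a b) 4) = a
    rw [Equiv.swap_apply_of_ne_of_ne (a := 0) (b := Equiv.swap 4 a b) (by norm_num) (fun h => hc4 h.symm),
      Equiv.swap_apply_left]
  · show Equiv.swap 4 a (Equiv.swap 0 (Equiv.swap 4 a b) 0) = b
    rw [Equiv.swap_apply_left, Equiv.swap_apply_self]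

theorem nog (hR : RelStmt) : NogStmt := by
  intro C1 C2 C3 sf n el F hG
  cases sf with
  | true => exact C3 n el F hG (fun h => absurd h (by simp)) (nog_zero n el)
  | false =>
    by_cases hN : NoArrow n el
    · exact C1 n el F hG (fun _ => hN) (nog_zero n el)
    · unfold NoArrow at hN
      push Not at hN
      obtain ⟨x, hx, a, ha, b, hb, hA⟩ := hN
      obtain ⟨π, hπ1, hπ2, hπ4, hπ0⟩ := nog_perm a b ha hb hA.1
      obtain ⟨hG', hM⟩ := hR false n el F π x hπ1 hπ2 (by omega) (fun h => absurd h (by simp)) hG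
      have key : ∀ c, c = 1 ∨ c = 2 ∨ c = 3 → ¬ Mem n (el x + n a - n (π c)) := by
        intro c hc
        refine hA.2 (π c) (hπ1 c (by omega)) (fun h => ?_) (fun h => ?_)
        · have := hπ2 c (by omega) 4 (by norm_num) (h.trans hπ4.symm)
          omega
        · have := hπ2 c (by omega) 0 (by norm_num) (h.trans hπ0.symm)
          omega
      have hx0 : Nat.xor 0 x = x := Nat.zero_xor x
      refine C2 _ _ F hG' (fun h => absurd h (by simp)) ⟨?_, ?_, ?_, ?_⟩
      · intro i hi h
        have := nog_bits i h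
        omega
      · intro i hi h
        rw [hM]
        rcases nog_bits (150 + i) h with h | h | h
        · have hi' : i = 21 := by omega
          subst hi'
          show ¬ Mem n (el (Nat.xor 0 x) + n (π 4) - n (π 1))
          rw [hx0, hπ4]
          exact key 1 (by norm_num)
        · have hi' : i = 22 := by omega
          subst hi'
          show ¬ Mem n (el (Nat.xor 0 x) + n (π 4) - n (π 2))
          rw [hx0, hπ4]
          exact key 2 (by norm_num)
        · have hi' : i = 23 := by omega
          subst hi'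
          show ¬ Mem n (el (Nat.xor 0 x) + n (π 4) - n (π 3))
          rw [hx0, hπ4]
          exact key 3 (by norm_num)
      · intro i hi q hq h
        have := nog_bits _ h
        omega
      · intro i hi q hq h
        have := nog_bits _ h
        omega

end Pool.Agent.MP_62a449_al.Five
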