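import Pool.Agent.Lib.MP_62a449_al.Five.Spec

/-!
Linear algebra of codes.
-/

namespace Pool.Agent.MP_62a449_al.Five

open Finset

theorem numa_geom (n : ℕ) : (65536 : ℕ) ^ n = 65535 * ∑ p ∈ range n, 65536 ^ p + 1 := by
  induction n with
  | zero => simp
  | succ n ih =>
    rw [sum_range_succ, pow_succ]
    generalize (65536 : ℕ) ^ n = x at *
    omega

theorem numa_div (n : ℕ) : (65536 : ℕ) ^ n / 65535 = ∑ p ∈ range n, 65536 ^ p := by
  rw [numa_geom n]
  generalize ∑ p ∈ range n, (65536 : ℕ) ^ p = s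
  omega

theorem numa_two_pow (k : ℕ) : (2 : ℕ) ^ (16 * k) = 65536 ^ k := by
  rw [pow_mul]
  rfl

set_option exponentiation.threshold 5000 in
theorem numa_OFF_eq : OFF = 32768 * ∑ p ∈ range 244, 65536 ^ p := by
  have h1 : OFF = 32768 * (2 ^ (16 * 244) / 65535) := rfl
  rw [h1, numa_two_pow, numa_div]

set_option exponentiation.threshold 5000 in
theorem numa_OFFc_eq : OFFc = 32768 * ∑ p ∈ range 48, 65536 ^ p := by
  have h1 : OFFc = 32768 * (2 ^ (16 * 48) / 65535) := rfl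
  rw [h1, numa_two_pow, numa_div]

theorem numa_OFF : ((OFF : ℕ) : ℤ) = encZ (fun _ => 32768) := by
  rw [numa_OFF_eq, encZ]
  generalize (range 244 : Finset ℕ) = s
  push_cast
  rw [mul_sum]

theorem numa_OFFc : ((OFFc : ℕ) : ℤ) = ∑ p ∈ range 48, 32768 * 65536 ^ p := by
  rw [numa_OFFc_eq]
  generalize (range 48 : Finset ℕ) = s
  push_cast
  rw [mul_sum]

theorem numa_E (j : ℕ) : E j = 65536 ^ (48 * j) := by
  have h1 : E j = 2 ^ (768 * j) := rfl
  rw [h1, show 768 * j = 16 * (48 * j) by ring, numa_two_pow]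

theorem numa_D (j : ℕ) : D j = 65536 ^ (240 + j) := by
  have h1 : D j = 2 ^ (3840 + 16 * j) := rfl
  rw [h1, show 3840 + 16 * j = 16 * (240 + j) by ring, numa_two_pow]

theorem numa_add (g h : ℕ → ℤ) : encZ (fun p => g p + h p) = encZ g + encZ h := by
  simp only [encZ]
  rw [← sum_add_distrib]
  exact sum_congr rfl fun p _ => by ring

theorem numa_smul (c : ℤ) (g : ℕ → ℤ) : encZ (fun p => c * g p) = c * encZ g := by
  simp only [encZ]
  rw [mul_sum]
  exact sum_congr rfl fun p _ => by ring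

theorem numa_single (p0 : ℕ) (hp : p0 < 244) (c : ℤ) :
    encZ (fun p => if p = p0 then c else 0) = c * 65536 ^ p0 := by
  simp only [encZ]
  rw [sum_eq_single p0]
  · rw [if_pos rfl]
  · intro p _ hne
    rw [if_neg hne, zero_mul]
  · intro h
    exact absurd (mem_range.2 hp) h

theorem numa_nonneg (g : ℕ → ℤ) (hg : ∀ p < 244, |g p| ≤ 32768) :
    0 ≤ encZ g + encZ (fun _ => 32768) := by
  rw [← numa_add]
  simp only [encZ]
  refine sum_nonneg fun p hp => mul_nonneg ?_ (by positivity)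
  have := neg_le_of_abs_le (hg p (mem_range.1 hp))
  omega

theorem numa_rep (X : ℕ) (g : ℕ → ℤ) (b : ℤ) : Rep X g b ↔
    ((X : ℤ) = encZ g + encZ (fun _ => 32768) ∧ ∀ p < 244, |g p| ≤ b) := by
  rw [Rep, numa_add]

set_option exponentiation.threshold 5000 in
theorem numa_lt (X : ℕ) (g : ℕ → ℤ) (b : ℤ) (h : Rep X g b) (hb : b < 32768) :
    X < 2 ^ 3904 := by
  have h1 : (2 : ℕ) ^ 3904 = 65536 ^ 244 := numa_two_pow 244
  rw [h1, numa_geom 244, Nat.lt_succ_iff]
  have h2 : (X : ℤ) ≤ ((65535 * ∑ p ∈ range 244, 65536 ^ p : ℕ) : ℤ) := by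
    rw [h.1, encZ]
    have h3 : ((65535 * ∑ p ∈ range 244, 65536 ^ p : ℕ) : ℤ) =
        ∑ p ∈ range 244, 65535 * (65536 : ℤ) ^ p := by
      generalize (range 244 : Finset ℕ) = s
      push_cast
      rw [mul_sum]
    rw [h3]
    refine sum_le_sum fun p hp => mul_le_mul_of_nonneg_right ?_ (by positivity)
    have := le_of_abs_le (h.2 p (mem_range.1 hp))
    omega
  exact_mod_cast h2

theorem numa_sum (X Y : ℕ) (g h : ℕ → ℤ) (b c : ℤ) (hX : Rep X g b) (hY : Rep Y h c)
    (hbc : b + c ≤ 32768) : Rep (X + Y - OFF) (fun p => g p + h p) (b + c) := by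
  rw [numa_rep] at hX hY ⊢
  have h1 : ∀ p < 244, |g p + h p| ≤ b + c := fun p hp =>
    (abs_add_le _ _).trans (add_le_add (hX.2 p hp) (hY.2 p hp))
  refine ⟨?_, h1⟩
  have h2 := numa_nonneg (fun p => g p + h p) fun p hp => (h1 p hp).trans hbc
  have h3 := numa_OFF
  rw [numa_add] at h2 ⊢
  have h4 : OFF ≤ X + Y := by
    zify
    rw [hX.1, hY.1, h3]
    linarith
  rw [Nat.cast_sub h4, Nat.cast_add, hX.1, hY.1, h3]
  ring

theorem numa_neg (X : ℕ) (g : ℕ → ℤ) (b : ℤ) (hX : Rep X g b) (hb : b ≤ 32768) :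
    Rep (2 * OFF - X) (fun p => - g p) b := by
  rw [numa_rep] at hX ⊢
  have h1 : ∀ p < 244, |- g p| ≤ b := fun p hp => by
    rw [abs_neg]
    exact hX.2 p hp
  refine ⟨?_, h1⟩
  have h0 : encZ (fun p => - g p) = - encZ g := by
    have := numa_smul (-1) g
    simpa using this
  have h2 := numa_nonneg (fun p => - g p) fun p hp => (h1 p hp).trans hb
  have h3 := numa_OFF
  rw [h0] at h2 ⊢
  have h4 : X ≤ 2 * OFF := by
    zify
    rw [hX.1, h3]
    linarith
  rw [Nat.cast_sub h4, Nat.cast_mul, hX.1, h3]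
  push_cast
  ring

theorem numA : NumAStmt := by
  refine ⟨numa_OFF, numa_OFFc, numa_E, numa_D, numa_add, numa_smul,
    fun p0 hp c => numa_single p0 hp c, numa_nonneg, numa_rep, ?_, numa_sum, numa_neg, ?_, ?_⟩
  · rw [numa_rep]
    refine ⟨?_, fun p _ => by simp⟩
    have h1 := numa_smul 0 (fun _ => 0)
    simp only [zero_mul] at h1
    rw [h1, zero_add, numa_OFF]
  · intro X g b c h hbc
    exact ⟨h.1, fun p hp => (h.2 p hp).trans hbc⟩
  · intro X g b h hb
    exact numa_lt X g b h hb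

end Pool.Agent.MP_62a449_al.Five
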