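import Pool.Agent.Lib.MP_62a449_al.Five.Spec

/-!
Soundness of the pattern level of the checker (`PatStmt`).
-/

namespace Pool.Agent.MP_62a449_al.Five

open Finset

attribute [local irreducible] OFF OFFc E D

theorem pat_cond {a b : Bool} (h : cond a b false = true) : a = true ∧ b = true := by
  cases a
  · exact absurd h (by simp)
  · exact ⟨rfl, h⟩

theorem pat_getL (refs : List ℕ) (k : ℕ) (h : 1 ≤ getL refs k) : getL refs k ∈ refs := by
  unfold getL at *
  rcases Nat.lt_or_ge k refs.length with hk | hk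
  · rw [List.getD_eq_getElem _ _ hk]
    exact List.getElem_mem hk
  · rw [List.getD_eq_default _ _ hk] at h
    omega

/-- the row rule with the excluded coordinates -/
theorem pat_row (hM : MemAStmt) {sf : Bool} {n el : ℕ → ℤ} {F : ℤ} {st : ℕ} (hg : Good sf n el F)
    (hh : Holds n el st) (i : ℕ) (hi : i < 150) (S : ℕ → Prop)
    (hS : ∀ c < 5, c ≠ i / 5 % 5 → ¬ S c → st.testBit (150 + (5 * (i / 5) + c)) = true) :
    ∃ c < 5, c ≠ i / 5 % 5 ∧ S c ∧ Mem n (el (i / 25) + n (i / 5 % 5) - n c) := by
  have hx : i / 25 < 6 := by omega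
  have ha : i / 5 % 5 < 5 := by omega
  obtain ⟨c, hc, hca, hm⟩ := hM.2.2.2.1 sf n el F hg _ hx _ ha
  refine ⟨c, hc, hca, ?_, hm⟩
  by_contra hSc
  have h1 := hS c hc hca hSc
  have e1 : (5 * (i / 5) + c) / 25 = i / 25 := by omega
  have e2 : (5 * (i / 5) + c) / 5 % 5 = i / 5 % 5 := by omega
  have e3 : (5 * (i / 5) + c) % 5 = c := by omega
  apply hh.2.1 _ (by omega) h1
  rw [MEMv, e1, e2, e3]
  exact hm

/-- bits of a row -/
theorem pat_non {n el : ℕ → ℤ} {st : ℕ} (hh : Holds n el st) (i c : ℕ) (hi : i < 150) (hc : c < 5)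
    (hb : st.testBit (150 + (5 * (i / 5) + c)) = true) : ¬ Mem n (el (i / 25) + n (i / 5 % 5) - n c) := by
  have e1 : (5 * (i / 5) + c) / 25 = i / 25 := by omega
  have e2 : (5 * (i / 5) + c) / 5 % 5 = i / 5 % 5 := by omega
  have e3 : (5 * (i / 5) + c) % 5 = c := by omega
  have h1 := hh.2.1 _ (by omega) hb
  rw [MEMv, e1, e2, e3] at h1
  exact h1

theorem pat_full (hM : MemAStmt) (hB : BitStmt) {sf : Bool} {n el : ℕ → ℤ} {F : ℤ} {st : ℕ}
    (hg : Good sf n el F) (hh : Holds n el st) (i : ℕ) (hi : i < 150) (hr : rowFull st i = true) :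
    i / 5 % 5 ≠ i % 5 ∧ Mem n (MEMv n el i) := by
  obtain ⟨c, hc, hca, hcb, hm⟩ := pat_row hM hg hh i hi (fun c => c = i % 5)
    (fun c hc hca hcb => hB.2.1 st i hi hr c hc hca hcb)
  refine ⟨fun h => hca (by rw [hcb, h]), ?_⟩
  rw [hcb] at hm
  exact hm

theorem pat_zero (dx : ℕ) (sf m2 : Bool) (refs : List ℕ) (c : ℕ) (items : List ℕ) (st : ℕ) (stk : List ℕ) :
    pat dx sf m2 refs 0 c items st stk = false := rfl

theorem pat_succ (dx : ℕ) (sf m2 : Bool) (refs : List ℕ) (f c : ℕ) (items : List ℕ) (st : ℕ) (stk : List ℕ) :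
    pat dx sf m2 refs (f + 1) c items st stk =
      patOp dx sf m2 refs (pat dx sf m2 refs f) c items st stk (byt c 0) := rfl

theorem pat_main (hM : MemAStmt) (hI : IntStmt) (hB : BitStmt) (hP : PrcStmt) (hR : RefStmt)
    {sf m2 : Bool} {refs : List ℕ} (hrefs : ∀ L ∈ refs, Claim sf false L)
    {n el : ℕ → ℤ} {F : ℤ} (hg : Good sf n el F) (hna : m2 = true → NoArrow n el) (f : ℕ) :
    ∀ (c : ℕ) (items : List ℕ) (st : ℕ) (stk : List ℕ), pat (dxT sf) sf m2 refs f c items st stk = true →
      ¬ Holds n el st ∧ ∀ s ∈ stk, ¬ Holds n el s := by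
  induction f with
  | zero =>
    intro c items st stk h
    rw [pat_zero] at h
    exact absurd h (by simp)
  | succ f ih =>
    intro c items st stk h
    rw [pat_succ] at h
    generalize pat (dxT sf) sf m2 refs f = k at h ih
    have hclose : close k items stk = true → ∀ s ∈ stk, ¬ Holds n el s := by
      intro hc s hs
      rcases stk with _ | ⟨s1, stk1⟩
      · exact absurd hs (by simp)
      · rcases items with _ | ⟨c1, items1⟩
        · exact absurd hc (by simp [close])
        · have hc' : k c1 items1 s1 stk1 = true := hc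
          have h1 := ih _ _ _ _ hc'
          rcases List.mem_cons.mp hs with rfl | hs
          · exact h1.1
          · exact h1.2 s hs
    generalize byt c 0 = op at h
    rcases op with _ | _ | _ | _ | _ | _ | _ | _ | _ | op
    · -- leaf
      have h' : cond (leaf (dxT sf) sf st (drp c 1)) (close k items stk) false = true := h
      obtain ⟨h1, h2⟩ := pat_cond h'
      exact ⟨fun hh => hI sf n el F st _ hg hh h1, hclose h2⟩
    · -- split
      have h' : cond (Nat.ble (byt c 1) 149)
          (k (drp c 2) items (addM sf st (byt c 1)) (List.cons (addN st (byt c 1)) stk)) false = true := h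
      obtain ⟨h1, h2⟩ := pat_cond h'
      have hi : byt c 1 < 150 := Nat.lt_succ_of_le (Nat.le_of_ble_eq_true h1)
      obtain ⟨h3, h4⟩ := ih _ _ _ _ h2
      refine ⟨fun hh => ?_, fun s hs => h4 s (List.mem_cons_of_mem _ hs)⟩
      by_cases hm : Mem n (MEMv n el (byt c 1))
      · exact h3 (hB.2.2.2.2.1 sf n el F st _ hg hh hi hm)
      · exact h4 _ List.mem_cons_self (hB.2.2.2.2.2.1 n el st _ hh hi hm)
    · -- row derivation
      have h' : cond (cond (Nat.ble (byt c 1) 149) (rowFull st (byt c 1)) false)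
          (k (drp c 2) items (addM sf st (byt c 1)) stk) false = true := h
      obtain ⟨h1, h2⟩ := pat_cond h'
      obtain ⟨h3, h4⟩ := pat_cond h1
      have hi : byt c 1 < 150 := Nat.lt_succ_of_le (Nat.le_of_ble_eq_true h3)
      obtain ⟨h5, h6⟩ := ih _ _ _ _ h2
      refine ⟨fun hh => ?_, h6⟩
      exact h5 (hB.2.2.2.2.1 sf n el F st _ hg hh hi (pat_full hM hB hg hh _ hi h4).2)
    · -- mixed split
      have h' : cond (cond (Nat.ble (byt c 1) 149) (Nat.ble (byt c 2) 4) false)
          (k (drp c 3) items (addX st (byt c 1) (byt c 2))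
            (List.cons (addP st (byt c 1) (byt c 2)) stk)) false = true := h
      obtain ⟨h1, h2⟩ := pat_cond h'
      obtain ⟨h3, h4⟩ := pat_cond h1
      have hi : byt c 1 < 150 := Nat.lt_succ_of_le (Nat.le_of_ble_eq_true h3)
      have hq : byt c 2 < 5 := Nat.lt_succ_of_le (Nat.le_of_ble_eq_true h4)
      obtain ⟨h5, h6⟩ := ih _ _ _ _ h2
      refine ⟨fun hh => ?_, fun s hs => h6 s (List.mem_cons_of_mem _ hs)⟩
      by_cases hm : Mem n (MEMv n el (byt c 1) - n (byt c 2))
      · exact h5 (hB.2.2.2.2.2.2.1 n el st _ _ hh hi hq hm)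
      · exact h6 _ List.mem_cons_self (hB.2.2.2.2.2.2.2.1 n el st _ _ hh hi hq hm)
    · -- empty row
      have h' : cond (cond (Nat.ble (byt c 1) 29) (rowEmpty st (byt c 1)) false)
          (close k items stk) false = true := h
      obtain ⟨h1, h2⟩ := pat_cond h'
      obtain ⟨h3, h4⟩ := pat_cond h1
      have hr : byt c 1 < 30 := Nat.lt_succ_of_le (Nat.le_of_ble_eq_true h3)
      refine ⟨fun hh => ?_, hclose h2⟩
      generalize byt c 1 = r at hr h4
      have e0 : 5 * r / 5 = r := by omega
      obtain ⟨_, _, _, hf, _⟩ := pat_row hM hg hh (5 * r) (by omega) (fun _ => False)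
        (fun c hc hca _ => by
          rw [e0] at hca ⊢
          exact hB.2.2.2.1 st r hr h4 c hc hca)
      exact hf
    · -- price
      have h' : cond (prc sf st (wtT sf (byt c 1)) (byt c 2) (drp c 3) 0 0) (close k items stk) false = true := h
      obtain ⟨h1, h2⟩ := pat_cond h'
      exact ⟨fun hh => hP sf n el F st _ _ _ hg hh h1, hclose h2⟩
    · -- reference with a permutation
      have h' : cond (refOk sf st (getL refs (byt c 1)) (drp c 3) (byt c 2)) (close k items stk) false = true := h
      obtain ⟨h1, h2⟩ := pat_cond h'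
      refine ⟨fun hh => ?_, hclose h2⟩
      have h3 : cond (Nat.ble 1 (getL refs (byt c 1))) _ false = true := (pat_cond h1).1
      have h4 := Nat.le_of_ble_eq_true (pat_cond h3).1
      exact hR sf n el F st _ _ _ h1 (hrefs _ (pat_getL refs _ h4)) hg hh
    · -- reference
      have h' : cond (cond (Nat.ble 1 (getL refs (byt c 1 + 256 * byt c 2)))
          (Nat.beq (Nat.land st (getL refs (byt c 1 + 256 * byt c 2))) (getL refs (byt c 1 + 256 * byt c 2))) false)
          (close k items stk) false = true := h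
      obtain ⟨h1, h2⟩ := pat_cond h'
      obtain ⟨h3, h4⟩ := pat_cond h1
      generalize byt c 1 + 256 * byt c 2 = r at h3 h4
      refine ⟨fun hh => ?_, hclose h2⟩
      have h5 := hB.2.2.2.2.2.2.2.2 n el st _ hh (Nat.eq_of_beq_eq_true h4)
      exact hrefs _ (pat_getL refs r (Nat.le_of_ble_eq_true h3)) n el F hg (fun h => absurd h (by simp)) h5
    · -- no arrow, derivation
      have h' : cond (cond m2 (cond (cond (Nat.ble (byt c 1) 49) (Nat.ble (byt c 2) 4) false)
          (rowFull2 st (byt c 1) (byt c 2)) false) false)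
          (k (drp c 3) items (addM sf st (byt c 1)) stk) false = true := h
      obtain ⟨h1, h2⟩ := pat_cond h'
      obtain ⟨hm2, h3⟩ := pat_cond h1
      obtain ⟨h4, h5⟩ := pat_cond h3
      obtain ⟨h6, h7⟩ := pat_cond h4
      have hi : byt c 1 < 50 := Nat.lt_succ_of_le (Nat.le_of_ble_eq_true h6)
      have hq : byt c 2 < 5 := Nat.lt_succ_of_le (Nat.le_of_ble_eq_true h7)
      obtain ⟨h8, h9⟩ := ih _ _ _ _ h2
      refine ⟨fun hh => ?_, h9⟩
      generalize byt c 1 = i at *
      generalize byt c 2 = d at *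
      have hi' : i < 150 := by omega
      have hbits := hB.2.2.1 st i d hi' h5
      refine h8 (hB.2.2.2.2.1 sf n el F st _ hg hh hi' ?_)
      by_cases hda : d = i / 5 % 5
      · obtain ⟨c, hc, hca, hcb, hm⟩ := pat_row hM hg hh i hi' (fun c => c = i % 5)
          (fun c hc hca hcb => hbits c hc hca hcb (by rw [hda]; exact hca))
        rw [hcb] at hm
        exact hm
      · have hx : i / 25 < 2 := by omega
        have ha : i / 5 % 5 < 5 := by omega
        have hno := hna hm2 (i / 25) hx (i / 5 % 5) ha d hq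
        by_contra hmem
        apply hno
        refine ⟨fun h => hda h.symm, fun c hc hca hcd hm => ?_⟩
        by_cases hcb : c = i % 5
        · rw [hcb] at hm
          exact hmem hm
        · exact pat_non hh i c hi' hc (hbits c hc hca hcb hcd) hm
    · -- no arrow, contradiction
      have h' : cond (cond m2 (cond (Nat.ble (byt c 1) 49) (rowFull st (byt c 1)) false) false)
          (close k items stk) false = true := h
      obtain ⟨h1, h2⟩ := pat_cond h'
      obtain ⟨hm2, h3⟩ := pat_cond h1
      obtain ⟨h4, h5⟩ := pat_cond h3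
      have hi : byt c 1 < 50 := Nat.lt_succ_of_le (Nat.le_of_ble_eq_true h4)
      refine ⟨fun hh => ?_, hclose h2⟩
      generalize byt c 1 = i at *
      have hi' : i < 150 := by omega
      have h6 := pat_full hM hB hg hh i hi' h5
      refine hna hm2 (i / 25) (by omega) (i / 5 % 5) (by omega) (i % 5) (by omega) ⟨h6.1, fun c hc hca hcb => ?_⟩
      exact pat_non hh i c hi' hc (hB.2.1 st i hi' h5 c hc hca hcb)

/-- **Pat.** Soundness of the checker. -/
theorem pat_sound (hM : MemAStmt) (hI : IntStmt) (hB : BitStmt) (hP : PrcStmt) (hR : RefStmt) : PatStmt := by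
  intro sf m2 refs items st h hrefs n el F hg hna hh
  rcases items with _ | ⟨c, items⟩
  · exact absurd h (by simp [check])
  · have h' : pat (dxT sf) sf m2 refs 1000000 c items st List.nil = true := h
    exact (pat_main hM hI hB hP hR hrefs hg hna 1000000 c items st List.nil h').1 hh

end Pool.Agent.MP_62a449_al.Five
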