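import Mathlib
import Pool.Agent.Lib.MP_62a449_al.Five.Chk

/-!
The meaning of the states and certificates of `Five/Chk.lean`.
-/

namespace Pool.Agent.MP_62a449_al.Five

/-- `z` belongs to the semigroup generated by the integers `n 0, …, n 4`. -/
def Mem (n : ℕ → ℤ) (z : ℤ) : Prop :=
  ∃ y : ℕ → ℤ, (∀ j, 0 ≤ y j) ∧ z = ∑ j ∈ Finset.range 5, y j * n j

/-- The row `a` of the element `x` allows only `b`: `el x + n a` is a multiple of `n b`. -/
def Arrow (n el : ℕ → ℤ) (x a b : ℕ) : Prop :=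
  a ≠ b ∧ ∀ c < 5, c ≠ a → c ≠ b → ¬ Mem n (el x + n a - n c)

open Classical in
/-- number of `c ≠ a, b` with `el x + n a - n c` and `F - el x + n c - n a` outside the semigroup -/
noncomputable def ecount (n el : ℕ → ℤ) (F : ℤ) (x a b : ℕ) : ℕ :=
  ((Finset.range 5).filter (fun c => c ≠ a ∧ c ≠ b ∧ ¬ Mem n (el x + n a - n c) ∧
    ¬ Mem n (F - el x + n c - n a))).card

open Classical in
/-- the price of the element `x`: the sum of `12 / (1 + ecount)` over its arrows -/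
noncomputable def price (n el : ℕ → ℤ) (F : ℤ) (x : ℕ) : ℕ :=
  ∑ a ∈ Finset.range 5, ∑ b ∈ Finset.range 5,
    if Arrow n el x a b then 12 / (1 + ecount n el F x a b) else 0

/-- The situation of three pairs `el 0 + el 1 = el 2 + el 3 = el 4 + el 5 = F` (`sf = false`), or of
`el 0 = el 1 = F / 2` and two pairs (`sf = true`). -/
structure Good (sf : Bool) (n el : ℕ → ℤ) (F : ℤ) : Prop where
  F_not : ¬ Mem n F
  el_not : ∀ x < 6, ¬ Mem n (el x)
  el_add : ∀ x < 6, ∀ a < 5, Mem n (el x + n a)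
  el_dual : ∀ x < 6, el (dlx sf x) = F - el x
  self_eq : sf = true → el 1 = el 0
  diff : ∀ x < 6, ∀ y < 6, x ≠ y → ¬ (sf = true ∧ x ≤ 1 ∧ y ≤ 1) → ¬ Mem n (el x - el y)
  gen : ∀ a < 5, ∀ b < 5, a ≠ b → ¬ Mem n (n a - n b)
  wt : ∀ wi, ∑ x ∈ Finset.range 6, byt (wtT sf wi) x * price n el F x ≤ 60

/-- the value of the index `i = 25 x + 5 a + b`: `el x + n a - n b` -/
def MEMv (n el : ℕ → ℤ) (i : ℕ) : ℤ := el (i / 25) + n (i / 5 % 5) - n (i % 5)

/-- the meaning of the bits of a state -/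
def Holds (n el : ℕ → ℤ) (st : ℕ) : Prop :=
  (∀ i < 150, st.testBit i = true → Mem n (MEMv n el i)) ∧
  (∀ i < 150, st.testBit (150 + i) = true → ¬ Mem n (MEMv n el i)) ∧
  (∀ i < 150, ∀ q < 5, st.testBit (300 + (5 * i + q)) = true → Mem n (MEMv n el i - n q)) ∧
  (∀ i < 150, ∀ q < 5, st.testBit (1050 + (5 * i + q)) = true → ¬ Mem n (MEMv n el i - n q))

/-- no arrows at the elements 0 and 1 -/
def NoArrow (n el : ℕ → ℤ) : Prop := ∀ x < 2, ∀ a < 5, ∀ b < 5, ¬ Arrow n el x a b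

/-- the state `st` is contradictory -/
def Claim (sf m2 : Bool) (st : ℕ) : Prop :=
  ∀ (n el : ℕ → ℤ) (F : ℤ), Good sf n el F → (m2 = true → NoArrow n el) → Holds n el st → False

/-! ### Forms -/

/-- the number with digits `g p`, `p < 244`, in base `65536` -/
def encZ (g : ℕ → ℤ) : ℤ := ∑ p ∈ Finset.range 244, g p * 65536 ^ p

/-- `X` is the code of the form `g`, whose digits are bounded by `b` -/
def Rep (X : ℕ) (g : ℕ → ℤ) (b : ℤ) : Prop :=
  (X : ℤ) = encZ (fun p => g p + 32768) ∧ ∀ p < 244, |g p| ≤ b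

/-- value of the coordinate `j` of the form `g`; `Y i j` is the variable of slot `i + 1` -/
def cval (Y : ℕ → ℕ → ℤ) (g : ℕ → ℤ) (j : ℕ) : ℤ :=
  g (48 * j) + ∑ i ∈ Finset.range 47, g (48 * j + (i + 1)) * Y i j

/-- the values of the four degree digits -/
def env (sf : Bool) (el : ℕ → ℤ) (F : ℤ) (q : ℕ) : ℤ :=
  cond sf (if q = 0 then el 0 else if q = 1 then el 2 else if q = 2 then el 4 else 0)
    (if q = 0 then F else if q = 1 then el 0 else if q = 2 then el 2 else el 4)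

/-- the linear functional that vanishes on vectors -/
def lin (n v : ℕ → ℤ) (Y : ℕ → ℕ → ℤ) (g : ℕ → ℤ) : ℤ :=
  ∑ j ∈ Finset.range 5, cval Y g j * n j - ∑ q ∈ Finset.range 4, g (240 + q) * v q

/-- sum of the coordinate values -/
def psi (Y : ℕ → ℕ → ℤ) (g : ℕ → ℤ) : ℤ := ∑ j ∈ Finset.range 5, cval Y g j

/-- legal table entry (vector) -/
def VOk (n v : ℕ → ℤ) (Y : ℕ → ℕ → ℤ) (X : ℕ) : Prop := ∃ g, Rep X g 33 ∧ lin n v Y g = 0
/-- legal fact: its value is not in the semigroup -/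
def FOk (n v : ℕ → ℤ) (Y : ℕ → ℕ → ℤ) (X : ℕ) : Prop := ∃ g, Rep X g 4 ∧ ¬ Mem n (lin n v Y g)
/-- true constraint -/
def COk (Y : ℕ → ℕ → ℤ) (X : ℕ) : Prop := ∃ g, Rep X g 210 ∧ psi Y g ≤ 0

/-- all entries of the table are vectors -/
def TOk (n v : ℕ → ℤ) (Y : ℕ → ℕ → ℤ) (tbl nt : ℕ) : Prop :=
  1 ≤ nt ∧ tbl < 2 ^ (4096 * nt) ∧ ∀ r < nt, VOk n v Y (getT tbl r)
/-- all constraints are true -/
def Ctx (Y : ℕ → ℕ → ℤ) (cb nc : ℕ) : Prop := ∀ q < nc, COk Y (getT cb q)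

/-- the form `W` is well formed and one of its coordinates is negative -/
def WOk (Y : ℕ → ℕ → ℤ) (W : ℕ) : Prop := ∃ g, Rep W g 209 ∧ ∃ j < 5, cval Y g j ≤ -1

/-- well formed stack -/
def SWf (Y : ℕ → ℕ → ℤ) : Stk → Prop
  | Stk.nil => True
  | Stk.cons W _ cb nc s => WOk Y W ∧ 1 ≤ nc ∧ cb < 2 ^ (4096 * nc) ∧ SWf Y s

/-- what remains to be proved for the frames of the stack -/
def SGoal (Y : ℕ → ℕ → ℤ) : Stk → Prop
  | Stk.nil => True
  | Stk.cons W m cb nc s => (∀ g, Rep W g 209 → ∀ j < 5, m.testBit j = false → Ctx Y cb nc →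
      cval Y g j ≤ -1 → False) ∧ SGoal Y s

end Pool.Agent.MP_62a449_al.Five
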